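import Mathlib
import Pool.Agent.AWP.Targets

set_option autoImplicit false

/-!
# Fixed finite field, dimension to infinity: definitions and targets

`q ≥ 2` is fixed. Monic integral polynomials of degree `g` are written in the Dickson basis:
`h = D_g + ∑ a_j D_j`. `P q g` is the set of the coefficient vectors of the polynomials all of
whose roots are real, of absolute value at most `2 √q`.
-/

namespace Pool.Agent.FQW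

open Polynomial Finset
open Pool.Agent.CMT (QBar)
open scoped BigOperators

/-! ## Definitions -/

/-- the monic Dickson polynomials `1, D_1, D_2, ...`, `D_j(x + q / x) = x ^ j + (q / x) ^ j` -/
noncomputable def dk (q j : ℕ) : ℤ[X] := if j = 0 then 1 else dickson 1 (q : ℤ) j

/-- the monic polynomial `D_g + ∑ a_j D_j` -/
noncomputable def HZ (q : ℕ) {g : ℕ} (a : Fin g → ℤ) : ℤ[X] :=
  dk q g + ∑ j : Fin g, C (a j) * dk q j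

/-- the same with real coefficients -/
noncomputable def HR (q : ℕ) {g : ℕ} (u : Fin g → ℝ) : ℝ[X] :=
  (dk q g).map (Int.castRingHom ℝ) + ∑ j : Fin g, C (u j) * (dk q j).map (Int.castRingHom ℝ)

/-- the value of the real polynomial with the integral coefficients `a` -/
noncomputable def ev (q : ℕ) {g : ℕ} (a : Fin g → ℤ) (x : ℝ) : ℝ :=
  ((HZ q a).map (Int.castRingHom ℝ)).eval x

/-- `τ` is the increasing list of the roots, and they lie in `[-2 √q, 2 √q]` -/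
def Roots (q : ℕ) {g : ℕ} (a : Fin g → ℤ) (τ : Fin g → ℝ) : Prop :=
  Monotone τ ∧ (∀ i, |τ i| ≤ 2 * √(q : ℝ)) ∧
    (HZ q a).map (Int.castRingHom ℝ) = ∏ i, (X - C (τ i))

/-- the real Weil polynomials of degree `g` for `q` -/
def P (q g : ℕ) : Set (Fin g → ℤ) := {a | ∃ τ : Fin g → ℝ, Roots q a τ}

/-- the number of close pairs which is used -/
noncomputable def KN (g : ℕ) : ℕ := ⌈10 * Real.log g ^ 21⌉₊

/-- the coefficients of index at least `k` -/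
def topPart (k : ℕ) {g : ℕ} (a : Fin g → ℤ) : Fin g → ℤ := fun i => if (i : ℕ) < k then 0 else a i

/-- the absolute value of the Vandermonde determinant -/
noncomputable def vdm {k : ℕ} (x : Fin k → ℝ) : ℝ := ∏ i, ∏ j ∈ Ioi i, |x j - x i|

/-- within `exp (-l)` of every point of the interval the polynomial with the roots `τ` has a value
of size at least `√q ^ g exp (-D)` -/
def TL (q : ℕ) {g : ℕ} (τ : Fin g → ℝ) (l D : ℝ) : Prop :=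
  ∀ x : ℝ, |x| ≤ 2 * √(q : ℝ) → ∃ y : ℝ, |y| ≤ 2 * √(q : ℝ) ∧ |y - x| ≤ Real.exp (-l) ∧
    √(q : ℝ) ^ g * Real.exp (-D) ≤ ∏ i, |y - τ i|

/-- the exponent of the loss at the scale `exp (-l)` -/
noncomputable def Dl (g : ℕ) (l : ℝ) : ℝ := 4 * √(g * l * Real.log g)

/-- the cluster scale is `exp (-ell g)` -/
noncomputable def ell (g : ℕ) : ℝ := g / Real.log g ^ 20

/-- the bound for the values at the nodes near `K` disjoint close pairs -/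
noncomputable def MP (q g : ℕ) {K : ℕ} (x : Fin K → ℝ) (m : Fin K) : ℝ :=
  2 * √(q : ℝ) ^ g * Real.exp ((g : ℝ) ^ (4 / 5 : ℝ)) * (g : ℝ) ^ (2 * K) *
    ((K + 3) * Real.exp (-ell g)) ^ 2 * ∏ m' ∈ univ.erase m, ((K + 4) * |x m - x m'|) ^ 2

/-- the number of gaps smaller than `r` -/
noncomputable def npairs {g : ℕ} (τ : Fin g → ℝ) (r : ℝ) : ℕ :=
  (univ.filter fun i : Fin g => ∃ h : (i : ℕ) + 1 < g, τ ⟨(i : ℕ) + 1, h⟩ - τ i < r).card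

/-- typical root vectors -/
structure Typ (q : ℕ) {g : ℕ} (τ : Fin g → ℝ) : Prop where
  t0 : TL q τ (10 * Real.log g) (Dl g (10 * Real.log g))
  t1 : TL q τ (ell g + 4 * Real.log g) (Dl g (ell g + 4 * Real.log g))
  t2 : TL q τ (g / Real.log g ^ 9) (Dl g (g / Real.log g ^ 9))
  tp : (npairs τ (Real.exp (-ell g)) : ℝ) < Real.log g ^ 22 / 8

/-- cluster scale -/
noncomputable def rho (g : ℕ) : ℝ := Real.exp (-ell g)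

/-- mesh for the isolated roots -/
noncomputable def eps (g : ℕ) : ℝ := rho g / g ^ 10

/-- mesh for the roots in clusters -/
noncomputable def epc (g : ℕ) : ℝ := Real.exp (-(g / Real.log g ^ 9))

/-- the constant for the values at the nodes of clusters -/
noncomputable def Cc (g : ℕ) : ℝ := Real.exp (Real.log g ^ 24)

/-- the roots in clusters: another root or an end point of the interval is at distance `< r` -/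
noncomputable def clus (q : ℕ) {g : ℕ} (τ : Fin g → ℝ) (r : ℝ) : Finset (Fin g) :=
  univ.filter fun i => (∃ j, j ≠ i ∧ |τ i - τ j| < r) ∨ 2 * √(q : ℝ) - r < |τ i|

/-- separation of the nodes -/
structure Nodes (q : ℕ) {g : ℕ} (r c : ℝ) (T : Finset (Fin g)) (x : Fin g → ℝ) : Prop where
  mono : StrictMono x
  far : ∀ k, k ∉ T → ∀ j, j ≠ k → r / 2 ≤ |x k - x j|
  near : ∀ i ∈ T, ∀ j ∈ T, i ≠ j → c ≤ |x i - x j|
  out : ∀ k, k ∉ T → |x k| ≤ 2 * √(q : ℝ) - r / 2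
  inn : ∀ i ∈ T, |x i| ≤ 2 * √(q : ℝ) - c

/-- the nodes are close to the roots -/
structure Close (q : ℕ) {g : ℕ} (e c : ℝ) (T : Finset (Fin g)) (τ x : Fin g → ℝ) : Prop where
  cl : ∀ k, k ∉ T → |x k - τ k| ≤ (1 / 2 - 1 / (g : ℝ) ^ 2) * e
  cc : ∀ i ∈ T, |x i - τ i| ≤ 4 * √(q : ℝ) * T.card * c

/-- `|ω'(x_k)|`, `ω = ∏ (X - x_j)` -/
noncomputable def Wd {g : ℕ} (x : Fin g → ℝ) (k : Fin g) : ℝ := ∏ j ∈ univ.erase k, |x k - x j|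

/-- the size of the value at the node `x_k` -/
noncomputable def Mn {g : ℕ} (e c : ℝ) (T : Finset (Fin g)) (x : Fin g → ℝ) (k : Fin g) : ℝ :=
  (if k ∈ T then c else e / 2) * Wd x k

/-- the full coefficient vector: `u` below `n`, `b` from `n` on -/
def ext {g : ℕ} (n : ℕ) (b : Fin g → ℤ) (u : Fin n → ℝ) : Fin g → ℝ :=
  fun i => if h : (i : ℕ) < n then u ⟨i, h⟩ else (b i : ℝ)

/-- real coefficient vectors with the top part `b` whose polynomials are small at the nodes -/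
def Slab (q : ℕ) {g : ℕ} (n : ℕ) (b : Fin g → ℤ) (T : Finset (Fin g)) (x M : Fin g → ℝ)
    (α β : ℝ) : Set (Fin n → ℝ) :=
  {u | (∀ k, k ∉ T → |(HR q (ext n b u)).eval (x k)| ≤ α * M k) ∧
    ∀ i ∈ T, |(HR q (ext n b u)).eval (x i)| ≤ β * M i}

/-- the box of `a` -/
def idx (n : ℕ) {g : ℕ} (B : Fin n → ℕ) (a : Fin g → ℤ) : Fin g → ℤ :=
  fun i => if h : (i : ℕ) < n then a i / (B ⟨i, h⟩ : ℤ) else a i

/-- `α` is a root of the Weil polynomial -/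
def IsRt (q : ℕ) {g : ℕ} (a : Fin g → ℤ) (α : QBar) : Prop :=
  α ≠ 0 ∧ aeval (α + q / α) (HZ q a) = 0

/-- a monic quadratic polynomial whose Weil polynomial is irreducible -/
def Inert (q : ℕ) {k : Type} [Field k] (v : k[X]) : Prop :=
  v.Monic ∧ v.natDegree = 2 ∧
    Irreducible ((X ^ 2 + C (q : k)) ^ 2 + C (v.coeff 1) * X * (X ^ 2 + C (q : k)) +
      C (v.coeff 0) * X ^ 2)

/-- the pattern of the factorisation modulo a prime -/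
def Pat (q p : ℕ) {k : Type} [Field k] (h : k[X]) : Prop :=
  (∃ u : k[X], Irreducible u ∧ u.natDegree = p ∧ u ∣ h) ∧
    ∃ v : k[X], Inert q v ∧ v ∣ h ∧ ¬ v ^ 2 ∣ h

/-- the automorphism `τ` is a cycle of length `p` on the roots `ρ k` and on the roots `q / ρ k`, and
fixes all other roots -/
def Cyc (q p : ℕ) {g : ℕ} (a : Fin g → ℤ) (τ : QBar ≃+* QBar) (ρ : ZMod p → QBar) : Prop :=
  (∀ k, IsRt q a (ρ k)) ∧ Function.Injective ρ ∧ (∀ k l, ρ k * ρ l ≠ q) ∧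
    (∀ k, τ (ρ k) = ρ (k + 1)) ∧
    ∀ α, IsRt q a α → (∀ k, α ≠ ρ k ∧ α * ρ k ≠ q) → τ α = α

/-- the square of some automorphism maps some root to its conjugate -/
def Inv (q : ℕ) {g : ℕ} (a : Fin g → ℤ) : Prop :=
  ∃ (σ : QBar ≃+* QBar) (α : QBar), IsRt q a α ∧ σ (σ α) * α = q ∧ α ^ 2 ≠ q

/-- the automorphisms act transitively on the roots -/
def Trans (q : ℕ) {g : ℕ} (a : Fin g → ℤ) : Prop :=
  ∀ α β : QBar, IsRt q a α → IsRt q a β → ∃ σ : QBar ≃+* QBar, σ α = β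

/-- antisymmetric relations -/
def AR (q : ℕ) {g : ℕ} (a : Fin g → ℤ) (e : QBar → ℤ) : Prop :=
  (∀ α, IsRt q a α → e (q / α) = -e α) ∧
    ∃ (R : Finset QBar) (N : ℕ), (∀ α, α ∈ R ↔ IsRt q a α) ∧ 0 < N ∧ (∏ α ∈ R, α ^ e α) ^ N = 1

/-- the only multiplicative relations between the roots are the trivial ones -/
def Indep (q : ℕ) {g : ℕ} (a : Fin g → ℤ) : Prop :=
  ∀ (R : Finset QBar), (∀ α, α ∈ R ↔ IsRt q a α) → ∀ e : QBar → ℤ,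
    (∃ N : ℕ, 0 < N ∧ ∃ s : ℤ, (∏ α ∈ R, α ^ e α) ^ N = (q : QBar) ^ s) →
    ∀ α ∈ R, e α = e (q / α)

/-! ### The statement of the theorem: one real Weil polynomial, given by its coefficients -/

open Pool.Agent.AWP (poly IsRealWeil weil Root)

/-- Tate weights of codimension `i` on the `n`-th power: sets of `2 i` eigenlines such that the
product of the eigenvalues is `q ^ i` times a root of unity -/
def TateWeight {g : ℕ} (q : ℕ) (b : Fin g → ℤ) {n : ℕ} (i : ℕ)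
    (Δ : Finset (Root q b × Fin n)) : Prop :=
  Δ.card = 2 * i ∧ ∃ N : ℕ, 0 < N ∧ (∏ x ∈ Δ, x.1.1) ^ N = (q : QBar) ^ (i * N)

/-- disjoint unions of Tate weights of codimension one -/
def Divisorial {g : ℕ} (q : ℕ) (b : Fin g → ℤ) {n : ℕ} (Δ : Finset (Root q b × Fin n)) : Prop :=
  ∃ D : Finset (Finset (Root q b × Fin n)),
    (D : Set (Finset (Root q b × Fin n))).PairwiseDisjoint id ∧
    (∀ x, x ∈ Δ ↔ ∃ B ∈ D, x ∈ B) ∧ ∀ B ∈ D, TateWeight q b 1 B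

/-- the Weil polynomial is irreducible and all Tate weights, of all codimensions on all powers, are
disjoint unions of Tate weights of codimension one -/
def Good {g : ℕ} (q : ℕ) (b : Fin g → ℤ) : Prop :=
  Irreducible (weil q b) ∧
    ∀ (n i : ℕ) (Δ : Finset (Root q b × Fin n)), TateWeight q b i Δ → Divisorial q b Δ

/-! ## Targets A: counting -/

/-- FINP -/
def T_FINP : Prop := ∀ q g : ℕ, (P q g).Finite

/-- LOWA: polynomials near `D_g` -/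
def T_LOWA : Prop := ∀ q g : ℕ, 2 ≤ q → 1 ≤ g → ∀ a : Fin g → ℤ,
  (∀ j : Fin g, |(a j : ℝ)| ≤ √(q : ℝ) ^ (g - (j : ℕ)) / (g + 1)) → a ∈ P q g

/-- LOWER: many real Weil polynomials -/
def T_LOWER : Prop := ∀ q g : ℕ, 2 ≤ q → 1 ≤ g →
  √(q : ℝ) ^ (g * (g + 1) / 2) ≤ ((g : ℝ) + 1) ^ g * ((P q g).ncard : ℕ)

/-- STEP: the upper coefficients restrict the next one -/
def T_STEP : Prop := ∀ q g : ℕ, 2 ≤ q → ∀ a ∈ P q g, ∀ b ∈ P q g, ∀ i : Fin g,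
  (∀ k, i < k → a k = b k) →
    ((g : ℝ) - (i : ℕ)) * |(a i : ℝ) - b i| ≤ 4 * g * √(q : ℝ) ^ (g - (i : ℕ))

/-- TOP: few top parts -/
def T_TOP : Prop := ∀ q g k : ℕ, 2 ≤ q → k ≤ g →
  (((topPart k '' P q g).ncard : ℕ) : ℝ) ≤
    Real.exp (5 * g) * √(q : ℝ) ^ ((g - k) * (g - k + 1) / 2)

/-- LAT: integral points in a parallelepiped -/
def T_LAT : Prop := ∀ (k : ℕ) (A : Matrix (Fin k) (Fin k) ℝ) (v N : Fin k → ℝ),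
  (∀ i, ∑ j, |A i j| ≤ 2 * N i) → ∀ S : Finset (Fin k → ℤ),
  (∀ a ∈ S, ∀ i, |v i + ∑ j, A i j * a j| ≤ N i) →
    (S.card : ℝ) * |A.det| ≤ 4 ^ k * ∏ i, N i

/-- DET: the determinant of the values of the basis -/
def T_DET : Prop := ∀ (q k : ℕ) (x : Fin k → ℝ),
  |(Matrix.of fun i j : Fin k =>
    ((dk q j).map (Int.castRingHom ℝ)).eval (x i)).det| = vdm x

/-- STAR: interpolation bound for the number of polynomials with small values at `k` nodes -/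
def T_STAR : Prop := ∀ q g k : ℕ, 2 ≤ q → k ≤ g → ∀ x : Fin k → ℝ, Function.Injective x →
  (∀ i, |x i| ≤ 3 * √(q : ℝ)) → ∀ M : Fin k → ℝ, (∀ i, (4 * √(q : ℝ)) ^ k ≤ M i) →
    (({a ∈ P q g | ∀ i, |ev q a (x i)| ≤ M i}.ncard : ℕ) : ℝ) ≤
      Real.exp (5 * g) * √(q : ℝ) ^ ((g - k) * (g - k + 1) / 2) * 4 ^ k * (∏ i, M i) / vdm x

/-- TLA: the numerical inequality for TLOW -/
def T_TLA : Prop := ∀ q : ℕ, 2 ≤ q → ∃ g₀ : ℕ, ∀ g : ℕ, g₀ ≤ g → ∀ l : ℝ,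
  10 * Real.log g ≤ l → l ≤ g / Real.log g ^ 2 → ∃ k : ℕ, 1 ≤ k ∧ k ≤ g ∧
    (4 * √(q : ℝ)) ^ k ≤ √(q : ℝ) ^ g * Real.exp (-Dl g l) ∧
    40 * √(q : ℝ) * Real.exp l * (Real.exp (5 * g) *
      √(q : ℝ) ^ ((g - k) * (g - k + 1) / 2) * 4 ^ k *
      (√(q : ℝ) ^ g * Real.exp (-Dl g l)) ^ k / (Real.exp (-l) / (8 * k)) ^ (k * (k - 1) / 2)) *
      ((g : ℝ) + 1) ^ g ≤ Real.exp (-(g : ℝ)) * √(q : ℝ) ^ (g * (g + 1) / 2)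

/-- TLOW: the lower bound at the scale `exp (-l)` holds for almost all -/
def T_TLOW : Prop := ∀ q : ℕ, 2 ≤ q → ∃ g₀ : ℕ, ∀ g : ℕ, g₀ ≤ g → ∀ l : ℝ,
  10 * Real.log g ≤ l → l ≤ g / Real.log g ^ 2 →
    (({a ∈ P q g | ∃ τ, Roots q a τ ∧ ¬ TL q τ l (Dl g l)}.ncard : ℕ) : ℝ) ≤
      Real.exp (-(g : ℝ)) * ((P q g).ncard : ℕ)

/-- TUA: a lower bound on a circle; `‖1 - (τ i / √q) u + u ^ 2‖` is the distance of `√q (u + 1 / u)`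
to `τ i` up to the factor `‖u‖ / √q` -/
def T_TUA : Prop := ∀ q : ℕ, 2 ≤ q → ∃ g₀ : ℕ, ∀ g : ℕ, g₀ ≤ g → ∀ τ : Fin g → ℝ,
  (∀ i, |τ i| ≤ 2 * √(q : ℝ)) → ∀ D : ℝ, TL q τ (10 * Real.log g) D →
    ∀ u : ℂ, ‖u‖ = 1 / (1 + 1 / (g : ℝ) ^ 2) →
      Real.exp (-D - 1) ≤ ‖∏ i, (1 - ((τ i / √(q : ℝ) : ℝ) : ℂ) * u + u ^ 2)‖

/-- TUB: Borel-Caratheodory -/
def T_TUB : Prop := ∀ (g : ℕ) (c : Fin g → ℝ), (∀ i, |c i| ≤ 2) → ∀ R A : ℝ, 0 < R → R < 1 →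
  0 < A → (∀ u : ℂ, ‖u‖ = R → Real.exp (-A) ≤ ‖∏ i, (1 - (c i : ℂ) * u + u ^ 2)‖) →
  ∀ u : ℂ, ‖u‖ < R →
    ‖∏ i, (1 - (c i : ℂ) * u + u ^ 2)‖ ≤ Real.exp (2 * ‖u‖ * A / (R - ‖u‖))

/-- TUP: the lower bound at the scale `g ^ (-10)` implies an upper bound -/
def T_TUP : Prop := ∀ q : ℕ, 2 ≤ q → ∃ g₀ : ℕ, ∀ g : ℕ, g₀ ≤ g → ∀ τ : Fin g → ℝ,
  (∀ i, |τ i| ≤ 2 * √(q : ℝ)) → TL q τ (10 * Real.log g) (Dl g (10 * Real.log g)) →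
    ∀ x : ℝ, |x| ≤ 2 * √(q : ℝ) →
      ∏ i, √((x - τ i) ^ 2 + 1 / (g : ℝ) ^ 2) ≤
        √(q : ℝ) ^ g * Real.exp ((g : ℝ) ^ (4 / 5 : ℝ))

/-- PAA: nodes for close pairs -/
def T_PAA : Prop := ∀ q : ℕ, 2 ≤ q → ∃ g₀ : ℕ, ∀ g : ℕ, g₀ ≤ g → ∀ τ : Fin g → ℝ,
  Monotone τ → (∀ i, |τ i| ≤ 2 * √(q : ℝ)) →
  TL q τ (10 * Real.log g) (Dl g (10 * Real.log g)) → TL q τ (ell g) (Dl g (ell g)) →
  Real.log g ^ 22 / 8 ≤ (npairs τ (Real.exp (-ell g)) : ℝ) →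
    ∃ z : Fin (KN g) → ℤ, StrictMono z ∧ (∀ m, |Real.exp (-ell g) * z m| ≤ 3 * √(q : ℝ)) ∧
      (∀ m, (4 * √(q : ℝ)) ^ KN g ≤ MP q g (fun m => Real.exp (-ell g) * z m) m) ∧
      ∀ m, ∏ i, |Real.exp (-ell g) * z m - τ i| ≤ MP q g (fun m => Real.exp (-ell g) * z m) m

/-- PAB: the numerical inequality for PAIRS -/
def T_PAB : Prop := ∀ q : ℕ, 2 ≤ q → ∃ g₀ : ℕ, ∀ g : ℕ, g₀ ≤ g → KN g ≤ g ∧
  ∀ x : Fin (KN g) → ℝ, Function.Injective x → (∀ m, |x m| ≤ 3 * √(q : ℝ)) →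
    (7 * √(q : ℝ) * Real.exp (ell g)) ^ KN g * (Real.exp (5 * g) *
      √(q : ℝ) ^ ((g - KN g) * (g - KN g + 1) / 2) * 4 ^ KN g * (∏ m, MP q g x m) / vdm x) *
      ((g : ℝ) + 1) ^ g ≤ Real.exp (-(g : ℝ)) * √(q : ℝ) ^ (g * (g + 1) / 2)

/-- PAIRS: few small gaps -/
def T_PAIRS : Prop := ∀ q : ℕ, 2 ≤ q → ∃ g₀ : ℕ, ∀ g : ℕ, g₀ ≤ g →
  (({a ∈ P q g | ∃ τ, Roots q a τ ∧ TL q τ (10 * Real.log g) (Dl g (10 * Real.log g)) ∧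
      TL q τ (ell g) (Dl g (ell g)) ∧
      Real.log g ^ 22 / 8 ≤ (npairs τ (Real.exp (-ell g)) : ℝ)}.ncard : ℕ) : ℝ) ≤
    Real.exp (-(g : ℝ)) * ((P q g).ncard : ℕ)

/-- TYP: almost all real Weil polynomials are typical -/
def T_TYP : Prop := ∀ q : ℕ, 2 ≤ q → ∃ g₀ : ℕ, ∀ g : ℕ, g₀ ≤ g →
  (({a ∈ P q g | ∃ τ, Roots q a τ ∧ ¬ Typ q τ}.ncard : ℕ) : ℝ) ≤
    5 * Real.exp (-(g : ℝ)) * ((P q g).ncard : ℕ)

/-! ## Targets E: the comparison of boxes with real Weil polynomials -/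

/-- CLUS -/
def T_CLUS : Prop := ∀ (q g : ℕ) (τ : Fin g → ℝ) (r : ℝ), Monotone τ →
  (∀ i, |τ i| ≤ 2 * √(q : ℝ)) → 0 < r → (clus q τ r).card ≤ 2 * npairs τ r + 2

/-- E2A: the sizes at the nodes are large -/
def T_E2A : Prop := ∀ q : ℕ, 2 ≤ q → ∀ γ : ℝ, 0 < γ → ∃ g₀ : ℕ, ∀ g : ℕ, g₀ ≤ g →
  ∀ τ x : Fin g → ℝ, Monotone τ → (∀ i, |τ i| ≤ 2 * √(q : ℝ)) → Typ q τ →
    Nodes q (rho g) (epc g) (clus q τ (rho g)) x →
    Close q (eps g) (epc g) (clus q τ (rho g)) τ x →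
    ∀ k, √(q : ℝ) ^ g * Real.exp (-(γ * g)) ≤ Mn (eps g) (epc g) (clus q τ (rho g)) x k

/-- E2B: the values at the nodes -/
def T_E2B : Prop := ∀ q : ℕ, 2 ≤ q → ∃ g₀ : ℕ, ∀ g : ℕ, g₀ ≤ g →
  ∀ τ x : Fin g → ℝ, Monotone τ → (∀ i, |τ i| ≤ 2 * √(q : ℝ)) → Typ q τ →
    Nodes q (rho g) (epc g) (clus q τ (rho g)) x →
    Close q (eps g) (epc g) (clus q τ (rho g)) τ x →
    (∀ k, k ∉ clus q τ (rho g) → ∏ j, |x k - τ j| ≤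
      (1 - 1 / (g : ℝ) ^ 2) * Mn (eps g) (epc g) (clus q τ (rho g)) x k) ∧
    ∀ i ∈ clus q τ (rho g), ∏ j, |x i - τ j| ≤
      Cc g / 2 * Mn (eps g) (epc g) (clus q τ (rho g)) x i

/-- E2C: the Lagrange polynomials of the nodes in clusters are harmless at the other nodes -/
def T_E2C : Prop := ∀ q : ℕ, 2 ≤ q → ∃ g₀ : ℕ, ∀ g : ℕ, g₀ ≤ g →
  ∀ τ x : Fin g → ℝ, Monotone τ → (∀ i, |τ i| ≤ 2 * √(q : ℝ)) → Typ q τ →
    Nodes q (rho g) (epc g) (clus q τ (rho g)) x →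
    Close q (eps g) (epc g) (clus q τ (rho g)) τ x →
    ∀ i ∈ clus q τ (rho g), ∀ k, k ∉ clus q τ (rho g) →
      Cc g * Mn (eps g) (epc g) (clus q τ (rho g)) x i *
        ∏ j ∈ (clus q τ (rho g)).erase i, (|x k - x j| / |x i - x j|) ≤
      Mn (eps g) (epc g) (clus q τ (rho g)) x k / (g : ℝ) ^ 8

/-- LAM: a determinant -/
def T_LAM : Prop := ∀ (n m : ℕ) (φ : Fin m → (Fin n → ℝ) →ₗ[ℝ] ℝ) (β : Fin m → Fin n → ℝ),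
  (∀ i j, φ i (β j) = if i = j then 1 else 0) → ∀ t : ℝ,
    LinearMap.det (LinearMap.id - (1 - t) • ∑ i, (φ i).smulRight (β i)) = t ^ m

/-- E4: the comparison of volumes -/
def T_E4 : Prop := ∀ (q g n : ℕ), 2 ≤ q → 20 ≤ g → n ≤ g → ∀ (b : Fin g → ℤ) (T : Finset (Fin g))
  (x M : Fin g → ℝ) (K : ℝ), Function.Injective x → T.card ≤ n → (∀ k, 0 < M k) → 1 ≤ K →
  (∀ i ∈ T, ∀ k, k ∉ T → K * M i * ∏ j ∈ T.erase i, (|x k - x j| / |x i - x j|) ≤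
    M k / (g : ℝ) ^ 8) →
  (Slab q n b T x M (1 - 1 / (g : ℝ) ^ 2) K).Nonempty →
  MeasureTheory.volume (Slab q n b T x M (1 + 1 / (g : ℝ) ^ 4) K) ≤
    ENNReal.ofReal (4 * (100 * g * K) ^ T.card) *
      MeasureTheory.volume (Slab q n b T x M (1 - 1 / (g : ℝ) ^ 4) (1 / (100 * g)))

/-- E5A: the sign at points where the Lagrange sum is small -/
def T_E5A : Prop := ∀ (g : ℕ) (x : Fin g → ℝ), Function.Injective x → ∀ h : ℝ[X], h.Monic →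
  h.natDegree = g → ∀ y : ℝ, (∀ j, y ≠ x j) →
    ∑ j, |h.eval (x j)| / (|y - x j| * Wd x j) < 1 → 0 < h.eval y * ∏ j, (y - x j)

/-- E5B: sign changes give the roots -/
def T_E5B : Prop := ∀ (g : ℕ) (x d : Fin g → ℝ), (∀ k, 0 < d k) →
  (∀ j k, j < k → x j + d j ≤ x k - d k) → ∀ h : ℝ[X], h.Monic → h.natDegree = g →
  (∀ k, 0 < h.eval (x k - d k) * ∏ j, (x k - d k - x j)) →
  (∀ k, 0 < h.eval (x k + d k) * ∏ j, (x k + d k - x j)) →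
    ∃ τ' : Fin g → ℝ, StrictMono τ' ∧ h = ∏ i, (X - C (τ' i)) ∧ ∀ k, |τ' k - x k| < d k

/-- E5: polynomials which are small at the nodes have one real root near each node -/
def T_E5 : Prop := ∀ (q g : ℕ), 2 ≤ q → 20 ≤ g → ∀ (r e c : ℝ) (T : Finset (Fin g))
  (x : Fin g → ℝ), 0 < c → c ≤ e → (g : ℝ) ^ 10 * e ≤ r → Nodes q r c T x →
  ∀ h : ℝ[X], h.Monic → h.natDegree = g →
    (∀ k, k ∉ T → |h.eval (x k)| ≤ (1 - 1 / (g : ℝ) ^ 5) * Mn e c T x k) →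
    (∀ i ∈ T, |h.eval (x i)| ≤ 1 / (50 * g) * Mn e c T x i) →
    ∃ τ' : Fin g → ℝ, StrictMono τ' ∧ (∀ i, |τ' i| ≤ 2 * √(q : ℝ)) ∧
      h = ∏ i, (X - C (τ' i)) ∧ (∀ k, k ∉ T → |τ' k - x k| < e / 2) ∧
      ∀ i ∈ T, |τ' i - x i| < c / 2

/-- E6A: the boxes are contained in the slab -/
def T_E6A : Prop := ∀ (q g n : ℕ), 2 ≤ q → 20 ≤ g → n ≤ g → ∀ (B : Fin n → ℕ) (b : Fin g → ℤ)
  (T : Finset (Fin g)) (x M : Fin g → ℝ) (K : ℝ), (∀ j, 1 ≤ B j) → 1 ≤ K →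
  (∀ k, |x k| ≤ 2 * √(q : ℝ)) →
  (∀ k, (g : ℝ) ^ 6 * ∑ j : Fin n, 2 * (B j : ℝ) * √(q : ℝ) ^ (j : ℕ) ≤ M k) →
  ∀ R : Finset (Fin g → ℤ), (∀ a ∈ R, topPart n a = topPart n b) → Set.InjOn (idx n B) (R : Set (Fin g → ℤ)) →
  (∀ a ∈ R, ∀ k, k ∉ T → |ev q a (x k)| ≤ (1 - 1 / (g : ℝ) ^ 2) * M k) →
  (∀ a ∈ R, ∀ i ∈ T, |ev q a (x i)| ≤ K / 2 * M i) →
    (R.card : ENNReal) * ∏ j, (B j : ENNReal) ≤
      MeasureTheory.volume (Slab q n b T x M (1 + 1 / (g : ℝ) ^ 4) K)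

/-- E6B: the volume is at most the number of integral points nearby -/
def T_E6B : Prop := ∀ (q g n : ℕ), 2 ≤ q → 20 ≤ g → n ≤ g → ∀ (b : Fin g → ℤ)
  (T : Finset (Fin g)) (x M : Fin g → ℝ), (∀ k, |x k| ≤ 2 * √(q : ℝ)) →
  (∀ k, (g : ℝ) ^ 6 * ∑ j : Fin n, 2 * √(q : ℝ) ^ (j : ℕ) ≤ M k) →
  ∀ S : Set (Fin g → ℤ), S.Finite →
  (∀ a : Fin g → ℤ, topPart n a = topPart n b →
    (∀ k, k ∉ T → |ev q a (x k)| ≤ (1 - 1 / (g : ℝ) ^ 5) * M k) →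
    (∀ i ∈ T, |ev q a (x i)| ≤ 1 / (50 * g) * M i) → a ∈ S) →
    MeasureTheory.volume (Slab q n b T x M (1 - 1 / (g : ℝ) ^ 4) (1 / (100 * g))) ≤
      (S.ncard : ENNReal)

/-- E7: the nodes -/
def T_E7 : Prop := ∀ (q g : ℕ), 2 ≤ q → 20 ≤ g → ∀ (r e c θ : ℝ), 0 < c → 0 < e → r ≤ 1 →
  100 * g * √(q : ℝ) * c ≤ r → 4 * e ≤ r → ∀ τ : Fin g → ℝ, Monotone τ →
  (∀ i, |τ i| ≤ 2 * √(q : ℝ)) →
  (∀ k, ∃ m : ℤ, |τ k - (θ + m * e)| ≤ (1 / 2 - 1 / (g : ℝ) ^ 2) * e) →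
    ∃ x : Fin g → ℝ, Nodes q r c (clus q τ r) x ∧ Close q e c (clus q τ r) τ x ∧
      (∀ k, k ∉ clus q τ r → ∃ m : ℤ, x k = θ + m * e) ∧
      ∀ i ∈ clus q τ r, ∃ m : ℤ, x i = m * c

/-- E8: a shift of the grid which is good for half of the root vectors -/
def T_E8 : Prop := ∀ (g : ℕ), 20 ≤ g → ∀ (e : ℝ), 0 < e → ∀ (ι : Type) (R : Finset ι)
  (τ : ι → Fin g → ℝ), ∃ θ : ℝ, ∃ R' : Finset ι, R' ⊆ R ∧ R.card ≤ 2 * R'.card ∧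
    ∀ a ∈ R', ∀ k, ∃ m : ℤ, |τ a k - (θ + m * e)| ≤ (1 / 2 - 1 / (g : ℝ) ^ 2) * e

/-- KPA: the comparison for one choice of the nodes -/
def T_KPA : Prop := ∀ q : ℕ, 2 ≤ q → ∀ γ : ℝ, 0 < γ → ∃ g₀ : ℕ, ∀ g : ℕ, g₀ ≤ g →
  ∀ n : ℕ, n ≤ g → g ≤ 2 * n → ∀ B : Fin n → ℕ, (∀ j, 1 ≤ B j) →
  (∀ j : Fin n, (B j : ℝ) ≤ √(q : ℝ) ^ (g - (j : ℕ)) * Real.exp (-(γ * g))) →
  ∀ (b : Fin g → ℤ) (T : Finset (Fin g)) (x : Fin g → ℝ) (R : Finset (Fin g → ℤ)),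
  Nodes q (rho g) (epc g) T x →
  (∀ a ∈ R, topPart n a = topPart n b ∧ ∃ τ, Roots q a τ ∧ Typ q τ ∧ clus q τ (rho g) = T ∧
    Close q (eps g) (epc g) T τ x) →
  Set.InjOn (idx n B) (R : Set (Fin g → ℤ)) →
    (R.card : ℝ) * ∏ j, (B j : ℝ) ≤ Real.exp (Real.log g ^ 47) *
      ({a ∈ P q g | topPart n a = topPart n b ∧ ∃ τ', Roots q a τ' ∧
        (∀ k, k ∉ T → |τ' k - x k| < eps g / 2) ∧ ∀ i ∈ T, |τ' i - x i| < epc g / 2}.ncard : ℕ)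

/-- KP: the number of boxes which contain a typical real Weil polynomial -/
def T_KP : Prop := ∀ q : ℕ, 2 ≤ q → ∀ γ δ : ℝ, 0 < γ → 0 < δ → ∃ g₀ : ℕ, ∀ g : ℕ, g₀ ≤ g →
  ∀ n : ℕ, n ≤ g → g ≤ 2 * n → ∀ B : Fin n → ℕ, (∀ j, 1 ≤ B j) →
  (∀ j : Fin n, (B j : ℝ) ≤ √(q : ℝ) ^ (g - (j : ℕ)) * Real.exp (-(γ * g))) →
  ∀ R : Finset (Fin g → ℤ), (∀ a ∈ R, ∃ τ, Roots q a τ ∧ Typ q τ) → Set.InjOn (idx n B) (R : Set (Fin g → ℤ)) →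
    (R.card : ℝ) * ∏ j, (B j : ℝ) ≤ Real.exp (δ * g) * ((P q g).ncard : ℕ)

/-! ## Targets F: arithmetic in one box -/

/-- REDA: the multiples of one polynomial in a box -/
def T_REDA : Prop := ∀ (q g n : ℕ), n ≤ g → ∀ B : Fin n → ℕ, (∀ j, 1 ≤ B j) → ∀ c : Fin g → ℤ,
  ∀ w : ℤ[X], w.Monic → w.natDegree ≤ n →
    {a : Fin g → ℤ | idx n B a = c ∧ w ∣ HZ q a}.ncard ≤
      ∏ j ∈ univ.filter (fun j : Fin n => w.natDegree ≤ (j : ℕ)), B j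

/-- RED: reducible polynomials -/
def T_RED : Prop := ∀ q : ℕ, 2 ≤ q → ∀ γ : ℝ, 0 < γ → 4 * γ ≤ Real.log √(q : ℝ) →
  ∃ g₀ : ℕ, ∀ g : ℕ, g₀ ≤ g → ∀ n : ℕ, n ≤ g → g ≤ 2 * n → ∀ B : Fin n → ℕ,
  (∀ j : Fin n, √(q : ℝ) ^ (g - (j : ℕ)) * Real.exp (-(γ * g)) ≤ 2 * (B j : ℝ)) →
  ∀ c : Fin g → ℤ,
    (({a ∈ P q g | idx n B a = c ∧ ¬ Irreducible (HZ q a)}.ncard : ℕ) : ℝ) ≤
      Real.exp (-(γ * g)) * ∏ j, (B j : ℝ)

/-- PRG: a prime a little larger than `g / 2` -/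
def T_PRG : Prop := ∃ g₀ : ℕ, ∀ g : ℕ, g₀ ≤ g → ∃ p : ℕ, p.Prime ∧ g < 2 * p ∧ 50 * p ≤ 49 * g

/-- IRC: the number of irreducible polynomials of prime degree -/
def T_IRC : Prop := ∀ l p : ℕ, l.Prime → p.Prime →
  l ^ p ≤ 2 * p * {u : (ZMod l)[X] | u.Monic ∧ Irreducible u ∧ u.natDegree = p}.ncard

/-- VC: the number of inert quadratic polynomials -/
def T_VC : Prop := ∀ (q l : ℕ) [Fact l.Prime], 3 ≤ l → ¬ l ∣ q →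
  l ^ 2 ≤ 8 * {v : (ZMod l)[X] | Inert q v}.ncard

/-- CNT: the number of multiples -/
def T_CNT : Prop := ∀ (l : ℕ) [Fact l.Prime] (n : ℕ) (H m : (ZMod l)[X]), m.Monic →
  m.natDegree ≤ n → {h : (ZMod l)[X] | (h - H).degree < n ∧ m ∣ h}.ncard = l ^ (n - m.natDegree)

/-- PDV: inert quadratic factors -/
def T_PDV : Prop := ∀ (q l : ℕ) [Fact l.Prime], 10 ≤ l → ¬ l ∣ q → ∀ n : ℕ, 4 ≤ n →
  ∀ H : (ZMod l)[X], l ^ n ≤ 16 * {h : (ZMod l)[X] | (h - H).degree < n ∧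
    ∃ v : (ZMod l)[X], Inert q v ∧ v ∣ h ∧ ¬ v ^ 2 ∣ h}.ncard

/-- PD: the density of the pattern -/
def T_PD : Prop := ∀ (q g n p l : ℕ) [Fact l.Prime], 10 ≤ l → ¬ l ∣ q → p.Prime → 3 ≤ p →
  g < 2 * p → p + 4 ≤ n → n ≤ g → ∀ H : (ZMod l)[X], H.Monic → H.natDegree = g →
    l ^ n ≤ 64 * g * {h : (ZMod l)[X] | (h - H).degree < n ∧ Pat q p h}.ncard

/-- SMA: residue classes in a box -/
def T_SMA : Prop := ∀ (n M Bm : ℕ) (B : Fin n → ℕ), 1 ≤ M → 1 ≤ Bm → (∀ j, Bm ≤ B j) →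
  4 * n * M ≤ Bm → ∀ (S : Set (Fin n → ZMod M)) (k : Fin n → ℤ),
    |(({x : Fin n → ℤ | (∀ j, x j / (B j : ℤ) = k j) ∧ (fun j => (x j : ZMod M)) ∈ S}.ncard : ℕ) :
        ℝ) - (∏ j, (B j : ℝ)) * ((S.ncard : ℕ) / (M : ℝ) ^ n)| ≤
      (∏ j, (B j : ℝ)) * ((S.ncard : ℕ) / (M : ℝ) ^ n) * (2 * n * M / Bm)

/-- SM: second moment -/
def T_SM : Prop := ∀ (n Bm Y : ℕ) (B : Fin n → ℕ), (∀ j, Bm ≤ B j) → 1 ≤ Y →
  8 * n * Y ^ 2 ≤ Bm → ∀ (L : Finset ℕ), L.Nonempty → (∀ l ∈ L, l.Prime ∧ l ≤ Y) →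
  ∀ (S : (l : ℕ) → Set (Fin n → ZMod l)) (θ : ℝ), 0 < θ →
  (∀ l ∈ L, θ * (l : ℝ) ^ n ≤ ((S l).ncard : ℕ)) → ∀ k : Fin n → ℤ,
    (({x : Fin n → ℤ | (∀ j, x j / (B j : ℤ) = k j) ∧
      ∀ l ∈ L, (fun j => (x j : ZMod l)) ∉ S l}.ncard : ℕ) : ℝ) ≤
      (∏ j, (B j : ℝ)) * (2 / (θ * L.card) + 8 * n * Y ^ 2 / Bm)

/-- BOX: in a box almost all polynomials have the pattern modulo some prime -/
def T_BOX : Prop := ∀ q : ℕ, 2 ≤ q → ∀ c₂ : ℝ, 0 < c₂ → ∃ c : ℝ, 0 < c ∧ ∃ g₀ : ℕ, ∀ g : ℕ,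
  g₀ ≤ g → ∀ n p : ℕ, n ≤ g → p.Prime → 3 ≤ p → g < 2 * p → p + 4 ≤ n → ∀ B : Fin n → ℕ,
  (∀ j, Real.exp (c₂ * g) ≤ (B j : ℝ)) → ∀ d : Fin g → ℤ,
    (({a : Fin g → ℤ | idx n B a = d ∧ ¬ ∃ (l : ℕ) (_ : Fact l.Prime), 3 ≤ l ∧ ¬ l ∣ q ∧
      Pat q p ((HZ q a).map (Int.castRingHom (ZMod l)))}.ncard : ℕ) : ℝ) ≤
    Real.exp (-(c * g)) * ∏ j, (B j : ℝ)

/-- FRB1: the cycle given by the pattern -/
def T_FRB1 : Prop := ∀ (q g p l : ℕ) [Fact l.Prime], 2 ≤ q → 3 ≤ l → ¬ l ∣ q → p.Prime →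
  3 ≤ p → g < 2 * p → p < g → ∀ a : Fin g → ℤ,
    Pat q p ((HZ q a).map (Int.castRingHom (ZMod l))) →
      ∃ (τ : QBar ≃+* QBar) (ρ : ZMod p → QBar), Cyc q p a τ ρ

/-- FRB2: the inversion given by the pattern -/
def T_FRB2 : Prop := ∀ (q g p l : ℕ) [Fact l.Prime], 2 ≤ q → 3 ≤ l → ¬ l ∣ q →
  ∀ a : Fin g → ℤ, Pat q p ((HZ q a).map (Int.castRingHom (ZMod l))) → Inv q a

/-- IRW: irreducibility of the Weil polynomial and transitivity -/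
def T_IRW : Prop := ∀ (q g : ℕ), 2 ≤ q → 3 ≤ g → ∀ a ∈ P q g, Irreducible (HZ q a) →
  Trans q a ∧ {α : QBar | IsRt q a α}.ncard = 2 * g ∧ (∀ α : QBar, IsRt q a α → α ^ 2 ≠ q) ∧
  ∀ b : Fin g → ℤ, poly b = HZ q a → Irreducible (weil q b)

/-- RELA: reduction to antisymmetric relations -/
def T_RELA : Prop := ∀ (q g : ℕ), 2 ≤ q → ∀ a : Fin g → ℤ, Trans q a →
  (∀ e : QBar → ℤ, AR q a e → ∀ α, IsRt q a α → e α = 0) → Indep q a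

/-- RELB: antisymmetric relations are constant on the cycle -/
def T_RELB : Prop := ∀ (q g p : ℕ), 2 ≤ q → p.Prime → 3 ≤ p → g < 2 * p → p < g →
  ∀ a : Fin g → ℤ, Trans q a → {α : QBar | IsRt q a α}.ncard = 2 * g → Inv q a →
  ∀ (τ : QBar ≃+* QBar) (ρ : ZMod p → QBar), Cyc q p a τ ρ →
    ∀ e : QBar → ℤ, AR q a e → ∀ k, e (ρ k) = e (ρ 0)

/-- RELC: relations which are constant on the cycle are zero -/
def T_RELC : Prop := ∀ (q g p : ℕ), 2 ≤ q → p.Prime → 3 ≤ p → g < 2 * p → p < g →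
  ∀ a : Fin g → ℤ, Trans q a → {α : QBar | IsRt q a α}.ncard = 2 * g →
  (∀ α : QBar, IsRt q a α → α ^ 2 ≠ q) → Inv q a →
  ∀ (τ : QBar ≃+* QBar) (ρ : ZMod p → QBar), Cyc q p a τ ρ →
  (∀ e : QBar → ℤ, AR q a e → ∀ k, e (ρ k) = e (ρ 0)) →
    ∀ e : QBar → ℤ, AR q a e → ∀ α, IsRt q a α → e α = 0

/-- GD: independence implies that all Tate weights are divisorial -/
def T_GD : Prop := ∀ (q g : ℕ), 2 ≤ q → ∀ a : Fin g → ℤ, Indep q a →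
  (∀ α : QBar, IsRt q a α → α ^ 2 ≠ q) → ∀ b : Fin g → ℤ, poly b = HZ q a →
  Irreducible (weil q b) → Good q b

/-- CV: change of the basis -/
def T_CV : Prop := ∀ q g : ℕ, ∃ φ : (Fin g → ℤ) ≃ (Fin g → ℤ), ∀ a : Fin g → ℤ,
  poly (φ a) = HZ q a ∧ (a ∈ P q g ↔ IsRealWeil q (φ a))

/-- CELL: in one box almost all real Weil polynomials are good -/
def T_CELL : Prop := ∀ q : ℕ, 2 ≤ q → ∃ γ c : ℝ, 0 < γ ∧ 0 < c ∧ ∃ g₀ : ℕ, ∀ g : ℕ, g₀ ≤ g →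
  ∃ n : ℕ, n ≤ g ∧ g ≤ 2 * n ∧ ∃ B : Fin n → ℕ, (∀ j, 1 ≤ B j) ∧
  (∀ j : Fin n, (B j : ℝ) ≤ √(q : ℝ) ^ (g - (j : ℕ)) * Real.exp (-(γ * g))) ∧
  ∀ d : Fin g → ℤ,
    (({a ∈ P q g | idx n B a = d ∧ ¬ ∀ b : Fin g → ℤ, poly b = HZ q a → Good q b}.ncard : ℕ) : ℝ) ≤
      Real.exp (-(c * g)) * ∏ j, (B j : ℝ)

/-- MAIN -/
def T_MAIN : Prop := ∀ q : ℕ, 2 ≤ q → ∃ c : ℝ, 0 < c ∧ ∃ g₀ : ℕ, ∀ g : ℕ, g₀ ≤ g →
  {b : Fin g → ℤ | IsRealWeil q b}.Finite ∧ 0 < {b : Fin g → ℤ | IsRealWeil q b}.ncard ∧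
  (({b : Fin g → ℤ | IsRealWeil q b ∧ ¬ Good q b}.ncard : ℕ) : ℝ) ≤
    Real.exp (-(c * g)) * ({b : Fin g → ℤ | IsRealWeil q b}.ncard : ℕ)

end Pool.Agent.FQW
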