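import Mathlib
import Pool.Agent.FQW.Targets

set_option autoImplicit false

/-!
# Basic facts about the Dickson basis
-/

namespace Pool.Agent.FQW

open Polynomial Finset
open scoped BigOperators

theorem degree_C_mul_le' {R : Type} [CommRing R] (a : R) (p : R[X]) :
    (C a * p).degree ≤ p.degree := by
  rw [degree_le_iff_coeff_zero]
  intro m hm
  rw [coeff_C_mul, coeff_eq_zero_of_degree_lt hm, mul_zero]

theorem dk_zero (q : ℕ) : dk q 0 = 1 := by simp [dk]

theorem dk_one (q : ℕ) : dk q 1 = X := by simp [dk]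

theorem dk_succ_succ_succ (q n : ℕ) :
    dk q (n + 3) = X * dk q (n + 2) - C (q : ℤ) * dk q (n + 1) := by
  simp only [dk, Nat.add_eq_zero_iff, OfNat.ofNat_ne_zero, and_false, if_false, one_ne_zero]
  rw [show n + 3 = (n + 1) + 2 from rfl, dickson_add_two]

theorem dk_two (q : ℕ) : dk q 2 = X ^ 2 - C (2 * (q : ℤ)) := by
  simp only [dk, OfNat.ofNat_ne_zero, if_false, dickson_two]
  rw [C_mul]
  have : (C (2 : ℤ)) = (2 : ℤ[X]) := rfl
  rw [this]
  push_cast
  ring

theorem dk_monic_natDegree (q : ℕ) : ∀ j, (dk q j).Monic ∧ (dk q j).natDegree = j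
  | 0 => by simp [dk_zero]
  | 1 => by simp [dk_one, monic_X]
  | 2 => by
    rw [dk_two]
    exact ⟨monic_X_pow_sub_C _ (by norm_num), natDegree_X_pow_sub_C⟩
  | (n + 3) => by
    obtain ⟨h1, h2⟩ := dk_monic_natDegree q (n + 2)
    obtain ⟨h3, h4⟩ := dk_monic_natDegree q (n + 1)
    have hm : (X * dk q (n + 2)).Monic := monic_X.mul h1
    have hd : (X * dk q (n + 2)).natDegree = n + 3 := by
      rw [natDegree_X_mul h1.ne_zero, h2]
    have hlt : (C (q : ℤ) * dk q (n + 1)).degree < (X * dk q (n + 2)).degree := by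
      refine lt_of_le_of_lt (degree_C_mul_le' _ _) ?_
      rw [degree_eq_natDegree h3.ne_zero, degree_eq_natDegree hm.ne_zero, h4, hd]
      exact_mod_cast (by omega : n + 1 < n + 3)
    rw [dk_succ_succ_succ]
    refine ⟨hm.sub_of_left hlt, ?_⟩
    rw [natDegree_sub_eq_left_of_natDegree_lt, hd]
    rw [hd]
    exact lt_of_le_of_lt (natDegree_C_mul_le _ _) (by rw [h4]; omega)

theorem dk_monic (q j : ℕ) : (dk q j).Monic := (dk_monic_natDegree q j).1

theorem dk_natDegree (q j : ℕ) : (dk q j).natDegree = j := (dk_monic_natDegree q j).2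

theorem dk_degree (q j : ℕ) : (dk q j).degree = j := by
  rw [degree_eq_natDegree (dk_monic q j).ne_zero, dk_natDegree]

/-- the Dickson basis over a commutative ring -/
noncomputable def dkR (R : Type) [CommRing R] (q j : ℕ) : R[X] :=
  (dk q j).map (Int.castRingHom R)

theorem dkR_monic (R : Type) [CommRing R] (q j : ℕ) : (dkR R q j).Monic :=
  (dk_monic q j).map _

theorem dkR_natDegree (R : Type) [CommRing R] [Nontrivial R] (q j : ℕ) :
    (dkR R q j).natDegree = j := by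
  rw [dkR, (dk_monic q j).natDegree_map, dk_natDegree]

theorem dkR_degree (R : Type) [CommRing R] [Nontrivial R] (q j : ℕ) :
    (dkR R q j).degree = j := by
  rw [degree_eq_natDegree (dkR_monic R q j).ne_zero, dkR_natDegree]

/-- combinations of the first `n` elements of the basis have degree less than `n` -/
theorem degree_sum_lt (R : Type) [CommRing R] [Nontrivial R] (q n : ℕ) (u : Fin n → R) :
    (∑ j : Fin n, C (u j) * dkR R q j).degree < n := by
  refine lt_of_le_of_lt (degree_sum_le _ _) ?_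
  rw [Finset.sup_lt_iff (by exact_mod_cast WithBot.bot_lt_coe n)]
  intro j _
  refine lt_of_le_of_lt (degree_C_mul_le' _ _) ?_
  rw [dkR_degree]
  exact_mod_cast j.2

/-- uniqueness of the coordinates -/
theorem coords_zero (R : Type) [CommRing R] [Nontrivial R] (q : ℕ) : ∀ (n : ℕ) (u : Fin n → R),
    ∑ j : Fin n, C (u j) * dkR R q j = 0 → u = 0
  | 0, u, _ => by ext j; exact j.elim0
  | (n + 1), u, h => by
    rw [Fin.sum_univ_castSucc] at h
    have h1 : (∑ j : Fin n, C (u j.castSucc) * dkR R q (j.castSucc : Fin (n + 1))).coeff n = 0 := by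
      apply coeff_eq_zero_of_degree_lt
      exact degree_sum_lt R q n (fun j => u j.castSucc)
    have h2 : (dkR R q ((Fin.last n : Fin (n + 1)) : ℕ)).coeff n = 1 := by
      have := (dkR_monic R q n).coeff_natDegree
      rwa [dkR_natDegree] at this
    have h3 : u (Fin.last n) = 0 := by
      have := congrArg (fun p => p.coeff n) h
      simp only [coeff_add, coeff_zero, coeff_C_mul] at this
      rw [h1, h2, zero_add, mul_one] at this
      exact this
    rw [h3, C_0, zero_mul, add_zero] at h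
    have h4 := coords_zero R q n (fun j => u j.castSucc) h
    ext j
    refine Fin.lastCases h3 (fun i => ?_) j
    exact congrFun h4 i

/-- uniqueness of the coordinates -/
theorem coords_unique (R : Type) [CommRing R] [Nontrivial R] (q n : ℕ) (u u' : Fin n → R)
    (h : ∑ j : Fin n, C (u j) * dkR R q j = ∑ j : Fin n, C (u' j) * dkR R q j) : u = u' := by
  have : (fun j => u j - u' j) = 0 := by
    apply coords_zero R q n
    simp only [C_sub, sub_mul, Finset.sum_sub_distrib]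
    rw [h, sub_self]
  ext j
  exact sub_eq_zero.mp (congrFun this j)

/-- existence of the coordinates -/
theorem coords_exists (R : Type) [CommRing R] [Nontrivial R] (q : ℕ) : ∀ (n : ℕ) (v : R[X]),
    v.degree < n → ∃ u : Fin n → R, v = ∑ j : Fin n, C (u j) * dkR R q j
  | 0, v, h => by
    refine ⟨fun _ => 0, ?_⟩
    have : v = 0 := by
      rw [← degree_eq_bot]
      by_contra hne
      rw [degree_eq_bot] at hne
      rw [degree_eq_natDegree hne] at h
      exact absurd h (by simp)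
    simp [this]
  | (n + 1), v, h => by
    have hdeg : (v - C (v.coeff n) * dkR R q n).degree < n := by
      rw [degree_lt_iff_coeff_zero]
      intro m hm
      rw [coeff_sub, coeff_C_mul]
      rcases eq_or_lt_of_le hm with rfl | hlt
      · have := (dkR_monic R q n).coeff_natDegree
        rw [dkR_natDegree] at this
        rw [this, mul_one, sub_self]
      · have h1 : v.coeff m = 0 := coeff_eq_zero_of_degree_lt (lt_of_lt_of_le h (by exact_mod_cast hlt))
        have h2 : (dkR R q n).coeff m = 0 := coeff_eq_zero_of_degree_lt (by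
          rw [dkR_degree]; exact_mod_cast hlt)
        rw [h1, h2, mul_zero, sub_zero]
    obtain ⟨u, hu⟩ := coords_exists R q n _ hdeg
    refine ⟨Fin.snoc (α := fun _ => R) u (v.coeff n), ?_⟩
    rw [Fin.sum_univ_castSucc]
    simp only [Fin.snoc_castSucc, Fin.snoc_last, Fin.val_castSucc, Fin.val_last]
    rw [← hu]
    ring

/-- the coefficient vector `u` over a commutative ring -/
noncomputable def HG (R : Type) [CommRing R] (q : ℕ) {g : ℕ} (u : Fin g → R) : R[X] :=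
  dkR R q g + ∑ j : Fin g, C (u j) * dkR R q j

theorem HZ_eq_HG (q : ℕ) {g : ℕ} (a : Fin g → ℤ) : HZ q a = HG ℤ q a := by
  have : Int.castRingHom ℤ = RingHom.id ℤ := by ext; simp
  simp [HZ, HG, dkR, this]

theorem HR_eq_HG (q : ℕ) {g : ℕ} (u : Fin g → ℝ) : HR q u = HG ℝ q u := rfl

theorem HZ_map (R : Type) [CommRing R] (q : ℕ) {g : ℕ} (a : Fin g → ℤ) :
    (HZ q a).map (Int.castRingHom R) = HG R q (fun j => (a j : R)) := by
  simp [HZ, HG, dkR, Polynomial.map_sum]

theorem HG_monic (R : Type) [CommRing R] [Nontrivial R] (q : ℕ) {g : ℕ} (u : Fin g → R) :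
    (HG R q u).Monic := by
  refine (dkR_monic R q g).add_of_left ?_
  rw [dkR_degree]
  exact degree_sum_lt R q g u

theorem HG_natDegree (R : Type) [CommRing R] [Nontrivial R] (q : ℕ) {g : ℕ} (u : Fin g → R) :
    (HG R q u).natDegree = g := by
  apply natDegree_eq_of_degree_eq_some
  rw [HG, degree_add_eq_left_of_degree_lt]
  · exact dkR_degree R q g
  · rw [dkR_degree]
    exact degree_sum_lt R q g u

theorem HZ_monic (q : ℕ) {g : ℕ} (a : Fin g → ℤ) : (HZ q a).Monic := by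
  rw [HZ_eq_HG]; exact HG_monic ℤ q a

theorem HZ_natDegree (q : ℕ) {g : ℕ} (a : Fin g → ℤ) : (HZ q a).natDegree = g := by
  rw [HZ_eq_HG]; exact HG_natDegree ℤ q a

theorem HG_injective (R : Type) [CommRing R] [Nontrivial R] (q g : ℕ) :
    Function.Injective (HG R q : (Fin g → R) → R[X]) := by
  intro u v h
  exact coords_unique R q g u v (add_left_cancel h)

theorem HZ_injective (q g : ℕ) : Function.Injective (HZ q : (Fin g → ℤ) → ℤ[X]) := by
  intro u v h
  rw [HZ_eq_HG, HZ_eq_HG] at h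
  exact HG_injective ℤ q g h

/-- every monic polynomial of degree `g` is given by a coefficient vector -/
theorem HG_surj (R : Type) [CommRing R] [Nontrivial R] (q g : ℕ) (h : R[X]) (hm : h.Monic)
    (hd : h.natDegree = g) : ∃ u : Fin g → R, h = HG R q u := by
  have hlt : (h - dkR R q g).degree < g := by
    have h1 : h.degree = g := by rw [degree_eq_natDegree hm.ne_zero, hd]
    have := degree_sub_lt_left (p := h) (q := dkR R q g) (by rw [h1, dkR_degree]) hm.ne_zero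
      (by rw [hm.leadingCoeff, (dkR_monic R q g).leadingCoeff])
    rwa [h1] at this
  obtain ⟨u, hu⟩ := coords_exists R q g _ hlt
  exact ⟨u, by rw [HG, ← hu]; ring⟩

theorem HZ_surj (q g : ℕ) (h : ℤ[X]) (hm : h.Monic) (hd : h.natDegree = g) :
    ∃ a : Fin g → ℤ, h = HZ q a := by
  obtain ⟨a, ha⟩ := HG_surj ℤ q g h hm hd
  exact ⟨a, by rw [HZ_eq_HG]; exact ha⟩

theorem ev_eq (q : ℕ) {g : ℕ} (a : Fin g → ℤ) (x : ℝ) :
    ev q a x = (HR q (fun j => (a j : ℝ))).eval x := by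
  rw [ev, HZ_map, HR_eq_HG]

theorem HR_eval (q : ℕ) {g : ℕ} (u : Fin g → ℝ) (x : ℝ) :
    (HR q u).eval x = (dkR ℝ q g).eval x + ∑ j : Fin g, u j * (dkR ℝ q j).eval x := by
  simp [HR_eq_HG, HG, eval_finsetSum]

theorem ev_eq_prod (q : ℕ) {g : ℕ} (a : Fin g → ℤ) (τ : Fin g → ℝ) (h : Roots q a τ) (x : ℝ) :
    ev q a x = ∏ i, (x - τ i) := by
  rw [ev, h.2.2, eval_prod]
  simp

theorem dkR_eval_zero (q : ℕ) (x : ℝ) : (dkR ℝ q 0).eval x = 1 := by simp [dkR, dk_zero]

theorem dkR_eval_one (q : ℕ) (x : ℝ) : (dkR ℝ q 1).eval x = x := by simp [dkR, dk_one]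

theorem dkR_eval_two (q : ℕ) (x : ℝ) : (dkR ℝ q 2).eval x = x ^ 2 - 2 * q := by
  simp [dkR, dk_two]

theorem dkR_eval_rec (q n : ℕ) (x : ℝ) : (dkR ℝ q (n + 3)).eval x =
    x * (dkR ℝ q (n + 2)).eval x - q * (dkR ℝ q (n + 1)).eval x := by
  simp [dkR, dk_succ_succ_succ]

theorem dkR_eval_cos (q : ℕ) (t : ℝ) : ∀ j, (dkR ℝ q (j + 1)).eval (2 * √(q : ℝ) * Real.cos t) =
    2 * √(q : ℝ) ^ (j + 1) * Real.cos ((j + 1 : ℕ) * t)
  | 0 => by rw [dkR_eval_one]; simp
  | 1 => by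
    rw [dkR_eval_two]
    have h1 : √(q : ℝ) ^ 2 = q := Real.sq_sqrt (Nat.cast_nonneg q)
    rw [mul_pow, mul_pow]
    push_cast
    norm_num
    rw [Real.cos_two_mul]
    ring
  | (n + 2) => by
    rw [show n + 2 + 1 = n + 3 from rfl, dkR_eval_rec, dkR_eval_cos q t (n + 1),
      dkR_eval_cos q t n]
    have h1 : √(q : ℝ) ^ 2 = q := Real.sq_sqrt (Nat.cast_nonneg q)
    have h2 : Real.cos (((n + 3 : ℕ) : ℝ) * t) =
        2 * Real.cos t * Real.cos (((n + 1 + 1 : ℕ) : ℝ) * t) - Real.cos (((n + 1 : ℕ) : ℝ) * t) := by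
      have h3 : ((n + 3 : ℕ) : ℝ) * t = ((n + 1 + 1 : ℕ) : ℝ) * t + t := by push_cast; ring
      have h4 : ((n + 1 : ℕ) : ℝ) * t = ((n + 1 + 1 : ℕ) : ℝ) * t - t := by push_cast; ring
      rw [h3, h4, Real.cos_add, Real.cos_sub]
      ring
    rw [h2]
    have h5 : √(q : ℝ) ^ (n + 3) = √(q : ℝ) ^ (n + 1) * q := by
      rw [show n + 3 = (n + 1) + 2 from rfl, pow_add _ (n + 1) 2, h1]
    have h6 : √(q : ℝ) * √(q : ℝ) ^ (n + 1 + 1) = √(q : ℝ) ^ (n + 3) := by ring
    calc _ = 2 * (2 * (√(q : ℝ) * √(q : ℝ) ^ (n + 1 + 1))) * (Real.cos t *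
            Real.cos (((n + 1 + 1 : ℕ) : ℝ) * t)) -
            2 * (√(q : ℝ) ^ (n + 1) * q) * Real.cos (((n + 1 : ℕ) : ℝ) * t) := by ring
      _ = _ := by rw [h6, ← h5]; ring

/-- every point of the interval is `2 √q cos t` -/
theorem exists_cos (q : ℕ) (hq : 1 ≤ q) (x : ℝ) (hx : |x| ≤ 2 * √(q : ℝ)) :
    ∃ t : ℝ, x = 2 * √(q : ℝ) * Real.cos t := by
  have h0 : (0 : ℝ) < √(q : ℝ) := Real.sqrt_pos.mpr (by exact_mod_cast hq)
  have h := abs_le.mp hx
  refine ⟨Real.arccos (x / (2 * √(q : ℝ))), ?_⟩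
  rw [Real.cos_arccos]
  · field_simp
  · rw [le_div_iff₀ (by positivity)]; linarith [h.1]
  · rw [div_le_one (by positivity)]; exact h.2

theorem dkR_bound (q : ℕ) (hq : 1 ≤ q) (j : ℕ) (x : ℝ) (hx : |x| ≤ 2 * √(q : ℝ)) :
    |(dkR ℝ q j).eval x| ≤ 2 * √(q : ℝ) ^ j := by
  obtain ⟨t, rfl⟩ := exists_cos q hq x hx
  cases j with
  | zero => rw [dkR_eval_zero]; norm_num
  | succ j =>
    rw [dkR_eval_cos, abs_mul, abs_of_nonneg (by positivity : (0 : ℝ) ≤ 2 * √(q : ℝ) ^ (j + 1))]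
    have h1 := Real.abs_cos_le_one (((j + 1 : ℕ) : ℝ) * t)
    have h2 : (0 : ℝ) ≤ 2 * √(q : ℝ) ^ (j + 1) := by positivity
    nlinarith

theorem dkR_bound3 (q : ℕ) (hq : 1 ≤ q) (x : ℝ) (hx : |x| ≤ 3 * √(q : ℝ)) :
    ∀ j, |(dkR ℝ q j).eval x| ≤ (4 * √(q : ℝ)) ^ j
  | 0 => by rw [dkR_eval_zero]; norm_num
  | 1 => by
    rw [dkR_eval_one]
    have : 0 ≤ √(q : ℝ) := Real.sqrt_nonneg _
    linarith
  | 2 => by
    rw [dkR_eval_two]
    have h1 : √(q : ℝ) ^ 2 = q := Real.sq_sqrt (Nat.cast_nonneg q)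
    have h2 : 0 ≤ √(q : ℝ) := Real.sqrt_nonneg _
    have h3 : x ^ 2 ≤ (3 * √(q : ℝ)) ^ 2 := by
      rw [← sq_abs x]; gcongr
    rw [abs_le]
    constructor <;> nlinarith [sq_nonneg x]
  | (n + 3) => by
    rw [dkR_eval_rec]
    have h1 : √(q : ℝ) ^ 2 = q := Real.sq_sqrt (Nat.cast_nonneg q)
    have h2 : 0 ≤ √(q : ℝ) := Real.sqrt_nonneg _
    have h3 := dkR_bound3 q hq x hx (n + 2)
    have h4 := dkR_bound3 q hq x hx (n + 1)
    have h5 : (0 : ℝ) ≤ (4 * √(q : ℝ)) ^ (n + 1) := by positivity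
    calc |x * (dkR ℝ q (n + 2)).eval x - q * (dkR ℝ q (n + 1)).eval x|
        ≤ |x * (dkR ℝ q (n + 2)).eval x| + |q * (dkR ℝ q (n + 1)).eval x| := abs_sub _ _
      _ = |x| * |(dkR ℝ q (n + 2)).eval x| + q * |(dkR ℝ q (n + 1)).eval x| := by
          rw [abs_mul, abs_mul, abs_of_nonneg (Nat.cast_nonneg q : (0 : ℝ) ≤ q)]
      _ ≤ (3 * √(q : ℝ)) * (4 * √(q : ℝ)) ^ (n + 2) + q * (4 * √(q : ℝ)) ^ (n + 1) := by
          gcongr
      _ ≤ (4 * √(q : ℝ)) ^ (n + 3) := by
          have h7 : (4 * √(q : ℝ)) ^ (n + 3) = (4 * √(q : ℝ)) ^ (n + 1) * (16 * √(q : ℝ) ^ 2) := by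
            ring
          have h6 : (4 * √(q : ℝ)) ^ (n + 2) = (4 * √(q : ℝ)) ^ (n + 1) * (4 * √(q : ℝ)) := by ring
          rw [h7, h6, h1]
          have h8 : 3 * √(q : ℝ) * ((4 * √(q : ℝ)) ^ (n + 1) * (4 * √(q : ℝ))) =
              12 * ((4 * √(q : ℝ)) ^ (n + 1) * √(q : ℝ) ^ 2) := by ring
          rw [h8, h1]
          nlinarith [mul_nonneg h5 (Nat.cast_nonneg q : (0 : ℝ) ≤ q)]

end Pool.Agent.FQW
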