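import Mathlib
import Pool.Agent.FQW.Basic

set_option autoImplicit false

/-!
# BOX: almost all of a box has the pattern modulo some prime
-/

namespace Pool.Agent.FQW

open Polynomial Finset
open scoped BigOperators

namespace BOX_

/-- the number of large primes -/
theorem primes_lower (q Y : ℕ) : (Nat.primeCounting Y : ℝ) - (q + 10) ≤
    (((Finset.range (Y + 1)).filter fun l => l.Prime ∧ q + 10 ≤ l).card : ℝ) := by
  have h1 : (Finset.range (Y + 1)).filter Nat.Prime ⊆
      (Finset.range (Y + 1)).filter (fun l => l.Prime ∧ q + 10 ≤ l) ∪ Finset.range (q + 10) := by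
    intro l hl
    rw [mem_filter, mem_range] at hl
    rw [mem_union, mem_filter, mem_range, mem_range]
    by_cases h : l < q + 10
    · exact Or.inr h
    · exact Or.inl ⟨hl.1, hl.2, by omega⟩
  have h2 := (Finset.card_le_card h1).trans (Finset.card_union_le _ _)
  rw [Finset.card_range] at h2
  have h3 : Nat.primeCounting Y = ((Finset.range (Y + 1)).filter Nat.Prime).card := by
    rw [Nat.primeCounting, Nat.primeCounting', Nat.count_eq_card_filter_range]
  rw [h3]
  have h4 : (((Finset.range (Y + 1)).filter Nat.Prime).card : ℝ) ≤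
    (((Finset.range (Y + 1)).filter fun l => l.Prime ∧ q + 10 ≤ l).card : ℝ) + (q + 10) := by
    exact_mod_cast h2
  linarith

/-- the numerical part -/
theorem num (q : ℕ) (c₂ : ℝ) (hc : 0 < c₂) : ∃ g₀ : ℕ, ∀ g : ℕ, g₀ ≤ g →
    ∃ (Y Bm : ℕ) (L : Finset ℕ), 1 ≤ g ∧ 1 ≤ Y ∧ (Bm : ℝ) ≤ Real.exp (c₂ * g) ∧
      8 * g * Y ^ 2 ≤ Bm ∧ L.Nonempty ∧ (∀ l ∈ L, l.Prime ∧ l ≤ Y ∧ q + 10 ≤ l) ∧ 0 < Bm ∧
      2 / (1 / (64 * (g : ℝ)) * L.card) + 8 * g * (Y : ℝ) ^ 2 / Bm ≤
        Real.exp (-(c₂ / 32 * g)) := by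
  obtain ⟨a, ha⟩ : ∃ a : ℝ, a = 32 / c₂ := ⟨_, rfl⟩
  have ha0 : 0 < a := by rw [ha]; positivity
  obtain ⟨g₁, hg₁⟩ := exists_nat_gt (a * (256 * a + q + 200))
  refine ⟨g₁ + 1, fun g hg => ?_⟩
  have hg1 : 1 ≤ g := by omega
  have hgg : a * (256 * a + q + 200) < g := by
    refine hg₁.trans_le ?_
    exact_mod_cast (by omega : g₁ ≤ g)
  have hg0 : (0 : ℝ) < g := by exact_mod_cast hg1
  obtain ⟨D, hD⟩ : ∃ D : ℝ, D = Real.exp (c₂ * g / 32) := ⟨_, rfl⟩
  have hD1 : c₂ * g / 32 + 1 ≤ D := by rw [hD]; exact Real.add_one_le_exp _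
  have hga : (g : ℝ) ≤ a * D := by
    have h1 : (g : ℝ) = a * (c₂ * g / 32) := by
      rw [ha]; field_simp
    rw [h1]
    apply mul_le_mul_of_nonneg_left _ ha0.le
    linarith
  have hDD : 256 * a + q + 200 ≤ D := by
    have h1 : a * (256 * a + q + 200) < a * D := hgg.trans_le hga
    exact (lt_of_mul_lt_mul_left h1 ha0.le).le
  have hq0 : (0 : ℝ) ≤ q := Nat.cast_nonneg q
  have hD200 : 200 ≤ D := by linarith
  have hD0 : 0 < D := by linarith
  have hDp : ∀ i j : ℕ, i ≤ j → D ^ i ≤ D ^ j := fun i j h => pow_le_pow_right₀ (by linarith) h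
  have hlogD : Real.log D ≤ D := by
    have := Real.log_le_sub_one_of_pos hD0
    linarith
  have hE32 : Real.exp (c₂ * g) = D ^ 32 := by
    rw [hD, ← Real.exp_nat_mul]
    congr 1
    push_cast
    ring
  have hEinv : Real.exp (-(c₂ / 32 * g)) = 1 / D := by
    rw [Real.exp_neg, hD, one_div]
    congr 2
    ring
  -- the numbers
  obtain ⟨Y, hY⟩ : ∃ Y : ℕ, Y = ⌊D ^ 8⌋₊ := ⟨_, rfl⟩
  obtain ⟨Bm, hBm⟩ : ∃ Bm : ℕ, Bm = ⌊D ^ 32⌋₊ := ⟨_, rfl⟩
  have hY1 : (Y : ℝ) ≤ D ^ 8 := by rw [hY]; exact Nat.floor_le (by positivity)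
  have hY2 : D ^ 8 < Y + 1 := by rw [hY]; exact Nat.lt_floor_add_one _
  have hB1 : (Bm : ℝ) ≤ D ^ 32 := by rw [hBm]; exact Nat.floor_le (by positivity)
  have hB2 : D ^ 32 < Bm + 1 := by rw [hBm]; exact Nat.lt_floor_add_one _
  have hD8 : 200 ≤ D ^ 8 := by
    have := hDp 1 8 (by norm_num)
    rw [pow_one] at this
    linarith
  have hYh : D ^ 8 / 2 ≤ Y := by linarith
  have hY3 : (100 : ℝ) ≤ Y := by linarith
  have hBh : D ^ 32 / 2 ≤ Bm := by
    have := hDp 8 32 (by norm_num)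
    linarith
  have hgY : 8 * (g : ℝ) * (Y : ℝ) ^ 2 ≤ D ^ 18 / 32 := by
    calc 8 * (g : ℝ) * (Y : ℝ) ^ 2 ≤ 8 * (a * D) * (D ^ 8) ^ 2 := by
          gcongr
      _ = (256 * a) * D ^ 17 / 32 := by ring
      _ ≤ D * D ^ 17 / 32 := by
          gcongr
          linarith
      _ = D ^ 18 / 32 := by ring
  have hL1 : D ^ 7 / 64 ≤ (Nat.primeCounting Y : ℝ) := by
    refine le_trans ?_ (Chebyshev.pi_ge Y)
    have hlogY : Real.log Y ≤ 8 * D := by
      have h1 : Real.log Y ≤ Real.log (D ^ 8) := Real.log_le_log (by linarith) hY1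
      rw [Real.log_pow] at h1
      push_cast at h1
      linarith
    have hlogY0 : 0 < Real.log Y := Real.log_pos (by linarith)
    have hlogY1 : Real.log (Y + 1) ≤ 1 + 8 * D := by
      have h1 : Real.log (Y + 1) ≤ Real.log (2 * D ^ 8) := Real.log_le_log (by linarith) (by linarith)
      rw [Real.log_mul (by norm_num) (by positivity), Real.log_pow] at h1
      have h2 := Real.log_two_lt_d9
      push_cast at h1
      linarith
    have hnum : D ^ 8 / 8 ≤ Y * Real.log 2 - Real.log (Y + 1) := by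
      have h2 := Real.log_two_gt_d9
      have h3 : (Y : ℝ) / 2 ≤ Y * Real.log 2 := by nlinarith
      have h4 : D ^ 8 = D * D ^ 7 := by ring
      have h5 := hDp 1 7 (by norm_num)
      rw [pow_one] at h5
      nlinarith
    calc D ^ 7 / 64 = (D ^ 8 / 8) / (8 * D) := by field_simp; norm_num
      _ ≤ (Y * Real.log 2 - Real.log (Y + 1)) / (8 * D) := by gcongr
      _ ≤ (Y * Real.log 2 - Real.log (Y + 1)) / Real.log Y := by
          apply div_le_div_of_nonneg_left _ hlogY0 hlogY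
          refine le_trans ?_ hnum
          positivity
  obtain ⟨L, hL⟩ : ∃ L : Finset ℕ, L = (Finset.range (Y + 1)).filter
    fun l => l.Prime ∧ q + 10 ≤ l := ⟨_, rfl⟩
  have hLc : D ^ 4 ≤ (L.card : ℝ) := by
    have h1 := primes_lower q Y
    rw [← hL] at h1
    have h2 : D ^ 7 = D ^ 4 * D ^ 3 := by ring
    have h3 : 128 ≤ D ^ 3 := by
      have := hDp 1 3 (by norm_num)
      rw [pow_one] at this
      linarith
    have h4 := hDp 1 4 (by norm_num)
    rw [pow_one] at h4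
    have h5 : 0 < D ^ 4 := by positivity
    nlinarith
  have hD4 : 0 < D ^ 4 := by positivity
  have hLc0 : (0 : ℝ) < L.card := hD4.trans_le hLc
  have hBm0 : (0 : ℝ) < Bm := lt_of_lt_of_le (by positivity) hBh
  refine ⟨Y, Bm, L, hg1, ?_, ?_, ?_, ?_, ?_, ?_, ?_⟩
  · have : (1 : ℝ) ≤ Y := by linarith
    exact_mod_cast this
  · rw [hE32]; exact hB1
  · rw [hBm]
    apply Nat.le_floor
    push_cast
    have := hDp 18 32 (by norm_num)
    have h18 : 0 < D ^ 18 := by positivity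
    linarith
  · rw [← Finset.card_pos]
    exact_mod_cast hLc0
  · intro l hl
    rw [hL, mem_filter, mem_range] at hl
    exact ⟨hl.2.1, by omega, hl.2.2⟩
  · exact_mod_cast hBm0
  · rw [hEinv]
    have h1 : 2 / (1 / (64 * (g : ℝ)) * L.card) ≤ 1 / (2 * D) := by
      have e : 2 / (1 / (64 * (g : ℝ)) * L.card) = 128 * g / L.card := by
        field_simp
        norm_num
      rw [e, div_le_div_iff₀ hLc0 (by positivity)]
      calc 128 * (g : ℝ) * (2 * D) ≤ 128 * (a * D) * (2 * D) := by gcongr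
        _ = (256 * a) * D ^ 2 := by ring
        _ ≤ D ^ 2 * D ^ 2 := by
            gcongr
            have := hDp 1 2 (by norm_num)
            rw [pow_one] at this
            linarith
        _ = D ^ 4 := by ring
        _ ≤ 1 * L.card := by rw [one_mul]; exact hLc
    have h2 : 8 * g * (Y : ℝ) ^ 2 / Bm ≤ 1 / (2 * D) := by
      rw [div_le_div_iff₀ hBm0 (by positivity)]
      have h3 := hDp 19 32 (by norm_num)
      calc 8 * g * (Y : ℝ) ^ 2 * (2 * D) ≤ D ^ 18 / 32 * (2 * D) := by gcongr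
        _ = D ^ 19 / 16 := by ring
        _ ≤ 1 * Bm := by
            have h19 : 0 < D ^ 19 := by positivity
            linarith
    have h3 : 1 / (2 * D) + 1 / (2 * D) = 1 / D := by field_simp; norm_num
    linarith

/-- splitting of the polynomial -/
theorem HG_split (R : Type) [CommRing R] (q n m : ℕ) (u : Fin n → R) (d : Fin (n + m) → R) :
    HG R q (fun i : Fin (n + m) => if h : (i : ℕ) < n then u ⟨i, h⟩ else d i) =
      ∑ j : Fin n, C (u j) * dkR R q j +
        (dkR R q (n + m) + ∑ j : Fin m, C (d (Fin.natAdd n j)) * dkR R q (n + j)) := by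
  unfold HG
  rw [Fin.sum_univ_add]
  have h1 : ∀ j : Fin n, C (if h : ((Fin.castAdd m j : Fin (n + m)) : ℕ) < n then
      u ⟨(Fin.castAdd m j : Fin (n + m)), h⟩ else d (Fin.castAdd m j)) *
      dkR R q ((Fin.castAdd m j : Fin (n + m)) : ℕ) = C (u j) * dkR R q j := by
    intro j
    rw [dif_pos (by simp)]
    simp
  have h2 : ∀ j : Fin m, C (if h : ((Fin.natAdd n j : Fin (n + m)) : ℕ) < n then
      u ⟨(Fin.natAdd n j : Fin (n + m)), h⟩ else d (Fin.natAdd n j)) *
      dkR R q ((Fin.natAdd n j : Fin (n + m)) : ℕ) =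
      C (d (Fin.natAdd n j)) * dkR R q (n + j) := by
    intro j
    rw [dif_neg (by simp)]
    simp
  rw [Finset.sum_congr rfl fun j _ => h1 j, Finset.sum_congr rfl fun j _ => h2 j]
  ring

/-- the set of the residue vectors with the pattern -/
def SS (q p : ℕ) {g : ℕ} (n : ℕ) (d : Fin g → ℤ) (l : ℕ) : Set (Fin n → ZMod l) :=
  {x | ∃ _ : Fact l.Prime, Pat q p (HG (ZMod l) q
    (fun i : Fin g => if h : (i : ℕ) < n then x ⟨i, h⟩ else ((d i : ℤ) : ZMod l)))}

theorem SS_card (hPD : T_PD) (q p g n l : ℕ) (hl : l.Prime) (hl10 : 10 ≤ l) (hlq : ¬ l ∣ q)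
    (hp : p.Prime) (hp3 : 3 ≤ p) (hgp : g < 2 * p) (hpn : p + 4 ≤ n) (hng : n ≤ g)
    (d : Fin g → ℤ) : l ^ n ≤ 64 * g * (SS q p n d l).ncard := by
  obtain ⟨m, rfl⟩ : ∃ m, g = n + m := ⟨g - n, by omega⟩
  have : Fact l.Prime := ⟨hl⟩
  have : NeZero l := ⟨hl.ne_zero⟩
  have h1 := hPD q (n + m) n p l hl10 hlq hp hp3 hgp hpn hng
    (HG (ZMod l) q (fun i : Fin (n + m) => if h : (i : ℕ) < n then (fun _ : Fin n =>
      (0 : ZMod l)) ⟨i, h⟩ else ((d i : ℤ) : ZMod l))) (HG_monic _ _ _) (HG_natDegree _ _ _)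
  refine h1.trans ?_
  apply Nat.mul_le_mul_left
  refine le_trans (Set.ncard_le_ncard ?_ (Set.Finite.image _ (Set.toFinite _)))
    (Set.ncard_image_le (f := fun x : Fin n → ZMod l => HG (ZMod l) q
      (fun i : Fin (n + m) => if h : (i : ℕ) < n then x ⟨i, h⟩ else ((d i : ℤ) : ZMod l)))
      (Set.toFinite (SS q p n d l)))
  rintro h ⟨hd, hPat⟩
  obtain ⟨u, hu⟩ := coords_exists (ZMod l) q n _ hd
  have heq : HG (ZMod l) q (fun i : Fin (n + m) => if h : (i : ℕ) < n then u ⟨i, h⟩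
      else ((d i : ℤ) : ZMod l)) = h := by
    rw [HG_split, ← hu, HG_split (ZMod l) q n m (fun _ => 0)]
    simp only [map_zero, zero_mul, Finset.sum_const_zero, zero_add]
    ring
  refine ⟨u, ⟨inferInstance, ?_⟩, heq⟩
  rw [heq]
  exact hPat

end BOX_

theorem tBOX (hPD : T_PD) (hSM : T_SM) : T_BOX := by
  intro q hq c₂ hc₂
  obtain ⟨g₀, hg₀⟩ := BOX_.num q c₂ hc₂
  refine ⟨c₂ / 32, by positivity, g₀, fun g hg n p hng hp hp3 hgp hpn B hB d => ?_⟩
  obtain ⟨Y, Bm, L, hg1, hY, hBm, h8, hLne, hL, hBm0, hnum⟩ := hg₀ g hg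
  have hg0 : (0 : ℝ) < g := by exact_mod_cast hg1
  have hBmB : ∀ j, Bm ≤ B j := fun j => by
    have := hBm.trans (hB j)
    exact_mod_cast this
  have hnY : 8 * n * Y ^ 2 ≤ Bm := by
    refine le_trans ?_ h8
    gcongr
  have hSM' := hSM n Bm Y B hBmB hY hnY L hLne (fun l hl => ⟨(hL l hl).1, (hL l hl).2.1⟩)
    (BOX_.SS q p n d) (1 / (64 * (g : ℝ))) (by positivity) (by
      intro l hl
      have hlp := (hL l hl).1
      have hlq := (hL l hl).2.2
      have h1 := BOX_.SS_card hPD q p g n l hlp (by omega) (fun h => by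
        have := Nat.le_of_dvd (by omega) h
        omega) hp hp3 hgp hpn hng d
      have h2 : (l : ℝ) ^ n ≤ 64 * g * ((BOX_.SS q p n d l).ncard : ℕ) := by exact_mod_cast h1
      rw [div_mul_eq_mul_div, one_mul, div_le_iff₀ (by positivity)]
      linarith) (fun j => d (Fin.castLE hng j))
  have hBpos : ∀ j, 0 < B j := fun j => lt_of_lt_of_le hBm0 (hBmB j)
  -- the finite set
  have hfin : {x : Fin n → ℤ | (∀ j, x j / (B j : ℤ) = d (Fin.castLE hng j)) ∧
      ∀ l ∈ L, (fun j => (x j : ZMod l)) ∉ BOX_.SS q p n d l}.Finite := by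
    apply (Set.finite_Icc (fun j : Fin n => d (Fin.castLE hng j) * (B j : ℤ))
      (fun j : Fin n => (d (Fin.castLE hng j) + 1) * (B j : ℤ))).subset
    rintro x ⟨hx, -⟩
    constructor
    · intro j
      have hb : (0 : ℤ) < B j := by exact_mod_cast hBpos j
      have := Int.ediv_mul_le (x j) hb.ne'
      rw [hx j] at this
      exact this
    · intro j
      have hb : (0 : ℤ) < B j := by exact_mod_cast hBpos j
      have := Int.lt_ediv_add_one_mul_self (x j) hb
      rw [hx j] at this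
      exact this.le
  have hcard : {a : Fin g → ℤ | idx n B a = d ∧ ¬ ∃ (l : ℕ) (_ : Fact l.Prime), 3 ≤ l ∧ ¬ l ∣ q ∧
      Pat q p ((HZ q a).map (Int.castRingHom (ZMod l)))}.ncard ≤
      {x : Fin n → ℤ | (∀ j, x j / (B j : ℤ) = d (Fin.castLE hng j)) ∧
      ∀ l ∈ L, (fun j => (x j : ZMod l)) ∉ BOX_.SS q p n d l}.ncard := by
    apply Set.ncard_le_ncard_of_injOn (fun a j => a (Fin.castLE hng j)) _ _ hfin
    · rintro a ⟨ha, hno⟩
      have ha' : ∀ i : Fin g, idx n B a i = d i := fun i => congrFun ha i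
      refine ⟨?_, ?_⟩
      · intro j
        have := ha' (Fin.castLE hng j)
        unfold idx at this
        rw [dif_pos (by simp)] at this
        simpa using this
      · rintro l hl ⟨hF, hPat⟩
        apply hno
        have hlq := (hL l hl).2.2
        refine ⟨l, hF, by omega, fun h => by
          have := Nat.le_of_dvd (by omega) h
          omega, ?_⟩
        rw [HZ_map]
        have heq : (fun i : Fin g => if h : (i : ℕ) < n then
            (fun j : Fin n => ((a (Fin.castLE hng j) : ℤ) : ZMod l)) ⟨i, h⟩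
            else ((d i : ℤ) : ZMod l)) = fun i : Fin g => ((a i : ℤ) : ZMod l) := by
          funext i
          by_cases h : (i : ℕ) < n
          · rw [dif_pos h]
            rfl
          · rw [dif_neg h]
            have := ha' i
            unfold idx at this
            rw [dif_neg h] at this
            rw [this]
        rw [heq] at hPat
        exact hPat
    · rintro a ⟨ha, -⟩ b ⟨hb, -⟩ hab
      funext i
      by_cases h : (i : ℕ) < n
      · exact congrFun hab ⟨i, h⟩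
      · have h1 : idx n B a i = d i := congrFun ha i
        have h2 : idx n B b i = d i := congrFun hb i
        unfold idx at h1 h2
        rw [dif_neg h] at h1 h2
        rw [h1, h2]
  have hW : (0 : ℝ) ≤ ∏ j, (B j : ℝ) := Finset.prod_nonneg fun j _ => Nat.cast_nonneg _
  have hBm0' : (0 : ℝ) < Bm := by exact_mod_cast hBm0
  have hfinal : 2 / (1 / (64 * (g : ℝ)) * L.card) + 8 * (n : ℝ) * (Y : ℝ) ^ 2 / Bm ≤
      Real.exp (-(c₂ / 32 * g)) := by
    refine le_trans ?_ hnum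
    have : (n : ℝ) ≤ g := by exact_mod_cast hng
    gcongr
  calc _ ≤ (({x : Fin n → ℤ | (∀ j, x j / (B j : ℤ) = d (Fin.castLE hng j)) ∧
      ∀ l ∈ L, (fun j => (x j : ZMod l)) ∉ BOX_.SS q p n d l}.ncard : ℕ) : ℝ) := by
        exact_mod_cast hcard
    _ ≤ _ := hSM'
    _ ≤ (∏ j, (B j : ℝ)) * Real.exp (-(c₂ / 32 * g)) := mul_le_mul_of_nonneg_left hfinal hW
    _ = _ := by ring

end Pool.Agent.FQW
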