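import Pool.Agent.FQW.Basic

set_option autoImplicit false

/-! The number of clustered indices. -/

namespace Pool.Agent.FQW

open Polynomial Finset
open Pool.Agent.CMT (QBar)
open scoped BigOperators

namespace CLUS_

/-- left ends of small gaps -/
noncomputable def Lf {g : ℕ} (τ : Fin g → ℝ) (r : ℝ) : Finset (Fin g) :=
  univ.filter fun i : Fin g => ∃ h : (i : ℕ) + 1 < g, τ ⟨(i : ℕ) + 1, h⟩ - τ i < r

/-- the next index -/
def nx {g : ℕ} (i : Fin g) : Fin g := if h : (i : ℕ) + 1 < g then ⟨(i : ℕ) + 1, h⟩ else i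

lemma close_mem {g : ℕ} {τ : Fin g → ℝ} {r : ℝ} (hm : Monotone τ) {i j : Fin g} (hij : j ≠ i)
    (h : |τ i - τ j| < r) : i ∈ Lf τ r ∪ (Lf τ r).image nx := by
  rcases lt_or_gt_of_ne hij with hlt | hlt
  · -- `j < i`
    have hlt' : (j : ℕ) < i := hlt
    have hi1 : (i : ℕ) - 1 + 1 = i := by omega
    have hlt2 : (i : ℕ) - 1 < g := by omega
    have hlt3 : (i : ℕ) - 1 + 1 < g := by rw [hi1]; exact i.2
    refine mem_union_right _ (mem_image.2 ⟨⟨(i : ℕ) - 1, hlt2⟩, ?_, ?_⟩)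
    · refine mem_filter.2 ⟨mem_univ _, hlt3, ?_⟩
      have e1 : (⟨(i : ℕ) - 1 + 1, hlt3⟩ : Fin g) = i := Fin.ext hi1
      have h2 : τ j ≤ τ ⟨(i : ℕ) - 1, hlt2⟩ := hm (by
        change (j : ℕ) ≤ (i : ℕ) - 1
        omega)
      have h3 := (abs_lt.1 h).2
      change τ ⟨(i : ℕ) - 1 + 1, hlt3⟩ - τ ⟨(i : ℕ) - 1, hlt2⟩ < r
      rw [e1]
      linarith
    · unfold nx
      rw [dif_pos (show ((⟨(i : ℕ) - 1, hlt2⟩ : Fin g) : ℕ) + 1 < g from hlt3)]
      exact Fin.ext hi1
  · -- `i < j`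
    have hlt' : (i : ℕ) < j := hlt
    have hlt3 : (i : ℕ) + 1 < g := lt_of_le_of_lt hlt' j.2
    refine mem_union_left _ (mem_filter.2 ⟨mem_univ _, hlt3, ?_⟩)
    have h2 : τ ⟨(i : ℕ) + 1, hlt3⟩ ≤ τ j := hm (by
      change (i : ℕ) + 1 ≤ (j : ℕ)
      omega)
    have h3 := (abs_lt.1 h).1
    linarith

end CLUS_

open CLUS_ in
theorem tCLUS : T_CLUS := by
  classical
  intro q g τ r hm hb hr
  set U := Lf τ r ∪ (Lf τ r).image nx with hU
  set A : Finset (Fin g) := univ.filter fun i => i ∉ U ∧ 2 * √(q : ℝ) - r < τ i with hA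
  set B : Finset (Fin g) := univ.filter fun i => i ∉ U ∧ 2 * √(q : ℝ) - r < -τ i with hB
  have hsub : clus q τ r ⊆ U ∪ (A ∪ B) := by
    intro i hi
    by_cases hiU : i ∈ U
    · exact mem_union_left _ hiU
    · rcases (mem_filter.1 hi).2 with ⟨j, hj, hlt⟩ | h
      · exact absurd (close_mem hm hj hlt) hiU
      · refine mem_union_right _ ?_
        rcases lt_abs.1 h with h1 | h1
        · exact mem_union_left _ (mem_filter.2 ⟨mem_univ _, hiU, h1⟩)
        · exact mem_union_right _ (mem_filter.2 ⟨mem_univ _, hiU, h1⟩)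
  have hUc : U.card ≤ 2 * npairs τ r := by
    have h1 : (Lf τ r).card = npairs τ r := rfl
    have h2 : ((Lf τ r).image nx).card ≤ npairs τ r := by
      rw [← h1]
      exact card_image_le
    rw [hU]
    refine (card_union_le _ _).trans ?_
    omega
  have hAc : A.card ≤ 1 := by
    rw [card_le_one]
    intro i hi j hj
    obtain ⟨-, h1, h2⟩ := mem_filter.1 hi
    obtain ⟨-, h3, h4⟩ := mem_filter.1 hj
    by_contra hne
    refine h1 (close_mem hm (Ne.symm hne) ?_)
    have h5 := (abs_le.1 (hb i)).2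
    have h6 := (abs_le.1 (hb j)).2
    rw [abs_lt]
    constructor <;> linarith
  have hBc : B.card ≤ 1 := by
    rw [card_le_one]
    intro i hi j hj
    obtain ⟨-, h1, h2⟩ := mem_filter.1 hi
    obtain ⟨-, h3, h4⟩ := mem_filter.1 hj
    by_contra hne
    refine h1 (close_mem hm (Ne.symm hne) ?_)
    have h5 := (abs_le.1 (hb i)).1
    have h6 := (abs_le.1 (hb j)).1
    rw [abs_lt]
    constructor <;> linarith
  have h1 := card_le_card hsub
  have h2 := card_union_le U (A ∪ B)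
  have h3 := card_union_le A B
  omega

end Pool.Agent.FQW
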