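import Mathlib
import Pool.Agent.FQW.Targets

set_option autoImplicit false

/-!
# CNT: the number of multiples
-/

namespace Pool.Agent.FQW

open Polynomial

namespace CNT_

theorem card_degreeLT (l : ℕ) [Fact l.Prime] (N : ℕ) :
    ((degreeLT (ZMod l) N : Submodule (ZMod l) (ZMod l)[X]) : Set (ZMod l)[X]).ncard = l ^ N := by
  rw [← Nat.card_coe_set_eq]
  have h1 := Nat.card_congr (degreeLTEquiv (ZMod l) N).toEquiv
  refine Eq.trans h1 ?_
  rw [Nat.card_eq_fintype_card, Fintype.card_fun, ZMod.card, Fintype.card_fin]

theorem lt_iff (l : ℕ) [Fact l.Prime] (n : ℕ) (m w : (ZMod l)[X]) (hm : m.Monic)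
    (hn : m.natDegree ≤ n) : (m * w).degree < n ↔ w.degree < (n - m.natDegree : ℕ) := by
  by_cases hw : w = 0
  · simp [hw]
  · rw [degree_mul, degree_eq_natDegree hm.ne_zero, degree_eq_natDegree hw]
    constructor
    · intro h
      have h' : m.natDegree + w.natDegree < n := by exact_mod_cast h
      have : w.natDegree < n - m.natDegree := by omega
      exact_mod_cast this
    · intro h
      have h' : w.natDegree < n - m.natDegree := by exact_mod_cast h
      have : m.natDegree + w.natDegree < n := by omega
      exact_mod_cast this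

end CNT_

open CNT_ in
theorem tCNT : T_CNT := by
  intro l _ n H m hm hn
  rw [← card_degreeLT l (n - m.natDegree)]
  have hmod : (H %ₘ m).degree < n := by
    refine lt_of_lt_of_le (degree_modByMonic_lt H hm) ?_
    rw [degree_eq_natDegree hm.ne_zero]
    exact_mod_cast hn
  have hdiv := modByMonic_add_div H m
  have himg : {h : (ZMod l)[X] | (h - H).degree < n ∧ m ∣ h} =
      (fun w => m * (H /ₘ m) + m * w) ''
        ((degreeLT (ZMod l) (n - m.natDegree) : Submodule (ZMod l) (ZMod l)[X]) :
          Set (ZMod l)[X]) := by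
    ext h
    rw [Set.mem_ofPred_eq, Set.mem_image]
    constructor
    · rintro ⟨h1, v, hv⟩
      refine ⟨v - H /ₘ m, ?_, ?_⟩
      · rw [SetLike.mem_coe, mem_degreeLT, ← lt_iff l n m _ hm hn]
        have : m * (v - H /ₘ m) = (h - H) + H %ₘ m := by
          rw [mul_sub, ← hv]
          linear_combination -hdiv
        rw [this]
        exact lt_of_le_of_lt (degree_add_le _ _) (max_lt h1 hmod)
      · change m * (H /ₘ m) + m * (v - H /ₘ m) = h
        rw [hv]
        ring
    · rintro ⟨w, hw, rfl⟩
      rw [SetLike.mem_coe, mem_degreeLT, ← lt_iff l n m _ hm hn] at hw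
      refine ⟨?_, ?_⟩
      · have : m * (H /ₘ m) + m * w - H = m * w - H %ₘ m := by
          linear_combination hdiv
        change (m * (H /ₘ m) + m * w - H).degree < n
        rw [this]
        exact lt_of_le_of_lt (degree_sub_le _ _) (max_lt hw hmod)
      · exact dvd_add (dvd_mul_right _ _) (dvd_mul_right _ _)
  rw [himg, Set.ncard_image_of_injective]
  intro w w' hww
  have h1 : m * (H /ₘ m) + m * w = m * (H /ₘ m) + m * w' := hww
  exact mul_left_cancel₀ hm.ne_zero (add_left_cancel h1)

end Pool.Agent.FQW
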