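import Mathlib
import Pool.Agent.FQW.Basic

set_option autoImplicit false

/-!
# FQW, CV: change of the basis
-/

namespace Pool.Agent.FQW

open Polynomial Finset
open Pool.Agent.AWP (poly IsRealWeil)
open scoped BigOperators

namespace CV_

lemma poly_coeff {g : ℕ} (p : ℤ[X]) (hp : p.Monic) (hg : p.natDegree = g) :
    poly (fun i : Fin g => p.coeff (g - 1 - i.val)) = p := by
  unfold poly
  conv_rhs => rw [hp.as_sum, hg]
  congr 1
  rw [← Finset.sum_range_reflect, Finset.sum_range]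

lemma poly_degree_lt {g : ℕ} (b : Fin g → ℤ) :
    (∑ i : Fin g, C (b i) * X ^ (g - 1 - i.val) : ℤ[X]).degree < (g : ℕ) := by
  refine lt_of_le_of_lt (degree_sum_le _ _) ?_
  refine (Finset.sup_lt_iff (WithBot.bot_lt_coe g)).2 ?_
  intro i _
  refine lt_of_le_of_lt (degree_C_mul_X_pow_le _ _) ?_
  have := i.2
  have h : g - 1 - i.val < g := by omega
  exact Nat.cast_lt.2 h

lemma poly_monic {g : ℕ} (b : Fin g → ℤ) : (poly b).Monic :=
  monic_X_pow_add (poly_degree_lt b)

lemma poly_natDegree {g : ℕ} (b : Fin g → ℤ) : (poly b).natDegree = g := by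
  have h : (poly b).degree = (g : ℕ) := by
    unfold poly
    rw [degree_add_eq_left_of_degree_lt]
    · exact degree_X_pow g
    · rw [degree_X_pow]; exact poly_degree_lt b
  exact natDegree_eq_of_degree_eq_some h

lemma coeff_poly {g : ℕ} (b : Fin g → ℤ) (i : Fin g) : (poly b).coeff (g - 1 - i.val) = b i := by
  have hi := i.2
  unfold poly
  rw [coeff_add, coeff_X_pow, if_neg (by omega), zero_add, finsetSum_coeff,
    Finset.sum_eq_single i]
  · rw [coeff_C_mul, coeff_X_pow, if_pos rfl, mul_one]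
  · intro j _ hj
    rw [coeff_C_mul, coeff_X_pow, if_neg, mul_zero]
    intro h
    apply hj
    have := j.2
    exact Fin.ext (by omega)
  · intro h
    exact absurd (mem_univ i) h

/-- the coordinates of `HZ q a` in the basis of the powers -/
noncomputable def phi (q g : ℕ) (a : Fin g → ℤ) : Fin g → ℤ :=
  fun i => (HZ q a).coeff (g - 1 - i.val)

lemma poly_phi (q g : ℕ) (a : Fin g → ℤ) : poly (phi q g a) = HZ q a :=
  poly_coeff _ (HZ_monic q a) (HZ_natDegree q a)

lemma phi_bij (q g : ℕ) : Function.Bijective (phi q g) := by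
  constructor
  · intro a b h
    apply HZ_injective q g
    rw [← poly_phi, ← poly_phi, h]
  · intro b
    obtain ⟨a, ha⟩ := HZ_surj q g (poly b) (poly_monic b) (poly_natDegree b)
    refine ⟨a, ?_⟩
    ext i
    unfold phi
    rw [← ha, coeff_poly]

/-- a multiset as a monotone vector -/
lemma sorted (m : Multiset ℝ) (g : ℕ) (h : Multiset.card m = g) :
    ∃ τ : Fin g → ℝ, Monotone τ ∧ (∀ i, τ i ∈ m) ∧
      (m.map fun a => (X - C a : ℝ[X])).prod = ∏ i, (X - C (τ i)) := by
  obtain ⟨l, rfl⟩ : ∃ l : List ℝ, (l : Multiset ℝ) = m := Quot.exists_rep m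
  rw [Multiset.coe_card] at h
  subst h
  let τ0 : Fin l.length → ℝ := l.get
  refine ⟨τ0 ∘ Tuple.sort τ0, Tuple.monotone_sort τ0, fun i => ?_, ?_⟩
  · exact Multiset.mem_coe.2 (List.get_mem l _)
  · rw [Multiset.map_coe, Multiset.prod_coe]
    have h1 : ∏ i, (X - C ((τ0 ∘ Tuple.sort τ0) i) : ℝ[X]) = ∏ i, (X - C (τ0 i)) :=
      Equiv.prod_comp (Tuple.sort τ0) (fun i => (X - C (τ0 i) : ℝ[X]))
    rw [h1]
    conv_lhs => rw [← List.ofFn_get l, List.map_ofFn, List.prod_ofFn]
    rfl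

lemma aeval_complex (p : ℤ[X]) (z : ℂ) :
    aeval z p = eval₂ Complex.ofRealHom z (p.map (Int.castRingHom ℝ)) := by
  rw [eval₂_map, aeval_def]
  congr 1

lemma sq_le_iff (q : ℕ) (y : ℝ) : y ^ 2 ≤ 4 * q ↔ |y| ≤ 2 * √(q : ℝ) := by
  have h1 : (4 * q : ℝ) = (2 * √(q : ℝ)) ^ 2 := by
    rw [mul_pow, Real.sq_sqrt (Nat.cast_nonneg q)]
    norm_num
  rw [h1, sq_le_sq, abs_of_nonneg (by positivity : (0 : ℝ) ≤ 2 * √(q : ℝ))]

lemma mem_P_iff (q g : ℕ) (a : Fin g → ℤ) : a ∈ P q g ↔ IsRealWeil q (phi q g a) := by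
  unfold IsRealWeil
  rw [poly_phi]
  constructor
  · rintro ⟨τ, _, h2, h3⟩ z hz
    rw [aeval_complex, h3, eval₂_finsetProd, Finset.prod_eq_zero_iff] at hz
    obtain ⟨i, _, hi⟩ := hz
    rw [eval₂_sub, eval₂_X, eval₂_C, sub_eq_zero] at hi
    exact ⟨τ i, hi, (sq_le_iff q (τ i)).2 (h2 i)⟩
  · intro h
    set p : ℝ[X] := (HZ q a).map (Int.castRingHom ℝ) with hp
    have hm : p.Monic := (HZ_monic q a).map _
    have hd : p.natDegree = g := by
      rw [hp, (HZ_monic q a).natDegree_map, HZ_natDegree]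
    have hroot : ∀ z ∈ (p.map Complex.ofRealHom).roots, ∃ y : ℝ, z = y ∧ y ^ 2 ≤ 4 * q := by
      intro z hz
      apply h
      have h1 := (mem_roots'.mp hz).2
      rw [IsRoot.def, eval_map] at h1
      rw [aeval_complex]
      exact h1
    have hs : p.Splits := by
      refine Splits.of_splits_map Complex.ofRealHom (IsAlgClosed.splits _) ?_
      intro z hz
      obtain ⟨y, hy, _⟩ := hroot z hz
      exact ⟨y, hy.symm⟩
    have hcard : Multiset.card p.roots = g := by
      rw [← hs.natDegree_eq_card_roots, hd]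
    obtain ⟨τ, h1, h2, h3⟩ := sorted p.roots g hcard
    refine ⟨τ, h1, fun i => ?_, ?_⟩
    · have h4 : ((τ i : ℝ) : ℂ) ∈ (p.map Complex.ofRealHom).roots := by
        rw [hs.roots_map]
        exact Multiset.mem_map_of_mem _ (h2 i)
      obtain ⟨y, hy, hy2⟩ := hroot _ h4
      have : τ i = y := by exact_mod_cast hy
      rw [this]
      exact (sq_le_iff q y).1 hy2
    · rw [← hp, ← h3]
      exact hs.eq_prod_roots_of_monic hm

end CV_

open CV_ in
theorem tCV : T_CV := by
  intro q g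
  refine ⟨Equiv.ofBijective (phi q g) (phi_bij q g), fun a => ⟨poly_phi q g a, mem_P_iff q g a⟩⟩

end Pool.Agent.FQW
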