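import Pool.Agent.FQW.Basic

set_option autoImplicit false

namespace Pool.Agent.FQW

open Finset

theorem tDET : T_DET := by
  classical
  intro q k x
  have h := Matrix.det_eval_matrixOfPolynomials_eq_det_vandermonde x
    (fun j : Fin k => (dk q j).map (Int.castRingHom ℝ)) (fun i => ?_) (fun i => ?_)
  · rw [← h, Matrix.det_vandermonde, Finset.abs_prod]
    unfold vdm
    apply Finset.prod_congr rfl
    intro i _
    rw [Finset.abs_prod]
  · exact dkR_natDegree ℝ q i
  · exact dkR_monic ℝ q i

end Pool.Agent.FQW
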