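import Mathlib
import Pool.Agent.FQW.Basic

set_option autoImplicit false

/-!
# The sizes at the nodes are large
-/

namespace Pool.Agent.FQW

open Polynomial Finset Filter
open scoped BigOperators

namespace E2A_

/-- numerical conditions for large `g` -/
structure Num (q g : ℕ) : Prop where
  h20 : 20 ≤ g
  hL : 128 ≤ Real.log g
  hQ : 4 * √(q : ℝ) * Real.log g ^ 22 + 2 ≤ g
  h45 : 1024 * Real.log g ^ 45 ≤ g

theorem num_ev (q : ℕ) : ∀ᶠ g : ℕ in atTop, Num q g := by
  have hc : Tendsto (fun g : ℕ => (g : ℝ)) atTop atTop := tendsto_natCast_atTop_atTop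
  have h1 : ∀ᶠ g : ℕ in atTop, 20 ≤ g := eventually_ge_atTop 20
  have h2 : ∀ᶠ g : ℕ in atTop, 128 ≤ Real.log (g : ℝ) :=
    (Real.tendsto_log_atTop.comp hc).eventually_ge_atTop 128
  have hQ0 : 0 ≤ √(q : ℝ) := Real.sqrt_nonneg _
  have h3 := hc.eventually ((Real.isLittleO_pow_log_id_atTop (n := 22)).bound
    (show (0 : ℝ) < 1 / (8 * √(q : ℝ) + 8) by positivity))
  have h4 := hc.eventually ((Real.isLittleO_pow_log_id_atTop (n := 45)).bound
    (show (0 : ℝ) < 1 / 1024 by norm_num))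
  filter_upwards [h1, h2, h3, h4] with g g1 g2 g3 g4
  have hL0 : 0 < Real.log (g : ℝ) := by linarith
  rw [Real.norm_of_nonneg (by positivity), id, Real.norm_of_nonneg (by positivity)] at g3 g4
  refine ⟨g1, g2, ?_, by linarith⟩
  have h5 : (8 * √(q : ℝ) + 8) * Real.log (g : ℝ) ^ 22 ≤ g := by
    have h := mul_le_mul_of_nonneg_left g3 (show (0 : ℝ) ≤ 8 * √(q : ℝ) + 8 by positivity)
    have e : (8 * √(q : ℝ) + 8) * (1 / (8 * √(q : ℝ) + 8) * (g : ℝ)) = g := by
      field_simp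
    rw [e] at h
    exact h
  have h6 : (1 : ℝ) ≤ Real.log (g : ℝ) ^ 22 := one_le_pow₀ (by linarith)
  have h7 : 0 ≤ √(q : ℝ) * Real.log (g : ℝ) ^ 22 := by positivity
  nlinarith

section

variable {q g : ℕ}

theorem Num.g0 (h : Num q g) : (0 : ℝ) < g := by
  have : 0 < g := by have := h.h20; omega
  exact_mod_cast this

theorem Num.g20 (h : Num q g) : (20 : ℝ) ≤ g := by exact_mod_cast h.h20

theorem Num.L0 (h : Num q g) : 0 < Real.log g := by have := h.hL; linarith

theorem Num.pow_le (h : Num q g) (m : ℕ) (hm : m ≤ 45) : 1024 * Real.log g ^ m ≤ g := by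
  have h1 : Real.log (g : ℝ) ^ m ≤ Real.log g ^ 45 :=
    pow_le_pow_right₀ (by have := h.hL; linarith) hm
  have := h.h45
  linarith

theorem Num.one_le_pow (h : Num q g) (m : ℕ) : 1 ≤ Real.log (g : ℝ) ^ m :=
  one_le_pow₀ (by have := h.hL; linarith)

theorem Num.gexp (h : Num q g) (m : ℕ) : (g : ℝ) ^ m = Real.exp (m * Real.log g) := by
  rw [Real.exp_nat_mul, Real.exp_log h.g0]

theorem rho_pos : 0 < rho g := Real.exp_pos _

theorem epc_pos : 0 < epc g := Real.exp_pos _

theorem Num.eps_pos (h : Num q g) : 0 < eps g := by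
  have := h.g0
  have := rho_pos (g := g)
  unfold eps
  positivity

theorem Num.epc_le (h : Num q g) : epc g ≤ eps g := by
  have hg0 := h.g0
  have hL0 := h.L0
  have hL := h.hL
  unfold epc eps rho ell
  rw [le_div_iff₀ (by positivity), h.gexp 10, ← Real.exp_add]
  apply Real.exp_le_exp.2
  have h2 : (g : ℝ) / Real.log g ^ 20 ≤ g / (2 * Real.log g ^ 9) := by
    apply div_le_div_of_nonneg_left hg0.le (by positivity)
    have : (2 : ℝ) ≤ Real.log g ^ 11 := by
      calc (2 : ℝ) ≤ 128 ^ 11 := by norm_num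
        _ ≤ Real.log g ^ 11 := by gcongr
    calc 2 * Real.log g ^ 9 ≤ Real.log g ^ 11 * Real.log g ^ 9 := by gcongr
      _ = Real.log g ^ 20 := by ring
  have h3 : 10 * Real.log g ≤ g / (2 * Real.log g ^ 9) := by
    rw [le_div_iff₀ (by positivity)]
    have h5 := h.pow_le 10 (by norm_num)
    have h6 : 0 ≤ Real.log (g : ℝ) ^ 10 := by positivity
    calc 10 * Real.log (g : ℝ) * (2 * Real.log (g : ℝ) ^ 9) = 20 * Real.log (g : ℝ) ^ 10 := by ring
      _ ≤ (g : ℝ) := by linarith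
  have h4 : (g : ℝ) / Real.log g ^ 9 = g / (2 * Real.log g ^ 9) + g / (2 * Real.log g ^ 9) := by
    field_simp
    ring
  rw [h4]
  push_cast
  linarith

/-- the number of roots in clusters -/
theorem card_le (hCLUS : T_CLUS) (h : Num q g) {τ : Fin g → ℝ} (hm : Monotone τ)
    (hb : ∀ i, |τ i| ≤ 2 * √(q : ℝ)) (ht : Typ q τ) :
    ((clus q τ (rho g)).card : ℝ) + 1 ≤ Real.log g ^ 22 := by
  have h1 := hCLUS q g τ (rho g) hm hb rho_pos
  have h2 : ((clus q τ (rho g)).card : ℝ) ≤ 2 * (npairs τ (rho g) : ℝ) + 2 := by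
    exact_mod_cast h1
  have h3 := ht.tp
  change (npairs τ (rho g) : ℝ) < _ at h3
  have h4 : (4 : ℝ) ≤ Real.log g ^ 22 := by
    calc (4 : ℝ) ≤ 128 ^ 22 := by norm_num
      _ ≤ Real.log g ^ 22 := by have := h.hL; gcongr
  linarith

/-- the nodes lie in the interval -/
theorem node_le {r c : ℝ} (hr : 0 < r) (hc : 0 < c) {T : Finset (Fin g)} {x : Fin g → ℝ}
    (hn : Nodes q r c T x) (k : Fin g) : |x k| ≤ 2 * √(q : ℝ) := by
  by_cases hk : k ∈ T
  · have := hn.inn k hk
    linarith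
  · have := hn.out k hk
    linarith

/-- the nodes are close to the roots -/
theorem close_le (h : Num q g) {T : Finset (Fin g)} {τ x : Fin g → ℝ}
    (hT : (T.card : ℝ) + 1 ≤ Real.log g ^ 22) (hc : Close q (eps g) (epc g) T τ x) (j : Fin g) :
    |x j - τ j| ≤ rho g / (g : ℝ) ^ 9 := by
  have hg0 := h.g0
  have hg20 := h.g20
  have he : (g : ℝ) * eps g = rho g / (g : ℝ) ^ 9 := by
    unfold eps
    field_simp
  have he0 := h.eps_pos
  by_cases hj : j ∈ T
  · refine le_trans (hc.cc j hj) ?_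
    rw [← he]
    have h1 : 4 * √(q : ℝ) * (T.card : ℝ) ≤ g := by
      have h2 : 4 * √(q : ℝ) * (T.card : ℝ) ≤ 4 * √(q : ℝ) * Real.log g ^ 22 := by
        have : (T.card : ℝ) ≤ Real.log g ^ 22 := by linarith
        gcongr
      have := h.hQ
      linarith
    have h3 := h.epc_le
    have h4 := epc_pos (g := g)
    calc 4 * √(q : ℝ) * (T.card : ℝ) * epc g ≤ g * epc g := by gcongr
      _ ≤ g * eps g := by gcongr
  · refine le_trans (hc.cl j hj) ?_
    rw [← he]
    have h1 : (1 / 2 - 1 / (g : ℝ) ^ 2) ≤ g := by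
      have : 0 < 1 / (g : ℝ) ^ 2 := by positivity
      linarith
    gcongr

/-- comparison of two products -/
theorem prod_cmp (T : Finset (Fin g)) (x τ : Fin g → ℝ) (y a A b : ℝ) (k : Fin g)
    (hA : 1 ≤ A) (hb : 1 ≤ b) (ha : |y - τ k| ≤ a)
    (h1 : ∀ j ∈ T, j ≠ k → |y - τ j| ≤ A * |x k - x j|)
    (h2 : ∀ j, j ∉ T → j ≠ k → |y - τ j| ≤ b * |x k - x j|) :
    ∏ j, |y - τ j| ≤ a * (A ^ T.card * b ^ g * Wd x k) := by
  classical
  rw [← Finset.mul_prod_erase univ _ (mem_univ k)]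
  have h3 : ∏ j ∈ univ.erase k, |y - τ j| ≤
      ∏ j ∈ univ.erase k, (((if j ∈ T then A else 1) * b) * |x k - x j|) := by
    refine Finset.prod_le_prod (fun _ _ => abs_nonneg _) fun j hj => ?_
    have hjk : j ≠ k := (Finset.mem_erase.1 hj).1
    split_ifs with hjT
    · refine le_trans (h1 j hjT hjk) ?_
      have : A ≤ A * b := le_mul_of_one_le_right (by linarith) hb
      gcongr
    · rw [one_mul]
      exact h2 j hjT hjk
  have h4 : ∏ j ∈ univ.erase k, ((if j ∈ T then A else 1) * b) ≤ A ^ T.card * b ^ g := by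
    calc ∏ j ∈ univ.erase k, ((if j ∈ T then A else 1) * b)
        ≤ ∏ j ∈ (univ : Finset (Fin g)), ((if j ∈ T then A else 1) * b) := by
          have h1 : ∀ j : Fin g, (1 : ℝ) ≤ (if j ∈ T then A else 1) * b := by
            intro j
            have : (1 : ℝ) ≤ if j ∈ T then A else 1 := by split_ifs <;> linarith
            exact one_le_mul_of_one_le_of_one_le this hb
          rw [← Finset.mul_prod_erase univ _ (mem_univ k)]
          exact le_mul_of_one_le_left
            (Finset.prod_nonneg fun j _ => le_trans zero_le_one (h1 j)) (h1 k)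
      _ = A ^ T.card * b ^ g := by
          rw [Finset.prod_mul_distrib, Finset.prod_ite_mem, Finset.univ_inter, Finset.prod_const,
            Finset.prod_const, card_univ, Fintype.card_fin]
  have hW : 0 ≤ Wd x k := Finset.prod_nonneg fun _ _ => abs_nonneg _
  have h5 : ∏ j ∈ univ.erase k, |y - τ j| ≤ A ^ T.card * b ^ g * Wd x k := by
    refine le_trans h3 ?_
    rw [Finset.prod_mul_distrib]
    exact mul_le_mul_of_nonneg_right h4 hW
  exact mul_le_mul ha h5 (Finset.prod_nonneg fun _ _ => abs_nonneg _)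
    (le_trans (abs_nonneg _) ha)

theorem Num.b_le (h : Num q g) : (1 + 4 / (g : ℝ) ^ 4) ^ g ≤ 2 := by
  have hg0 := h.g0
  have hg20 := h.g20
  have h1 : (1 + 4 / (g : ℝ) ^ 4) ^ g ≤ (Real.exp (4 / (g : ℝ) ^ 4)) ^ g := by
    have := Real.add_one_le_exp (4 / (g : ℝ) ^ 4)
    apply pow_le_pow_left₀ (by positivity)
    linarith
  refine le_trans h1 ?_
  rw [← Real.exp_nat_mul]
  have h2 : (g : ℝ) * (4 / (g : ℝ) ^ 4) = 4 / (g : ℝ) ^ 3 := by field_simp
  rw [h2]
  have h3 : 4 / (g : ℝ) ^ 3 ≤ 1 / 2 := by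
    rw [div_le_div_iff₀ (by positivity) (by norm_num)]
    have : (20 : ℝ) ^ 3 ≤ (g : ℝ) ^ 3 := by gcongr
    linarith
  have h4 : Real.exp (4 / (g : ℝ) ^ 3) ≤ Real.exp (1 / 2) := Real.exp_le_exp.2 h3
  have h5 : Real.exp (1 / 2) ≤ 2 := by
    have h6 : Real.exp (1 / 2) ^ 2 ≤ 2 ^ 2 := by
      rw [← Real.exp_nat_mul]
      norm_num
      have := Real.exp_one_lt_d9
      linarith
    exact le_of_sq_le_sq h6 (by norm_num)
  linarith

/-- the lower bound at the isolated nodes -/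
theorem low_out (h : Num q g) {τ x : Fin g → ℝ} {T : Finset (Fin g)}
    (hT : (T.card : ℝ) + 1 ≤ Real.log g ^ 22)
    (ht : TL q τ (ell g + 4 * Real.log g) (Dl g (ell g + 4 * Real.log g)))
    (hn : Nodes q (rho g) (epc g) T x) (hc : Close q (eps g) (epc g) T τ x)
    (k : Fin g) (hk : k ∉ T) :
    √(q : ℝ) ^ g * Real.exp (-(Dl g (ell g + 4 * Real.log g))) ≤
      8 * (g : ℝ) ^ 6 * Mn (eps g) (epc g) T x k := by
  have hg0 := h.g0
  have hg20 := h.g20
  have hr := rho_pos (g := g)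
  obtain ⟨y, -, hyx, hy⟩ := ht (x k) (node_le hr epc_pos hn k)
  have e1 : Real.exp (-(ell g + 4 * Real.log g)) = rho g / (g : ℝ) ^ 4 := by
    rw [h.gexp 4, rho, ← Real.exp_sub]
    congr 1
    push_cast
    ring
  rw [e1] at hyx
  refine le_trans hy ?_
  have h9 : rho g / (g : ℝ) ^ 9 ≤ rho g / (g : ℝ) ^ 4 := by
    apply div_le_div_of_nonneg_left hr.le (by positivity)
    exact pow_le_pow_right₀ (by linarith) (by norm_num)
  have h1 : ∀ j, j ∉ (∅ : Finset (Fin g)) → j ≠ k →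
      |y - τ j| ≤ (1 + 4 / (g : ℝ) ^ 4) * |x k - x j| := by
    intro j _ hj
    have h2 := hn.far k hk j hj
    have h3 := close_le h hT hc j
    have h4 : |y - τ j| ≤ |y - x k| + |x k - x j| + |x j - τ j| := by
      calc |y - τ j| = |(y - x k) + (x k - x j) + (x j - τ j)| := by congr 1; ring
        _ ≤ _ := le_trans (abs_add_le _ _) (by gcongr; exact abs_add_le _ _)
    have h5 : rho g / (g : ℝ) ^ 4 ≤ 2 * |x k - x j| / (g : ℝ) ^ 4 := by
      have : rho g ≤ 2 * |x k - x j| := by linarith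
      gcongr
    have h6 : (1 + 4 / (g : ℝ) ^ 4) * |x k - x j| =
        |x k - x j| + 2 * |x k - x j| / (g : ℝ) ^ 4 + 2 * |x k - x j| / (g : ℝ) ^ 4 := by ring
    linarith
  have h2 : |y - τ k| ≤ 2 * rho g / (g : ℝ) ^ 4 := by
    have h3 := close_le h hT hc k
    have h4 : |y - τ k| ≤ |y - x k| + |x k - τ k| := by
      calc |y - τ k| = |(y - x k) + (x k - τ k)| := by congr 1; ring
        _ ≤ _ := abs_add_le _ _
    have h5 : 2 * rho g / (g : ℝ) ^ 4 = rho g / (g : ℝ) ^ 4 + rho g / (g : ℝ) ^ 4 := by ring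
    linarith
  have h3 := prod_cmp ∅ x τ y (2 * rho g / (g : ℝ) ^ 4) 1 (1 + 4 / (g : ℝ) ^ 4) k le_rfl
    (by have : 0 < 4 / (g : ℝ) ^ 4 := by positivity
        linarith) h2 (fun j hj => absurd hj (Finset.notMem_empty j)) h1
  refine le_trans h3 ?_
  have hW : 0 ≤ Wd x k := Finset.prod_nonneg fun _ _ => abs_nonneg _
  have hM : Mn (eps g) (epc g) T x k = eps g / 2 * Wd x k := by
    unfold Mn
    rw [if_neg hk]
  rw [hM]
  have hb := h.b_le
  calc 2 * rho g / (g : ℝ) ^ 4 * (1 ^ (∅ : Finset (Fin g)).card * (1 + 4 / (g : ℝ) ^ 4) ^ g * Wd x k)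
      ≤ 2 * rho g / (g : ℝ) ^ 4 * (1 * 2 * Wd x k) := by
        rw [one_pow]
        gcongr
    _ = 8 * (g : ℝ) ^ 6 * (eps g / 2 * Wd x k) := by
        unfold eps
        field_simp
        ring

/-- the lower bound at the other nodes -/
theorem low_in (h : Num q g) {τ x : Fin g → ℝ} {T : Finset (Fin g)}
    (hT : (T.card : ℝ) + 1 ≤ Real.log g ^ 22)
    (ht : TL q τ (g / Real.log g ^ 9) (Dl g (g / Real.log g ^ 9)))
    (hn : Nodes q (rho g) (epc g) T x) (hc : Close q (eps g) (epc g) T τ x)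
    (i : Fin g) (hi : i ∈ T) :
    √(q : ℝ) ^ g * Real.exp (-(Dl g (g / Real.log g ^ 9))) ≤
      2 * (4 * √(q : ℝ) * T.card + 2) ^ (T.card + 1) * Mn (eps g) (epc g) T x i := by
  have hg0 := h.g0
  have hg20 := h.g20
  have hr := rho_pos (g := g)
  have hc0 := epc_pos (g := g)
  have hQ0 : 0 ≤ √(q : ℝ) := Real.sqrt_nonneg _
  obtain ⟨y, -, hyx, hy⟩ := ht (x i) (node_le hr hc0 hn i)
  change |y - x i| ≤ epc g at hyx
  refine le_trans hy ?_
  have hT0 : (0 : ℝ) ≤ T.card := Nat.cast_nonneg _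
  have hAc : 0 ≤ 4 * √(q : ℝ) * (T.card : ℝ) := by positivity
  have h1 : ∀ j ∈ T, j ≠ i → |y - τ j| ≤ (4 * √(q : ℝ) * T.card + 2) * |x i - x j| := by
    intro j hj hji
    have h2 := hn.near i hi j hj (Ne.symm hji)
    have h3 := hc.cc j hj
    have h4 : |y - τ j| ≤ |y - x i| + |x i - x j| + |x j - τ j| := by
      calc |y - τ j| = |(y - x i) + (x i - x j) + (x j - τ j)| := by congr 1; ring
        _ ≤ _ := le_trans (abs_add_le _ _) (by gcongr; exact abs_add_le _ _)
    have h5 : 4 * √(q : ℝ) * T.card * epc g ≤ 4 * √(q : ℝ) * T.card * |x i - x j| := by gcongr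
    have h6 : (4 * √(q : ℝ) * T.card + 2) * |x i - x j| =
        |x i - x j| + |x i - x j| + 4 * √(q : ℝ) * T.card * |x i - x j| := by ring
    linarith
  have h2 : ∀ j, j ∉ T → j ≠ i → |y - τ j| ≤ (1 + 4 / (g : ℝ) ^ 4) * |x i - x j| := by
    intro j hj hji
    have h2 := hn.far j hj i (Ne.symm hji)
    rw [abs_sub_comm] at h2
    have h3 := close_le h hT hc j
    have h4 : |y - τ j| ≤ |y - x i| + |x i - x j| + |x j - τ j| := by
      calc |y - τ j| = |(y - x i) + (x i - x j) + (x j - τ j)| := by congr 1; ring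
        _ ≤ _ := le_trans (abs_add_le _ _) (by gcongr; exact abs_add_le _ _)
    have h9 : rho g / (g : ℝ) ^ 9 ≤ rho g / (g : ℝ) ^ 4 := by
      apply div_le_div_of_nonneg_left hr.le (by positivity)
      exact pow_le_pow_right₀ (by linarith) (by norm_num)
    have h10 : epc g ≤ rho g / (g : ℝ) ^ 4 := by
      refine le_trans h.epc_le ?_
      unfold eps
      apply div_le_div_of_nonneg_left hr.le (by positivity)
      exact pow_le_pow_right₀ (by linarith) (by norm_num)
    have h5 : rho g / (g : ℝ) ^ 4 ≤ 2 * |x i - x j| / (g : ℝ) ^ 4 := by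
      have : rho g ≤ 2 * |x i - x j| := by linarith
      gcongr
    have h6 : (1 + 4 / (g : ℝ) ^ 4) * |x i - x j| =
        |x i - x j| + 2 * |x i - x j| / (g : ℝ) ^ 4 + 2 * |x i - x j| / (g : ℝ) ^ 4 := by ring
    linarith
  have h3 : |y - τ i| ≤ (4 * √(q : ℝ) * T.card + 2) * epc g := by
    have h3 := hc.cc i hi
    have h4 : |y - τ i| ≤ |y - x i| + |x i - τ i| := by
      calc |y - τ i| = |(y - x i) + (x i - τ i)| := by congr 1; ring
        _ ≤ _ := abs_add_le _ _
    have h5 : (4 * √(q : ℝ) * T.card + 2) * epc g =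
      4 * √(q : ℝ) * T.card * epc g + epc g + epc g := by ring
    linarith
  have h4 := prod_cmp T x τ y _ (4 * √(q : ℝ) * T.card + 2) (1 + 4 / (g : ℝ) ^ 4) i (by linarith)
    (by have : 0 < 4 / (g : ℝ) ^ 4 := by positivity
        linarith) h3 h1 h2
  refine le_trans h4 ?_
  have hW : 0 ≤ Wd x i := Finset.prod_nonneg fun _ _ => abs_nonneg _
  have hM : Mn (eps g) (epc g) T x i = epc g * Wd x i := by
    unfold Mn
    rw [if_pos hi]
  rw [hM]
  have hb := h.b_le
  calc (4 * √(q : ℝ) * T.card + 2) * epc g *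
        ((4 * √(q : ℝ) * T.card + 2) ^ T.card * (1 + 4 / (g : ℝ) ^ 4) ^ g * Wd x i)
      ≤ (4 * √(q : ℝ) * T.card + 2) * epc g *
        ((4 * √(q : ℝ) * T.card + 2) ^ T.card * 2 * Wd x i) := by gcongr
    _ = _ := by ring

theorem Num.D1_le (h : Num q g) :
    Dl g (ell g + 4 * Real.log g) ≤ g / (2 * Real.log g ^ 9) := by
  have hg0 := h.g0
  have hL0 := h.L0
  have hL := h.hL
  have h1 : √((g : ℝ) * (ell g + 4 * Real.log g) * Real.log g) ≤ g / (8 * Real.log g ^ 9) := by
    rw [Real.sqrt_le_left (by positivity)]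
    unfold ell
    have h2 := h.pow_le 21 (by norm_num)
    have h3 : (g : ℝ) * (g / Real.log g ^ 20 + 4 * Real.log g) * Real.log g =
        (g ^ 2 + g * (4 * Real.log g ^ 21)) / Real.log g ^ 19 := by
      field_simp
    have h4 : ((g : ℝ) / (8 * Real.log g ^ 9)) ^ 2 = (g ^ 2 * Real.log g / 64) / Real.log g ^ 19 := by
      field_simp
      norm_num
    rw [h3, h4]
    have h5 : 0 ≤ Real.log (g : ℝ) ^ 21 := by positivity
    have h6 : (g : ℝ) * (4 * Real.log g ^ 21) ≤ g * g := by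
      gcongr
      linarith
    have h7 : (g : ℝ) ^ 2 * 128 ≤ g ^ 2 * Real.log g := by gcongr
    have h8 : (g : ℝ) ^ 2 + g * (4 * Real.log g ^ 21) ≤ g ^ 2 * Real.log g / 64 := by
      nlinarith
    gcongr
  unfold Dl
  calc 4 * √((g : ℝ) * (ell g + 4 * Real.log g) * Real.log g)
      ≤ 4 * (g / (8 * Real.log g ^ 9)) := by gcongr
    _ = _ := by
        field_simp
        norm_num

theorem Num.D2_le (h : Num q g) : Dl g (g / Real.log g ^ 9) ≤ 4 * g / Real.log g ^ 4 := by
  have hg0 := h.g0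
  have hL0 := h.L0
  have h1 : √((g : ℝ) * (g / Real.log g ^ 9) * Real.log g) ≤ g / Real.log g ^ 4 := by
    rw [Real.sqrt_le_left (by positivity)]
    apply le_of_eq
    field_simp
  unfold Dl
  calc 4 * √((g : ℝ) * (g / Real.log g ^ 9) * Real.log g)
      ≤ 4 * (g / Real.log g ^ 4) := by gcongr
    _ = _ := by ring

/-- further numerical conditions -/
theorem num2_ev (q : ℕ) (γ : ℝ) (hγ : 0 < γ) : ∀ᶠ g : ℕ in atTop, Num q g ∧
    8 / γ ≤ Real.log g ∧ 8 * (g : ℝ) ^ 6 ≤ Real.exp (γ / 2 * g) ∧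
    3 * Real.log g ^ 23 ≤ γ / 2 * g := by
  have hc : Tendsto (fun g : ℕ => (g : ℝ)) atTop atTop := tendsto_natCast_atTop_atTop
  have h2 : ∀ᶠ g : ℕ in atTop, 8 / γ ≤ Real.log (g : ℝ) :=
    (Real.tendsto_log_atTop.comp hc).eventually_ge_atTop _
  have h3 := hc.eventually ((isLittleO_pow_exp_pos_mul_atTop (k := 6) (half_pos hγ)).bound
      (show (0 : ℝ) < 1 / 8 by norm_num))
  have h4 := hc.eventually ((Real.isLittleO_pow_log_id_atTop (n := 23)).bound
    (show (0 : ℝ) < γ / 6 by positivity))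
  filter_upwards [num_ev q, h2, h3, h4] with g g1 g2 g3 g4
  have hL0 := g1.L0
  rw [Real.norm_of_nonneg (by positivity), Real.norm_of_nonneg (Real.exp_pos _).le] at g3
  rw [Real.norm_of_nonneg (by positivity), id, Real.norm_of_nonneg (by positivity)] at g4
  exact ⟨g1, g2, by linarith, by linarith⟩

end

end E2A_

open E2A_ in
theorem tE2A : T_CLUS → T_E2A := by
  intro hCLUS q hq γ hγ
  obtain ⟨g₀, hg₀⟩ := eventually_atTop.1 (num2_ev q γ hγ)
  refine ⟨g₀, fun g hg τ x hmono hbd htyp hn hc k => ?_⟩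
  obtain ⟨h, h1, h2, h3⟩ := hg₀ g hg
  have hg0 := h.g0
  have hL0 := h.L0
  have hL := h.hL
  have hT := card_le hCLUS h hmono hbd htyp
  have hQ0 : 0 ≤ √(q : ℝ) := Real.sqrt_nonneg _
  set T := clus q τ (rho g) with hTdef
  have hM0 : 0 ≤ Mn (eps g) (epc g) T x k := by
    unfold Mn
    have := h.eps_pos
    have := epc_pos (g := g)
    have hW : 0 ≤ Wd x k := Finset.prod_nonneg fun _ _ => abs_nonneg _
    split_ifs <;> positivity
  have h8 : 8 ≤ γ * Real.log g := by
    rw [div_le_iff₀ hγ] at h1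
    linarith
  by_cases hk : k ∈ T
  · have h4 := low_in h hT htyp.t2 hn hc k hk
    have hA : 4 * √(q : ℝ) * T.card + 2 ≤ g := by
      have h5 : 4 * √(q : ℝ) * (T.card : ℝ) ≤ 4 * √(q : ℝ) * Real.log g ^ 22 := by
        have : (T.card : ℝ) ≤ Real.log g ^ 22 := by linarith
        gcongr
      have := h.hQ
      linarith
    have hP : 2 * (4 * √(q : ℝ) * T.card + 2) ^ (T.card + 1) ≤ Real.exp (γ / 2 * g) := by
      have e2 : (2 : ℝ) ≤ Real.exp (Real.log g ^ 23) := by
        have h5 := Real.add_one_le_exp (Real.log (g : ℝ) ^ 23)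
        have h6 := h.one_le_pow 23
        linarith
      calc 2 * (4 * √(q : ℝ) * T.card + 2) ^ (T.card + 1)
          ≤ Real.exp (Real.log g ^ 23) * (g : ℝ) ^ (T.card + 1) := by gcongr
        _ = Real.exp (Real.log g ^ 23 + ((T.card : ℝ) + 1) * Real.log g) := by
            rw [h.gexp, ← Real.exp_add]
            push_cast
            rfl
        _ ≤ Real.exp (γ / 2 * g) := by
            apply Real.exp_le_exp.2
            have h5 : ((T.card : ℝ) + 1) * Real.log g ≤ Real.log g ^ 22 * Real.log g := by gcongr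
            have h6 : Real.log (g : ℝ) ^ 22 * Real.log g = Real.log g ^ 23 := by ring
            have h7 : 0 ≤ Real.log (g : ℝ) ^ 23 := by positivity
            linarith
    have hD : Dl g (g / Real.log g ^ 9) ≤ γ / 2 * g := by
      refine le_trans h.D2_le ?_
      rw [div_le_iff₀ (by positivity)]
      have h5 := h.one_le_pow 3
      have h6 : 8 * 1 ≤ (γ * Real.log g) * Real.log g ^ 3 := by gcongr
      calc 4 * (g : ℝ) = g / 2 * (8 * 1) := by ring
        _ ≤ g / 2 * ((γ * Real.log g) * Real.log g ^ 3) := by gcongr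
        _ = _ := by ring
    have e : Real.exp (-(γ * g)) = Real.exp (-(γ / 2 * g)) * Real.exp (-(γ / 2 * g)) := by
      rw [← Real.exp_add]; congr 1; ring
    calc √(q : ℝ) ^ g * Real.exp (-(γ * g))
        = (√(q : ℝ) ^ g * Real.exp (-(γ / 2 * g))) * Real.exp (-(γ / 2 * g)) := by rw [e]; ring
      _ ≤ (√(q : ℝ) ^ g * Real.exp (-(Dl g (g / Real.log g ^ 9)))) * Real.exp (-(γ / 2 * g)) := by
          have : Real.exp (-(γ / 2 * g)) ≤ Real.exp (-(Dl g (g / Real.log g ^ 9))) :=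
            Real.exp_le_exp.2 (by linarith)
          gcongr
      _ ≤ (2 * (4 * √(q : ℝ) * T.card + 2) ^ (T.card + 1) * Mn (eps g) (epc g) T x k) *
          Real.exp (-(γ / 2 * g)) := by gcongr
      _ ≤ (Real.exp (γ / 2 * g) * Mn (eps g) (epc g) T x k) * Real.exp (-(γ / 2 * g)) := by gcongr
      _ = Mn (eps g) (epc g) T x k := by
          rw [Real.exp_neg]
          field_simp
  · have h4 := low_out h hT htyp.t1 hn hc k hk
    have hD : Dl g (ell g + 4 * Real.log g) ≤ γ / 2 * g := by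
      refine le_trans h.D1_le ?_
      rw [div_le_iff₀ (by positivity)]
      have h5 := h.one_le_pow 8
      have h6 : 8 * 1 ≤ (γ * Real.log g) * Real.log g ^ 8 := by gcongr
      calc (g : ℝ) = g * 1 := by ring
        _ ≤ g * (8 * 1) := by gcongr; norm_num
        _ ≤ g * ((γ * Real.log g) * Real.log g ^ 8) := by gcongr
        _ = _ := by ring
    have e : Real.exp (-(γ * g)) = Real.exp (-(γ / 2 * g)) * Real.exp (-(γ / 2 * g)) := by
      rw [← Real.exp_add]; congr 1; ring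
    calc √(q : ℝ) ^ g * Real.exp (-(γ * g))
        = (√(q : ℝ) ^ g * Real.exp (-(γ / 2 * g))) * Real.exp (-(γ / 2 * g)) := by rw [e]; ring
      _ ≤ (√(q : ℝ) ^ g * Real.exp (-(Dl g (ell g + 4 * Real.log g)))) *
          Real.exp (-(γ / 2 * g)) := by
          have : Real.exp (-(γ / 2 * g)) ≤ Real.exp (-(Dl g (ell g + 4 * Real.log g))) :=
            Real.exp_le_exp.2 (by linarith)
          gcongr
      _ ≤ (8 * (g : ℝ) ^ 6 * Mn (eps g) (epc g) T x k) * Real.exp (-(γ / 2 * g)) := by gcongr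
      _ ≤ (Real.exp (γ / 2 * g) * Mn (eps g) (epc g) T x k) * Real.exp (-(γ / 2 * g)) := by gcongr
      _ = Mn (eps g) (epc g) T x k := by
          rw [Real.exp_neg]
          field_simp

end Pool.Agent.FQW
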