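import Pool.Agent.FQW.Targets

set_option autoImplicit false

/-!
# E2B: the values at the nodes
-/

namespace Pool.Agent.FQW

open Finset Filter
open scoped BigOperators Topology

namespace E2B_

/-- facts on large `L = log g` -/
theorem eventually_L (Q : ℝ) (hQ : 1 ≤ Q) : ∀ᶠ L : ℝ in atTop, 2 ≤ L ∧ 100 * Q * L ^ 22 ≤ Real.exp L := by
  have h1 := Real.tendsto_pow_mul_exp_neg_atTop_nhds_zero 22
  have h2 : ∀ᶠ L : ℝ in atTop, L ^ 22 * Real.exp (-L) < 1 / (100 * Q) :=
    h1.eventually_lt_const (by positivity)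
  filter_upwards [h2, eventually_ge_atTop 2] with L h3 h4
  refine ⟨h4, ?_⟩
  have hQ0 : 0 < Q := by linarith
  rw [Real.exp_neg, ← div_eq_mul_inv, div_lt_div_iff₀ (Real.exp_pos _) (by positivity)] at h3
  linarith

/-- the numerical facts: `L = log g` -/
theorem numeric (Q : ℝ) (hQ : 1 ≤ Q) (g L t : ℝ) (hg : g = Real.exp L) (hL : 2 ≤ L)
    (h100 : 100 * Q * L ^ 22 ≤ Real.exp L) (ht : t ≤ L ^ 22 / 4 + 2) :
    4 * Q * t + 1 ≤ Real.exp L ∧
      4 * Q * t * Real.exp (-(g / L ^ 9)) ≤ Real.exp (-(g / L ^ 20)) / (2 * g ^ 9) ∧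
      t + 1 ≤ L ^ 22 / 2 := by
  have hL0 : 0 < L := by linarith
  have h22 : (2 : ℝ) ^ 22 ≤ L ^ 22 := pow_le_pow_left₀ (by norm_num) hL 22
  norm_num at h22
  have hQL : 0 ≤ (Q - 1) * L ^ 22 := mul_nonneg (by linarith) (by positivity)
  have h1 : 4 * Q * t + 1 ≤ Real.exp L := by
    have h2 : 4 * Q * t ≤ 4 * Q * (L ^ 22 / 4 + 2) := mul_le_mul_of_nonneg_left ht (by linarith)
    have h3 : Q * 1 ≤ Q * L ^ 22 := mul_le_mul_of_nonneg_left (by linarith) (by linarith)
    nlinarith
  refine ⟨h1, ?_, by linarith⟩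
  have hg0 : 0 < g := by rw [hg]; exact Real.exp_pos _
  -- `g` is large
  have h10 : 2 * L ^ 9 * (10 * L + 1) ≤ g := by
    have h4 : L ^ 10 ≤ L ^ 22 := pow_le_pow_right₀ (by linarith) (by norm_num)
    have h5 : L ^ 9 * 1 ≤ L ^ 9 * L := mul_le_mul_of_nonneg_left (by linarith) (by positivity)
    have h6 : L ^ 9 * L = L ^ 10 := by ring
    have h7 : 2 * L ^ 9 * (10 * L + 1) = 20 * L ^ 10 + 2 * L ^ 9 := by ring
    rw [h7, hg]
    nlinarith
  have h20 : g / L ^ 20 ≤ g / (2 * L ^ 9) := by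
    refine div_le_div_of_nonneg_left hg0.le (by positivity) ?_
    have h8 : (2 : ℝ) ≤ L ^ 11 := by
      calc (2 : ℝ) ≤ L := hL
        _ = L ^ 1 := (pow_one _).symm
        _ ≤ L ^ 11 := pow_le_pow_right₀ (by linarith) (by norm_num)
    calc 2 * L ^ 9 ≤ L ^ 11 * L ^ 9 := mul_le_mul_of_nonneg_right h8 (by positivity)
      _ = L ^ 20 := by ring
  have h9 : 10 * L + 1 ≤ g / (2 * L ^ 9) := by
    rw [le_div_iff₀ (by positivity)]
    linarith
  have h11 : g / L ^ 9 = g / (2 * L ^ 9) + g / (2 * L ^ 9) := by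
    field_simp
    ring
  have h12 : 4 * Q * t * Real.exp (-(g / L ^ 9)) ≤ Real.exp (L + -(g / L ^ 9)) := by
    rw [Real.exp_add]
    exact mul_le_mul_of_nonneg_right (by linarith) (Real.exp_pos _).le
  refine h12.trans ?_
  have h13 : 2 * g ^ 9 ≤ Real.exp (9 * L + 1) := by
    rw [Real.exp_add, hg, ← Real.exp_nat_mul]
    have h14 : (2 : ℝ) ≤ Real.exp 1 := by
      have := Real.add_one_le_exp (1 : ℝ)
      linarith
    push_cast
    have := mul_le_mul_of_nonneg_left h14 (Real.exp_pos (9 * L)).le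
    linarith
  rw [le_div_iff₀ (by positivity)]
  calc Real.exp (L + -(g / L ^ 9)) * (2 * g ^ 9)
      ≤ Real.exp (L + -(g / L ^ 9)) * Real.exp (9 * L + 1) :=
        mul_le_mul_of_nonneg_left h13 (Real.exp_pos _).le
    _ = Real.exp (L + -(g / L ^ 9) + (9 * L + 1)) := (Real.exp_add _ _).symm
    _ ≤ Real.exp (-(g / L ^ 20)) := by
        refine Real.exp_le_exp.mpr ?_
        linarith

/-- the power of `1 + δ` -/
theorem pow_bound (n : ℕ) (δ : ℝ) (h0 : 0 ≤ δ) (h1 : n * δ < 1) (h2 : δ ≤ 1) :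
    (1 + δ) ^ n ≤ 1 / (1 - n * δ) := by
  have h3 : 1 - n * δ ≤ (1 - δ) ^ n := by
    have := one_add_mul_le_pow (a := -δ) (by linarith) n
    have e : (1 - δ) ^ n = (1 + -δ) ^ n := by ring
    rw [e]
    linarith
  rw [le_div_iff₀ (by linarith)]
  calc (1 + δ) ^ n * (1 - n * δ) ≤ (1 + δ) ^ n * (1 - δ) ^ n :=
        mul_le_mul_of_nonneg_left h3 (by positivity)
    _ = (1 - δ ^ 2) ^ n := by rw [← mul_pow]; ring
    _ ≤ 1 := pow_le_one₀ (by nlinarith) (by nlinarith)

end E2B_

theorem tE2B (hC : T_CLUS) : T_E2B := by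
  classical
  intro q hq
  set Q : ℝ := √(q : ℝ) with hQ
  have hQ1 : 1 ≤ Q := by
    rw [hQ, Real.one_le_sqrt]
    exact_mod_cast (by omega : 1 ≤ q)
  have hev := (Real.tendsto_log_atTop.comp tendsto_natCast_atTop_atTop).eventually
    (E2B_.eventually_L Q hQ1)
  obtain ⟨g₁, hg₁⟩ := eventually_atTop.mp hev
  refine ⟨max g₁ 20, ?_⟩
  intro g hg τ x hmono hτ htyp hN hCl
  obtain ⟨hL, h100⟩ := hg₁ g ((le_max_left _ _).trans hg)
  simp only [Function.comp] at hL h100
  have hg20 : 20 ≤ g := (le_max_right _ _).trans hg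
  have hgR : (20 : ℝ) ≤ g := by exact_mod_cast hg20
  have hgpos : (0 : ℝ) < g := by linarith
  set L : ℝ := Real.log g with hLdef
  have hgexp : (g : ℝ) = Real.exp L := (Real.exp_log hgpos).symm
  set T : Finset (Fin g) := clus q τ (rho g) with hT
  set t : ℝ := (T.card : ℝ) with ht
  have ht0 : 0 ≤ t := Nat.cast_nonneg _
  have htL : t ≤ L ^ 22 / 4 + 2 := by
    have h1 := hC q g τ (rho g) hmono hτ (Real.exp_pos _)
    have h2 := htyp.tp
    have h3 : t ≤ 2 * (npairs τ (rho g) : ℝ) + 2 := by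
      rw [ht]
      exact_mod_cast h1
    rw [rho] at h3
    linarith
  obtain ⟨hn1, hn2, hn3⟩ := E2B_.numeric Q hQ1 g L t hgexp hL h100 htL
  have h4Qt : 0 ≤ 4 * Q * t := mul_nonneg (mul_nonneg (by norm_num) (by linarith)) ht0
  have hrho : rho g = Real.exp (-(g / L ^ 20)) := rfl
  have hepc : epc g = Real.exp (-(g / L ^ 9)) := rfl
  have hrho0 : 0 < rho g := Real.exp_pos _
  have hepc0 : 0 < epc g := Real.exp_pos _
  have heps0 : 0 < eps g := by rw [eps]; positivity
  have hT4 : 4 * Q * t * epc g ≤ rho g / (2 * (g : ℝ) ^ 9) := by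
    rw [hrho, hepc]
    exact hn2
  have hcl : ∀ j, |x j - τ j| ≤ rho g / (2 * (g : ℝ) ^ 9) := by
    intro j
    by_cases hj : j ∈ T
    · exact (hCl.cc j hj).trans hT4
    · refine (hCl.cl j hj).trans ?_
      have h1 : (1 / 2 - 1 / (g : ℝ) ^ 2) * eps g ≤ 1 / 2 * eps g :=
        mul_le_mul_of_nonneg_right (by have : 0 < 1 / (g : ℝ) ^ 2 := by positivity
                                       linarith) heps0.le
      refine h1.trans ?_
      rw [eps]
      have h2 : rho g / (g : ℝ) ^ 10 ≤ rho g / (g : ℝ) ^ 9 :=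
        div_le_div_of_nonneg_left hrho0.le (by positivity)
          (pow_le_pow_right₀ (by linarith) (by norm_num))
      have h3 : rho g / (2 * (g : ℝ) ^ 9) = 1 / 2 * (rho g / (g : ℝ) ^ 9) := by
        field_simp
      rw [h3]
      linarith
  set δ : ℝ := 1 / (g : ℝ) ^ 9 with hδ
  have hδ0 : 0 < δ := by positivity
  -- the factors at nodes at distance at least `rho / 2`
  have hfac : ∀ k j, rho g / 2 ≤ |x k - x j| → |x k - τ j| ≤ (1 + δ) * |x k - x j| := by
    intro k j h1
    have h2 : |x k - τ j| ≤ |x k - x j| + |x j - τ j| := abs_sub_le _ _ _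
    have h3 := hcl j
    have h4 : rho g / (2 * (g : ℝ) ^ 9) = δ * (rho g / 2) := by
      rw [hδ]
      field_simp
    rw [h4] at h3
    have h5 : δ * (rho g / 2) ≤ δ * |x k - x j| := mul_le_mul_of_nonneg_left h1 hδ0.le
    linarith
  have hgδ : (g : ℝ) * δ = 1 / (g : ℝ) ^ 8 := by
    rw [hδ]
    field_simp
  have hg8 : (g : ℝ) * δ ≤ 1 / 2 := by
    rw [hgδ]
    refine one_div_le_one_div_of_le (by norm_num) ?_
    calc (2 : ℝ) ≤ g := by linarith
      _ = (g : ℝ) ^ 1 := (pow_one _).symm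
      _ ≤ (g : ℝ) ^ 8 := pow_le_pow_right₀ (by linarith) (by norm_num)
  have hδ1 : δ ≤ 1 := by nlinarith
  have hpow := E2B_.pow_bound g δ hδ0.le (by linarith) hδ1
  have hcard : ∀ k : Fin g, ((univ : Finset (Fin g)).erase k).card ≤ g := by
    intro k
    refine (card_le_univ _).trans ?_
    rw [Fintype.card_fin]
  have hpow' : ∀ k : Fin g, (1 + δ) ^ ((univ : Finset (Fin g)).erase k).card ≤
      1 / (1 - g * δ) := fun k =>
    (pow_le_pow_right₀ (by linarith) (hcard k)).trans hpow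
  have hW0 : ∀ k, 0 ≤ Wd x k := fun k => Finset.prod_nonneg fun j _ => abs_nonneg _
  constructor
  · intro k hk
    rw [← Finset.mul_prod_erase univ _ (mem_univ k), Mn, if_neg hk]
    have h1 : ∏ j ∈ univ.erase k, |x k - τ j| ≤
        (1 + δ) ^ ((univ : Finset (Fin g)).erase k).card * Wd x k := by
      rw [Wd, ← Finset.prod_const, ← Finset.prod_mul_distrib]
      refine Finset.prod_le_prod (fun j _ => abs_nonneg _) fun j hj => ?_
      exact hfac k j (hN.far k hk j (Finset.ne_of_mem_erase hj))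
    have h2 : ∏ j ∈ univ.erase k, |x k - τ j| ≤ 1 / (1 - g * δ) * Wd x k :=
      h1.trans (mul_le_mul_of_nonneg_right (hpow' k) (hW0 k))
    have h3 := hCl.cl k hk
    have hg2 : 0 < 1 / (g : ℝ) ^ 2 := by positivity
    have h4 : 0 ≤ ∏ j ∈ univ.erase k, |x k - τ j| :=
      Finset.prod_nonneg fun j _ => abs_nonneg _
    have h5 : 0 ≤ (1 / 2 - 1 / (g : ℝ) ^ 2) * eps g := (abs_nonneg _).trans h3
    have h6 : (1 / 2 - 1 / (g : ℝ) ^ 2) * (1 / (1 - g * δ)) ≤ (1 - 1 / (g : ℝ) ^ 2) * (1 / 2) := by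
      rw [mul_one_div, div_le_iff₀ (by linarith), hgδ]
      have h7 : 1 / (g : ℝ) ^ 8 ≤ 1 / (g : ℝ) ^ 2 :=
        one_div_le_one_div_of_le (by positivity) (pow_le_pow_right₀ (by linarith) (by norm_num))
      have h8 : 0 < 1 / (g : ℝ) ^ 8 := by positivity
      nlinarith [mul_pos hg2 h8]
    calc |x k - τ k| * ∏ j ∈ univ.erase k, |x k - τ j|
        ≤ ((1 / 2 - 1 / (g : ℝ) ^ 2) * eps g) * (1 / (1 - g * δ) * Wd x k) :=
          mul_le_mul h3 h2 h4 h5
      _ = ((1 / 2 - 1 / (g : ℝ) ^ 2) * (1 / (1 - g * δ))) * (eps g * Wd x k) := by ring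
      _ ≤ ((1 - 1 / (g : ℝ) ^ 2) * (1 / 2)) * (eps g * Wd x k) :=
          mul_le_mul_of_nonneg_right h6 (mul_nonneg heps0.le (hW0 k))
      _ = (1 - 1 / (g : ℝ) ^ 2) * (eps g / 2 * Wd x k) := by ring
  · intro i hi
    rw [← Finset.mul_prod_erase univ _ (mem_univ i), Mn, if_pos hi]
    set A : ℝ := 4 * Q * t + 1 with hA
    have hA1 : 1 ≤ A := by
      linarith
    have hA0 : 0 ≤ A := by linarith
    have h1 : ∏ j ∈ univ.erase i, |x i - τ j| ≤
        (1 + δ) ^ ((univ : Finset (Fin g)).erase i).card * (A ^ T.card * Wd x i) := by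
      have h2 : ∏ j ∈ univ.erase i, |x i - τ j| ≤
          ∏ j ∈ univ.erase i, ((1 + δ) * ((if j ∈ T then A else 1) * |x i - x j|)) := by
        refine Finset.prod_le_prod (fun j _ => abs_nonneg _) fun j hj => ?_
        have hji := Finset.ne_of_mem_erase hj
        by_cases hjT : j ∈ T
        · rw [if_pos hjT]
          have h3 : |x i - τ j| ≤ |x i - x j| + |x j - τ j| := abs_sub_le _ _ _
          have h4 := hCl.cc j hjT
          have h5 := hN.near i hi j hjT hji.symm
          have h6 : 4 * Q * t * epc g ≤ 4 * Q * t * |x i - x j| :=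
            mul_le_mul_of_nonneg_left h5 h4Qt
          have h7 : |x i - τ j| ≤ A * |x i - x j| := by
            rw [hA]
            linarith
          have h8 : 0 ≤ A * |x i - x j| := mul_nonneg hA0 (abs_nonneg _)
          have h9 : 0 ≤ δ * (A * |x i - x j|) := mul_nonneg hδ0.le h8
          linarith
        · rw [if_neg hjT, one_mul]
          refine hfac i j ?_
          rw [abs_sub_comm]
          exact hN.far j hjT i hji.symm
      refine h2.trans ?_
      rw [Finset.prod_mul_distrib, Finset.prod_const, Finset.prod_mul_distrib]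
      refine mul_le_mul_of_nonneg_left ?_ (pow_nonneg (by linarith) _)
      refine mul_le_mul_of_nonneg_right ?_ (hW0 i)
      rw [Finset.prod_ite, Finset.prod_const, Finset.prod_const_one, mul_one]
      refine pow_le_pow_right₀ hA1 (card_le_card ?_)
      intro j hj
      exact (mem_filter.mp hj).2
    have h2 : ∏ j ∈ univ.erase i, |x i - τ j| ≤ 2 * (A ^ T.card * Wd x i) := by
      refine h1.trans ?_
      refine mul_le_mul_of_nonneg_right ?_ (mul_nonneg (pow_nonneg hA0 _) (hW0 i))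
      refine (hpow' i).trans ?_
      rw [div_le_iff₀ (by linarith)]
      linarith
    have h3 : |x i - τ i| ≤ A * epc g := by
      refine (hCl.cc i hi).trans ?_
      rw [hA]
      linarith
    have h4 : 0 ≤ ∏ j ∈ univ.erase i, |x i - τ j| :=
      Finset.prod_nonneg fun j _ => abs_nonneg _
    have h5 : 2 * A ^ (T.card + 1) ≤ Cc g / 2 := by
      have h6 : A ^ (T.card + 1) ≤ Real.exp (L ^ 23 / 2) := by
        calc A ^ (T.card + 1) ≤ (Real.exp L) ^ (T.card + 1) :=
              pow_le_pow_left₀ (by linarith) hn1 _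
          _ = Real.exp (((T.card + 1 : ℕ) : ℝ) * L) := (Real.exp_nat_mul _ _).symm
          _ ≤ Real.exp (L ^ 23 / 2) := by
              refine Real.exp_le_exp.mpr ?_
              have h7 : ((T.card + 1 : ℕ) : ℝ) ≤ L ^ 22 / 2 := by
                push_cast
                exact hn3
              calc ((T.card + 1 : ℕ) : ℝ) * L ≤ L ^ 22 / 2 * L :=
                    mul_le_mul_of_nonneg_right h7 (by linarith)
                _ = L ^ 23 / 2 := by ring
      have h8 : (4 : ℝ) ≤ Real.exp 2 := by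
        have h9 := Real.add_one_le_exp (1 : ℝ)
        have h10 : Real.exp 2 = Real.exp 1 * Real.exp 1 := by rw [← Real.exp_add]; norm_num
        rw [h10]
        nlinarith
      have h11 : 4 * Real.exp (L ^ 23 / 2) ≤ Cc g := by
        rw [Cc]
        calc 4 * Real.exp (L ^ 23 / 2) ≤ Real.exp 2 * Real.exp (L ^ 23 / 2) :=
              mul_le_mul_of_nonneg_right h8 (Real.exp_pos _).le
          _ = Real.exp (2 + L ^ 23 / 2) := (Real.exp_add _ _).symm
          _ ≤ Real.exp (L ^ 24) := by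
              refine Real.exp_le_exp.mpr ?_
              have h12 : (2 : ℝ) ^ 23 ≤ L ^ 23 := pow_le_pow_left₀ (by norm_num) hL 23
              norm_num at h12
              have h13 : 2 * L ^ 23 ≤ L * L ^ 23 :=
                mul_le_mul_of_nonneg_right hL (by positivity)
              have h14 : L * L ^ 23 = L ^ 24 := by ring
              linarith
      linarith
    calc |x i - τ i| * ∏ j ∈ univ.erase i, |x i - τ j|
        ≤ (A * epc g) * (2 * (A ^ T.card * Wd x i)) :=
          mul_le_mul h3 h2 h4 (mul_nonneg hA0 hepc0.le)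
      _ = (2 * A ^ (T.card + 1)) * (epc g * Wd x i) := by ring
      _ ≤ Cc g / 2 * (epc g * Wd x i) :=
          mul_le_mul_of_nonneg_right h5 (mul_nonneg hepc0.le (hW0 i))

end Pool.Agent.FQW
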