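import Mathlib
import Pool.Agent.FQW.Basic
import Pool.Agent.FQW.E2A

set_option autoImplicit false

/-!
# The Lagrange polynomials of the nodes in clusters are harmless at the other nodes
-/

namespace Pool.Agent.FQW

open Polynomial Finset Filter
open scoped BigOperators

namespace E2C_

open E2A_

variable {q g : ℕ}

theorem rpow_le (h : Num q g) : (g : ℝ) ^ (4 / 5 : ℝ) ≤ g / (4 * Real.log g ^ 9) := by
  have hg0 := h.g0
  have hL0 := h.L0
  rw [le_div_iff₀ (by positivity)]
  have h1 : 4 * Real.log (g : ℝ) ^ 9 ≤ (g : ℝ) ^ (1 / 5 : ℝ) := by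
    have h2 : (4 * Real.log (g : ℝ) ^ 9) ^ 5 ≤ g := by
      calc (4 * Real.log (g : ℝ) ^ 9) ^ 5 = 1024 * Real.log (g : ℝ) ^ 45 := by ring
        _ ≤ (g : ℝ) := h.h45
    calc 4 * Real.log (g : ℝ) ^ 9 = ((4 * Real.log (g : ℝ) ^ 9) ^ (5 : ℕ)) ^ (1 / 5 : ℝ) := by
          rw [show (1 / 5 : ℝ) = ((5 : ℕ) : ℝ)⁻¹ by norm_num,
            Real.pow_rpow_inv_natCast (by positivity) (by norm_num)]
      _ ≤ (g : ℝ) ^ (1 / 5 : ℝ) := by
          apply Real.rpow_le_rpow (by positivity) h2 (by norm_num)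
  calc (g : ℝ) ^ (4 / 5 : ℝ) * (4 * Real.log (g : ℝ) ^ 9)
      ≤ (g : ℝ) ^ (4 / 5 : ℝ) * (g : ℝ) ^ (1 / 5 : ℝ) := by gcongr
    _ = g := by
        rw [← Real.rpow_add hg0]
        norm_num

/-- the product over the isolated nodes -/
theorem prod_out (h : Num q g) {τ x : Fin g → ℝ} {T : Finset (Fin g)}
    (hc : Close q (eps g) (epc g) T τ x) (i : Fin g) (B : ℝ)
    (hB : ∏ j, √((x i - τ j) ^ 2 + 1 / (g : ℝ) ^ 2) ≤ B) :
    ∏ j ∈ univ.filter (fun j => j ∉ T), |x i - x j| ≤ 2 * (g : ℝ) ^ T.card * B := by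
  have hg0 := h.g0
  have hg20 := h.g20
  set s : Fin g → ℝ := fun j => √((x i - τ j) ^ 2 + 1 / (g : ℝ) ^ 2) with hs
  have hs1 : ∀ j, 1 / (g : ℝ) ≤ s j := by
    intro j
    apply Real.le_sqrt_of_sq_le
    have := sq_nonneg (x i - τ j)
    rw [div_pow, one_pow]
    linarith
  have hs0 : ∀ j, 0 < s j := fun j => lt_of_lt_of_le (by positivity) (hs1 j)
  have hs2 : ∀ j, |x i - τ j| ≤ s j := by
    intro j
    apply Real.abs_le_sqrt
    have : 0 < 1 / (g : ℝ) ^ 2 := by positivity
    linarith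
  have heps : eps g ≤ 1 / (g : ℝ) ^ 10 := by
    unfold eps
    apply div_le_div_of_nonneg_right _ (by positivity)
    unfold rho
    apply Real.exp_le_one_iff.2
    unfold ell
    have := h.L0
    have : 0 ≤ (g : ℝ) / Real.log g ^ 20 := by positivity
    linarith
  have he0 := h.eps_pos
  have h1 : ∀ j ∈ univ.filter (fun j => j ∉ T), |x i - x j| ≤ (1 + 4 / (g : ℝ) ^ 4) * s j := by
    intro j hj
    have hjT : j ∉ T := (Finset.mem_filter.1 hj).2
    have h2 := hc.cl j hjT
    have h3 : |x i - x j| ≤ |x i - τ j| + |x j - τ j| := by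
      calc |x i - x j| = |(x i - τ j) - (x j - τ j)| := by congr 1; ring
        _ ≤ _ := abs_sub _ _
    have h4 : (1 / 2 - 1 / (g : ℝ) ^ 2) * eps g ≤ 1 * eps g := by
      have : 0 < 1 / (g : ℝ) ^ 2 := by positivity
      gcongr
      linarith
    have h5 : eps g ≤ 4 / (g : ℝ) ^ 4 * s j := by
      calc eps g ≤ 1 / (g : ℝ) ^ 10 := heps
        _ ≤ 4 / (g : ℝ) ^ 4 * (1 / (g : ℝ)) := by
            rw [div_mul_div_comm, div_le_div_iff₀ (by positivity) (by positivity)]
            have h6 : (1 : ℝ) ≤ 4 * (g : ℝ) ^ 5 := by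
              have : (1 : ℝ) ≤ (g : ℝ) ^ 5 := one_le_pow₀ (by linarith)
              linarith
            calc 1 * ((g : ℝ) ^ 4 * g) = (g : ℝ) ^ 5 * 1 := by ring
              _ ≤ (g : ℝ) ^ 5 * (4 * (g : ℝ) ^ 5) := by gcongr
              _ = _ := by ring
        _ ≤ _ := by
            have := hs1 j
            gcongr
    have h6 := hs2 j
    have h7 : (1 + 4 / (g : ℝ) ^ 4) * s j = s j + 4 / (g : ℝ) ^ 4 * s j := by ring
    linarith
  have h2 : ∏ j ∈ univ.filter (fun j => j ∉ T), |x i - x j| ≤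
      (1 + 4 / (g : ℝ) ^ 4) ^ g * ∏ j ∈ univ.filter (fun j => j ∉ T), s j := by
    calc ∏ j ∈ univ.filter (fun j => j ∉ T), |x i - x j|
        ≤ ∏ j ∈ univ.filter (fun j => j ∉ T), ((1 + 4 / (g : ℝ) ^ 4) * s j) :=
          Finset.prod_le_prod (fun _ _ => abs_nonneg _) h1
      _ = (1 + 4 / (g : ℝ) ^ 4) ^ (univ.filter (fun j : Fin g => j ∉ T)).card *
          ∏ j ∈ univ.filter (fun j => j ∉ T), s j := by
          rw [Finset.prod_mul_distrib, Finset.prod_const]
      _ ≤ _ := by
          have h3 : (univ.filter (fun j : Fin g => j ∉ T)).card ≤ g := by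
            refine le_trans (Finset.card_filter_le _ _) ?_
            rw [card_univ, Fintype.card_fin]
          have h4 : (1 : ℝ) ≤ 1 + 4 / (g : ℝ) ^ 4 := by
            have : 0 < 4 / (g : ℝ) ^ 4 := by positivity
            linarith
          have h5 : 0 ≤ ∏ j ∈ univ.filter (fun j => j ∉ T), s j :=
            Finset.prod_nonneg fun j _ => (hs0 j).le
          gcongr
  have h3 : ∏ j ∈ univ.filter (fun j => j ∉ T), s j ≤ (g : ℝ) ^ T.card * B := by
    have e : ∏ j, s j = (∏ j ∈ T, s j) * ∏ j ∈ univ.filter (fun j => j ∉ T), s j := by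
      rw [← Finset.prod_filter_mul_prod_filter_not univ (fun j => j ∈ T)]
      congr 1
      apply Finset.prod_congr _ fun _ _ => rfl
      ext j
      simp
    have h4 : (1 / (g : ℝ)) ^ T.card ≤ ∏ j ∈ T, s j := by
      rw [← Finset.prod_const]
      exact Finset.prod_le_prod (fun _ _ => by positivity) fun j _ => hs1 j
    have h5 : 0 ≤ ∏ j ∈ univ.filter (fun j => j ∉ T), s j :=
      Finset.prod_nonneg fun j _ => (hs0 j).le
    have h6 : (1 / (g : ℝ)) ^ T.card * ∏ j ∈ univ.filter (fun j => j ∉ T), s j ≤ B := by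
      refine le_trans (mul_le_mul_of_nonneg_right h4 h5) ?_
      rw [← e]
      exact hB
    rw [div_pow, one_pow, div_mul_eq_mul_div, one_mul, div_le_iff₀ (by positivity)] at h6
    linarith
  have h4 := h.b_le
  calc ∏ j ∈ univ.filter (fun j => j ∉ T), |x i - x j|
      ≤ (1 + 4 / (g : ℝ) ^ 4) ^ g * ∏ j ∈ univ.filter (fun j => j ∉ T), s j := h2
    _ ≤ 2 * ((g : ℝ) ^ T.card * B) := by
        have h5 : 0 ≤ ∏ j ∈ univ.filter (fun j => j ∉ T), s j :=
          Finset.prod_nonneg fun j _ => (hs0 j).le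
        gcongr
    _ = _ := by ring

/-- the algebra of the products -/
theorem prod_id {T : Finset (Fin g)} {x : Fin g → ℝ} (hx : Function.Injective x) (i k : Fin g)
    (hi : i ∈ T) :
    Wd x i * ∏ j ∈ T.erase i, (|x k - x j| / |x i - x j|) =
      (∏ j ∈ T.erase i, |x k - x j|) * ∏ j ∈ univ.filter (fun j => j ∉ T), |x i - x j| := by
  classical
  have h1 : univ.erase i = T.erase i ∪ univ.filter (fun j => j ∉ T) := by
    ext j
    simp only [Finset.mem_erase, Finset.mem_univ, and_true, Finset.mem_union, Finset.mem_filter,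
      true_and]
    constructor
    · intro h
      by_cases hj : j ∈ T
      · exact Or.inl ⟨h, hj⟩
      · exact Or.inr hj
    · rintro (h | h)
      · exact h.1
      · rintro rfl
        exact h hi
  have h2 : Disjoint (T.erase i) (univ.filter (fun j => j ∉ T)) := by
    rw [Finset.disjoint_left]
    intro j hj hj'
    exact (Finset.mem_filter.1 hj').2 (Finset.mem_of_mem_erase hj)
  have h3 : ∏ j ∈ T.erase i, |x i - x j| ≠ 0 := by
    rw [Finset.prod_ne_zero_iff]
    intro j hj
    rw [abs_ne_zero, sub_ne_zero]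
    intro h
    exact (Finset.mem_erase.1 hj).1 (hx h).symm
  unfold Wd
  rw [h1, Finset.prod_union h2, Finset.prod_div_distrib]
  field_simp

end E2C_

open E2A_ E2C_ in
theorem tE2C : T_CLUS → T_TUP → T_E2C := by
  intro hCLUS hTUP q hq
  obtain ⟨gT, hgT⟩ := hTUP q hq
  obtain ⟨g₀, hg₀⟩ := eventually_atTop.1 (num_ev q)
  refine ⟨max gT g₀, fun g hg τ x hmono hbd htyp hn hc i hi k hk => ?_⟩
  have h := hg₀ g (le_trans (le_max_right _ _) hg)
  have htup := hgT g (le_trans (le_max_left _ _) hg) τ hbd htyp.t0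
  have hg0 := h.g0
  have hg20 := h.g20
  have hL0 := h.L0
  have hL := h.hL
  have hT := card_le hCLUS h hmono hbd htyp
  have hq1 : (1 : ℝ) ≤ q := by
    have : 1 ≤ q := by omega
    exact_mod_cast this
  have hQ1 : 1 ≤ √(q : ℝ) := by
    rw [Real.one_le_sqrt]
    exact hq1
  have hQ0 : 0 < √(q : ℝ) := by linarith
  set T := clus q τ (rho g) with hTdef
  have hbdx := node_le (q := q) rho_pos epc_pos hn
  have hlow := low_out h hT htyp.t1 hn hc k hk
  have hout := prod_out h hc i _ (htup (x i) (hbdx i))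
  have hc0 := epc_pos (g := g)
  have hC0 : 0 < Cc g := Real.exp_pos _
  -- the product over the cluster
  have hin : ∏ j ∈ T.erase i, |x k - x j| ≤ (4 * √(q : ℝ)) ^ T.card := by
    calc ∏ j ∈ T.erase i, |x k - x j| ≤ ∏ _j ∈ T.erase i, (4 * √(q : ℝ)) := by
          refine Finset.prod_le_prod (fun _ _ => abs_nonneg _) fun j _ => ?_
          have h1 := hbdx k
          have h2 := hbdx j
          have := abs_sub (x k) (x j)
          linarith
      _ = (4 * √(q : ℝ)) ^ (T.erase i).card := by rw [Finset.prod_const]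
      _ ≤ (4 * √(q : ℝ)) ^ T.card := by
          apply pow_le_pow_right₀ (by linarith)
          exact Finset.card_le_card (Finset.erase_subset _ _)
  have hM : Mn (eps g) (epc g) T x i = epc g * Wd x i := by
    unfold Mn
    rw [if_pos hi]
  have hmain : Cc g * Mn (eps g) (epc g) T x i *
      ∏ j ∈ T.erase i, (|x k - x j| / |x i - x j|) ≤
      Cc g * epc g * ((4 * √(q : ℝ)) ^ T.card *
        (2 * (g : ℝ) ^ T.card * (√(q : ℝ) ^ g * Real.exp ((g : ℝ) ^ (4 / 5 : ℝ))))) := by
    rw [hM]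
    calc Cc g * (epc g * Wd x i) * ∏ j ∈ T.erase i, (|x k - x j| / |x i - x j|)
        = Cc g * epc g * (Wd x i * ∏ j ∈ T.erase i, (|x k - x j| / |x i - x j|)) := by ring
      _ = Cc g * epc g * ((∏ j ∈ T.erase i, |x k - x j|) *
          ∏ j ∈ univ.filter (fun j => j ∉ T), |x i - x j|) := by
          rw [prod_id hn.mono.injective i k hi]
      _ ≤ _ := by
          have h1 : 0 ≤ ∏ j ∈ univ.filter (fun j => j ∉ T), |x i - x j| :=
            Finset.prod_nonneg fun _ _ => abs_nonneg _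
          gcongr
  refine le_trans hmain ?_
  -- numbers
  have hD := h.D1_le
  have hR := rpow_le h
  have hMk : √(q : ℝ) ^ g * Real.exp (-(g / (2 * Real.log g ^ 9))) ≤
      8 * (g : ℝ) ^ 6 * Mn (eps g) (epc g) T x k := by
    refine le_trans ?_ hlow
    gcongr
  have hnum : Cc g * epc g * ((4 * √(q : ℝ)) ^ T.card *
        (2 * (g : ℝ) ^ T.card * Real.exp ((g : ℝ) ^ (4 / 5 : ℝ)))) * (8 * (g : ℝ) ^ 14) ≤
      Real.exp (-(g / (2 * Real.log g ^ 9))) := by
    have h4Q : 4 * √(q : ℝ) ≤ g := by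
      have h1 := h.hQ
      have h2 := h.one_le_pow 22
      have h3 : 4 * √(q : ℝ) * 1 ≤ 4 * √(q : ℝ) * Real.log g ^ 22 := by gcongr
      linarith
    have e1 : (16 : ℝ) ≤ Real.exp (Real.log g) := by
      rw [Real.exp_log hg0]; linarith
    calc Cc g * epc g * ((4 * √(q : ℝ)) ^ T.card *
        (2 * (g : ℝ) ^ T.card * Real.exp ((g : ℝ) ^ (4 / 5 : ℝ)))) * (8 * (g : ℝ) ^ 14)
        ≤ Cc g * epc g * ((g : ℝ) ^ T.card *
        (2 * (g : ℝ) ^ T.card * Real.exp ((g : ℝ) ^ (4 / 5 : ℝ)))) * (8 * (g : ℝ) ^ 14) := by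
          gcongr
      _ = Cc g * epc g * Real.exp ((g : ℝ) ^ (4 / 5 : ℝ)) * ((g : ℝ) ^ T.card * (g : ℝ) ^ T.card *
          (g : ℝ) ^ 14) * 16 := by ring
      _ ≤ Cc g * epc g * Real.exp ((g : ℝ) ^ (4 / 5 : ℝ)) * ((g : ℝ) ^ T.card * (g : ℝ) ^ T.card *
          (g : ℝ) ^ 14) * Real.exp (Real.log g) := by gcongr
      _ = Real.exp (Real.log g ^ 24 + -(g / Real.log g ^ 9) + (g : ℝ) ^ (4 / 5 : ℝ) +
          (T.card * Real.log g + T.card * Real.log g + 14 * Real.log g) + Real.log g) := by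
          rw [h.gexp, h.gexp, Cc, epc]
          simp only [← Real.exp_add]
          push_cast
          rfl
      _ ≤ Real.exp (-(g / (2 * Real.log g ^ 9))) := by
          apply Real.exp_le_exp.2
          have h1 : (T.card : ℝ) * Real.log g ≤ Real.log g ^ 24 := by
            calc (T.card : ℝ) * Real.log g ≤ Real.log g ^ 22 * Real.log g := by
                  gcongr
                  linarith
              _ = Real.log g ^ 23 * 1 := by ring
              _ ≤ Real.log g ^ 23 * Real.log g := by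
                  gcongr
                  linarith
              _ = _ := by ring
          have h2 : Real.log (g : ℝ) ≤ Real.log g ^ 24 := by
            calc Real.log (g : ℝ) = 1 * Real.log g := by ring
              _ ≤ Real.log g ^ 23 * Real.log g := by
                  gcongr
                  exact h.one_le_pow 23
              _ = _ := by ring
          have h3 : 18 * Real.log (g : ℝ) ^ 24 ≤ g / (4 * Real.log g ^ 9) := by
            rw [le_div_iff₀ (by positivity)]
            have h4 := h.pow_le 33 (by norm_num)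
            have h5 : 0 ≤ Real.log (g : ℝ) ^ 33 := by positivity
            calc 18 * Real.log (g : ℝ) ^ 24 * (4 * Real.log g ^ 9) = 72 * Real.log (g : ℝ) ^ 33 := by
                  ring
              _ ≤ (g : ℝ) := by linarith
          have h4 : (g : ℝ) / Real.log g ^ 9 = g / (2 * Real.log g ^ 9) + g / (4 * Real.log g ^ 9) +
              g / (4 * Real.log g ^ 9) := by
            field_simp
            norm_num
          rw [h4]
          linarith
  rw [le_div_iff₀ (by positivity)]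
  have h6 : (0 : ℝ) < 8 * (g : ℝ) ^ 6 := by positivity
  refine le_of_mul_le_mul_left ?_ h6
  refine le_trans ?_ hMk
  calc 8 * (g : ℝ) ^ 6 * (Cc g * epc g * ((4 * √(q : ℝ)) ^ T.card *
        (2 * (g : ℝ) ^ T.card * (√(q : ℝ) ^ g * Real.exp ((g : ℝ) ^ (4 / 5 : ℝ))))) * (g : ℝ) ^ 8)
      = √(q : ℝ) ^ g * (Cc g * epc g * ((4 * √(q : ℝ)) ^ T.card *
        (2 * (g : ℝ) ^ T.card * Real.exp ((g : ℝ) ^ (4 / 5 : ℝ)))) * (8 * (g : ℝ) ^ 14)) := by ring
    _ ≤ _ := by gcongr

end Pool.Agent.FQW
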