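import Pool.Agent.FQW.Basic

/-!
# Comparison of the volumes of two slabs by an explicit affine map
-/

set_option autoImplicit false

namespace Pool.Agent.FQW

open Polynomial Finset MeasureTheory
open scoped BigOperators

namespace E4_

/-- the value at `y` of the polynomial with the coordinates `u` -/
noncomputable def lf (q n : ℕ) (y : ℝ) : (Fin n → ℝ) →ₗ[ℝ] ℝ where
  toFun u := ∑ j : Fin n, u j * (dkR ℝ q j).eval y
  map_add' u v := by
    simp only [Pi.add_apply, add_mul, Finset.sum_add_distrib]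
  map_smul' c u := by
    simp only [Pi.smul_apply, smul_eq_mul, RingHom.id_apply, Finset.mul_sum, mul_assoc]

lemma lf_apply (q n : ℕ) (y : ℝ) (u : Fin n → ℝ) :
    lf q n y u = ∑ j : Fin n, u j * (dkR ℝ q j).eval y := rfl

lemma ev_sub {q g n : ℕ} (hn : n ≤ g) (b : Fin g → ℤ) (u u' : Fin n → ℝ) (y : ℝ) :
    (HR q (ext n b u)).eval y - (HR q (ext n b u')).eval y = lf q n y (u - u') := by
  rw [HR_eval, HR_eval, lf_apply]
  set f : ℕ → ℝ := fun j => (if h : j < n then u ⟨j, h⟩ - u' ⟨j, h⟩ else 0) *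
    (dkR ℝ q j).eval y with hf
  have e1 : ∑ j : Fin g, ext n b u j * (dkR ℝ q j).eval y -
      ∑ j : Fin g, ext n b u' j * (dkR ℝ q j).eval y = ∑ j : Fin g, f j := by
    rw [← Finset.sum_sub_distrib]
    refine Finset.sum_congr rfl fun j _ => ?_
    simp only [hf, ext]
    split_ifs <;> ring
  have e2 : ∑ j : Fin n, (u - u') j * (dkR ℝ q j).eval y = ∑ j : Fin n, f j := by
    refine Finset.sum_congr rfl fun j _ => ?_
    simp only [hf, dif_pos j.2, Pi.sub_apply, Fin.eta]
  rw [e2, add_sub_add_left_eq_sub, e1, Fin.sum_univ_eq_sum_range f g,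
    Fin.sum_univ_eq_sum_range f n]
  symm
  apply Finset.sum_subset (Finset.range_subset_range.mpr hn)
  intro j _ hj
  rw [Finset.mem_range, not_lt] at hj
  simp only [hf, dif_neg (not_lt.mpr hj), zero_mul]

lemma lag_exists (q : ℕ) {g n : ℕ} (x : Fin g → ℝ) (T : Finset (Fin g)) (hT : T.card ≤ n)
    (i : Fin g) (hi : i ∈ T) : ∃ β : Fin n → ℝ, ∀ y : ℝ,
      lf q n y β = ∏ j ∈ T.erase i, ((y - x j) / (x i - x j)) := by
  set B : ℝ[X] := ∏ j ∈ T.erase i, (C ((x i - x j)⁻¹) * (X - C (x j))) with hB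
  have hpos : 0 < T.card := Finset.card_pos.mpr ⟨i, hi⟩
  have hnat : B.natDegree ≤ (T.erase i).card := by
    refine (natDegree_prod_le _ _).trans ?_
    rw [Finset.card_eq_sum_ones]
    refine Finset.sum_le_sum fun j _ => ?_
    refine (natDegree_C_mul_le _ _).trans ?_
    exact natDegree_X_sub_C_le _
  have hdeg : B.degree < n := by
    refine lt_of_le_of_lt degree_le_natDegree ?_
    rw [Finset.card_erase_of_mem hi] at hnat
    exact_mod_cast (by omega : B.natDegree < n)
  obtain ⟨β, hβ⟩ := coords_exists ℝ q n B hdeg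
  refine ⟨β, fun y => ?_⟩
  have e1 : B.eval y = lf q n y β := by
    rw [lf_apply, hβ, eval_finsetSum]
    refine Finset.sum_congr rfl fun j _ => ?_
    rw [eval_mul, eval_C]
  rw [← e1, hB, eval_prod]
  refine Finset.prod_congr rfl fun j _ => ?_
  rw [eval_mul, eval_C, eval_sub, eval_X, eval_C, div_eq_inv_mul]

lemma quarter {g : ℕ} (hg : 2 ≤ g) : (1 : ℝ) / 4 ≤ (1 - 1 / (g : ℝ)) ^ g := by
  have hg' : (2 : ℝ) ≤ g := by exact_mod_cast hg
  have hg0 : (0 : ℝ) < g := by linarith
  have h0 : (0 : ℝ) ≤ 1 - 1 / (g : ℝ) := by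
    have : 1 / (g : ℝ) ≤ 1 := by
      rw [div_le_one hg0]
      linarith
    linarith
  have h1 := one_add_mul_self_le_rpow_one_add (s := -(1 / (g : ℝ))) (by linarith)
    (p := (g : ℝ) / 2) (by linarith)
  have h2 : 1 + (g : ℝ) / 2 * -(1 / (g : ℝ)) = 1 / 2 := by
    field_simp
    ring
  rw [h2, ← sub_eq_add_neg] at h1
  have h3 : ((1 - 1 / (g : ℝ)) ^ ((g : ℝ) / 2)) ^ 2 = (1 - 1 / (g : ℝ)) ^ g := by
    rw [← Real.rpow_natCast, ← Real.rpow_mul h0, ← Real.rpow_natCast (1 - 1 / (g : ℝ)) g]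
    congr 1
    push_cast
    ring
  rw [← h3]
  nlinarith

lemma arith {g : ℝ} (hg : 20 ≤ g) :
    1 / g * (1 - 1 / g ^ 2 + 1 / g ^ 7) + (1 - 1 / g) * (1 + 1 / g ^ 4) + 1 / g ^ 7 ≤
      1 - 1 / g ^ 4 := by
  have hg0 : 0 < g := by linarith
  set a : ℝ := 1 / g with ha
  have ha0 : 0 < a := by positivity
  have ha1 : a ≤ 1 / 20 := by
    rw [ha]
    exact one_div_le_one_div_of_le (by norm_num) hg
  have e2 : 1 / g ^ 2 = a ^ 2 := by rw [ha, one_div_pow]
  have e4 : 1 / g ^ 4 = a ^ 4 := by rw [ha, one_div_pow]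
  have e7 : 1 / g ^ 7 = a ^ 7 := by rw [ha, one_div_pow]
  rw [e2, e4, e7]
  have h3 : 0 < a ^ 3 := by positivity
  have h4 : a ^ 4 ≤ a ^ 3 * (1 / 20) := by
    rw [pow_succ a 3]
    exact mul_le_mul_of_nonneg_left ha1 h3.le
  have h5 : 0 < a ^ 5 := by positivity
  have h7 : a ^ 7 ≤ a ^ 5 := pow_le_pow_of_le_one ha0.le (by linarith) (by norm_num)
  have h8 : a ^ 8 ≤ a ^ 4 := pow_le_pow_of_le_one ha0.le (by linarith) (by norm_num)
  nlinarith

end E4_

open E4_ in
theorem tE4 : T_LAM → T_E4 := by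
  intro hLAM q g n hq hg hn b T x M K hx hT hM hK hH ⟨u0, hu0⟩
  have hg' : (20 : ℝ) ≤ g := by exact_mod_cast hg
  have hg0 : (0 : ℝ) < g := by linarith
  set t : ℕ := T.card with ht
  have htg : (t : ℝ) ≤ g := by exact_mod_cast hT.trans hn
  set e := T.equivFin with he
  set nd : Fin t → Fin g := fun m => (e.symm m : Fin g) with hnd
  have hndT : ∀ m, nd m ∈ T := fun m => (e.symm m).2
  have hndinj : Function.Injective nd := fun m m' h => e.symm.injective (Subtype.ext h)
  have hndsurj : ∀ i ∈ T, ∃ m, nd m = i := by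
    intro i hi
    exact ⟨e ⟨i, hi⟩, by simp [hnd]⟩
  choose β hβ using fun m : Fin t => lag_exists q x T hT (nd m) (hndT m)
  have hδ : ∀ i j, lf q n (x (nd i)) (β j) = if i = j then 1 else 0 := by
    intro i j
    rw [hβ]
    split_ifs with hij
    · subst hij
      apply Finset.prod_eq_one
      intro k hk
      rw [Finset.mem_erase] at hk
      have : x (nd i) - x k ≠ 0 := sub_ne_zero.mpr (fun h => hk.1 (hx h).symm)
      exact div_self this
    · apply Finset.prod_eq_zero (i := nd i)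
      · rw [Finset.mem_erase]
        exact ⟨fun h => hij (hndinj h), hndT i⟩
      · rw [sub_self, zero_div]
  -- bounds of the Lagrange polynomials
  have hLag : ∀ m k, k ∉ T → K * M (nd m) * |lf q n (x k) (β m)| ≤ M k / (g : ℝ) ^ 8 := by
    intro m k hk
    have := hH (nd m) (hndT m) k hk
    rw [hβ, Finset.abs_prod]
    simpa only [abs_div] using this
  -- the sums over the Lagrange polynomials
  have hsumk : ∀ (f : Fin t → ℝ), (∀ m, |f m| ≤ K * M (nd m)) → ∀ k, k ∉ T →
      |∑ m, f m * lf q n (x k) (β m)| ≤ M k / (g : ℝ) ^ 7 := by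
    intro f hf k hk
    calc |∑ m, f m * lf q n (x k) (β m)| ≤ ∑ m, |f m * lf q n (x k) (β m)| :=
          Finset.abs_sum_le_sum_abs _ _
      _ ≤ ∑ _m : Fin t, M k / (g : ℝ) ^ 8 := by
          refine Finset.sum_le_sum fun m _ => ?_
          rw [abs_mul]
          exact (mul_le_mul_of_nonneg_right (hf m) (abs_nonneg _)).trans (hLag m k hk)
      _ = t * (M k / (g : ℝ) ^ 8) := by simp
      _ ≤ g * (M k / (g : ℝ) ^ 8) :=
          mul_le_mul_of_nonneg_right htg (div_nonneg (hM k).le (by positivity))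
      _ = M k / (g : ℝ) ^ 7 := by
          field_simp
  have hsumi : ∀ (f : Fin t → ℝ) (i : Fin t), ∑ m, f m * lf q n (x (nd i)) (β m) = f i := by
    intro f i
    simp only [hδ, mul_ite, mul_one, mul_zero]
    simp
  -- the base point
  set EV : (Fin n → ℝ) → ℝ → ℝ := fun u y => (HR q (ext n b u)).eval y with hEV
  have hEVsub : ∀ u u' y, EV u y - EV u' y = lf q n y (u - u') := fun u u' y =>
    ev_sub hn b u u' y
  set u1 : Fin n → ℝ := u0 - ∑ m, EV u0 (x (nd m)) • β m with hu1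
  have hEV1 : ∀ y, EV u1 y = EV u0 y - ∑ m, EV u0 (x (nd m)) * lf q n y (β m) := by
    intro y
    have h1 := hEVsub u1 u0 y
    have h2 : u1 - u0 = -∑ m, EV u0 (x (nd m)) • β m := by
      rw [hu1]
      abel
    rw [h2, map_neg, map_sum] at h1
    simp only [map_smul, smul_eq_mul] at h1
    linarith
  have hEV1i : ∀ i, EV u1 (x (nd i)) = 0 := by
    intro i
    rw [hEV1, hsumi (fun m => EV u0 (x (nd m))) i, sub_self]
  have hEV1k : ∀ k, k ∉ T → |EV u1 (x k)| ≤ (1 - 1 / (g : ℝ) ^ 2 + 1 / (g : ℝ) ^ 7) * M k := by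
    intro k hk
    rw [hEV1]
    have h1 := hu0.1 k hk
    have h2 := hsumk (fun m => EV u0 (x (nd m))) (fun m => hu0.2 (nd m) (hndT m)) k hk
    have h3 := abs_sub (EV u0 (x k)) (∑ m, EV u0 (x (nd m)) * lf q n (x k) (β m))
    have h4 : (1 - 1 / (g : ℝ) ^ 2 + 1 / (g : ℝ) ^ 7) * M k =
        (1 - 1 / (g : ℝ) ^ 2) * M k + M k / (g : ℝ) ^ 7 := by ring
    rw [h4]
    exact h3.trans (add_le_add h1 h2)
  -- the linear map
  set s : ℝ := 1 / (100 * g) / K with hs
  have hK0 : 0 < K := by linarith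
  have hs0 : 0 < s := by positivity
  have hs1 : s ≤ 1 := by
    rw [hs, div_div, div_le_one (by positivity)]
    nlinarith
  set Lam : (Fin n → ℝ) →ₗ[ℝ] (Fin n → ℝ) :=
    LinearMap.id - (1 - s) • ∑ i, (lf q n (x (nd i))).smulRight (β i) with hLam
  have hdet : LinearMap.det Lam = s ^ t := hLAM n t (fun i => lf q n (x (nd i))) β hδ s
  have hLamlf : ∀ v y, lf q n y (Lam v) =
      lf q n y v - (1 - s) * ∑ m, lf q n (x (nd m)) v * lf q n y (β m) := by
    intro v y
    rw [hLam]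
    simp only [LinearMap.sub_apply, LinearMap.id_apply, LinearMap.smul_apply,
      LinearMap.sum_apply, LinearMap.smulRight_apply, map_sub, map_smul, map_sum, smul_eq_mul]
  set r : ℝ := 1 - 1 / (g : ℝ) with hr
  have hinv : 1 / (g : ℝ) ≤ 1 / 20 := one_div_le_one_div_of_le (by norm_num) hg'
  have hr0 : 0 < r := by
    rw [hr]
    linarith
  have hr1 : r ≤ 1 := by
    rw [hr]
    have : 0 < 1 / (g : ℝ) := by positivity
    linarith
  set A : (Fin n → ℝ) →ₗ[ℝ] (Fin n → ℝ) := r • Lam with hA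
  have hdetA : LinearMap.det A = r ^ n * s ^ t := by
    rw [hA, LinearMap.det_smul, hdet, Module.finrank_fin_fun]
  have hdetApos : 0 < LinearMap.det A := by
    rw [hdetA]
    positivity
  -- the affine map
  set c0 : Fin n → ℝ := u1 - A u1 with hc0
  have hPsi : ∀ u y, EV (A u + c0) y = 1 / (g : ℝ) * EV u1 y + r * EV u y -
      r * (1 - s) * ∑ m, EV u (x (nd m)) * lf q n y (β m) := by
    intro u y
    have h1 := hEVsub (A u + c0) u1 y
    have h2 : A u + c0 - u1 = r • Lam (u - u1) := by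
      have h20 : ∀ p q w : Fin n → ℝ, p + (w - q) - w = p - q := by
        intro p q w
        abel
      rw [hc0, h20, ← map_sub, hA, LinearMap.smul_apply]
    rw [h2, map_smul, smul_eq_mul, hLamlf] at h1
    have h3 : lf q n y (u - u1) = EV u y - EV u1 y := (hEVsub u u1 y).symm
    have h4 : ∀ m, lf q n (x (nd m)) (u - u1) = EV u (x (nd m)) := by
      intro m
      rw [← hEVsub, hEV1i, sub_zero]
    simp only [h3, h4] at h1
    rw [hr] at h1 ⊢
    linear_combination h1
  have hmaps : A '' (Slab q n b T x M (1 + 1 / (g : ℝ) ^ 4) K) ⊆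
      (fun w => w + c0) ⁻¹' (Slab q n b T x M (1 - 1 / (g : ℝ) ^ 4) (1 / (100 * g))) := by
    rintro _ ⟨u, hu, rfl⟩
    refine ⟨?_, ?_⟩
    · intro k hk
      have h0 : (HR q (ext n b (A u + c0))).eval (x k) = EV (A u + c0) (x k) := rfl
      rw [h0, hPsi]
      have h1 := hEV1k k hk
      have h2 := hu.1 k hk
      have h3 := hsumk (fun m => EV u (x (nd m))) (fun m => hu.2 (nd m) (hndT m)) k hk
      have hMk := hM k
      set S3 : ℝ := ∑ m, EV u (x (nd m)) * lf q n (x k) (β m) with hS3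
      have h4 : |r * (1 - s) * S3| ≤ M k / (g : ℝ) ^ 7 := by
        rw [abs_mul, abs_of_nonneg (mul_nonneg hr0.le (by linarith))]
        have h5 : r * (1 - s) ≤ 1 := by nlinarith
        calc r * (1 - s) * |S3| ≤ 1 * |S3| := mul_le_mul_of_nonneg_right h5 (abs_nonneg _)
          _ ≤ M k / (g : ℝ) ^ 7 := by rw [one_mul]; exact h3
      have h5 : |1 / (g : ℝ) * EV u1 (x k)| ≤
          1 / (g : ℝ) * ((1 - 1 / (g : ℝ) ^ 2 + 1 / (g : ℝ) ^ 7) * M k) := by
        rw [abs_mul, abs_of_pos (by positivity : (0 : ℝ) < 1 / (g : ℝ))]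
        exact mul_le_mul_of_nonneg_left h1 (by positivity)
      have h6 : |r * EV u (x k)| ≤ r * ((1 + 1 / (g : ℝ) ^ 4) * M k) := by
        rw [abs_mul, abs_of_pos hr0]
        exact mul_le_mul_of_nonneg_left h2 hr0.le
      have h7 := abs_sub (1 / (g : ℝ) * EV u1 (x k) + r * EV u (x k)) (r * (1 - s) * S3)
      have h8 := abs_add_le (1 / (g : ℝ) * EV u1 (x k)) (r * EV u (x k))
      have h9 := mul_le_mul_of_nonneg_right (arith hg') hMk.le
      have h10 : M k / (g : ℝ) ^ 7 = 1 / (g : ℝ) ^ 7 * M k := by ring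
      rw [h10] at h4
      rw [hr] at h6
      linarith
    · intro i hi
      obtain ⟨m, rfl⟩ := hndsurj i hi
      have h0 : (HR q (ext n b (A u + c0))).eval (x (nd m)) = EV (A u + c0) (x (nd m)) := rfl
      rw [h0, hPsi, hEV1i, hsumi (fun m => EV u (x (nd m))) m]
      have h2 := hu.2 (nd m) (hndT m)
      have h3 : 1 / (g : ℝ) * 0 + r * EV u (x (nd m)) - r * (1 - s) * EV u (x (nd m)) =
          r * s * EV u (x (nd m)) := by ring
      rw [h3, abs_mul, abs_of_pos (mul_pos hr0 hs0)]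
      have h4 : s * K = 1 / (100 * g) := by
        rw [hs]
        field_simp
      calc r * s * |EV u (x (nd m))| ≤ 1 * s * (K * M (nd m)) := by
            apply mul_le_mul _ h2 (abs_nonneg _) (by positivity)
            exact mul_le_mul_of_nonneg_right hr1 hs0.le
        _ = s * K * M (nd m) := by ring
        _ = 1 / (100 * g) * M (nd m) := by rw [h4]
  -- volumes
  have hvol : ENNReal.ofReal (LinearMap.det A) *
      volume (Slab q n b T x M (1 + 1 / (g : ℝ) ^ 4) K) ≤
      volume (Slab q n b T x M (1 - 1 / (g : ℝ) ^ 4) (1 / (100 * g))) := by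
    have h1 := Measure.addHaar_image_linearMap (volume : Measure (Fin n → ℝ)) A
      (Slab q n b T x M (1 + 1 / (g : ℝ) ^ 4) K)
    rw [abs_of_pos hdetApos] at h1
    rw [← h1]
    refine (measure_mono hmaps).trans (le_of_eq ?_)
    exact measure_preimage_add_right _ _ _
  have hnum : 1 ≤ 4 * (100 * g * K) ^ t * LinearMap.det A := by
    rw [hdetA]
    have h1 : (100 * g * K) ^ t * s ^ t = 1 := by
      rw [← mul_pow]
      have : 100 * g * K * s = 1 := by
        rw [hs]
        field_simp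
      rw [this, one_pow]
    have h2 : (1 : ℝ) / 4 ≤ r ^ n :=
      (quarter (by omega)).trans (pow_le_pow_of_le_one hr0.le hr1 hn)
    calc (1 : ℝ) ≤ 4 * r ^ n := by linarith
      _ = 4 * r ^ n * ((100 * g * K) ^ t * s ^ t) := by rw [h1, mul_one]
      _ = 4 * (100 * g * K) ^ t * (r ^ n * s ^ t) := by ring
  calc volume (Slab q n b T x M (1 + 1 / (g : ℝ) ^ 4) K)
      ≤ ENNReal.ofReal (4 * (100 * g * K) ^ t * LinearMap.det A) *
        volume (Slab q n b T x M (1 + 1 / (g : ℝ) ^ 4) K) := by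
        have h1 : (1 : ENNReal) ≤ ENNReal.ofReal (4 * (100 * g * K) ^ t * LinearMap.det A) := by
          rw [← ENNReal.ofReal_one]
          exact ENNReal.ofReal_le_ofReal hnum
        calc _ = 1 * volume (Slab q n b T x M (1 + 1 / (g : ℝ) ^ 4) K) := (one_mul _).symm
          _ ≤ _ := mul_le_mul_left h1 _
    _ = ENNReal.ofReal (4 * (100 * g * K) ^ t) * (ENNReal.ofReal (LinearMap.det A) *
        volume (Slab q n b T x M (1 + 1 / (g : ℝ) ^ 4) K)) := by
        rw [ENNReal.ofReal_mul (by positivity), mul_assoc]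
    _ ≤ ENNReal.ofReal (4 * (100 * g * K) ^ t) *
        volume (Slab q n b T x M (1 - 1 / (g : ℝ) ^ 4) (1 / (100 * g))) :=
        mul_le_mul_right hvol _

end Pool.Agent.FQW
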