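import Pool.Agent.FQW.Targets

set_option autoImplicit false

/-!
# E5: small values at the nodes, one real root near each node
-/

namespace Pool.Agent.FQW

open Polynomial Finset
open scoped BigOperators

namespace E5_

/-- the distance of a point near the node `x k` to another node -/
theorem dist_lower {a b y s t : ℝ} (h1 : |y - a| = s) (h2 : t ≤ |a - b|) : t - s ≤ |y - b| := by
  have h3 : |a - b| ≤ |a - y| + |y - b| := abs_sub_le a y b
  rw [abs_sub_comm a y, h1] at h3
  linarith

end E5_

theorem tE5 (hA : T_E5A) (hB : T_E5B) : T_E5 := by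
  classical
  intro q g hq hg r e c T x hc hce hr hN h hm hd hT1 hT2
  have hg0 : (20 : ℝ) ≤ g := by exact_mod_cast hg
  have hgpos : (0 : ℝ) < g := by linarith
  have he : 0 < e := lt_of_lt_of_le hc hce
  have hg10 : (20 : ℝ) ≤ (g : ℝ) ^ 10 := by
    calc (20 : ℝ) ≤ g := hg0
      _ = (g : ℝ) ^ 1 := (pow_one _).symm
      _ ≤ (g : ℝ) ^ 10 := pow_le_pow_right₀ (by linarith) (by norm_num)
  have her : 20 * e ≤ r := (mul_le_mul_of_nonneg_right hg10 he.le).trans hr
  have hrpos : 0 < r := by linarith
  have hxinj : Function.Injective x := hN.mono.injective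
  have hW : ∀ j, 0 < Wd x j := fun j => Finset.prod_pos fun i hi =>
    abs_pos.mpr (sub_ne_zero.mpr fun hh => (Finset.ne_of_mem_erase hi) (hxinj hh).symm)
  -- the normalised values
  have hv1 : ∀ k, k ∉ T → |h.eval (x k)| / Wd x k ≤ (1 - 1 / (g : ℝ) ^ 5) * (e / 2) := by
    intro k hk
    rw [div_le_iff₀ (hW k)]
    have := hT1 k hk
    rw [Mn, if_neg hk] at this
    linarith
  have hv2 : ∀ k ∈ T, |h.eval (x k)| / Wd x k ≤ 1 / (50 * g) * c := by
    intro k hk
    rw [div_le_iff₀ (hW k)]
    have := hT2 k hk
    rw [Mn, if_pos hk] at this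
    linarith
  have hg5 : 0 < 1 / (g : ℝ) ^ 5 := by positivity
  have hsmall : 1 / (50 * (g : ℝ)) ≤ 1 / 1000 :=
    one_div_le_one_div_of_le (by norm_num) (by linarith)
  have hv : ∀ k, |h.eval (x k)| / Wd x k ≤ e / 2 := by
    intro k
    by_cases hk : k ∈ T
    · refine (hv2 k hk).trans ?_
      nlinarith
    · refine (hv1 k hk).trans ?_
      nlinarith
  set d : Fin g → ℝ := fun k => if k ∈ T then c / 2 else e / 2 with hdd
  have hdpos : ∀ k, 0 < d k := by
    intro k
    simp only [hdd]
    split_ifs <;> linarith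
  have hdle : ∀ k, d k ≤ e / 2 := by
    intro k
    simp only [hdd]
    split_ifs <;> linarith
  have hterm : ∀ (y : ℝ) (j : Fin g) (t : ℝ), 0 < t → t ≤ |y - x j| → ∀ b : ℝ,
      |h.eval (x j)| / Wd x j ≤ b → |h.eval (x j)| / (|y - x j| * Wd x j) ≤ b / t := by
    intro y j t ht hty b hb
    have h1 : |h.eval (x j)| / (|y - x j| * Wd x j) = |h.eval (x j)| / Wd x j / |y - x j| := by
      rw [div_div, mul_comm]
    rw [h1]
    have h2 : 0 ≤ |h.eval (x j)| / Wd x j := div_nonneg (abs_nonneg _) (hW j).le
    exact div_le_div₀ (h2.trans hb) hb ht hty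
  -- distances from points near one node to the other nodes
  have hfar : ∀ j k : Fin g, j ≠ k → j ∉ T ∨ k ∉ T → r / 2 ≤ |x k - x j| := by
    intro j k hjk hor
    rcases hor with h1 | h1
    · rw [abs_sub_comm]
      exact hN.far j h1 k hjk.symm
    · exact hN.far k h1 j hjk
  -- the sum is small
  have key : ∀ (y : ℝ) (k : Fin g), |y - x k| = d k → (∀ j, y ≠ x j) ∧
      ∑ j, |h.eval (x j)| / (|y - x j| * Wd x j) < 1 := by
    intro y k hy
    have hne : ∀ j, y ≠ x j := by
      intro j hj
      by_cases hjk : j = k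
      · rw [hj, hjk] at hy
        simp at hy
        have := hdpos k
        linarith
      · have h2 : d k < |x k - x j| := by
          by_cases hor : j ∉ T ∨ k ∉ T
          · have := hfar j k hjk hor
            have := hdle k
            linarith
          · push Not at hor
            have h3 := hN.near k hor.2 j hor.1 (Ne.symm hjk)
            have h4 : d k = c / 2 := by simp only [hdd]; rw [if_pos hor.2]
            linarith
        rw [hj, abs_sub_comm] at hy
        linarith
    refine ⟨hne, ?_⟩
    have h20 : 2 * e / r ≤ 2 / (g : ℝ) ^ 10 := by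
      rw [div_le_div_iff₀ hrpos (by positivity)]
      nlinarith
    -- the terms at distance at least `r / 4`
    have hfar2 : ∀ j, j ≠ k → (j ∉ T ∨ k ∉ T) →
        |h.eval (x j)| / (|y - x j| * Wd x j) ≤ 2 / (g : ℝ) ^ 10 := by
      intro j hjk hor
      have h1 : r / 4 ≤ |y - x j| := by
        have h2 := E5_.dist_lower hy (hfar j k hjk hor)
        have := hdle k
        linarith
      refine (hterm y j (r / 4) (by positivity) h1 _ (hv j)).trans (le_trans (le_of_eq ?_) h20)
      field_simp
      ring
    by_cases hk : k ∈ T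
    · have hdk : d k = c / 2 := by simp only [hdd]; rw [if_pos hk]
      have hall : ∀ j ∈ (univ : Finset (Fin g)),
          |h.eval (x j)| / (|y - x j| * Wd x j) ≤ 1 / (25 * (g : ℝ)) := by
        intro j _
        have hc2 : 1 / (50 * (g : ℝ)) * c / (c / 2) = 1 / (25 * (g : ℝ)) := by
          field_simp
          norm_num
        by_cases hjk : j = k
        · rw [← hc2]
          refine hterm y j (c / 2) (by positivity) ?_ _ (hv2 j (hjk ▸ hk))
          rw [hjk, hy, hdk]
        · by_cases hj : j ∈ T
          · rw [← hc2]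
            refine hterm y j (c / 2) (by positivity) ?_ _ (hv2 j hj)
            have := E5_.dist_lower hy (hN.near k hk j hj (Ne.symm hjk))
            linarith
          · refine (hfar2 j hjk (Or.inl hj)).trans ?_
            rw [div_le_div_iff₀ (by positivity) (by positivity)]
            have h50 : (50 : ℝ) * g ≤ (g : ℝ) ^ 10 := by
              calc (50 : ℝ) * g ≤ g ^ 2 * g := by nlinarith
                _ = (g : ℝ) ^ 3 := by ring
                _ ≤ (g : ℝ) ^ 10 := pow_le_pow_right₀ (by linarith) (by norm_num)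
            linarith
      refine (Finset.sum_le_sum hall).trans_lt ?_
      rw [sum_const, card_univ, Fintype.card_fin, nsmul_eq_mul]
      have : (g : ℝ) * (1 / (25 * g)) = 1 / 25 := by field_simp
      rw [this]
      norm_num
    · have hdk : d k = e / 2 := by simp only [hdd]; rw [if_neg hk]
      rw [← Finset.add_sum_erase univ _ (mem_univ k)]
      have h1 : |h.eval (x k)| / (|y - x k| * Wd x k) ≤ 1 - 1 / (g : ℝ) ^ 5 := by
        refine (hterm y k (e / 2) (by positivity) (by rw [hy, hdk]) _ (hv1 k hk)).trans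
          (le_of_eq ?_)
        field_simp
      have h2 : ∑ j ∈ univ.erase k, |h.eval (x j)| / (|y - x j| * Wd x j) ≤
          ∑ _j ∈ (univ : Finset (Fin g)).erase k, 2 / (g : ℝ) ^ 10 :=
        Finset.sum_le_sum fun j hj => hfar2 j (Finset.ne_of_mem_erase hj) (Or.inr hk)
      rw [sum_const, nsmul_eq_mul] at h2
      have h3 : (((univ : Finset (Fin g)).erase k).card : ℝ) ≤ g := by
        have : ((univ : Finset (Fin g)).erase k).card ≤ g := by
          refine (card_le_univ _).trans ?_
          rw [Fintype.card_fin]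
        exact_mod_cast this
      have h4 : (((univ : Finset (Fin g)).erase k).card : ℝ) * (2 / (g : ℝ) ^ 10) ≤
          g * (2 / (g : ℝ) ^ 10) := mul_le_mul_of_nonneg_right h3 (by positivity)
      have h5 : (g : ℝ) * (2 / (g : ℝ) ^ 10) < 1 / (g : ℝ) ^ 5 := by
        rw [mul_div_assoc', div_lt_div_iff₀ (by positivity) (by positivity)]
        have h6 : (2 : ℝ) < (g : ℝ) ^ 4 := by
          calc (2 : ℝ) < g := by linarith
            _ = (g : ℝ) ^ 1 := (pow_one _).symm
            _ ≤ (g : ℝ) ^ 4 := pow_le_pow_right₀ (by linarith) (by norm_num)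
        calc (g : ℝ) * 2 * (g : ℝ) ^ 5 = 2 * (g : ℝ) ^ 6 := by ring
          _ < (g : ℝ) ^ 4 * (g : ℝ) ^ 6 := mul_lt_mul_of_pos_right h6 (by positivity)
          _ = 1 * (g : ℝ) ^ 10 := by ring
      linarith
  have hsign : ∀ (y : ℝ) (k : Fin g), |y - x k| = d k → 0 < h.eval y * ∏ j, (y - x j) := by
    intro y k hy
    obtain ⟨h1, h2⟩ := key y k hy
    exact hA g x hxinj h hm hd y h1 h2
  obtain ⟨τ', hτ1, hτ2, hτ3⟩ := hB g x d hdpos (by
    intro j k hjk
    have hlt : x j < x k := hN.mono hjk
    have h1 : d j + d k ≤ |x k - x j| := by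
      by_cases hor : j ∉ T ∨ k ∉ T
      · have := hfar j k hjk.ne hor
        have := hdle k
        have := hdle j
        linarith
      · push Not at hor
        have h3 := hN.near k hor.2 j hor.1 hjk.ne'
        have h4 : d k = c / 2 := by simp only [hdd]; rw [if_pos hor.2]
        have h5 : d j = c / 2 := by simp only [hdd]; rw [if_pos hor.1]
        linarith
    rw [abs_of_pos (by linarith)] at h1
    linarith) h hm hd
    (fun k => hsign _ k (by
      rw [sub_sub_cancel_left, abs_neg, abs_of_pos (hdpos k)]))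
    (fun k => hsign _ k (by
      rw [add_sub_cancel_left, abs_of_pos (hdpos k)]))
  refine ⟨τ', hτ1, ?_, hτ2, ?_, ?_⟩
  · intro i
    have h1 : |τ' i| ≤ |τ' i - x i| + |x i| := by
      have := abs_sub_abs_le_abs_sub (τ' i) (x i)
      linarith
    have h2 := hτ3 i
    by_cases hi : i ∈ T
    · have h3 := hN.inn i hi
      have h4 : d i = c / 2 := by simp only [hdd]; rw [if_pos hi]
      linarith
    · have h3 := hN.out i hi
      have h4 := hdle i
      linarith
  · intro k hk
    have h4 : d k = e / 2 := by simp only [hdd]; rw [if_neg hk]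
    rw [← h4]
    exact hτ3 k
  · intro k hk
    have h4 : d k = c / 2 := by simp only [hdd]; rw [if_pos hk]
    rw [← h4]
    exact hτ3 k

end Pool.Agent.FQW
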