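import Pool.Agent.FQW.Targets

set_option autoImplicit false

/-!
# E5A: the sign at points where the Lagrange sum is small
-/

namespace Pool.Agent.FQW

open Polynomial Finset
open scoped BigOperators

theorem tE5A : T_E5A := by
  classical
  intro g x hx h hm hd y hy hsum
  set ω : ℝ[X] := ∏ j, (X - C (x j)) with hω
  have hωm : ω.Monic := monic_prod_of_monic _ _ fun j _ => monic_X_sub_C _
  have hωd : ω.natDegree = g := by
    rw [hω, natDegree_prod_of_monic _ _ fun j _ => monic_X_sub_C _]
    simp
  have hωy : ω.eval y = ∏ j, (y - x j) := by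
    rw [hω, eval_prod]
    simp
  have hωx : ∀ j, ω.eval (x j) = 0 := by
    intro j
    rw [hω, eval_prod]
    exact Finset.prod_eq_zero (mem_univ j) (by simp)
  have hdeg : (h - ω).degree < ((univ : Finset (Fin g)).card : ℕ) := by
    have h1 : (h - ω).degree < h.degree := by
      refine degree_sub_lt_left ?_ hm.ne_zero ?_
      · rw [degree_eq_natDegree hm.ne_zero, degree_eq_natDegree hωm.ne_zero, hd, hωd]
      · rw [hm.leadingCoeff, hωm.leadingCoeff]
    rw [degree_eq_natDegree hm.ne_zero, hd] at h1
    simpa using h1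
  have hint := Lagrange.eq_interpolate_of_eval_eq (s := (univ : Finset (Fin g))) (v := x)
    (fun j => h.eval (x j)) (fun i _ j _ hij => hx hij) hdeg (fun j _ => by
      rw [eval_sub, hωx, sub_zero])
  have hωy0 : ω.eval y ≠ 0 := by
    rw [hωy]
    exact Finset.prod_ne_zero_iff.mpr fun j _ => sub_ne_zero.mpr (hy j)
  set D : Fin g → ℝ := fun j => ∏ i ∈ univ.erase j, (x j - x i) with hD
  have hD0 : ∀ j, D j ≠ 0 := fun j =>
    Finset.prod_ne_zero_iff.mpr fun i hi => sub_ne_zero.mpr
      (fun hh => (Finset.ne_of_mem_erase hi) (hx hh).symm)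
  have hval : h.eval y = ω.eval y * (1 + ∑ j, h.eval (x j) / ((y - x j) * D j)) := by
    have h1 : (h - ω).eval y = ∑ j, h.eval (x j) * (ω.eval y / ((y - x j) * D j)) := by
      rw [hint, Lagrange.interpolate_apply, eval_finsetSum]
      refine Finset.sum_congr rfl fun j _ => ?_
      rw [eval_mul, eval_C]
      congr 1
      rw [Lagrange.basis, eval_prod]
      have h2 : ∀ i ∈ univ.erase j, eval y (Lagrange.basisDivisor (x j) (x i)) =
          (y - x i) / (x j - x i) := by
        intro i _
        rw [Lagrange.basisDivisor, eval_mul, eval_C, eval_sub, eval_X, eval_C, div_eq_inv_mul]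
      rw [Finset.prod_congr rfl h2, Finset.prod_div_distrib, hωy,
        ← Finset.mul_prod_erase univ (fun i => y - x i) (mem_univ j)]
      have h3 : y - x j ≠ 0 := sub_ne_zero.mpr (hy j)
      have h4 := hD0 j
      have h5 : (∏ i ∈ univ.erase j, (x j - x i)) = D j := rfl
      rw [h5]
      field_simp
    rw [eval_sub] at h1
    have h5 : h.eval y = ω.eval y + ∑ j, h.eval (x j) * (ω.eval y / ((y - x j) * D j)) := by
      linarith
    rw [h5, mul_add, mul_one, Finset.mul_sum]
    congr 1
    refine Finset.sum_congr rfl fun j _ => ?_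
    ring
  have hs : |∑ j, h.eval (x j) / ((y - x j) * D j)| < 1 := by
    refine lt_of_le_of_lt (Finset.abs_sum_le_sum_abs _ _) ?_
    refine lt_of_le_of_lt (le_of_eq ?_) hsum
    refine Finset.sum_congr rfl fun j _ => ?_
    rw [abs_div, abs_mul, hD, Finset.abs_prod]
    rfl
  rw [← hωy, hval]
  have h6 : 0 < 1 + ∑ j, h.eval (x j) / ((y - x j) * D j) := by
    have := (abs_lt.mp hs).1
    linarith
  have h7 : 0 < ω.eval y * ω.eval y := by
    rcases lt_or_gt_of_ne hωy0 with h | h <;> nlinarith
  calc 0 < (ω.eval y * ω.eval y) * (1 + ∑ j, h.eval (x j) / ((y - x j) * D j)) := mul_pos h7 h6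
    _ = _ := by ring

end Pool.Agent.FQW
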