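import Pool.Agent.FQW.Targets

set_option autoImplicit false

/-!
# E5B: sign changes give the roots
-/

namespace Pool.Agent.FQW

open Polynomial Finset
open scoped BigOperators

theorem tE5B : T_E5B := by
  classical
  intro g x d hd hsep h hm hdeg h1 h2
  have hneg : ∀ k, (∏ j, (x k - d k - x j)) * (∏ j, (x k + d k - x j)) < 0 := by
    intro k
    rw [← Finset.prod_mul_distrib, ← Finset.mul_prod_erase univ _ (mem_univ k)]
    have h3 : (x k - d k - x k) * (x k + d k - x k) = -(d k * d k) := by ring
    rw [h3]
    have h4 : 0 < ∏ j ∈ univ.erase k, ((x k - d k - x j) * (x k + d k - x j)) := by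
      refine Finset.prod_pos fun j hj => ?_
      have hjk : j ≠ k := Finset.ne_of_mem_erase hj
      rcases lt_or_gt_of_ne hjk with hlt | hgt
      · have h5 := hsep j k hlt
        have := hd j
        have := hd k
        exact mul_pos (by linarith) (by linarith)
      · have h5 := hsep k j hgt
        have := hd j
        have := hd k
        exact mul_pos_of_neg_of_neg (by linarith) (by linarith)
    have h6 := hd k
    have h7 : 0 < d k * d k := mul_pos h6 h6
    nlinarith
  have hroot : ∀ k, ∃ z : ℝ, x k - d k < z ∧ z < x k + d k ∧ h.eval z = 0 := by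
    intro k
    have ha := h1 k
    have hb := h2 k
    have hc := hneg k
    have hle : x k - d k ≤ x k + d k := by have := hd k; linarith
    have hprod : h.eval (x k - d k) * h.eval (x k + d k) < 0 := by
      set P := ∏ j, (x k - d k - x j)
      set Q := ∏ j, (x k + d k - x j)
      have h3 : 0 < (h.eval (x k - d k) * P) * (h.eval (x k + d k) * Q) := mul_pos ha hb
      have h4 : (h.eval (x k - d k) * P) * (h.eval (x k + d k) * Q) =
          (h.eval (x k - d k) * h.eval (x k + d k)) * (P * Q) := by ring
      rw [h4] at h3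
      by_contra hcon
      push Not at hcon
      have := mul_nonpos_of_nonneg_of_nonpos hcon hc.le
      linarith
    have hcont : ContinuousOn (fun z => h.eval z) (Set.Icc (x k - d k) (x k + d k)) :=
      h.continuous.continuousOn
    rcases mul_neg_iff.mp hprod with ⟨hp, hn⟩ | ⟨hn, hp⟩
    · obtain ⟨z, hz, hz0⟩ := intermediate_value_Ioo' hle hcont ⟨hn, hp⟩
      exact ⟨z, hz.1, hz.2, hz0⟩
    · obtain ⟨z, hz, hz0⟩ := intermediate_value_Ioo hle hcont ⟨hn, hp⟩
      exact ⟨z, hz.1, hz.2, hz0⟩
  choose τ' hτ1 hτ2 hτ0 using hroot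
  have hmono : StrictMono τ' := by
    intro j k hjk
    have h3 := hsep j k hjk
    have h4 := hτ2 j
    have h5 := hτ1 k
    linarith
  refine ⟨τ', hmono, ?_, fun k => ?_⟩
  · have hωm : (∏ i, (X - C (τ' i))).Monic := monic_prod_of_monic _ _ fun j _ => monic_X_sub_C _
    have hωd : (∏ i, (X - C (τ' i))).natDegree = g := by
      rw [natDegree_prod_of_monic _ _ fun j _ => monic_X_sub_C _]
      simp
    refine eq_of_degree_sub_lt_of_eval_index_eq (s := (univ : Finset (Fin g))) (v := τ')
      (fun i _ j _ hij => hmono.injective hij) ?_ ?_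
    · have h3 : (h - ∏ i, (X - C (τ' i))).degree < h.degree := by
        refine degree_sub_lt_left ?_ hm.ne_zero ?_
        · rw [degree_eq_natDegree hm.ne_zero, degree_eq_natDegree hωm.ne_zero, hdeg, hωd]
        · rw [hm.leadingCoeff, hωm.leadingCoeff]
      rw [degree_eq_natDegree hm.ne_zero, hdeg] at h3
      simpa using h3
    · intro i _
      rw [hτ0, eval_prod]
      exact (Finset.prod_eq_zero (mem_univ i) (by simp)).symm
  · rw [abs_lt]
    constructor
    · have := hτ1 k; linarith
    · have := hτ2 k; linarith

end Pool.Agent.FQW
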