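import Pool.Agent.FQW.Basic

set_option autoImplicit false

/-!
# E6A: the boxes are contained in the slab
-/

namespace Pool.Agent.FQW

open Polynomial Finset
open scoped BigOperators

namespace E6A_

/-- the difference of the values of a real polynomial and an integral polynomial with the same top
part -/
theorem ext_diff (q n m : ℕ) (hq : 1 ≤ q) (b : Fin (n + m) → ℤ) (u : Fin n → ℝ)
    (a : Fin (n + m) → ℤ) (δ : Fin n → ℝ) (ht : topPart n a = topPart n b)
    (hu : ∀ j, |u j - a (Fin.castAdd m j)| ≤ δ j) (x : ℝ) (hx : |x| ≤ 2 * √(q : ℝ)) :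
    |(HR q (ext n b u)).eval x - ev q a x| ≤ ∑ j, 2 * δ j * √(q : ℝ) ^ (j : ℕ) := by
  have h1 : (HR q (ext n b u)).eval x - ev q a x =
      ∑ j : Fin (n + m), (ext n b u j - a j) * (dkR ℝ q j).eval x := by
    rw [ev_eq, HR_eval, HR_eval]
    simp only [sub_mul, Finset.sum_sub_distrib]
    ring
  rw [h1, Fin.sum_univ_add]
  have h2 : ∑ i : Fin m, (ext n b u (Fin.natAdd n i) - a (Fin.natAdd n i)) *
      (dkR ℝ q ((Fin.natAdd n i : Fin (n + m)) : ℕ)).eval x = 0 := by
    refine Finset.sum_eq_zero fun i _ => ?_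
    have h3 : ext n b u (Fin.natAdd n i) = (b (Fin.natAdd n i) : ℝ) := by
      simp [ext]
    have h4 : a (Fin.natAdd n i) = b (Fin.natAdd n i) := by
      have := congrFun ht (Fin.natAdd n i)
      simpa [topPart] using this
    rw [h3, h4, sub_self, zero_mul]
  rw [h2, add_zero]
  refine (Finset.abs_sum_le_sum_abs _ _).trans (Finset.sum_le_sum fun j _ => ?_)
  have h3 : ext n b u (Fin.castAdd m j) = u j := by
    simp [ext]
  rw [h3, abs_mul]
  have h4 := dkR_bound q hq (j : ℕ) x hx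
  calc |u j - a (Fin.castAdd m j)| * |(dkR ℝ q ((Fin.castAdd m j : Fin (n + m)) : ℕ)).eval x|
      ≤ δ j * (2 * √(q : ℝ) ^ (j : ℕ)) := by
        refine mul_le_mul (hu j) ?_ (abs_nonneg _) ((abs_nonneg _).trans (hu j))
        simpa using h4
    _ = 2 * δ j * √(q : ℝ) ^ (j : ℕ) := by ring

/-- the box of `a` -/
def box {n m : ℕ} (B : Fin n → ℕ) (a : Fin (n + m) → ℤ) : Set (Fin n → ℝ) :=
  Set.pi Set.univ fun j => Set.Ico ((B j : ℝ) * (a (Fin.castAdd m j) / (B j : ℤ) : ℤ))
    ((B j : ℝ) * (a (Fin.castAdd m j) / (B j : ℤ) : ℤ) + B j)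

theorem box_volume {n m : ℕ} (B : Fin n → ℕ) (a : Fin (n + m) → ℤ) :
    MeasureTheory.volume (box B a) = ∏ j, (B j : ENNReal) := by
  rw [box, Real.volume_pi_Ico]
  refine Finset.prod_congr rfl fun j _ => ?_
  rw [add_sub_cancel_left, ENNReal.ofReal_natCast]

theorem box_meas {n m : ℕ} (B : Fin n → ℕ) (a : Fin (n + m) → ℤ) : MeasurableSet (box B a) :=
  MeasurableSet.univ_pi fun _ => measurableSet_Ico

/-- two integers whose intervals share a point are equal -/
theorem eq_of_mem {B : ℕ} {k l : ℤ} {u : ℝ} (hB : 1 ≤ B)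
    (h1 : u ∈ Set.Ico ((B : ℝ) * k) ((B : ℝ) * k + B))
    (h2 : u ∈ Set.Ico ((B : ℝ) * l) ((B : ℝ) * l + B)) : k = l := by
  have hB0 : (0 : ℝ) < B := by exact_mod_cast hB
  have h3 : (B : ℝ) * k < B * (l + 1) := by
    have := lt_of_le_of_lt h1.1 h2.2
    linarith
  have h4 : (B : ℝ) * l < B * (k + 1) := by
    have := lt_of_le_of_lt h2.1 h1.2
    linarith
  have h5 : (k : ℝ) < l + 1 := lt_of_mul_lt_mul_left h3 hB0.le
  have h6 : (l : ℝ) < k + 1 := lt_of_mul_lt_mul_left h4 hB0.le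
  have h7 : k < l + 1 := by exact_mod_cast h5
  have h8 : l < k + 1 := by exact_mod_cast h6
  omega

end E6A_

theorem tE6A : T_E6A := by
  classical
  intro q g n hq hg hng B b T x M K hB hK hx hM R htop hinj hR1 hR2
  obtain ⟨m, rfl⟩ := Nat.exists_eq_add_of_le hng
  have hg0 : (20 : ℝ) ≤ ((n + m : ℕ) : ℝ) := by exact_mod_cast hg
  set G : ℝ := ((n + m : ℕ) : ℝ) with hG
  have hGpos : 0 < G := by linarith
  have hsum0 : 0 ≤ ∑ j : Fin n, 2 * (B j : ℝ) * √(q : ℝ) ^ (j : ℕ) :=
    Finset.sum_nonneg fun j _ => by positivity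
  have hM0 : ∀ k, 0 ≤ M k := fun k => (mul_nonneg (by positivity) hsum0).trans (hM k)
  have hsumM : ∀ k, ∑ j : Fin n, 2 * (B j : ℝ) * √(q : ℝ) ^ (j : ℕ) ≤ 1 / G ^ 6 * M k := by
    intro k
    have := hM k
    rw [one_div, inv_mul_eq_div, le_div_iff₀ (by positivity)]
    linarith
  -- the boxes are contained in the slab
  have hsub : ∀ a ∈ R, E6A_.box B a ⊆ Slab q n b T x M (1 + 1 / G ^ 4) K := by
    intro a ha u hu
    have hu' : ∀ j, |u j - a (Fin.castAdd m j)| ≤ (B j : ℝ) := by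
      intro j
      have h1 := hu j (Set.mem_univ j)
      simp only at h1
      have hB0 : (0 : ℤ) < B j := by exact_mod_cast hB j
      have h2 : (B j : ℤ) * (a (Fin.castAdd m j) / (B j : ℤ)) ≤ a (Fin.castAdd m j) :=
        Int.mul_ediv_self_le hB0.ne'
      have h3 : a (Fin.castAdd m j) < (B j : ℤ) * (a (Fin.castAdd m j) / (B j : ℤ)) + B j :=
        Int.lt_mul_ediv_self_add hB0
      have h2' : ((B j : ℝ)) * ((a (Fin.castAdd m j) / (B j : ℤ) : ℤ) : ℝ) ≤
          (a (Fin.castAdd m j) : ℝ) := by exact_mod_cast h2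
      have h3' : (a (Fin.castAdd m j) : ℝ) <
          (B j : ℝ) * ((a (Fin.castAdd m j) / (B j : ℤ) : ℤ) : ℝ) + B j := by exact_mod_cast h3
      rw [abs_le]
      constructor <;> linarith [h1.1, h1.2]
    have hdiff : ∀ k, |(HR q (ext n b u)).eval (x k) - ev q a (x k)| ≤ 1 / G ^ 6 * M k := fun k =>
      (E6A_.ext_diff q n m (by omega) b u a (fun j => (B j : ℝ)) (htop a ha) hu' (x k)
        (hx k)).trans (hsumM k)
    have h6 : 1 / G ^ 6 ≤ 1 / G ^ 2 :=
      one_div_le_one_div_of_le (by positivity) (pow_le_pow_right₀ (by linarith) (by norm_num))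
    have h6' : 1 / G ^ 6 ≤ 1 / 2 := by
      refine one_div_le_one_div_of_le (by norm_num) ?_
      calc (2 : ℝ) ≤ G := by linarith
        _ = G ^ 1 := (pow_one _).symm
        _ ≤ G ^ 6 := pow_le_pow_right₀ (by linarith) (by norm_num)
    have h4 : 0 < 1 / G ^ 4 := by positivity
    constructor
    · intro k hk
      have h1 := hR1 a ha k hk
      have h2 := hdiff k
      have h3 := abs_sub_abs_le_abs_sub ((HR q (ext n b u)).eval (x k)) (ev q a (x k))
      have h5 := mul_le_mul_of_nonneg_right h6 (hM0 k)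
      have h7 := mul_nonneg h4.le (hM0 k)
      linarith
    · intro k hk
      have h1 := hR2 a ha k hk
      have h2 := hdiff k
      have h3 := abs_sub_abs_le_abs_sub ((HR q (ext n b u)).eval (x k)) (ev q a (x k))
      have h5 := mul_le_mul_of_nonneg_right h6' (hM0 k)
      have h7 := mul_nonneg (sub_nonneg.mpr hK) (hM0 k)
      linarith
  -- the boxes are disjoint
  have hdisj : (R : Set (Fin (n + m) → ℤ)).PairwiseDisjoint (E6A_.box B) := by
    intro a ha a' ha' hne
    rw [Function.onFun, Set.disjoint_left]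
    intro u hu hu'
    apply hne
    apply hinj ha ha'
    ext i
    by_cases hi : (i : ℕ) < n
    · have h1 := hu ⟨i, hi⟩ (Set.mem_univ _)
      have h2 := hu' ⟨i, hi⟩ (Set.mem_univ _)
      have h3 := E6A_.eq_of_mem (hB _) h1 h2
      simp only [idx, hi, dif_pos]
      exact h3
    · simp only [idx, hi, dif_neg, not_false_eq_true]
      have h1 := congrFun (htop a ha) i
      have h2 := congrFun (htop a' ha') i
      simp only [topPart, hi, if_false] at h1 h2
      rw [h1, h2]
  calc (R.card : ENNReal) * ∏ j, (B j : ENNReal) = ∑ a ∈ R, MeasureTheory.volume (E6A_.box B a) := by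
        rw [Finset.sum_congr rfl fun a _ => E6A_.box_volume B a, sum_const, nsmul_eq_mul]
    _ = MeasureTheory.volume (⋃ a ∈ R, E6A_.box B a) :=
        (MeasureTheory.measure_biUnion_finset hdisj fun a _ => E6A_.box_meas B a).symm
    _ ≤ _ := MeasureTheory.measure_mono (Set.iUnion₂_subset hsub)

end Pool.Agent.FQW
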