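import Mathlib
import Pool.Agent.FQW.Basic

set_option autoImplicit false

/-!
# E6B: the volume of the slab is at most the number of integral points
-/

namespace Pool.Agent.FQW

open Polynomial Finset MeasureTheory
open scoped BigOperators

namespace E6B_

/-- the integral coefficient vector: `m` below `n`, `b` from `n` on -/
def extZ {g : ℕ} (n : ℕ) (b : Fin g → ℤ) (m : Fin n → ℤ) : Fin g → ℤ :=
  fun i => if h : (i : ℕ) < n then m ⟨i, h⟩ else b i

theorem extZ_injective {g n : ℕ} (hn : n ≤ g) (b : Fin g → ℤ) :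
    Function.Injective (extZ n b) := by
  intro m m' h
  ext j
  have h1 := congrFun h ⟨j, lt_of_lt_of_le j.2 hn⟩
  simpa [extZ] using h1

theorem topPart_extZ {g n : ℕ} (b : Fin g → ℤ) (m : Fin n → ℤ) :
    topPart n (extZ n b m) = topPart n b := by
  ext i
  unfold topPart extZ
  by_cases h : (i : ℕ) < n
  · simp [h]
  · simp [h]

/-- a sum over `Fin g` of terms supported below `n` -/
theorem sum_lt {g n : ℕ} (hn : n ≤ g) (f : ℕ → ℝ) :
    ∑ j : Fin g, (if (j : ℕ) < n then f j else 0) = ∑ j : Fin n, f j := by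
  rw [Fin.sum_univ_eq_sum_range (fun j => if j < n then f j else 0) g,
    Fin.sum_univ_eq_sum_range f n, ← Finset.sum_filter]
  apply Finset.sum_congr _ (fun _ _ => rfl)
  ext j
  simp only [Finset.mem_filter, Finset.mem_range]
  constructor
  · exact fun h => h.2
  · exact fun h => ⟨lt_of_lt_of_le h hn, h⟩

/-- rounding changes the values by little -/
theorem ev_sub {q g n : ℕ} (hq : 2 ≤ q) (hn : n ≤ g) (b : Fin g → ℤ) (u : Fin n → ℝ) (x : ℝ)
    (hx : |x| ≤ 2 * √(q : ℝ)) :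
    |ev q (extZ n b (fun j => ⌊u j⌋)) x - (HR q (ext n b u)).eval x| ≤
      ∑ j : Fin n, 2 * √(q : ℝ) ^ (j : ℕ) := by
  rw [ev_eq, HR_eval, HR_eval, add_sub_add_left_eq_sub, ← Finset.sum_sub_distrib]
  rw [← sum_lt hn (fun j => 2 * √(q : ℝ) ^ j)]
  refine (Finset.abs_sum_le_sum_abs _ _).trans (Finset.sum_le_sum fun j _ => ?_)
  rw [← sub_mul, abs_mul]
  have h1 := dkR_bound q (by omega) j x hx
  unfold extZ ext
  by_cases h : (j : ℕ) < n
  · simp only [h, dite_true, if_true]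
    have h2 : |((⌊u ⟨j, h⟩⌋ : ℤ) : ℝ) - u ⟨j, h⟩| ≤ 1 := by
      rw [abs_le]
      have h3 := Int.floor_le (u ⟨j, h⟩)
      have h4 := Int.lt_floor_add_one (u ⟨j, h⟩)
      constructor <;> linarith
    calc _ ≤ 1 * (2 * √(q : ℝ) ^ (j : ℕ)) := by gcongr
      _ = _ := one_mul _
  · simp [h]

/-- the unit cube of an integral vector -/
theorem vol_cube {n : ℕ} (m : Fin n → ℤ) :
    volume (Set.pi Set.univ fun j => Set.Ico (m j : ℝ) (m j + 1)) = 1 := by
  rw [Real.volume_pi_Ico]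
  simp

end E6B_

open E6B_ in
theorem tE6B : T_E6B := by
  intro q g n hq hg hn b T x M hx hM S hSf hS
  have hgR : (20 : ℝ) ≤ g := by exact_mod_cast hg
  have hg0 : (0 : ℝ) < g := by linarith
  -- the values after rounding
  have key : ∀ u ∈ Slab q n b T x M (1 - 1 / (g : ℝ) ^ 4) (1 / (100 * g)),
      extZ n b (fun j => ⌊u j⌋) ∈ S := by
    intro u hu
    have hs0 : (0 : ℝ) ≤ ∑ j : Fin n, 2 * √(q : ℝ) ^ (j : ℕ) :=
      Finset.sum_nonneg fun j _ => by positivity
    have hM0 : ∀ k, 0 ≤ M k := fun k => le_trans (by positivity) (hM k)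
    have hd : ∀ k, |ev q (extZ n b (fun j => ⌊u j⌋)) (x k) - (HR q (ext n b u)).eval (x k)| ≤
        1 / (g : ℝ) ^ 6 * M k := by
      intro k
      refine (ev_sub hq hn b u (x k) (hx k)).trans ?_
      rw [one_div_mul_eq_div, le_div_iff₀ (by positivity)]
      linarith [hM k]
    refine hS _ (topPart_extZ b _) ?_ ?_
    · intro k hk
      have h1 := hu.1 k hk
      have h2 := hd k
      have h3 : (1 - 1 / (g : ℝ) ^ 4) + 1 / (g : ℝ) ^ 6 ≤ 1 - 1 / (g : ℝ) ^ 5 := by
        have h4 : 1 / (g : ℝ) ^ 6 + 1 / (g : ℝ) ^ 5 ≤ 1 / (g : ℝ) ^ 4 := by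
          rw [show (g : ℝ) ^ 6 = (g : ℝ) ^ 4 * (g : ℝ) ^ 2 by ring,
            show (g : ℝ) ^ 5 = (g : ℝ) ^ 4 * g by ring, div_add_div _ _ (by positivity) (by positivity),
            div_le_div_iff₀ (by positivity) (by positivity)]
          have h5 : (0 : ℝ) < (g : ℝ) ^ 4 := by positivity
          have h6 : (g : ℝ) + (g : ℝ) ^ 2 ≤ (g : ℝ) ^ 2 * g := by nlinarith
          nlinarith [mul_le_mul_of_nonneg_left h6 (by positivity : (0 : ℝ) ≤ (g : ℝ) ^ 4 * (g : ℝ) ^ 4)]
        linarith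
      calc |ev q (extZ n b (fun j => ⌊u j⌋)) (x k)|
          ≤ |ev q (extZ n b (fun j => ⌊u j⌋)) (x k) - (HR q (ext n b u)).eval (x k)| +
            |(HR q (ext n b u)).eval (x k)| := by
            have := abs_add_le (ev q (extZ n b (fun j => ⌊u j⌋)) (x k) -
              (HR q (ext n b u)).eval (x k)) ((HR q (ext n b u)).eval (x k))
            simpa using this
        _ ≤ 1 / (g : ℝ) ^ 6 * M k + (1 - 1 / (g : ℝ) ^ 4) * M k := add_le_add h2 h1
        _ = ((1 - 1 / (g : ℝ) ^ 4) + 1 / (g : ℝ) ^ 6) * M k := by ring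
        _ ≤ _ := mul_le_mul_of_nonneg_right h3 (hM0 k)
    · intro k hk
      have h1 := hu.2 k hk
      have h2 := hd k
      have h3 : 1 / (100 * (g : ℝ)) + 1 / (g : ℝ) ^ 6 ≤ 1 / (50 * g) := by
        have h4 : 1 / (g : ℝ) ^ 6 ≤ 1 / (100 * (g : ℝ)) := by
          apply one_div_le_one_div_of_le (by positivity)
          have h5 : (20 : ℝ) ^ 5 ≤ (g : ℝ) ^ 5 := by gcongr
          rw [show (g : ℝ) ^ 6 = (g : ℝ) ^ 5 * g by ring]
          have : (100 : ℝ) ≤ (g : ℝ) ^ 5 := by linarith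
          gcongr
        have h6 : 1 / (50 * (g : ℝ)) = 1 / (100 * (g : ℝ)) + 1 / (100 * (g : ℝ)) := by
          field_simp
          norm_num
        linarith
      calc |ev q (extZ n b (fun j => ⌊u j⌋)) (x k)|
          ≤ |ev q (extZ n b (fun j => ⌊u j⌋)) (x k) - (HR q (ext n b u)).eval (x k)| +
            |(HR q (ext n b u)).eval (x k)| := by
            have := abs_add_le (ev q (extZ n b (fun j => ⌊u j⌋)) (x k) -
              (HR q (ext n b u)).eval (x k)) ((HR q (ext n b u)).eval (x k))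
            simpa using this
        _ ≤ 1 / (g : ℝ) ^ 6 * M k + 1 / (100 * g) * M k := add_le_add h2 h1
        _ = (1 / (100 * (g : ℝ)) + 1 / (g : ℝ) ^ 6) * M k := by ring
        _ ≤ _ := mul_le_mul_of_nonneg_right h3 (hM0 k)
  -- the covering by unit cubes
  obtain ⟨Q, hQ⟩ : ∃ Q : Set (Fin n → ℤ), Q = extZ n b ⁻¹' S := ⟨_, rfl⟩
  have hQf : Q.Finite := by
    rw [hQ]
    exact hSf.preimage (extZ_injective hn b).injOn
  have hcard : Q.ncard ≤ S.ncard := by
    rw [← Set.ncard_image_of_injective Q (extZ_injective hn b)]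
    apply Set.ncard_le_ncard _ hSf
    rw [hQ]
    exact Set.image_preimage_subset _ _
  have hcov : Slab q n b T x M (1 - 1 / (g : ℝ) ^ 4) (1 / (100 * g)) ⊆
      ⋃ m ∈ hQf.toFinset, Set.pi Set.univ fun j => Set.Ico (m j : ℝ) (m j + 1) := by
    intro u hu
    simp only [Set.mem_iUnion]
    refine ⟨fun j => ⌊u j⌋, ?_, ?_⟩
    · rw [Set.Finite.mem_toFinset, hQ]
      exact key u hu
    · intro j _
      exact ⟨Int.floor_le _, Int.lt_floor_add_one _⟩
  calc volume (Slab q n b T x M (1 - 1 / (g : ℝ) ^ 4) (1 / (100 * g)))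
      ≤ volume (⋃ m ∈ hQf.toFinset, Set.pi Set.univ fun j => Set.Ico (m j : ℝ) (m j + 1)) :=
        measure_mono hcov
    _ ≤ ∑ m ∈ hQf.toFinset, volume (Set.pi Set.univ fun j => Set.Ico (m j : ℝ) (m j + 1)) :=
        measure_biUnion_finset_le _ _
    _ = ∑ m ∈ hQf.toFinset, 1 := Finset.sum_congr rfl fun m _ => vol_cube m
    _ = (Q.ncard : ENNReal) := by
        rw [Finset.sum_const, nsmul_eq_mul, mul_one, Set.ncard_eq_toFinset_card Q hQf]
    _ ≤ (S.ncard : ENNReal) := by exact_mod_cast hcard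

end Pool.Agent.FQW
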