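import Pool.Agent.FQW.Targets

set_option autoImplicit false

/-!
# E7: choice of the nodes
-/

namespace Pool.Agent.FQW

open Finset

theorem tE7 : T_E7 := by
  classical
  intro q g hq hg r e c θ hc he hr1 hcr her τ hmono hτ hgrid
  have hg0 : (20 : ℝ) ≤ g := by exact_mod_cast hg
  have hgpos : (0 : ℝ) < g := by linarith
  set Q : ℝ := √(q : ℝ) with hQ
  have hQ1 : 1 ≤ Q := by
    rw [hQ, Real.one_le_sqrt]
    exact_mod_cast (by omega : 1 ≤ q)
  have hrpos : 0 < r := by linarith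
  set T : Finset (Fin g) := clus q τ r with hT
  set t : ℝ := (T.card : ℝ) with ht
  have ht0 : 0 ≤ t := Nat.cast_nonneg _
  have htg : t ≤ g := by
    have : T.card ≤ g := by
      refine (card_le_univ _).trans ?_
      rw [Fintype.card_fin]
    rw [ht]
    exact_mod_cast this
  have hQc : 0 < Q * c := by positivity
  have htQc : t * (Q * c) ≤ g * (Q * c) := mul_le_mul_of_nonneg_right htg hQc.le
  have h100 : 100 * (g * (Q * c)) ≤ r := by linarith
  have htc : t * c ≤ t * (Q * c) := mul_le_mul_of_nonneg_left (by nlinarith) ht0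
  have htc1 : t * c ≤ 1 / 100 := by linarith
  have ht1 : ∀ i ∈ T, 1 ≤ t := by
    intro i hi
    have : 1 ≤ T.card := Finset.card_pos.mpr ⟨i, hi⟩
    rw [ht]
    exact_mod_cast this
  choose mk hmk using hgrid
  set rk : Fin g → ℕ := fun i => (T.filter fun j => j < i).card with hrk
  set x : Fin g → ℝ := fun k =>
    if k ∈ T then ((⌊(1 - t * c) * τ k / c⌋ + (rk k : ℤ) : ℤ) : ℝ) * c else θ + mk k * e with hx
  have hxT : ∀ i ∈ T, x i = ((⌊(1 - t * c) * τ i / c⌋ + (rk i : ℤ) : ℤ) : ℝ) * c := by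
    intro i hi
    simp only [hx]
    rw [if_pos hi]
  have hxN : ∀ k, k ∉ T → x k = θ + mk k * e := by
    intro k hk
    simp only [hx]
    rw [if_neg hk]
  have hrkT : ∀ i ∈ T, (rk i : ℝ) ≤ t - 1 := by
    intro i hi
    have h1 : T.filter (fun j => j < i) ⊆ T.erase i := by
      intro j hj
      rw [mem_filter] at hj
      exact mem_erase.mpr ⟨hj.2.ne, hj.1⟩
    have h2 := card_le_card h1
    rw [card_erase_of_mem hi] at h2
    have h3 : 1 ≤ T.card := Finset.card_pos.mpr ⟨i, hi⟩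
    have h4 : rk i + 1 ≤ T.card := by
      simp only [hrk]
      omega
    have h5 : (rk i : ℝ) + 1 ≤ t := by
      rw [ht]
      exact_mod_cast h4
    linarith
  -- bounds for the nodes of the clusters
  have hxl : ∀ i ∈ T, (1 - t * c) * τ i - c ≤ x i := by
    intro i hi
    rw [hxT i hi]
    have h1 : (1 - t * c) * τ i / c < ⌊(1 - t * c) * τ i / c⌋ + 1 := Int.lt_floor_add_one _
    rw [div_lt_iff₀ hc] at h1
    have h2 : (0 : ℝ) ≤ rk i := Nat.cast_nonneg _
    have h3 : 0 ≤ (rk i : ℝ) * c := by positivity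
    push_cast
    nlinarith
  have hxu : ∀ i ∈ T, x i ≤ (1 - t * c) * τ i + (t - 1) * c := by
    intro i hi
    rw [hxT i hi]
    have h1 : (⌊(1 - t * c) * τ i / c⌋ : ℝ) ≤ (1 - t * c) * τ i / c := Int.floor_le _
    rw [le_div_iff₀ hc] at h1
    have h3 : (rk i : ℝ) * c ≤ (t - 1) * c := mul_le_mul_of_nonneg_right (hrkT i hi) hc.le
    push_cast
    linarith
  have hcc : ∀ i ∈ T, |x i - τ i| ≤ 4 * Q * t * c := by
    intro i hi
    have h1 := hxl i hi
    have h2 := hxu i hi
    have h3 := abs_le.mp (hτ i)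
    have h4 := ht1 i hi
    have htc0 : 0 ≤ t * c := by positivity
    have h5 : t * c * τ i ≤ t * c * (2 * Q) := mul_le_mul_of_nonneg_left h3.2 htc0
    have h6 : t * c * (-(2 * Q)) ≤ t * c * τ i := mul_le_mul_of_nonneg_left h3.1 htc0
    have h7 : c ≤ t * c := by nlinarith
    rw [abs_le]
    constructor <;> linarith
  have hclN : ∀ k, k ∉ T → |x k - τ k| ≤ (1 / 2 - 1 / (g : ℝ) ^ 2) * e := by
    intro k hk
    rw [hxN k hk, abs_sub_comm]
    exact hmk k
  have hcl8 : ∀ k, |x k - τ k| ≤ r / 8 := by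
    intro k
    by_cases hk : k ∈ T
    · refine (hcc k hk).trans ?_
      have : 4 * Q * t * c = 4 * (t * (Q * c)) := by ring
      rw [this]
      linarith
    · refine (hclN k hk).trans ?_
      have h1 : 0 < 1 / (g : ℝ) ^ 2 := by positivity
      have h2 : (1 / 2 - 1 / (g : ℝ) ^ 2) * e ≤ 1 / 2 * e :=
        mul_le_mul_of_nonneg_right (by linarith) he.le
      linarith
  have hnT : ∀ k, k ∉ T → (∀ j, j ≠ k → r ≤ |τ k - τ j|) ∧ |τ k| ≤ 2 * Q - r := by
    intro k hk
    rw [hT, clus, mem_filter] at hk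
    push Not at hk
    exact hk (mem_univ k)
  have hfar : ∀ j k, j ≠ k → (j ∉ T ∨ k ∉ T) → r ≤ |τ k - τ j| := by
    intro j k hjk hor
    rcases hor with h | h
    · rw [abs_sub_comm]
      exact (hnT j h).1 k hjk.symm
    · exact (hnT k h).1 j hjk
  -- the increments
  have hlt : ∀ i j, i < j → (i ∉ T ∨ j ∉ T) → r / 2 ≤ x j - x i := by
    intro i j hij hor
    have h1 := hfar i j hij.ne hor
    rw [abs_of_nonneg (sub_nonneg.mpr (hmono hij.le))] at h1
    have h2 := abs_le.mp (hcl8 i)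
    have h3 := abs_le.mp (hcl8 j)
    linarith
  have hltT : ∀ i ∈ T, ∀ j ∈ T, i < j → c ≤ x j - x i := by
    intro i hi j hj hij
    rw [hxT i hi, hxT j hj]
    have h1 : ⌊(1 - t * c) * τ i / c⌋ ≤ ⌊(1 - t * c) * τ j / c⌋ := by
      refine Int.floor_le_floor ?_
      refine div_le_div_of_nonneg_right ?_ hc.le
      exact mul_le_mul_of_nonneg_left (hmono hij.le) (by linarith)
    have h2 : rk i < rk j := by
      refine card_lt_card ?_
      rw [Finset.ssubset_iff_of_subset]
      · refine ⟨i, ?_, ?_⟩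
        · exact mem_filter.mpr ⟨hi, hij⟩
        · simp
      · intro l hl
        rw [mem_filter] at hl ⊢
        exact ⟨hl.1, hl.2.trans hij⟩
    have h3 : (⌊(1 - t * c) * τ i / c⌋ + (rk i : ℤ)) + 1 ≤ ⌊(1 - t * c) * τ j / c⌋ + (rk j : ℤ) := by
      omega
    have h4 : (((⌊(1 - t * c) * τ i / c⌋ + (rk i : ℤ)) : ℤ) : ℝ) + 1 ≤
        ((⌊(1 - t * c) * τ j / c⌋ + (rk j : ℤ) : ℤ) : ℝ) := by exact_mod_cast h3
    nlinarith
  refine ⟨x, ⟨?_, ?_, ?_, ?_, ?_⟩, ⟨?_, ?_⟩, ?_, ?_⟩
  · intro i j hij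
    by_cases hor : i ∉ T ∨ j ∉ T
    · have := hlt i j hij hor
      linarith
    · push Not at hor
      have := hltT i hor.1 j hor.2 hij
      linarith
  · intro k hk j hjk
    rcases lt_or_gt_of_ne hjk with h | h
    · exact (hlt j k h (Or.inr hk)).trans (le_abs_self _)
    · rw [abs_sub_comm]
      exact (hlt k j h (Or.inl hk)).trans (le_abs_self _)
  · intro i hi j hj hij
    rcases lt_or_gt_of_ne hij with h | h
    · rw [abs_sub_comm]
      exact (hltT i hi j hj h).trans (le_abs_self _)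
    · exact (hltT j hj i hi h).trans (le_abs_self _)
  · intro k hk
    have h1 := (hnT k hk).2
    have h2 := hcl8 k
    have h3 := abs_sub_abs_le_abs_sub (x k) (τ k)
    linarith
  · intro i hi
    have h1 := hxl i hi
    have h2 := hxu i hi
    have h3 := abs_le.mp (hτ i)
    have h4 := ht1 i hi
    have htc0 : 0 ≤ t * c := by positivity
    have h1c : 0 ≤ 1 - t * c := by linarith
    have h5 : (1 - t * c) * τ i ≤ (1 - t * c) * (2 * Q) := mul_le_mul_of_nonneg_left h3.2 h1c
    have h6 : (1 - t * c) * (-(2 * Q)) ≤ (1 - t * c) * τ i := mul_le_mul_of_nonneg_left h3.1 h1c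
    have h7 : c ≤ t * c := by nlinarith
    rw [abs_le]
    constructor <;> nlinarith
  · exact hclN
  · exact hcc
  · intro k hk
    exact ⟨mk k, hxN k hk⟩
  · intro i hi
    exact ⟨_, hxT i hi⟩

end Pool.Agent.FQW
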