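import Pool.Agent.FQW.Targets

set_option autoImplicit false

/-!
# E8: a shift of the grid which is good for half of the root vectors
-/

namespace Pool.Agent.FQW

open Finset
open scoped BigOperators

namespace E8_

open Classical in
/-- the bad shifts for one real number are few -/
theorem few (g : ℕ) (hg : 20 ≤ g) (t : ℝ) :
    ((range (g ^ 3)).filter fun s : ℕ => ∀ m : ℤ,
      ¬ |t - ((s : ℝ) / (g : ℝ) ^ 3 + m)| ≤ 1 / 2 - 1 / (g : ℝ) ^ 2).card ≤ 2 * g := by
  have hg0 : (0 : ℝ) < g := by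
    have : 0 < g := by omega
    exact_mod_cast this
  set N : ℤ := (g : ℤ) ^ 3 with hN
  set c : ℤ := ⌊(g : ℝ) ^ 3 * (t - 1 / 2)⌋ with hc
  have hsub : ((range (g ^ 3)).filter fun s : ℕ => ∀ m : ℤ,
      ¬ |t - ((s : ℝ) / (g : ℝ) ^ 3 + m)| ≤ 1 / 2 - 1 / (g : ℝ) ^ 2) ⊆
      (Finset.Icc (-(g : ℤ) + 1) g).image fun j => ((c + j) % N).toNat := by
    intro s hs
    rw [mem_filter, mem_range] at hs
    obtain ⟨hs1, hs2⟩ := hs
    -- `m` with `t - s / g ^ 3 - 1/2` within `1 / g ^ 2` of `m`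
    set w : ℝ := t - (s : ℝ) / (g : ℝ) ^ 3 with hw
    set m : ℤ := ⌊w⌋ with hm
    have hm1 : (m : ℝ) ≤ w := Int.floor_le w
    have hm2 : w < m + 1 := Int.lt_floor_add_one w
    have h1 := hs2 m
    have h2 := hs2 (m + 1)
    have e1 : t - ((s : ℝ) / (g : ℝ) ^ 3 + (m : ℝ)) = w - m := by rw [hw]; ring
    have e2 : t - ((s : ℝ) / (g : ℝ) ^ 3 + ((m + 1 : ℤ) : ℝ)) = -(m + 1 - w) := by
      rw [hw]; push_cast; ring
    rw [e1, abs_of_nonneg (by linarith)] at h1
    rw [e2, abs_neg, abs_of_nonneg (by linarith)] at h2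
    push Not at h1 h2
    -- so `|w - 1/2 - m| < 1 / g ^ 2`
    have h3 : |w - 1 / 2 - m| < 1 / (g : ℝ) ^ 2 := by
      rw [abs_lt]
      constructor <;> linarith
    have h4 : |(g : ℝ) ^ 3 * (t - 1 / 2) - ((s : ℝ) + (g : ℝ) ^ 3 * (m : ℝ))| < (g : ℝ) := by
      have e3 : (g : ℝ) ^ 3 * (t - 1 / 2) - ((s : ℝ) + (g : ℝ) ^ 3 * (m : ℝ)) =
          (g : ℝ) ^ 3 * (w - 1 / 2 - m) := by
        rw [hw]
        field_simp
        ring
      rw [e3, abs_mul, abs_of_pos (by positivity)]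
      calc (g : ℝ) ^ 3 * |w - 1 / 2 - m| < (g : ℝ) ^ 3 * (1 / (g : ℝ) ^ 2) :=
            mul_lt_mul_of_pos_left h3 (by positivity)
        _ = g := by field_simp
    have hc1 : (c : ℝ) ≤ (g : ℝ) ^ 3 * (t - 1 / 2) := Int.floor_le _
    have hc2 : (g : ℝ) ^ 3 * (t - 1 / 2) < c + 1 := Int.lt_floor_add_one _
    rw [abs_lt] at h4
    rw [mem_image]
    refine ⟨(s : ℤ) + N * m - c, ?_, ?_⟩
    · rw [mem_Icc]
      constructor
      · have h5 : (-(g : ℝ)) < (s : ℝ) + (g : ℝ) ^ 3 * m - c := by linarith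
        have h6 : (-(g : ℤ)) < (s : ℤ) + N * m - c := by
          rw [hN]
          exact_mod_cast h5
        omega
      · have h5 : (s : ℝ) + (g : ℝ) ^ 3 * m - c < g + 1 := by linarith
        have h6 : (s : ℤ) + N * m - c < g + 1 := by
          rw [hN]
          exact_mod_cast h5
        omega
    · have e4 : c + ((s : ℤ) + N * m - c) = (s : ℤ) + N * m := by ring
      rw [e4, Int.add_mul_emod_self_left]
      have h7 : (s : ℤ) < N := by
        rw [hN]
        exact_mod_cast hs1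
      rw [Int.emod_eq_of_lt (by positivity) h7]
      simp
  refine (card_le_card hsub).trans (card_image_le.trans ?_)
  rw [Int.card_Icc]
  omega

end E8_

theorem tE8 : T_E8 := by
  classical
  intro g hg e he ι R τ
  have hgpos : 0 < g := by omega
  -- the bad pairs
  let bad : ι → ℕ → Prop := fun a s => ∃ k : Fin g, ∀ m : ℤ,
    ¬ |τ a k / e - ((s : ℝ) / (g : ℝ) ^ 3 + m)| ≤ 1 / 2 - 1 / (g : ℝ) ^ 2
  have hbad : ∀ a, ((range (g ^ 3)).filter fun s => bad a s).card ≤ 2 * g ^ 2 := by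
    intro a
    have h1 : ((range (g ^ 3)).filter fun s => bad a s) ⊆
        (univ : Finset (Fin g)).biUnion fun k => (range (g ^ 3)).filter fun s : ℕ => ∀ m : ℤ,
          ¬ |τ a k / e - ((s : ℝ) / (g : ℝ) ^ 3 + m)| ≤ 1 / 2 - 1 / (g : ℝ) ^ 2 := by
      intro s hs
      rw [mem_filter] at hs
      obtain ⟨hs1, k, hk⟩ := hs
      rw [mem_biUnion]
      exact ⟨k, mem_univ k, mem_filter.mpr ⟨hs1, hk⟩⟩
    calc _ ≤ _ := card_le_card h1
      _ ≤ ∑ _k : Fin g, 2 * g := by
          refine card_biUnion_le.trans (Finset.sum_le_sum fun k _ => ?_)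
          exact E8_.few g hg _
      _ = 2 * g ^ 2 := by
          rw [sum_const, card_univ, Fintype.card_fin, smul_eq_mul]
          ring
  -- some shift is good
  have hex : ∃ s ∈ range (g ^ 3), 2 * (R.filter fun a => bad a s).card ≤ R.card := by
    by_contra hcon
    push Not at hcon
    have h1 : ∑ s ∈ range (g ^ 3), (R.filter fun a => bad a s).card =
        ∑ a ∈ R, ((range (g ^ 3)).filter fun s => bad a s).card := by
      simp only [card_filter]
      exact sum_comm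
    have h2 : ∑ a ∈ R, ((range (g ^ 3)).filter fun s => bad a s).card ≤ R.card * (2 * g ^ 2) := by
      rw [← smul_eq_mul, ← sum_const]
      exact Finset.sum_le_sum fun a _ => hbad a
    have h3 : ∑ _s ∈ range (g ^ 3), (R.card + 1) ≤
        ∑ s ∈ range (g ^ 3), 2 * (R.filter fun a => bad a s).card :=
      Finset.sum_le_sum fun s hs => hcon s hs
    rw [sum_const, card_range, smul_eq_mul, ← mul_sum, h1] at h3
    have h4 : g ^ 3 * (R.card + 1) ≤ 2 * (R.card * (2 * g ^ 2)) := h3.trans (by omega)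
    have h5 : g ^ 2 * (g * (R.card + 1)) ≤ g ^ 2 * (4 * R.card) := by
      calc g ^ 2 * (g * (R.card + 1)) = g ^ 3 * (R.card + 1) := by ring
        _ ≤ 2 * (R.card * (2 * g ^ 2)) := h4
        _ = g ^ 2 * (4 * R.card) := by ring
    have h6 : g * (R.card + 1) ≤ 4 * R.card := Nat.le_of_mul_le_mul_left h5 (by positivity)
    nlinarith
  obtain ⟨s, -, hs⟩ := hex
  refine ⟨(s : ℝ) / (g : ℝ) ^ 3 * e, R.filter fun a => ¬ bad a s, filter_subset _ _, ?_, ?_⟩
  · have := card_filter_add_card_filter_not (s := R) (fun a => bad a s)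
    omega
  · intro a ha k
    rw [mem_filter] at ha
    have h1 := ha.2
    simp only [bad] at h1
    push Not at h1
    obtain ⟨m, hm⟩ := h1 k
    refine ⟨m, ?_⟩
    have h2 : τ a k - ((s : ℝ) / (g : ℝ) ^ 3 * e + m * e) =
        (τ a k / e - ((s : ℝ) / (g : ℝ) ^ 3 + m)) * e := by
      field_simp
    rw [h2, abs_mul, abs_of_pos he]
    exact mul_le_mul_of_nonneg_right hm he.le

end Pool.Agent.FQW
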