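import Mathlib
import Pool.Agent.FQW.Basic

set_option autoImplicit false

/-!
# The set `P q g` is finite

The coefficients of the polynomial with the vector `a` are bounded, since its roots are, and `a` is
determined by the polynomial.
-/

namespace Pool.Agent.FQW

open Polynomial Finset
open scoped BigOperators

/-- the coefficients of the integral polynomials with the vectors in `P q g` are bounded -/
private theorem FINP_bound (q g : ℕ) (a : Fin g → ℤ) (ha : a ∈ P q g) (i : ℕ) :
    |(((HZ q a).coeff i : ℤ) : ℝ)| ≤ max (2 * √(q : ℝ)) 1 ^ g * g.choose (g / 2) := by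
  obtain ⟨τ, -, hτ, hprod⟩ := ha
  have hs : Splits ((HZ q a).map (Int.castRingHom ℝ)) := by
    rw [hprod]
    exact Splits.prod fun i _ => Splits.X_sub_C (τ i)
  have hr : ∀ z ∈ (map (Int.castRingHom ℝ) (HZ q a)).roots, ‖z‖ ≤ 2 * √(q : ℝ) := by
    intro z hz
    have h0 := (mem_roots'.mp hz).2
    rw [IsRoot.def, hprod, eval_prod, Finset.prod_eq_zero_iff] at h0
    obtain ⟨j, -, hj⟩ := h0
    have hzj : z = τ j := by
      simpa [sub_eq_zero] using hj
    rw [hzj, Real.norm_eq_abs]
    exact hτ j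
  have h := coeff_bdd_of_roots_le (Int.castRingHom ℝ) (HZ_monic q a) hs
    (le_of_eq (HZ_natDegree q a)) hr i
  rw [coeff_map] at h
  simpa using h

theorem tFINP : T_FINP := by
  intro q g
  set M : ℤ := ⌈max (2 * √(q : ℝ)) 1 ^ g * (g.choose (g / 2) : ℝ)⌉ with hM
  have hinj : Set.InjOn (fun (a : Fin g → ℤ) (i : Fin (g + 1)) => (HZ q a).coeff i) (P q g) := by
    intro a _ b _ hab
    apply HZ_injective q g
    ext i
    rcases lt_or_ge i (g + 1) with hi | hi
    · exact congrFun hab ⟨i, hi⟩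
    · rw [coeff_eq_zero_of_natDegree_lt (by rw [HZ_natDegree]; omega),
        coeff_eq_zero_of_natDegree_lt (by rw [HZ_natDegree]; omega)]
  refine Set.Finite.of_finite_image ?_ hinj
  refine (Set.finite_Icc (fun _ : Fin (g + 1) => -M) (fun _ => M)).subset ?_
  rintro _ ⟨a, ha, rfl⟩
  have key : ∀ i : Fin (g + 1), |(HZ q a).coeff i| ≤ M := by
    intro i
    have h1 := FINP_bound q g a ha i
    have h2 := Int.le_ceil (max (2 * √(q : ℝ)) 1 ^ g * (g.choose (g / 2) : ℝ))
    rw [← hM] at h2
    have h3 : ((|(HZ q a).coeff i| : ℤ) : ℝ) ≤ (M : ℝ) := by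
      rw [Int.cast_abs]
      exact h1.trans h2
    exact_mod_cast h3
  exact Set.mem_Icc.mpr ⟨fun i => (abs_le.mp (key i)).1, fun i => (abs_le.mp (key i)).2⟩

end Pool.Agent.FQW
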