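import Pool.Agent.FQW.Basic
import Pool.Agent.AWP.FROB

set_option autoImplicit false

/-!
# FRB1: the Frobenius automorphism gives a cycle of prime length
-/

namespace Pool.Agent.FQW

open Polynomial Finset
open Pool.Agent.CMT (QBar)
open scoped BigOperators

namespace FRB1_

/-! ### The combinatorial part -/

theorem iter_equiv {Ω : Type} [Field Ω] (σ : Ω ≃+* Ω) (n : ℕ) :
    ∃ σn : Ω ≃+* Ω, ∀ x, σn x = σ^[n] x := by
  induction n with
  | zero => exact ⟨RingEquiv.refl Ω, fun x => rfl⟩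
  | succ n ih =>
    obtain ⟨f, hf⟩ := ih
    refine ⟨σ.trans f, fun x => ?_⟩
    rw [Function.iterate_succ_apply, ← hf]
    rfl

theorem quad_fix {Ω : Type} [Field Ω] (σ : Ω ≃+* Ω) (q : ℕ) (hq : (q : Ω) ≠ 0) {α : Ω}
    (h0 : α ≠ 0) (h : σ (α + q / α) = α + q / α) : σ (σ α) = α := by
  have h1 : σ α ≠ 0 := (map_ne_zero σ).2 h0
  rw [map_add, map_div₀, map_natCast] at h
  have h2 : (σ α - α) * (σ α - q / α) = 0 := by
    have h3 : (σ α - α) * (σ α - q / α) = σ α * (σ α + q / σ α) - σ α * (α + q / α) := by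
      field_simp
      ring
    rw [h3, h, sub_self]
  rcases mul_eq_zero.1 h2 with h3 | h3
  · have h4 := sub_eq_zero.1 h3
    rw [h4, h4]
  · have h4 := sub_eq_zero.1 h3
    rw [h4, map_div₀, map_natCast, h4]
    field_simp

/-- a permutation of a finite set: the factorial of the cardinality is a period -/
theorem fact_period {Ω : Type} [DecidableEq Ω] (f : Ω → Ω) (hf : Function.Injective f)
    (N : Finset Ω) (hN : ∀ x ∈ N, f x ∈ N) : ∀ x ∈ N, f^[(N.card).factorial] x = x := by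
  classical
  let F : N → N := fun x => ⟨f x, hN x x.2⟩
  have hF : Function.Injective F := by
    intro x y hxy
    exact Subtype.ext (hf (congrArg Subtype.val hxy))
  let π : Equiv.Perm N := Equiv.ofBijective F (Finite.injective_iff_bijective.1 hF)
  have h1 : π ^ (Fintype.card (Equiv.Perm N)) = 1 := pow_card_eq_one
  have h2 : Fintype.card (Equiv.Perm N) = (N.card).factorial := by
    rw [Fintype.card_perm, Fintype.card_coe]
  have h3 : ∀ (n : ℕ) (x : N), ((π ^ n) x : Ω) = f^[n] x := by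
    intro n
    induction n with
    | zero => intro x; rfl
    | succ n ih =>
      intro x
      rw [pow_succ, Equiv.Perm.mul_apply, ih, Function.iterate_succ_apply]
      rfl
  intro x hx
  have h4 := h3 (N.card).factorial ⟨x, hx⟩
  rw [← h2, h1] at h4
  rw [← h2, ← h4]
  rfl

theorem comb {Ω : Type} [Field Ω] (σ : Ω ≃+* Ω) (q g p : ℕ) [hpf : Fact p.Prime] (hp3 : 3 ≤ p)
    (hpg : g < 2 * p) (R : Finset Ω) (hR : R.card ≤ g) (hσ : ∀ β ∈ R, σ β ∈ R)
    (hq : (q : Ω) ≠ 0) (β₀ : Ω) (hβ₀ : β₀ ∈ R) (hper : σ^[p] β₀ = β₀)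
    (hmin : ∀ i, σ^[i] β₀ = β₀ → p ∣ i) (h4 : β₀ ^ 2 ≠ 4 * q) (ρ₀ : Ω) (hρ0 : ρ₀ ≠ 0)
    (hρβ : ρ₀ + q / ρ₀ = β₀) :
    ∃ (τ : Ω ≃+* Ω) (ρ : ZMod p → Ω), (∀ k, ρ k ≠ 0 ∧ ρ k + q / ρ k ∈ R) ∧
      Function.Injective ρ ∧ (∀ k l, ρ k * ρ l ≠ q) ∧ (∀ k, τ (ρ k) = ρ (k + 1)) ∧
      ∀ α : Ω, α ≠ 0 → α + q / α ∈ R → (∀ k, α ≠ ρ k ∧ α * ρ k ≠ q) → τ α = α := by
  classical
  have hp : p.Prime := hpf.out
  have hp0 : 0 < p := hp.pos
  have hPP : Function.IsPeriodicPt σ p β₀ := hper
  -- equality of iterates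
  have hinj0 : ∀ i j : ℕ, i ≤ j → σ^[i] β₀ = σ^[j] β₀ → (i : ZMod p) = j := by
    intro i j hij h
    have h1 : σ^[i] β₀ = σ^[i] (σ^[j - i] β₀) := by
      rw [← Function.iterate_add_apply, Nat.add_sub_cancel' hij]
      exact h
    have h2 := σ.injective.iterate i h1
    have h3 := hmin _ h2.symm
    have h5 : ((j - i : ℕ) : ZMod p) = 0 := (ZMod.natCast_eq_zero_iff _ _).2 h3
    rw [Nat.cast_sub hij] at h5
    exact (sub_eq_zero.1 h5).symm
  have hinj : ∀ i j : ℕ, σ^[i] β₀ = σ^[j] β₀ → (i : ZMod p) = j := by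
    intro i j h
    rcases le_total i j with h1 | h1
    · exact hinj0 i j h1 h
    · exact (hinj0 j i h1 h.symm).symm
  have hsur : ∀ i j : ℕ, (i : ZMod p) = j → σ^[i] β₀ = σ^[j] β₀ := by
    intro i j h
    rw [ZMod.natCast_eq_natCast_iff'] at h
    rw [← hPP.iterate_mod_apply i, ← hPP.iterate_mod_apply j, h]
  have hRi : ∀ i : ℕ, σ^[i] β₀ ∈ R := by
    intro i
    induction i with
    | zero => exact hβ₀
    | succ i ih =>
      rw [Function.iterate_succ_apply']
      exact hσ _ ih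
  -- the other elements
  set N : Finset Ω := R.filter (fun β => ∀ i : ℕ, β ≠ σ^[i] β₀) with hN
  set O : Finset Ω := (Finset.range p).image (fun i => σ^[i] β₀) with hO
  have hOcard : O.card = p := by
    rw [hO, Finset.card_image_of_injOn, Finset.card_range]
    intro i hi j hj hij
    have h1 := hinj i j hij
    rw [ZMod.natCast_eq_natCast_iff'] at h1
    rwa [Nat.mod_eq_of_lt (Finset.mem_range.1 hi), Nat.mod_eq_of_lt (Finset.mem_range.1 hj)] at h1
  have hNO : Disjoint N O := by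
    rw [Finset.disjoint_left]
    intro β h1 h2
    rw [hN, Finset.mem_filter] at h1
    rw [hO, Finset.mem_image] at h2
    obtain ⟨i, -, h3⟩ := h2
    exact h1.2 i h3.symm
  have hNcard : N.card < p := by
    have h1 : N ∪ O ⊆ R := by
      apply Finset.union_subset (Finset.filter_subset _ _)
      intro β hβ
      rw [hO, Finset.mem_image] at hβ
      obtain ⟨i, -, h3⟩ := hβ
      rw [← h3]
      exact hRi i
    have h2 := Finset.card_le_card h1
    rw [Finset.card_union_of_disjoint hNO, hOcard] at h2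
    omega
  have hσN : ∀ β ∈ N, σ β ∈ N := by
    intro β hβ
    rw [hN, Finset.mem_filter] at hβ ⊢
    refine ⟨hσ β hβ.1, fun i h => ?_⟩
    rcases i with - | i
    · apply hβ.2 (p - 1)
      apply σ.injective
      rw [← Function.iterate_succ_apply' σ, Nat.succ_eq_add_one, Nat.sub_add_cancel hp0, hper]
      exact h
    · apply hβ.2 i
      apply σ.injective
      rw [← Function.iterate_succ_apply' σ]
      exact h
  set e : ℕ := (N.card).factorial with he
  have heN : ∀ β ∈ N, σ^[e] β = β := fact_period σ σ.injective N hσN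
  have hpe : ¬ p ∣ 2 * e := by
    intro h
    rcases (Nat.Prime.dvd_mul hp).1 h with h1 | h1
    · have := Nat.le_of_dvd (by norm_num) h1
      omega
    · have := (Nat.Prime.dvd_factorial hp).1 h1
      omega
  have he2 : ((2 * e : ℕ) : ZMod p) ≠ 0 := by
    intro h
    exact hpe ((ZMod.natCast_eq_zero_iff _ _).1 h)
  -- values on `ρ₀`
  have hval : ∀ m : ℕ, σ^[m] ρ₀ ≠ 0 ∧ σ^[m] ρ₀ + q / σ^[m] ρ₀ = σ^[m] β₀ := by
    intro m
    obtain ⟨f, hf⟩ := iter_equiv σ m
    rw [← hf, ← hf]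
    refine ⟨(map_ne_zero f).2 hρ0, ?_⟩
    rw [← hρβ, map_add, map_div₀, map_natCast]
  have hρper : σ^[2 * e * p] ρ₀ = ρ₀ := by
    obtain ⟨f, hf⟩ := iter_equiv σ (e * p)
    have h1 : f (ρ₀ + q / ρ₀) = ρ₀ + q / ρ₀ := by
      rw [hf, hρβ]
      have h2 := hsur (e * p) 0 (by push_cast; rw [ZMod.natCast_self, mul_zero])
      exact h2
    have h3 := quad_fix f q hq hρ0 h1
    rw [hf, hf, ← Function.iterate_add_apply] at h3
    have h5 : 2 * e * p = e * p + e * p := by ring
    rw [h5]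
    exact h3
  obtain ⟨τ, hτ⟩ := iter_equiv σ (2 * e)
  set ρ : ZMod p → Ω := fun k => σ^[2 * e * k.val] ρ₀ with hρ
  have hbeta : ∀ k k' : ZMod p, ρ k + q / ρ k = ρ k' + q / ρ k' → k = k' := by
    intro k k' h
    rw [hρ] at h
    simp only at h
    rw [(hval _).2, (hval _).2] at h
    have h1 := hinj _ _ h
    have h2 : ((2 * e : ℕ) : ZMod p) * k = ((2 * e : ℕ) : ZMod p) * k' := by
      rw [Nat.cast_mul, Nat.cast_mul (2 * e), ZMod.natCast_zmod_val, ZMod.natCast_zmod_val] at h1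
      exact h1
    exact mul_left_cancel₀ he2 h2
  refine ⟨τ, ρ, ?_, ?_, ?_, ?_, ?_⟩
  · intro k
    refine ⟨(hval _).1, ?_⟩
    have h1 : ρ k + q / ρ k = σ^[2 * e * k.val] β₀ := (hval _).2
    rw [h1]
    exact hRi _
  · intro k k' h
    apply hbeta
    rw [h]
  · intro k l h
    have hk0 : ρ k ≠ 0 := (hval _).1
    have hl0 : ρ l ≠ 0 := (hval _).1
    have h1 : (q : Ω) / ρ k = ρ l := by
      rw [← h]
      field_simp
    have h2 : (q : Ω) / ρ l = ρ k := by
      rw [← h]
      field_simp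
    have h3 : k = l := by
      apply hbeta
      rw [h1, h2, add_comm]
    rw [← h3] at h
    obtain ⟨f, hf⟩ := iter_equiv σ (2 * e * k.val)
    have h5 : ρ₀ * ρ₀ = q := by
      apply f.injective
      rw [map_mul, map_natCast, hf]
      exact h
    apply h4
    have h6 : (q : Ω) / ρ₀ = ρ₀ := by
      rw [← h5]
      field_simp
    rw [← hρβ, h6, ← h5]
    ring
  · intro k
    have hP2 : Function.IsPeriodicPt (σ^[2 * e]) p ρ₀ := by
      unfold Function.IsPeriodicPt Function.IsFixedPt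
      rw [← Function.iterate_mul]
      exact hρper
    have h1 : (k + 1).val = (k.val + 1) % p := by
      rw [ZMod.val_add, ZMod.val_one_eq_one_mod, Nat.add_mod_mod]
    have h2 : ∀ m : ℕ, σ^[2 * e * m] ρ₀ = (σ^[2 * e])^[m] ρ₀ := by
      intro m
      rw [Function.iterate_mul]
    rw [hτ]
    change σ^[2 * e] (σ^[2 * e * k.val] ρ₀) = σ^[2 * e * (k + 1).val] ρ₀
    rw [h2, h2, h1, hP2.iterate_mod_apply, Function.iterate_succ_apply']
  · intro α hα0 hαR hα
    have hβN : α + q / α ∈ N := by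
      rw [hN, Finset.mem_filter]
      refine ⟨hαR, fun i h => ?_⟩
      set k : ZMod p := (i : ZMod p) / ((2 * e : ℕ) : ZMod p) with hk
      have h1 : ((2 * e * k.val : ℕ) : ZMod p) = i := by
        rw [Nat.cast_mul, ZMod.natCast_zmod_val, hk, mul_div_cancel₀ _ he2]
      have h2 : ρ k + q / ρ k = α + q / α := by
        have h3 : ρ k + q / ρ k = σ^[2 * e * k.val] β₀ := (hval _).2
        rw [h3, h]
        exact hsur _ _ h1
      have hk0 : ρ k ≠ 0 := (hval _).1
      have h3 : (α - ρ k) * (α * ρ k - q) = 0 := by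
        have h5 : (α - ρ k) * (α * ρ k - q) =
            α * ρ k * ((α + q / α) - (ρ k + q / ρ k)) := by
          field_simp
          ring
        rw [h5, h2, sub_self, mul_zero]
      rcases mul_eq_zero.1 h3 with h5 | h5
      · exact (hα k).1 (sub_eq_zero.1 h5)
      · exact (hα k).2 (sub_eq_zero.1 h5)
    obtain ⟨f, hf⟩ := iter_equiv σ e
    have h1 := quad_fix f q hq hα0 (by rw [hf]; exact heN _ hβN)
    rw [hf, hf, ← Function.iterate_add_apply] at h1
    rw [hτ, two_mul]
    exact h1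

/-! ### Reduction -/

/-- an irreducible factor of large degree has only simple roots -/
theorem simple_root {l : ℕ} [Fact l.Prime] {k : Type} [CommRing k] [IsDomain k]
    (ι : ZMod l →+* k) (h u : (ZMod l)[X]) (hm : h.Monic) (hu : Irreducible u) (hd : u ∣ h)
    (hdeg : h.natDegree < 2 * u.natDegree) (b : k) (hb : eval₂ ι b u = 0) :
    eval₂ ι b (derivative h) ≠ 0 := by
  obtain ⟨w, hw⟩ := hd
  have hw0 : w ≠ 0 := by
    rintro rfl
    rw [mul_zero] at hw
    exact hm.ne_zero hw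
  have hdw : w.natDegree < u.natDegree := by
    have h1 : h.natDegree = u.natDegree + w.natDegree := by
      rw [hw, natDegree_mul hu.ne_zero hw0]
    omega
  have hndvd : ¬ u ∣ w := by
    intro h1
    have := natDegree_le_of_dvd h1 hw0
    omega
  have hcop : IsCoprime u w := (Irreducible.coprime_iff_not_dvd hu).2 hndvd
  have hsep : u.Separable := PerfectField.separable_of_irreducible hu
  have hwb : eval₂ ι b w ≠ 0 := by
    intro h0
    obtain ⟨x, y, hxy⟩ := hcop
    have h1 := congrArg (eval₂ ι b) hxy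
    rw [eval₂_add, eval₂_mul, eval₂_mul, hb, h0, mul_zero, mul_zero, add_zero, eval₂_one] at h1
    exact zero_ne_one h1
  have hub : eval₂ ι b (derivative u) ≠ 0 := by
    intro h0
    obtain ⟨x, y, hxy⟩ := hsep
    have h1 := congrArg (eval₂ ι b) hxy
    rw [eval₂_add, eval₂_mul, eval₂_mul, hb, h0, mul_zero, mul_zero, add_zero, eval₂_one] at h1
    exact zero_ne_one h1
  rw [hw, derivative_mul, eval₂_add, eval₂_mul, eval₂_mul, hb, zero_mul, add_zero]
  exact mul_ne_zero hub hwb

/-- two roots with the same reduction give a multiple root -/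
theorem double_root {B k : Type} [CommRing B] [IsDomain B] [CommRing k] (r : B →+* k)
    (h : B[X]) (Y Y' : B) (hY : h.eval Y = 0) (hY' : h.eval Y' = 0) (hne : Y ≠ Y')
    (hr : r Y = r Y') : (derivative (h.map r)).eval (r Y) = 0 := by
  obtain ⟨h₁, h1⟩ := dvd_iff_isRoot.2 hY
  have h2 : h₁.eval Y' = 0 := by
    rw [h1, eval_mul, eval_sub, eval_X, eval_C] at hY'
    rcases mul_eq_zero.1 hY' with h3 | h3
    · exact absurd (sub_eq_zero.1 h3).symm hne
    · exact h3
  obtain ⟨h₂, h3⟩ := dvd_iff_isRoot.2 h2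
  rw [h1, h3]
  simp only [Polynomial.map_mul, Polynomial.map_sub, map_X, map_C, ← hr]
  simp

/-- the Frobenius orbit of a root of an irreducible polynomial of prime degree -/
theorem orbit {l : ℕ} [Fact l.Prime] {k : Type} [CommRing k] [IsDomain k] [CharP k l]
    (ι : ZMod l →+* k) (u : (ZMod l)[X]) (hu : Irreducible u) (p : ℕ) (hp : p.Prime)
    (hdeg : u.natDegree = p) (b : k) (hb : eval₂ ι b u = 0) :
    b ^ (l ^ p) = b ∧ ∀ i : ℕ, b ^ (l ^ i) = b → p ∣ i := by
  have hl : l.Prime := Fact.out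
  have hfu : Fact (Irreducible u) := ⟨hu⟩
  let φ : AdjoinRoot u →+* k := AdjoinRoot.lift ι b hb
  have hφ : φ (AdjoinRoot.root u) = b := AdjoinRoot.lift_root hb
  have hfd : Module.finrank (ZMod l) (AdjoinRoot u) = p := by
    rw [← hdeg]
    exact (AdjoinRoot.powerBasis hu.ne_zero).finrank.trans (AdjoinRoot.powerBasis_dim hu.ne_zero)
  have : FiniteDimensional (ZMod l) (AdjoinRoot u) :=
    Module.finite_of_finrank_pos (by rw [hfd]; exact hp.pos)
  have : Finite (AdjoinRoot u) := Module.finite_of_finite (ZMod l)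
  have : Fintype (AdjoinRoot u) := Fintype.ofFinite _
  have hcard : Fintype.card (AdjoinRoot u) = l ^ p := by
    rw [Module.card_eq_pow_finrank (K := ZMod l), hfd, ZMod.card]
  have h1 : b ^ (l ^ p) = b := by
    rw [← hφ, ← map_pow, ← hcard, FiniteField.pow_card]
  refine ⟨h1, fun i hi => ?_⟩
  have hfr : ∀ n : ℕ, (fun x : k => x ^ l)^[n] b = b ^ (l ^ n) := by
    intro n
    induction n with
    | zero => simp
    | succ n ih => rw [Function.iterate_succ_apply', ih, ← pow_mul, pow_succ]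
  have hP1 : Function.IsPeriodicPt (fun x : k => x ^ l) p b := by
    unfold Function.IsPeriodicPt Function.IsFixedPt
    rw [hfr, h1]
  have hP2 : Function.IsPeriodicPt (fun x : k => x ^ l) i b := by
    unfold Function.IsPeriodicPt Function.IsFixedPt
    rw [hfr, hi]
  by_contra hpi
  have hgcd : p.gcd i = 1 := (Nat.Prime.coprime_iff_not_dvd hp).2 hpi
  have hP3 := hP1.gcd hP2
  rw [hgcd] at hP3
  have h2 : b ^ l = b := hP3
  obtain ⟨w, hw⟩ := Pool.Agent.AWP.FROB_.mem_Fl ι b h2
  have h3 : u.IsRoot w := by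
    rw [hw, eval₂_at_apply] at hb
    exact (map_eq_zero_iff ι ι.injective).1 hb
  have h4 := degree_eq_one_of_irreducible_of_root hu h3
  have h5 : u.natDegree = 1 := natDegree_eq_of_degree_eq_some h4
  rw [hdeg] at h5
  exact hp.one_lt.ne' h5

/-- existence of a root which reduces to a root of the factor -/
theorem exists_root {Ω B k : Type} [Field Ω] [IsAlgClosed Ω] [CommRing B] [CommRing k]
    [IsDomain k] (j : B →+* Ω) (hj : Function.Injective j) (r : B →+* k) {l : ℕ}
    [Fact l.Prime] (ι : ZMod l →+* k) (h : ℤ[X]) (hm : h.Monic)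
    (hlift : ∀ s : Ω, aeval s h = 0 → ∃ x, j x = s) (u : (ZMod l)[X])
    (hu : 0 < u.natDegree) (hd : u ∣ h.map (Int.castRingHom (ZMod l))) :
    ∃ Y : B, aeval (j Y) h = 0 ∧ eval₂ ι (r Y) u = 0 := by
  have hne : h.map (Int.castRingHom Ω) ≠ 0 := (hm.map _).ne_zero
  have hroot : ∀ s : Ω, s ∈ (h.map (Int.castRingHom Ω)).roots ↔ aeval s h = 0 := by
    intro s
    rw [mem_roots hne, IsRoot.def, eval_map]
    rfl
  obtain ⟨m, hm'⟩ : ∃ m : Multiset B, m.map j = (h.map (Int.castRingHom Ω)).roots := by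
    have : CanLift Ω B j (fun s => ∃ x, j x = s) := ⟨fun s h => h⟩
    obtain ⟨m, hm⟩ := (Multiset.canLift (j : B → Ω) (fun s => ∃ x, j x = s)).prf
      (h.map (Int.castRingHom Ω)).roots (fun s hs => hlift s ((hroot s).1 hs))
    exact ⟨m, hm⟩
  have hmem' : ∀ Y ∈ m, aeval (j Y) h = 0 := by
    intro Y hY
    rw [← hroot, ← hm']
    exact Multiset.mem_map_of_mem _ hY
  have hprod : h.map (Int.castRingHom B) = (m.map (fun a => X - C a)).prod := by
    apply Polynomial.map_injective j hj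
    rw [Polynomial.map_map, RingHom.ext_int (j.comp (Int.castRingHom B)) (Int.castRingHom Ω)]
    have h1 := (IsAlgClosed.splits (h.map (Int.castRingHom Ω))).eq_prod_roots_of_monic
      (hm.map _)
    rw [← hm'] at h1
    refine h1.trans ?_
    rw [Polynomial.map_multiset_prod, Multiset.map_map, Multiset.map_map]
    congr 1
    refine Multiset.map_congr rfl fun a _ => ?_
    simp
  let κ := AlgebraicClosure (FractionRing k)
  let f : k →+* κ := algebraMap k κ
  have hf : Function.Injective f := by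
    have h1 : Function.Injective (algebraMap k (FractionRing k)) :=
      IsFractionRing.injective k (FractionRing k)
    have h2 : f = (algebraMap (FractionRing k) κ).comp (algebraMap k (FractionRing k)) := rfl
    rw [h2]
    exact (algebraMap (FractionRing k) κ).injective.comp h1
  obtain ⟨b, hb⟩ := IsAlgClosed.exists_eval₂_eq_zero (f.comp ι) u (by
    intro h0
    rw [natDegree_eq_of_degree_eq_some h0] at hu
    exact lt_irrefl _ hu)
  have h1 : eval₂ (f.comp ι) b (h.map (Int.castRingHom (ZMod l))) = 0 := by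
    obtain ⟨w, hw⟩ := hd
    rw [hw, eval₂_mul, hb, zero_mul]
  have h2 : eval₂ (f.comp ι) b (h.map (Int.castRingHom (ZMod l))) =
      eval₂ (f.comp r) b (h.map (Int.castRingHom B)) := by
    rw [eval₂_map, eval₂_map]
    congr 1
    exact RingHom.ext_int _ _
  rw [h2, hprod, eval₂_multiset_prod, Multiset.map_map] at h1
  obtain ⟨Y, hY, h3⟩ := Multiset.mem_map.1 (Multiset.prod_eq_zero_iff.1 h1)
  have h4 : b = f (r Y) := by
    simp only [Function.comp_apply, eval₂_sub, eval₂_X, eval₂_C, RingHom.comp_apply] at h3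
    exact sub_eq_zero.1 h3
  refine ⟨Y, hmem' Y hY, ?_⟩
  apply hf
  rw [map_zero, ← hb, h4, hom_eval₂]

end FRB1_

open FRB1_ in
/-- FRB1 -/
theorem tFRB1 : T_FRB1 := by
  intro q g p l hl hq hl3 hlq hp hp3 hpg hpg' a hPat
  obtain ⟨⟨u, huirr, hudeg, hud⟩, -⟩ := hPat
  have hpf : Fact p.Prime := ⟨hp⟩
  set h : ℤ[X] := HZ q a with hh
  have hm : h.Monic := HZ_monic q a
  have hdeg : h.natDegree = g := HZ_natDegree q a
  have hne : h.map (Int.castRingHom QBar) ≠ 0 := (hm.map _).ne_zero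
  have hroot : ∀ s : QBar, s ∈ (h.map (Int.castRingHom QBar)).roots ↔ aeval s h = 0 := by
    intro s
    rw [mem_roots hne, IsRoot.def, eval_map]
    rfl
  classical
  set R : Finset QBar := (h.map (Int.castRingHom QBar)).roots.toFinset with hR
  have hRmem : ∀ s, s ∈ R ↔ aeval s h = 0 := by
    intro s
    rw [hR, Multiset.mem_toFinset, hroot]
  have hRcard : R.card ≤ g := by
    calc R.card ≤ Multiset.card (h.map (Int.castRingHom QBar)).roots :=
          Multiset.toFinset_card_le _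
      _ ≤ (h.map (Int.castRingHom QBar)).natDegree := card_roots' _
      _ ≤ g := by rw [← hdeg]; exact natDegree_map_le
  have hSint : ∀ s ∈ (R : Set QBar), IsIntegral ℤ s := by
    intro s hs
    exact ⟨h, hm, (hRmem s).1 hs⟩
  have halg : Algebra.IsAlgebraic ℚ QBar := Pool.Agent.CMTP.isAlgebraic_QBar ℚ
  obtain ⟨B, k, i1, i2, i3, jj, rr, σ, hj, hlk, hlift, hf⟩ :=
    Pool.Agent.AWP.FROB_.frobO (R : Set QBar) R.finite_toSet hSint l hl.out
  have hchar : CharP k l := Pool.Agent.AWP.FROB_.charP_of hl.out hlk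
  have hBdom : IsDomain B := hj.isDomain jj
  let ι : ZMod l →+* k := ZMod.castHom (dvd_refl l) k
  have hlift' : ∀ s : QBar, aeval s h = 0 → ∃ x, jj x = s :=
    fun s hs => hlift s ((hRmem s).2 hs)
  obtain ⟨Y₀, hY₀, hb⟩ := exists_root jj hj rr ι h hm hlift' u (by rw [hudeg]; exact hp.pos) hud
  obtain ⟨horb1, horb2⟩ := orbit ι u huirr p hp hudeg (rr Y₀) hb
  have hsimple := simple_root ι (h.map (Int.castRingHom (ZMod l))) u (hm.map _) huirr hud (by
    rw [hm.natDegree_map, hdeg, hudeg]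
    exact hpg) (rr Y₀) hb
  have hevB : ∀ Y : B, aeval (jj Y) h = 0 → (h.map (Int.castRingHom B)).eval Y = 0 := by
    intro Y hY
    apply hj
    rw [map_zero, ← hY, eval_map, hom_eval₂, aeval_def]
    congr 1
    exact RingHom.ext_int _ _
  -- equality of roots over `u`
  have huniq : ∀ Y : B, aeval (jj Y) h = 0 → rr Y = rr Y₀ → Y = Y₀ := by
    intro Y hY hr
    by_contra hne'
    have h1 := double_root rr (h.map (Int.castRingHom B)) Y₀ Y (hevB _ hY₀) (hevB _ hY)
      (fun h => hne' h.symm) hr.symm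
    apply hsimple
    rw [← h1, Polynomial.map_map, derivative_map, derivative_map, eval₂_map, eval_map]
    congr 1
    exact RingHom.ext_int _ _
  -- the orbit
  have hit : ∀ i : ℕ, ∃ Y : B, jj Y = σ^[i] (jj Y₀) ∧ rr Y = rr Y₀ ^ (l ^ i) := by
    intro i
    induction i with
    | zero => exact ⟨Y₀, rfl, by simp⟩
    | succ i ih =>
      obtain ⟨Y, h1, h2⟩ := ih
      obtain ⟨Y', h3, h4⟩ := hf Y
      refine ⟨Y', ?_, ?_⟩
      · rw [h3, h1, Function.iterate_succ_apply']
      · rw [h4, h2, ← pow_mul, pow_succ]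
  have hσR : ∀ β ∈ R, σ β ∈ R := by
    intro β hβ
    rw [hRmem] at hβ ⊢
    exact Pool.Agent.AWP.FROB_.aeval_map_root σ _ _ hβ
  have hβ₀R : jj Y₀ ∈ R := (hRmem _).2 hY₀
  have hRi : ∀ i : ℕ, σ^[i] (jj Y₀) ∈ R := by
    intro i
    induction i with
    | zero => exact hβ₀R
    | succ i ih =>
      rw [Function.iterate_succ_apply']
      exact hσR _ ih
  have hper : σ^[p] (jj Y₀) = jj Y₀ := by
    obtain ⟨Y, h1, h2⟩ := hit p
    have h3 : Y = Y₀ := by
      apply huniq
      · rw [h1]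
        exact (hRmem _).1 (hRi p)
      · rw [h2, horb1]
    rw [← h1, h3]
  have hmin : ∀ i, σ^[i] (jj Y₀) = jj Y₀ → p ∣ i := by
    intro i hi
    obtain ⟨Y, h1, h2⟩ := hit i
    have h3 : Y = Y₀ := hj (by rw [h1, hi])
    apply horb2
    rw [← h2, h3]
  have hq0 : (q : QBar) ≠ 0 := by
    have : q ≠ 0 := by omega
    exact_mod_cast this
  have h4 : (jj Y₀) ^ 2 ≠ 4 * q := by
    intro h0
    have h1 : Y₀ ^ 2 = 4 * q := by
      apply hj
      rw [map_pow, map_mul, map_natCast, map_ofNat]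
      exact h0
    have h2 : eval₂ ι (rr Y₀) (X ^ 2 - C (4 * (q : ZMod l)) : (ZMod l)[X]) = 0 := by
      rw [eval₂_sub, eval₂_pow, eval₂_X, eval₂_C, map_mul, map_natCast, map_ofNat]
      have := congrArg rr h1
      rw [map_pow, map_mul, map_natCast, map_ofNat] at this
      rw [this, sub_self]
    have h3 : ¬ u ∣ (X ^ 2 - C (4 * (q : ZMod l)) : (ZMod l)[X]) := by
      intro h5
      have h6 : (X ^ 2 - C (4 * (q : ZMod l)) : (ZMod l)[X]) ≠ 0 :=
        (monic_X_pow_sub_C _ (by norm_num)).ne_zero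
      have h7 := natDegree_le_of_dvd h5 h6
      rw [natDegree_X_pow_sub_C, hudeg] at h7
      omega
    obtain ⟨x, y, hxy⟩ := (Irreducible.coprime_iff_not_dvd huirr).2 h3
    have h5 := congrArg (eval₂ ι (rr Y₀)) hxy
    rw [eval₂_add, eval₂_mul, eval₂_mul, hb, h2, mul_zero, mul_zero, add_zero, eval₂_one] at h5
    exact zero_ne_one h5
  -- a root of the quadratic equation
  obtain ⟨ρ₀, hρ₀⟩ : ∃ ρ₀ : QBar, ρ₀ ^ 2 - jj Y₀ * ρ₀ + q = 0 := by
    obtain ⟨z, hz⟩ := IsAlgClosed.exists_root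
      (X ^ 2 - (C (jj Y₀) * X - C (q : QBar)) : QBar[X]) (by
        have h1 : (C (jj Y₀) * X - C (q : QBar) : QBar[X]).degree < (2 : ℕ) := by
          refine lt_of_le_of_lt (degree_sub_le _ _) ?_
          rw [max_lt_iff]
          constructor
          · exact lt_of_le_of_lt (degree_C_mul_X_le _) (by norm_num)
          · exact lt_of_le_of_lt degree_C_le (by norm_num)
        rw [degree_sub_eq_left_of_degree_lt (by rw [degree_X_pow]; exact h1), degree_X_pow]
        norm_num)
    refine ⟨z, ?_⟩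
    rw [IsRoot.def, eval_sub, eval_pow, eval_X, eval_sub, eval_mul, eval_C, eval_X, eval_C] at hz
    linear_combination hz
  have hρ00 : ρ₀ ≠ 0 := by
    rintro rfl
    apply hq0
    rw [← hρ₀]
    ring
  have hρβ : ρ₀ + q / ρ₀ = jj Y₀ := by
    field_simp
    linear_combination hρ₀
  obtain ⟨τ, ρ, h5, h6, h7, h8, h9⟩ := comb σ q g p hp3 hpg R hRcard hσR hq0 (jj Y₀) hβ₀R hper
    hmin h4 ρ₀ hρ00 hρβ
  refine ⟨τ, ρ, ?_, h6, h7, h8, ?_⟩
  · intro k
    exact ⟨(h5 k).1, (hRmem _).1 (h5 k).2⟩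
  · intro α hα h10
    exact h9 α hα.1 ((hRmem _).2 hα.2) h10

end Pool.Agent.FQW
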