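import Pool.Agent.FQW.Basic
import Pool.Agent.AWP.FROB

set_option autoImplicit false

/-!
# FRB2: the inversion given by the pattern
-/

namespace Pool.Agent.FQW

open Polynomial Finset
open Pool.Agent.CMT (QBar)
open Pool.Agent.AWP.FROB_
open scoped BigOperators

namespace FRB2_

/-- a monic quadratic polynomial -/
theorem quad_eq {R : Type} [CommRing R] [Nontrivial R] (v : R[X]) (hm : v.Monic)
    (hd : v.natDegree = 2) : v = X ^ 2 + C (v.coeff 1) * X + C (v.coeff 0) := by
  have h2 : v.coeff 2 = 1 := by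
    have := hm.coeff_natDegree
    rwa [hd] at this
  conv_lhs => rw [v.as_sum_range_C_mul_X_pow, hd]
  rw [Finset.sum_range_succ, Finset.sum_range_succ, Finset.sum_range_succ, Finset.sum_range_zero,
    h2]
  simp
  ring

/-- the Weil polynomial of the quadratic polynomial -/
noncomputable def Q4 (q : ℕ) {R : Type} [CommRing R] (v : R[X]) : R[X] :=
  (X ^ 2 + C (q : R)) ^ 2 + C (v.coeff 1) * X * (X ^ 2 + C (q : R)) + C (v.coeff 0) * X ^ 2

theorem Q4_natDegree (q : ℕ) {R : Type} [CommRing R] [Nontrivial R] (v : R[X]) :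
    (Q4 q v).natDegree = 4 := by
  have e : Q4 q v = X ^ 4 + C (v.coeff 1) * X ^ 3 + C (2 * (q : R) + v.coeff 0) * X ^ 2 +
      C (v.coeff 1 * (q : R)) * X + C ((q : R) ^ 2) := by
    unfold Q4
    simp only [C_add, C_mul, C_pow]
    have : (C (2 : R)) = (2 : R[X]) := rfl
    rw [this]
    ring
  rw [e]
  compute_degree!

theorem no_root {F : Type} [Field F] (q : ℕ) (v : F[X]) (hv : Inert q v) (w : F) :
    w ^ 2 + v.coeff 1 * w + v.coeff 0 ≠ 0 := by
  intro hw
  have hirr : Irreducible (Q4 q v) := hv.2.2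
  have e : Q4 q v = (X ^ 2 - C w * X + C (q : F)) * (X ^ 2 + C (v.coeff 1 + w) * X + C (q : F)) := by
    have h0 : C (v.coeff 0) = -(C w * (C (v.coeff 1) + C w)) := by
      rw [← C_add, ← C_mul, ← C_neg]
      congr 1
      linear_combination hw
    unfold Q4
    rw [h0, C_add]
    ring
  have d1 : (X ^ 2 - C w * X + C (q : F)).natDegree = 2 := by compute_degree!
  have d2 : (X ^ 2 + C (v.coeff 1 + w) * X + C (q : F)).natDegree = 2 := by compute_degree!
  rcases hirr.isUnit_or_isUnit e with h | h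
  · have := natDegree_eq_zero_of_isUnit h
    omega
  · have := natDegree_eq_zero_of_isUnit h
    omega

section

variable {K : Type} [CommRing K] [IsDomain K] {l : ℕ} [Fact l.Prime] [CharP K l]
  (ι : ZMod l →+* K) (q : ℕ) (v : (ZMod l)[X]) (hv : Inert q v)

include hv

omit [CharP K l] in
/-- the root is not in the prime field -/
theorem root_ne (s : K) (hs : s ^ 2 + ι (v.coeff 1) * s + ι (v.coeff 0) = 0) : s ^ l ≠ s := by
  intro h
  obtain ⟨w, rfl⟩ := mem_Fl ι s h
  apply no_root q v hv w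
  apply ι.injective
  rw [map_add, map_add, map_mul, map_pow, map_zero]
  exact hs

theorem root_frob (s : K) (hs : s ^ 2 + ι (v.coeff 1) * s + ι (v.coeff 0) = 0) :
    s ^ l = -ι (v.coeff 1) - s := by
  have h1 : (s ^ l) ^ 2 + ι (v.coeff 1) * s ^ l + ι (v.coeff 0) = 0 := by
    have h2 := congrArg (frobenius K l) hs
    simp only [map_add, map_mul, map_pow, map_zero, frobenius_def] at h2
    rw [← map_pow, ← map_pow, ZMod.pow_card, ZMod.pow_card] at h2
    exact h2
  have h3 : (s ^ l - s) * (s ^ l - (-ι (v.coeff 1) - s)) = 0 := by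
    linear_combination h1 - hs
  rcases mul_eq_zero.1 h3 with h4 | h4
  · exact absurd (sub_eq_zero.1 h4) (root_ne ι q v hv s hs)
  · exact sub_eq_zero.1 h4

theorem root_frob2 (s : K) (hs : s ^ 2 + ι (v.coeff 1) * s + ι (v.coeff 0) = 0) :
    (s ^ l) ^ l = s := by
  have h1 := root_frob ι q v hv s hs
  have h2 : (-ι (v.coeff 1) - s) ^ l = -ι (v.coeff 1) - s ^ l := by
    have h3 : frobenius K l (-ι (v.coeff 1) - s) = -ι (v.coeff 1) - s ^ l := by
      rw [map_sub, map_neg, frobenius_def, frobenius_def, ← map_pow, ZMod.pow_card]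
    exact h3
  calc (s ^ l) ^ l = (-ι (v.coeff 1) - s) ^ l := by rw [h1]
    _ = -ι (v.coeff 1) - s ^ l := h2
    _ = s := by rw [h1]; ring

theorem root_der (s : K) (hs : s ^ 2 + ι (v.coeff 1) * s + ι (v.coeff 0) = 0) :
    2 * s + ι (v.coeff 1) ≠ 0 := by
  intro h
  apply root_ne ι q v hv s hs
  rw [root_frob ι q v hv s hs]
  linear_combination -h

/-- the roots of the quartic are not fixed by the square of the Frobenius -/
theorem quartic_ne (s w : K) (hs : s ^ 2 + ι (v.coeff 1) * s + ι (v.coeff 0) = 0)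
    (hw : w ^ 2 - s * w + q = 0) : (w ^ l) ^ l ≠ w := by
  intro h
  have hirr : Irreducible (Q4 q v) := hv.2.2
  have h4 : eval₂ ι w (Q4 q v) = 0 := by
    unfold Q4
    simp only [eval₂_add, eval₂_mul, eval₂_pow, eval₂_X, eval₂_C, eval₂_natCast, map_natCast]
    linear_combination (w ^ 2 + q + s * w + ι (v.coeff 1) * w) * hw + w ^ 2 * hs
  obtain ⟨a1, ha1⟩ := mem_Fl ι (w + w ^ l) (by
    have h1 : frobenius K l (w + w ^ l) = w + w ^ l := by
      rw [map_add, frobenius_def, frobenius_def, h, add_comm]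
    exact h1)
  obtain ⟨a2, ha2⟩ := mem_Fl ι (w * w ^ l) (by rw [mul_pow, h, mul_comm])
  have h2 : eval₂ ι w (X ^ 2 - C a1 * X + C a2) = 0 := by
    simp only [eval₂_add, eval₂_sub, eval₂_mul, eval₂_pow, eval₂_X, eval₂_C]
    rw [← ha1, ← ha2]
    ring
  have d2 : (X ^ 2 - C a1 * X + C a2).natDegree = 2 := by compute_degree!
  have hne : (X ^ 2 - C a1 * X + C a2 : (ZMod l)[X]) ≠ 0 := by
    intro h0
    rw [h0, natDegree_zero] at d2
    omega
  rcases hirr.isCoprime_or_dvd (X ^ 2 - C a1 * X + C a2) with h5 | h5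
  · obtain ⟨u, u', hu⟩ := h5
    have := congrArg (eval₂ ι w) hu
    rw [eval₂_add, eval₂_mul, eval₂_mul, h4, h2, mul_zero, mul_zero, add_zero, eval₂_one] at this
    exact zero_ne_one this
  · have h6 := natDegree_le_of_dvd h5 hne
    rw [Q4_natDegree, d2] at h6
    omega

/-- simple root -/
theorem simple (h : (ZMod l)[X]) (hd : v ∣ h) (hnd : ¬ v ^ 2 ∣ h) (s : K)
    (hs : s ^ 2 + ι (v.coeff 1) * s + ι (v.coeff 0) = 0) :
    (derivative (h.map ι)).eval s ≠ 0 := by
  have hve : v = X ^ 2 + C (v.coeff 1) * X + C (v.coeff 0) := quad_eq v hv.1 hv.2.1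
  obtain ⟨u, rfl⟩ := hd
  have hirr : Irreducible v := by
    have hvm := hv.1
    have hvd := hv.2.1
    rw [hvm.irreducible_iff_natDegree' ]
    refine ⟨fun h1 => by rw [h1, natDegree_one] at hvd; omega, fun f g hf hg hfg hdeg => ?_⟩
    rw [hvd] at hdeg
    rw [Finset.mem_Ioc] at hdeg
    have hg1 : g.natDegree = 1 := by omega
    have hge : g = X + C (g.coeff 0) := by
      have := hg.as_sum
      rw [hg1, Finset.sum_range_one] at this
      simpa using this
    apply no_root q v hv (-g.coeff 0)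
    have h1 := congrArg (eval (-g.coeff 0)) hfg
    rw [eval_mul] at h1
    have h2 : eval (-g.coeff 0) g = 0 := by
      conv_lhs => rw [hge]
      simp
    rw [h2, mul_zero] at h1
    have h3 : eval (-g.coeff 0) v = (-g.coeff 0) ^ 2 + v.coeff 1 * (-g.coeff 0) + v.coeff 0 := by
      conv_lhs => rw [hve]
      simp only [eval_add, eval_mul, eval_pow, eval_X, eval_C]
    rw [← h3, ← h1]
  have hcop : IsCoprime v u := by
    rcases hirr.isCoprime_or_dvd u with h1 | h1
    · exact h1
    · exfalso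
      apply hnd
      rw [pow_two]
      exact mul_dvd_mul_left v h1
  have hvs : eval₂ ι s v = 0 := by
    rw [hve]
    simp only [eval₂_add, eval₂_mul, eval₂_pow, eval₂_X, eval₂_C]
    exact hs
  have hu : eval₂ ι s u ≠ 0 := by
    intro h0
    obtain ⟨a, b, hab⟩ := hcop
    have := congrArg (eval₂ ι s) hab
    rw [eval₂_add, eval₂_mul, eval₂_mul, hvs, h0, mul_zero, mul_zero, add_zero, eval₂_one] at this
    exact zero_ne_one this
  have hdv : eval s (derivative (v.map ι)) = 2 * s + ι (v.coeff 1) := by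
    rw [hve]
    simp [derivative_pow]
  rw [Polynomial.map_mul, derivative_mul, eval_add, eval_mul, eval_mul, hdv, eval_map, eval_map,
    hvs, zero_mul, add_zero]
  exact mul_ne_zero (root_der ι q v hv s hs) hu

end

/-- the roots over `B` -/
theorem lifts {B k : Type} [CommRing B] [CommRing k] (j : B →+* QBar)
    (hj : Function.Injective j) (r : B →+* k) {l : ℕ} [Fact l.Prime] (ι : ZMod l →+* k)
    (h : ℤ[X]) (hm : h.Monic) (hlift : ∀ s : QBar, aeval s h = 0 → ∃ x, j x = s) :
    ∃ m : Multiset B, (∀ Y ∈ m, aeval (j Y) h = 0) ∧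
      (h.map (Int.castRingHom (ZMod l))).map ι = ((m.map r).map (fun a => X - C a)).prod := by
  have hne : h.map (Int.castRingHom QBar) ≠ 0 := (hm.map _).ne_zero
  have hroot : ∀ s : QBar, s ∈ (h.map (Int.castRingHom QBar)).roots ↔ aeval s h = 0 := by
    intro s
    rw [mem_roots hne, IsRoot.def, eval_map]
    rfl
  obtain ⟨m, hmm⟩ : ∃ m : Multiset B, m.map j = (h.map (Int.castRingHom QBar)).roots := by
    have : CanLift QBar B j (fun s => ∃ x, j x = s) := ⟨fun s h => h⟩
    obtain ⟨m, hm⟩ := (Multiset.canLift (j : B → QBar) (fun s => ∃ x, j x = s)).prf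
      (h.map (Int.castRingHom QBar)).roots (fun s hs => hlift s ((hroot s).1 hs))
    exact ⟨m, hm⟩
  refine ⟨m, ?_, ?_⟩
  · intro Y hY
    rw [← hroot, ← hmm]
    exact Multiset.mem_map_of_mem _ hY
  · have hprod : h.map (Int.castRingHom B) = (m.map (fun a => X - C a)).prod := by
      apply Polynomial.map_injective j hj
      rw [Polynomial.map_map, RingHom.ext_int (j.comp (Int.castRingHom B)) (Int.castRingHom QBar)]
      have h1 := (IsAlgClosed.splits (h.map (Int.castRingHom QBar))).eq_prod_roots_of_monic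
        (hm.map _)
      rw [← hmm] at h1
      refine h1.trans ?_
      rw [Polynomial.map_multiset_prod, Multiset.map_map, Multiset.map_map]
      congr 1
      refine Multiset.map_congr rfl fun a _ => ?_
      simp
    have h1 := congrArg (Polynomial.map r) hprod
    rw [Polynomial.map_map, Polynomial.map_multiset_prod, Multiset.map_map] at h1
    have h2 : h.map (r.comp (Int.castRingHom B)) = (h.map (Int.castRingHom (ZMod l))).map ι := by
      rw [Polynomial.map_map]
      congr 1
      exact RingHom.ext_int _ _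
    rw [← h2, h1, Multiset.map_map]
    congr 1
    refine Multiset.map_congr rfl fun a _ => ?_
    simp

/-- simple roots lift uniquely -/
theorem uniq {B k : Type} [CommRing B] [CommRing k] (j : B →+* QBar)
    (hj : Function.Injective j) (r : B →+* k) (h : ℤ[X]) (Y Y' : B)
    (hY : aeval (j Y) h = 0) (hY' : aeval (j Y') h = 0) (hr : r Y' = r Y)
    (hd : (derivative (h.map (Int.castRingHom k))).eval (r Y) ≠ 0) : Y = Y' := by
  by_contra hne
  have : IsDomain B := hj.isDomain j
  have hB : ∀ Y : B, aeval (j Y) h = 0 → (h.map (Int.castRingHom B)).eval Y = 0 := by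
    intro Y hY
    apply hj
    rw [map_zero, ← Polynomial.eval₂_hom, eval₂_map, RingHom.ext_int (j.comp (Int.castRingHom B))
      (algebraMap ℤ QBar)]
    exact hY
  obtain ⟨h1, hh1⟩ := dvd_iff_isRoot.2 (show IsRoot (h.map (Int.castRingHom B)) Y from hB Y hY)
  have h2 : h1.eval Y' = 0 := by
    have h3 := hB Y' hY'
    rw [hh1, eval_mul, eval_sub, eval_X, eval_C] at h3
    rcases mul_eq_zero.1 h3 with h4 | h4
    · exact absurd (sub_eq_zero.1 h4).symm hne
    · exact h4
  obtain ⟨h3, hh3⟩ := dvd_iff_isRoot.2 (show IsRoot h1 Y' from h2)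
  apply hd
  have e : h.map (Int.castRingHom k) = (X - C (r Y)) * ((X - C (r Y)) * h3.map r) := by
    have h5 := congrArg (Polynomial.map r) hh1
    rw [Polynomial.map_map, RingHom.ext_int (r.comp (Int.castRingHom B)) (Int.castRingHom k),
      hh3] at h5
    rw [h5]
    simp [hr]
  rw [e]
  simp [derivative_mul]

end FRB2_

open FRB2_ in
/-- FRB2 -/
theorem tFRB2 : T_FRB2 := by
  classical
  intro q g p l hfact hq hl3 hlq a hPat
  obtain ⟨-, v, hv, hdvd, hnd⟩ := hPat
  have hl : l.Prime := hfact.out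
  have halg : Algebra.IsAlgebraic ℚ QBar := Pool.Agent.CMTP.isAlgebraic_QBar ℚ
  have hmon : (HZ q a).Monic := HZ_monic q a
  set R : Set QBar := {s | aeval s (HZ q a) = 0} with hR
  have hRfin : R.Finite := by
    refine Set.Finite.subset ((HZ q a).rootSet_finite QBar) fun s hs => ?_
    exact (mem_rootSet_of_ne hmon.ne_zero).2 hs
  have hRint : ∀ s ∈ R, IsIntegral ℤ s := fun s hs => ⟨HZ q a, hmon, hs⟩
  set S : Set QBar := R ∪ ⋃ y ∈ R, {α : QBar | α ^ 2 - y * α + (q : QBar) = 0} with hS
  have hSfin : S.Finite := hRfin.union (hRfin.biUnion fun y _ => finite_quad y (q : QBar))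
  have hSint : ∀ s ∈ S, IsIntegral ℤ s := by
    rintro s (hs | hs)
    · exact hRint s hs
    · rw [Set.mem_iUnion₂] at hs
      obtain ⟨y, hy, h⟩ := hs
      exact integral_quad y s q (hRint y hy) h
  obtain ⟨B, k, i1, i2, i3, jj, rr, τ, hj, hlk, hlift, hf⟩ := frobO S hSfin hSint l hl
  have hchar : CharP k l := charP_of hl hlk
  let ι : ZMod l →+* k := ZMod.castHom (dvd_refl l) k
  obtain ⟨m, hmr, hmp⟩ := lifts jj hj rr ι (HZ q a) hmon (fun s hs => hlift s (Or.inl hs))
  -- the polynomial `v` has a root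
  have hsp : ((HZ q a).map (Int.castRingHom (ZMod l))).map ι |>.Splits := by
    rw [hmp]
    refine Splits.multisetProd fun f hf => ?_
    obtain ⟨x, -, rfl⟩ := Multiset.mem_map.1 hf
    exact Splits.X_sub_C x
  have hvs : (v.map ι).Splits := hsp.of_dvd ((hmon.map _).map _).ne_zero
    (Polynomial.map_dvd ι hdvd)
  obtain ⟨s, hs0⟩ := hvs.exists_eval_eq_zero (by
    rw [degree_eq_natDegree (hv.1.map ι).ne_zero, hv.1.natDegree_map, hv.2.1]
    norm_num)
  have hs : s ^ 2 + ι (v.coeff 1) * s + ι (v.coeff 0) = 0 := by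
    rw [quad_eq v hv.1 hv.2.1] at hs0
    simpa using hs0
  -- the root lifts
  obtain ⟨Y, hYr, hYs⟩ : ∃ Y : B, aeval (jj Y) (HZ q a) = 0 ∧ rr Y = s := by
    have h1 : eval s (((HZ q a).map (Int.castRingHom (ZMod l))).map ι) = 0 := by
      obtain ⟨u, hu⟩ := hdvd
      rw [hu, Polynomial.map_mul, eval_mul, hs0, zero_mul]
    rw [hmp, eval_multiset_prod, Multiset.prod_eq_zero_iff, Multiset.map_map, Multiset.map_map,
      Multiset.mem_map] at h1
    obtain ⟨Y, h2, h3⟩ := h1
    refine ⟨Y, hmr Y h2, ?_⟩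
    simp only [Function.comp_apply, eval_sub, eval_X, eval_C] at h3
    exact (sub_eq_zero.1 h3).symm
  have hder := simple ι q v hv _ hdvd hnd s hs
  have hmapk : ((HZ q a).map (Int.castRingHom (ZMod l))).map ι =
      (HZ q a).map (Int.castRingHom k) := by
    rw [Polynomial.map_map]
    congr 1
    exact RingHom.ext_int _ _
  rw [hmapk] at hder
  -- the square of the Frobenius fixes the root
  obtain ⟨Y1, hY1, hY1r⟩ := hf Y
  obtain ⟨Y2, hY2, hY2r⟩ := hf Y1
  have hYY : Y = Y2 := by
    refine uniq jj hj rr (HZ q a) Y Y2 hYr ?_ ?_ ?_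
    · rw [hY2, hY1]
      exact aeval_map_root τ _ _ (aeval_map_root τ _ _ hYr)
    · rw [hY2r, hY1r, hYs]
      exact root_frob2 ι q v hv s hs
    · rw [hYs]
      exact hder
  have hτY : τ (τ (jj Y)) = jj Y := by
    rw [← hY1, ← hY2, ← hYY]
  -- the root of the quadratic equation
  obtain ⟨α, hα⟩ : ∃ α : QBar, α ^ 2 - jj Y * α + (q : QBar) = 0 := by
    have hd : (X ^ 2 - C (jj Y) * X + C (q : QBar)).natDegree = 2 := by compute_degree!
    obtain ⟨α, hα⟩ := IsAlgClosed.exists_root (X ^ 2 - C (jj Y) * X + C (q : QBar))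
      (fun h0 => by
        have h1 : (X ^ 2 - C (jj Y) * X + C (q : QBar)).natDegree = 0 := by
          rw [natDegree, h0]
          rfl
        omega)
    exact ⟨α, by simpa using hα⟩
  obtain ⟨A, rfl⟩ := hlift α (Or.inr (by
    rw [Set.mem_iUnion₂]
    exact ⟨jj Y, hYr, hα⟩))
  have hq0 : (q : QBar) ≠ 0 := by
    have : q ≠ 0 := by omega
    exact_mod_cast this
  have hA0 : jj A ≠ 0 := by
    intro h
    rw [h] at hα
    apply hq0
    linear_combination hα
  have hw : (rr A) ^ 2 - s * rr A + q = 0 := by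
    have h1 : A ^ 2 - Y * A + q = 0 := by
      apply hj
      rw [map_add, map_sub, map_pow, map_mul, map_natCast, map_zero]
      exact hα
    have h2 := congrArg rr h1
    rwa [map_add, map_sub, map_pow, map_mul, map_natCast, map_zero, hYs] at h2
  obtain ⟨A1, hA1, hA1r⟩ := hf A
  obtain ⟨A2, hA2, hA2r⟩ := hf A1
  have hne : τ (τ (jj A)) ≠ jj A := by
    intro h
    have h1 : A2 = A := by
      apply hj
      rw [hA2, hA1, h]
    apply quartic_ne ι q v hv s (rr A) hs hw
    rw [← hA1r, ← hA2r, h1]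
  have hquad : (τ (τ (jj A)) - jj A) * (τ (τ (jj A)) - (jj Y - jj A)) = 0 := by
    have h3 := congrArg (fun x => τ (τ x)) hα
    simp only [map_add, map_sub, map_pow, map_mul, map_natCast, map_zero, hτY] at h3
    linear_combination h3 - hα
  have hτA : τ (τ (jj A)) = jj Y - jj A := by
    rcases mul_eq_zero.1 hquad with h | h
    · exact absurd (sub_eq_zero.1 h) hne
    · exact sub_eq_zero.1 h
  have hprod : τ (τ (jj A)) * jj A = q := by
    rw [hτA]
    linear_combination -hα
  refine ⟨τ, jj A, ⟨hA0, ?_⟩, hprod, ?_⟩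
  · have : jj A + q / jj A = jj Y := by
      field_simp
      linear_combination hα
    rw [this]
    exact hYr
  · intro h
    apply hne
    have h1 : τ (τ (jj A)) * jj A = jj A * jj A := by rw [hprod, ← h]; ring
    exact mul_right_cancel₀ hA0 h1

end Pool.Agent.FQW
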