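import Mathlib
import Pool.Agent.FQW.Basic
import Pool.Agent.AWP.ROIR

set_option autoImplicit false

/-!
# Irreducibility of the Weil polynomial and transitivity
-/

namespace Pool.Agent.FQW

open Polynomial Finset
open Pool.Agent.CMT (QBar)
open Pool.Agent.AWP (poly IsRealWeil weil Root)
open Pool.Agent.AWP.ROIR_
open scoped BigOperators IntermediateField

namespace IRW_

theorem irr_of_notMem {g : ℕ} {q : ℕ} (hq : 0 < q) (b : Fin g → ℤ)
    (hirr : Irreducible (poly b)) {α : QBar}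
    (hα' : aeval α (weil q b) = 0) (hαy : α ∉ ℚ⟮α + q / α⟯) : Irreducible (weil q b) := by
  have hWm := weil_monic q b
  have hWd := weil_natDegree q b
  rw [hWm.irreducible_iff_irreducible_map_fraction_map (K := ℚ)]
  have hmapd : ((weil q b).map (algebraMap ℤ ℚ)).natDegree = 2 * g := by
    rw [hWm.natDegree_map, hWd]
  have hα : aeval α ((weil q b).map (algebraMap ℤ ℚ)) = 0 := by
    rw [aeval_map_algebraMap]
    exact hα'
  have hα0 := AWP.ROIR_.ne_zero hq hα'
  have hy := root_y hq hα'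
  set y : QBar := α + q / α with hydef
  have hintα : IsIntegral ℚ α := isInt α
  have hinty : IsIntegral ℚ y := isInt y
  have hdy : (minpoly ℚ y).natDegree = g := by
    rw [← map_eq_minpoly (poly_monic b) hirr hy, (poly_monic b).natDegree_map,
      poly_natDegree]
  have hint2 : IsIntegral ℚ⟮y⟯ α := (isInt α).tower_top
  have hd2 : 2 ≤ (minpoly ℚ⟮y⟯ α).natDegree := by
    rw [minpoly.two_le_natDegree_iff hint2]
    rintro ⟨z, hz⟩
    apply hαy
    rw [← hz]
    exact z.2
  have hf1 : Module.finrank ℚ ℚ⟮y⟯ = g := by rw [IntermediateField.adjoin.finrank hinty, hdy]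
  have hf2 : 2 ≤ Module.finrank ℚ⟮y⟯ (ℚ⟮y⟯)⟮α⟯ := by
    rw [IntermediateField.adjoin.finrank hint2]
    exact hd2
  have hf3 := Module.finrank_mul_finrank ℚ ℚ⟮y⟯ (ℚ⟮y⟯)⟮α⟯
  have hf4 : ((ℚ⟮y⟯)⟮α⟯).restrictScalars ℚ = ℚ⟮α⟯ := by
    refine (IntermediateField.adjoin_simple_adjoin_simple ℚ y α).trans ?_
    apply le_antisymm
    · rw [IntermediateField.adjoin_le_iff]
      intro z hz
      rcases hz with rfl | hz
      · have hα1 : α ∈ ℚ⟮α⟯ := IntermediateField.mem_adjoin_simple_self ℚ α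
        refine IntermediateField.add_mem _ hα1 (IntermediateField.div_mem _ ?_ hα1)
        exact natCast_mem _ q
      · rw [Set.mem_singleton_iff.1 hz]
        exact IntermediateField.mem_adjoin_simple_self ℚ α
    · exact IntermediateField.adjoin.mono _ _ _ (by simp)
  have hf5 : Module.finrank ℚ (ℚ⟮y⟯)⟮α⟯ = (minpoly ℚ α).natDegree := by
    rw [← IntermediateField.adjoin.finrank hintα, ← hf4]
    rfl
  have hge : 2 * g ≤ (minpoly ℚ α).natDegree := by
    rw [← hf5, ← hf3, hf1, mul_comm]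
    exact Nat.mul_le_mul_left _ hf2
  have hdvd : minpoly ℚ α ∣ (weil q b).map (algebraMap ℤ ℚ) := minpoly.dvd _ _ hα
  have heq := eq_of_monic_of_dvd_of_natDegree_le (minpoly.monic hintα) (hWm.map _) hdvd
    (by rw [hmapd]; exact hge)
  rw [heq]
  exact minpoly.irreducible hintα

/-- elements of a field generated by a real element are real -/
theorem real_of_mem (ι : QBar →+* ℂ) {y x : QBar} (hy : star (ι y) = ι y) (hx : x ∈ ℚ⟮y⟯) :
    star (ι x) = ι x := by
  have hint : IsIntegral ℚ y := isInt y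
  have h1 : x ∈ (ℚ⟮y⟯).toSubalgebra := hx
  rw [IntermediateField.adjoin_simple_toSubalgebra_of_isAlgebraic hint.isAlgebraic] at h1
  clear hx
  induction h1 using Algebra.adjoin_induction with
  | mem z hz =>
    rw [Set.mem_singleton_iff.1 hz]
    exact hy
  | algebraMap r =>
    rw [eq_ratCast, map_ratCast]
    simp
  | add u v _ _ hu hv => rw [map_add, star_add, hu, hv]
  | mul u v _ _ hu hv => rw [map_mul, star_mul', hu, hv]

theorem exists_poly {g : ℕ} (h : ℤ[X]) (hm : h.Monic) (hd : h.natDegree = g) :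
    ∃ b : Fin g → ℤ, poly b = h := by
  refine ⟨fun i => h.coeff (g - 1 - i.val), ?_⟩
  have h1 := hm.as_sum
  rw [hd] at h1
  conv_rhs => rw [h1]
  unfold poly
  congr 1
  rw [← Fin.sum_univ_eq_sum_range (fun i => C (h.coeff i) * X ^ i) g]
  refine Eq.trans ?_ (Equiv.sum_comp (Fin.revPerm (n := g))
    (fun i : Fin g => C (h.coeff i) * X ^ (i : ℕ)))
  refine sum_congr rfl fun i _ => ?_
  have h2 : ((Fin.revPerm i : Fin g) : ℕ) = g - 1 - i.val := by
    rw [Fin.revPerm_apply, Fin.val_rev]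
    omega
  rw [h2]

theorem isRt_iff {q g : ℕ} (hq : 0 < q) {a b : Fin g → ℤ} (hb : poly b = HZ q a) (α : QBar) :
    IsRt q a α ↔ aeval α (weil q b) = 0 := by
  constructor
  · rintro ⟨h0, h1⟩
    rw [weil_poly q b α h0, hb, h1, mul_zero]
  · intro h
    have h0 := AWP.ROIR_.ne_zero hq h
    refine ⟨h0, ?_⟩
    rw [← hb]
    exact root_y hq h

theorem conj_of_minpoly {x y : QBar} (h : minpoly ℚ x = minpoly ℚ y) :
    ∃ σ : QBar ≃+* QBar, σ x = y := by
  have hconj : IsConjRoot ℚ y x := h.symm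
  have hnorm : Normal ℚ QBar := normal_iff.2 fun x => ⟨isInt x, IsAlgClosed.splits _⟩
  obtain ⟨σ, hσ⟩ := isConjRoot_iff_exists_algEquiv.1 hconj
  exact ⟨(σ : QBar ≃+* QBar), hσ⟩

end IRW_

open IRW_

/-- IRW -/
theorem tIRW : T_IRW := by
  intro q g hq hg a ha hirr
  have hq0 : 0 < q := by omega
  obtain ⟨τ, hmono, hτ, hprod⟩ := ha
  obtain ⟨b₀, hb₀⟩ := exists_poly (HZ q a) (HZ_monic q a) (HZ_natDegree q a)
  have hirr₀ : Irreducible (poly b₀) := by rw [hb₀]; exact hirr
  -- an embedding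
  have hnt : Algebra.IsAlgebraic ℚ QBar := isAlg
  let ι : QBar →+* ℂ := ((IsAlgClosed.lift : QBar →ₐ[ℚ] ℂ) : QBar →+* ℂ)
  -- roots are real
  have hreal : ∀ y : QBar, aeval y (HZ q a) = 0 → ∃ t : ℝ, ι y = t ∧ t ^ 2 ≤ 4 * q := by
    intro y hy
    have h1 : aeval (ι y) (HZ q a) = 0 := by
      have h2 := Polynomial.hom_eval₂ (HZ q a) (algebraMap ℤ QBar) ι y
      rw [aeval_def] at hy
      rw [hy, map_zero] at h2
      rw [aeval_def, h2]
      congr 1
      exact Subsingleton.elim _ _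
    have h2 : eval (ι y) (((HZ q a).map (Int.castRingHom ℝ)).map (algebraMap ℝ ℂ)) = 0 := by
      rw [Polynomial.map_map, eval_map, ← h1, aeval_def]
      congr 1
    rw [hprod, Polynomial.map_prod, eval_prod] at h2
    obtain ⟨i, -, hi⟩ := Finset.prod_eq_zero_iff.1 h2
    refine ⟨τ i, ?_, ?_⟩
    · simp only [Polynomial.map_sub, map_X, map_C, eval_sub, eval_X, eval_C] at hi
      exact sub_eq_zero.1 hi
    · have h3 : |τ i| ^ 2 ≤ (2 * √(q : ℝ)) ^ 2 := by
        have := hτ i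
        gcongr
      rw [sq_abs, mul_pow, Real.sq_sqrt (Nat.cast_nonneg q)] at h3
      linarith
  have hdeg : ∀ y : QBar, aeval y (HZ q a) = 0 → (minpoly ℚ y).natDegree = g := by
    intro y hy
    rw [← map_eq_minpoly (HZ_monic q a) hirr hy, (HZ_monic q a).natDegree_map, HZ_natDegree]
  have hne4 : ∀ y : QBar, aeval y (HZ q a) = 0 → y ^ 2 ≠ 4 * q := by
    intro y hy h
    have h1 : aeval y (X ^ 2 + C (-(4 * q : ℚ)) : ℚ[X]) = 0 := by
      simp [h]
    have h2 : (X ^ 2 + C (-(4 * q : ℚ)) : ℚ[X]) ≠ 0 :=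
      (monic_X_pow_add_C _ (by norm_num)).ne_zero
    have h3 := natDegree_le_of_dvd (minpoly.dvd ℚ y h1) h2
    rw [natDegree_X_pow_add_C, hdeg y hy] at h3
    omega
  have hsq : ∀ α : QBar, IsRt q a α → α ^ 2 ≠ q := by
    rintro α ⟨h0, h1⟩ h
    apply hne4 _ h1
    have h2 : (q : QBar) = α ^ 2 := h.symm
    rw [h2]
    field_simp
    ring
  have hnot : ∀ α : QBar, IsRt q a α → α ∉ ℚ⟮α + q / α⟯ := by
    rintro α ⟨h0, h1⟩ hmem
    obtain ⟨t, ht, ht4⟩ := hreal _ h1
    have hy : star (ι (α + q / α)) = ι (α + q / α) := by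
      rw [ht]
      simp
    have hα := real_of_mem ι hy hmem
    obtain ⟨x, hx⟩ : ∃ x : ℝ, ι α = x := by
      refine ⟨(ι α).re, ?_⟩
      exact (Complex.conj_eq_iff_re.1 hα).symm
    have hquad := congrArg ι (quad (q := q) h0)
    rw [map_add, map_sub, map_mul, map_pow, ht, hx, map_zero, map_natCast] at hquad
    have h5 : x ^ 2 - t * x + q = 0 := by exact_mod_cast hquad
    have h6 : (2 * x - t) ^ 2 = t ^ 2 - 4 * q := by linear_combination 4 * h5
    have h7 : t ^ 2 = 4 * q := by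
      have := sq_nonneg (2 * x - t)
      linarith
    apply hne4 _ h1
    apply ι.injective
    rw [map_pow, ht, map_mul, map_natCast]
    have h8 : ι (4 : QBar) = 4 := map_ofNat ι 4
    rw [h8]
    exact_mod_cast h7
  -- a root
  obtain ⟨α₀, hα₀⟩ : ∃ α : QBar, aeval α (weil q b₀) = 0 := by
    obtain ⟨α, hα⟩ := IsAlgClosed.exists_aeval_eq_zero QBar ((weil q b₀).map (algebraMap ℤ ℚ))
      (by
        intro h
        have h1 : ((weil q b₀).map (algebraMap ℤ ℚ)).natDegree = 0 :=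
          natDegree_eq_of_degree_eq_some h
        rw [(weil_monic q b₀).natDegree_map, weil_natDegree] at h1
        omega)
    refine ⟨α, ?_⟩
    rwa [aeval_map_algebraMap] at hα
  have hirrW : ∀ b : Fin g → ℤ, poly b = HZ q a → Irreducible (weil q b) := by
    intro b hb
    obtain ⟨α, hα⟩ : ∃ α : QBar, IsRt q a α := ⟨α₀, (isRt_iff hq0 hb₀ α₀).2 hα₀⟩
    exact irr_of_notMem hq0 b (by rw [hb]; exact hirr) ((isRt_iff hq0 hb α).1 hα) (hnot α hα)
  have hW := hirrW b₀ hb₀
  have hmin : ∀ α : QBar, IsRt q a α → (weil q b₀).map (algebraMap ℤ ℚ) = minpoly ℚ α :=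
    fun α hα => map_eq_minpoly (weil_monic q b₀) hW ((isRt_iff hq0 hb₀ α).1 hα)
  refine ⟨?_, ?_, hsq, hirrW⟩
  · intro α β hα hβ
    exact conj_of_minpoly ((hmin α hα).symm.trans (hmin β hβ))
  · have hα : IsRt q a α₀ := (isRt_iff hq0 hb₀ α₀).2 hα₀
    have hsep : (minpoly ℚ α₀).Separable := (minpoly.irreducible (isInt α₀)).separable
    have hcard : ((minpoly ℚ α₀).rootSet QBar).ncard = 2 * g := by
      rw [Set.ncard_eq_toFinset_card', Set.toFinset_card,
        card_rootSet_eq_natDegree hsep (IsAlgClosed.splits _), ← hmin α₀ hα,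
        (weil_monic q b₀).natDegree_map, weil_natDegree]
    rw [← hcard]
    congr 1
    ext α
    show IsRt q a α ↔ _
    rw [mem_rootSet, isRt_iff hq0 hb₀ α, ← hmin α₀ hα, aeval_map_algebraMap]
    constructor
    · intro h
      exact ⟨((weil_monic q b₀).map _).ne_zero, h⟩
    · exact fun h => h.2

end Pool.Agent.FQW
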