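import Mathlib
import Pool.Agent.FQW.Basic
import Pool.Agent.FQW.IRW

set_option autoImplicit false

/-!
# Independence implies that all Tate weights are divisorial
-/

namespace Pool.Agent.FQW

open Polynomial Finset
open Pool.Agent.CMT (QBar)
open Pool.Agent.AWP (poly IsRealWeil weil Root)
open scoped BigOperators

namespace GD_

variable {q g n : ℕ} {b : Fin g → ℤ}

open Classical in
theorem divisorial_of (st : Root q b → Root q b) (hst : ∀ α, st (st α) = α)
    (hne : ∀ α, st α ≠ α) (hval : ∀ α, (α.1 : QBar) * (st α).1 = q) :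
    ∀ Δ : Finset (Root q b × Fin n),
      (∀ α, (Δ.filter fun x => x.1 = α).card = (Δ.filter fun x => x.1 = st α).card) →
      Divisorial q b Δ := by
  intro Δ
  induction Δ using Finset.strongInduction with
  | H Δ ih =>
    intro hΔ
    rcases Δ.eq_empty_or_nonempty with rfl | ⟨x, hx⟩
    · exact ⟨∅, by simp, by simp, by simp⟩
    · have h1 : 0 < (Δ.filter fun z => z.1 = st x.1).card := by
        rw [← hΔ x.1]
        exact card_pos.2 ⟨x, mem_filter.2 ⟨hx, rfl⟩⟩
      obtain ⟨y, hy⟩ := card_pos.1 h1
      rw [mem_filter] at hy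
      obtain ⟨hy, hyx⟩ := hy
      have hxy : y ≠ x := by
        rintro rfl
        exact hne _ hyx.symm
      set Δ' := (Δ.erase x).erase y with hΔ'
      have hyΔ : y ∈ Δ.erase x := mem_erase.2 ⟨hxy, hy⟩
      have e1 : insert x (insert y Δ') = Δ := by
        rw [hΔ', insert_erase hyΔ, insert_erase hx]
      have hyn : y ∉ Δ' := by rw [hΔ']; exact notMem_erase _ _
      have hxn : x ∉ insert y Δ' := by
        rw [hΔ', insert_erase hyΔ]
        exact notMem_erase _ _
      have hxn' : x ∉ Δ' := fun h => hxn (mem_insert_of_mem h)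
      have hcard : ∀ α, (Δ.filter fun z => z.1 = α).card = (Δ'.filter fun z => z.1 = α).card +
          (if x.1 = α then 1 else 0) + (if y.1 = α then 1 else 0) := by
        intro α
        conv_lhs => rw [← e1]
        rw [filter_insert, filter_insert]
        by_cases h2 : x.1 = α <;> by_cases h3 : y.1 = α
        · rw [if_pos h2, if_pos h3, if_pos h2, if_pos h3, card_insert_of_notMem,
            card_insert_of_notMem]
          · exact fun h => hyn (mem_filter.1 h).1
          · intro h
            rcases mem_insert.1 h with h | h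
            · exact hxy h.symm
            · exact hxn' (mem_filter.1 h).1
        · rw [if_pos h2, if_neg h3, if_pos h2, if_neg h3, card_insert_of_notMem]
          exact fun h => hxn' (mem_filter.1 h).1
        · rw [if_neg h2, if_pos h3, if_neg h2, if_pos h3, card_insert_of_notMem]
          exact fun h => hyn (mem_filter.1 h).1
        · rw [if_neg h2, if_neg h3, if_neg h2, if_neg h3, add_zero, add_zero]
      have hlt : Δ' ⊂ Δ := by
        refine ⟨fun z hz => ?_, fun h => hxn' (h hx)⟩
        rw [hΔ'] at hz
        exact mem_of_mem_erase (mem_of_mem_erase hz)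
      obtain ⟨D, hD1, hD2, hD3⟩ := ih Δ' hlt (by
        intro α
        have h2 := hΔ α
        rw [hcard, hcard] at h2
        have h3 : (x.1 = st α) ↔ (y.1 = α) := by
          rw [hyx]
          constructor
          · intro h; rw [h, hst]
          · intro h; rw [← h, hst]
        have h4 : (y.1 = st α) ↔ (x.1 = α) := by
          rw [hyx]
          constructor
          · intro h; rw [← hst x.1, h, hst]
          · intro h; rw [h]
        simp only [h3, h4] at h2
        omega)
      have hsub : ∀ B ∈ D, B ⊆ Δ' := fun B hB z hz => (hD2 z).2 ⟨B, hB, hz⟩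
      have hdis : ∀ B ∈ D, Disjoint ({x, y} : Finset (Root q b × Fin n)) B := by
        intro B hB
        rw [disjoint_left]
        intro z hz hzB
        have hz' := hsub B hB hzB
        rcases mem_insert.1 hz with rfl | hz
        · exact hxn' hz'
        · rw [mem_singleton] at hz
          rw [hz] at hz'
          exact hyn hz'
      refine ⟨insert {x, y} D, ?_, ?_, ?_⟩
      · rw [coe_insert]
        refine hD1.insert ?_
        intro B hB _
        exact hdis B hB
      · intro z
        conv_lhs => rw [← e1]
        constructor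
        · intro hz
          rcases mem_insert.1 hz with rfl | hz
          · exact ⟨_, mem_insert_self _ _, mem_insert_self _ _⟩
          · rcases mem_insert.1 hz with rfl | hz
            · exact ⟨_, mem_insert_self _ _, mem_insert_of_mem (mem_singleton_self _)⟩
            · obtain ⟨B, hB, hzB⟩ := (hD2 z).1 hz
              exact ⟨B, mem_insert_of_mem hB, hzB⟩
        · rintro ⟨B, hB, hzB⟩
          rcases mem_insert.1 hB with rfl | hB
          · rcases mem_insert.1 hzB with rfl | hzB
            · exact mem_insert_self _ _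
            · rw [mem_singleton] at hzB
              rw [hzB]
              exact mem_insert_of_mem (mem_insert_self _ _)
          · exact mem_insert_of_mem (mem_insert_of_mem ((hD2 z).2 ⟨B, hB, hzB⟩))
      · intro B hB
        rcases mem_insert.1 hB with rfl | hB
        · refine ⟨?_, 1, one_pos, ?_⟩
          · rw [card_pair hxy.symm]
          · rw [prod_pair hxy.symm, hyx, hval]
        · exact hD3 B hB

end GD_

open GD_ IRW_

/-- GD -/
theorem tGD : T_GD := by
  classical
  intro q g hq a hI hsq b hb hirr
  refine ⟨hirr, ?_⟩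
  intro n i Δ ⟨hcard, N, hN, hprod⟩
  have hq1 : 0 < q := by omega
  have hq0 : (q : QBar) ≠ 0 := by exact_mod_cast hq1.ne'
  have hrt := isRt_iff hq1 hb
  -- the finite set of the roots
  obtain ⟨R, hR⟩ : ∃ R : Finset QBar, ∀ α, α ∈ R ↔ IsRt q a α := by
    refine ⟨((weil q b).aroots QBar).toFinset, fun α => ?_⟩
    rw [Multiset.mem_toFinset, mem_aroots, hrt]
    exact ⟨fun h => h.2, fun h => ⟨hirr.ne_zero, h⟩⟩
  have hinv : ∀ α : QBar, IsRt q a α → IsRt q a (q / α) := by
    rintro α ⟨h0, h1⟩
    refine ⟨div_ne_zero hq0 h0, ?_⟩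
    have h2 : q / α + q / (q / α) = α + q / α := by
      rw [div_div_cancel₀ hq0, add_comm]
    rw [h2]
    exact h1
  let st : Root q b → Root q b := fun α =>
    ⟨q / α.1, (hrt _).1 (hinv _ ((hrt _).2 α.2))⟩
  have hα0 : ∀ α : Root q b, (α.1 : QBar) ≠ 0 := fun α => ((hrt _).2 α.2).1
  refine divisorial_of st ?_ ?_ ?_ Δ ?_
  · intro α
    exact Subtype.ext (div_div_cancel₀ hq0)
  · intro α h
    have h1 : (q : QBar) / α.1 = α.1 := congrArg Subtype.val h
    rw [div_eq_iff (hα0 α)] at h1
    apply hsq α.1 ((hrt _).2 α.2)
    rw [h1, sq]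
  · intro α
    show (α.1 : QBar) * (q / α.1) = q
    have := hα0 α
    field_simp
  · intro α
    have hmaps : ∀ x ∈ Δ, (x.1.1 : QBar) ∈ R := fun x _ => (hR _).2 ((hrt _).2 x.1.2)
    have hfib := Finset.prod_fiberwise_of_maps_to hmaps (fun x => (x.1.1 : QBar))
    have hpr : ∏ β ∈ R, β ^ ((((Δ.filter fun x => (x.1.1 : QBar) = β).card : ℕ) : ℤ)) =
        ∏ x ∈ Δ, (x.1.1 : QBar) := by
      rw [← hfib]
      refine prod_congr rfl fun β _ => ?_
      rw [zpow_natCast, prod_congr rfl (g := fun _ => β), prod_const]
      intro x hx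
      exact (mem_filter.1 hx).2
    have hkey := hI R hR (fun β => (((Δ.filter fun x => (x.1.1 : QBar) = β).card : ℕ) : ℤ))
      ⟨N, hN, ((i * N : ℕ) : ℤ), by rw [hpr, hprod, zpow_natCast]⟩ α.1
      ((hR _).2 ((hrt _).2 α.2))
    have hkey' : (Δ.filter fun x => (x.1.1 : QBar) = α.1).card =
        (Δ.filter fun x => (x.1.1 : QBar) = q / α.1).card := by exact_mod_cast hkey
    have e1 : (Δ.filter fun x => x.1 = α) = (Δ.filter fun x => (x.1.1 : QBar) = α.1) := by
      refine filter_congr fun x _ => ?_
      exact Subtype.ext_iff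
    have e2 : (Δ.filter fun x => x.1 = st α) = (Δ.filter fun x => (x.1.1 : QBar) = q / α.1) := by
      refine filter_congr fun x _ => ?_
      exact Subtype.ext_iff
    rw [e1, e2]
    exact hkey'

end Pool.Agent.FQW
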