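import Pool.Agent.FQW.Targets

set_option autoImplicit false

/-!
# IRC: irreducible polynomials of prime degree over a finite field
-/

namespace Pool.Agent.FQW

open Polynomial Finset
open scoped BigOperators

namespace IRC_

/-- The polynomials of degree `p` over a finite field form a finite set. -/
theorem fin (l p : ℕ) [Fact l.Prime] :
    {u : (ZMod l)[X] | u.Monic ∧ Irreducible u ∧ u.natDegree = p}.Finite := by
  refine Set.Finite.of_injOn (f := fun (u : (ZMod l)[X]) (i : Fin (p + 1)) => u.coeff i)
    (t := Set.univ) (fun _ _ => Set.mem_univ _) ?_ Set.finite_univ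
  intro u hu v hv h
  ext i
  rcases Nat.lt_or_ge i (p + 1) with hi | hi
  · exact congrFun h ⟨i, hi⟩
  · rw [coeff_eq_zero_of_natDegree_lt (by rw [hu.2.2]; omega),
      coeff_eq_zero_of_natDegree_lt (by rw [hv.2.2]; omega)]

end IRC_

open IRC_ in
/-- IRC. -/
theorem tIRC : T_IRC := by
  intro l p hl hp
  have : Fact l.Prime := ⟨hl⟩
  classical
  set F := GaloisField l p with hF
  have : Fintype F := Fintype.ofFinite F
  have hcard : Fintype.card F = l ^ p := by
    rw [← Nat.card_eq_fintype_card]
    exact GaloisField.card l p hp.ne_zero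
  have hrank : Module.finrank (ZMod l) F = p := GaloisField.finrank l hp.ne_zero
  have : FiniteDimensional (ZMod l) F := Module.finite_of_finrank_pos (by
    rw [hrank]; exact hp.pos)
  set S := {u : (ZMod l)[X] | u.Monic ∧ Irreducible u ∧ u.natDegree = p} with hS
  have hfin : S.Finite := fin l p
  rw [Set.ncard_eq_toFinset_card S hfin]
  -- the elements outside the prime field
  set A : Finset F := univ.filter fun x => x ∉ (algebraMap (ZMod l) F).range with hA
  have h1 : A.card ≤ p * hfin.toFinset.card := by
    refine card_le_mul_card_image_of_maps_to (f := fun x => minpoly (ZMod l) x) ?_ p ?_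
    · intro x hx
      have hx' : x ∉ (algebraMap (ZMod l) F).range := (mem_filter.1 hx).2
      have hint : IsIntegral (ZMod l) x := IsIntegral.of_finite _ x
      rw [Set.Finite.mem_toFinset]
      refine ⟨minpoly.monic hint, minpoly.irreducible hint, ?_⟩
      have hdvd : (minpoly (ZMod l) x).natDegree ∣ p := by
        have h := minpoly.degree_dvd hint
        rwa [hrank] at h
      rcases (Nat.dvd_prime hp).1 hdvd with h | h
      · exact absurd (minpoly.natDegree_eq_one_iff.1 h) hx'
      · exact h
    · intro u hu
      rw [Set.Finite.mem_toFinset] at hu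
      have h2 : (A.filter fun x => minpoly (ZMod l) x = u) ⊆ (u.aroots F).toFinset := by
        intro x hx
        have hx' := (mem_filter.1 hx).2
        rw [Multiset.mem_toFinset, mem_aroots]
        refine ⟨hu.1.ne_zero, ?_⟩
        rw [← hx']
        exact minpoly.aeval _ _
      calc (A.filter fun x => minpoly (ZMod l) x = u).card ≤ (u.aroots F).toFinset.card :=
            card_le_card h2
        _ ≤ Multiset.card (u.aroots F) := Multiset.toFinset_card_le _
        _ ≤ (u.map (algebraMap (ZMod l) F)).natDegree := card_roots' _
        _ ≤ u.natDegree := natDegree_map_le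
        _ = p := hu.2.2
  have h2 : l ^ p ≤ A.card + l := by
    rw [← hcard, ← card_univ, ← card_filter_add_card_filter_not (s := univ)
      (fun x : F => x ∉ (algebraMap (ZMod l) F).range)]
    refine Nat.add_le_add_left ?_ _
    have h3 : (univ.filter fun x : F => ¬ x ∉ (algebraMap (ZMod l) F).range) ⊆
        univ.image (algebraMap (ZMod l) F) := by
      intro x hx
      have hx' := (mem_filter.1 hx).2
      rw [not_not] at hx'
      obtain ⟨y, hy⟩ := hx'
      exact mem_image.2 ⟨y, mem_univ _, hy⟩
    calc _ ≤ (univ.image (algebraMap (ZMod l) F)).card := card_le_card h3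
      _ ≤ (univ : Finset (ZMod l)).card := card_image_le
      _ = l := by rw [card_univ, ZMod.card]
  have h3 : 2 * l ≤ l ^ p := by
    calc 2 * l ≤ l * l := Nat.mul_le_mul_right _ hl.two_le
      _ = l ^ 2 := by ring
      _ ≤ l ^ p := Nat.pow_le_pow_right hl.pos hp.two_le
  have h4 : 2 * A.card ≤ 2 * (p * hfin.toFinset.card) := Nat.mul_le_mul_left _ h1
  calc l ^ p ≤ 2 * A.card := by omega
    _ ≤ 2 * (p * hfin.toFinset.card) := h4
    _ = _ := by ring

end Pool.Agent.FQW
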