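import Mathlib
import Pool.Agent.FQW.Basic
set_option autoImplicit false

/-!
# Uniqueness of the sorted roots
-/

namespace Pool.Agent.FQW
open Polynomial Finset
open scoped BigOperators

/-- the sorted list of the roots is unique -/
theorem roots_unique (q : ℕ) {g : ℕ} (a : Fin g → ℤ) (τ τ' : Fin g → ℝ) (h : Roots q a τ)
    (h' : Roots q a τ') : τ = τ' := by
  have h1 : ∏ i, (X - C (τ i)) = ∏ i, (X - C (τ' i)) := by rw [← h.2.2, ← h'.2.2]
  have h2 : Multiset.map τ univ.val = Multiset.map τ' univ.val := by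
    have e1 : ((Multiset.map τ univ.val).map (fun a => X - C a)).prod =
        ((Multiset.map τ' univ.val).map (fun a => X - C a)).prod := by
      rw [Multiset.map_map, Multiset.map_map]
      exact h1
    rw [← roots_multiset_prod_X_sub_C (Multiset.map τ univ.val), e1, roots_multiset_prod_X_sub_C]
  have h3 : (List.ofFn τ).Perm (List.ofFn τ') := by
    rw [← Multiset.coe_eq_coe]
    simpa [Fin.univ_val_map] using h2
  exact List.ofFn_injective (h3.eq_of_sortedLE h.1.sortedLE_ofFn h'.1.sortedLE_ofFn)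

theorem abs_ev_eq_prod (q : ℕ) {g : ℕ} (a : Fin g → ℤ) (τ : Fin g → ℝ) (h : Roots q a τ) (x : ℝ) :
    |ev q a x| = ∏ i, |x - τ i| := by
  rw [ev_eq_prod q a τ h, Finset.abs_prod]

end Pool.Agent.FQW
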