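import Mathlib
import Pool.Agent.FQW.Basic
import Pool.Agent.FQW.Uniq

set_option autoImplicit false

/-!
# KP: the number of boxes which contain a typical real Weil polynomial
-/

namespace Pool.Agent.FQW

open Polynomial Finset
open scoped BigOperators

namespace KP_

/-- the number of small subsets -/
theorem card_subsets (g K : ℕ) :
    ((univ : Finset (Finset (Fin g))).filter fun T => T.card ≤ K).card ≤ (g + 1) ^ K := by
  have h1 : (univ : Finset (Fin K → Option (Fin g))).card = (g + 1) ^ K := by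
    rw [Finset.card_univ, Fintype.card_fun, Fintype.card_option, Fintype.card_fin,
      Fintype.card_fin]
  rw [← h1]
  apply Finset.card_le_card_of_surjOn
    (fun f : Fin K → Option (Fin g) => univ.filter fun i => ∃ k, f k = some i)
  intro T hT
  simp only [coe_filter, mem_univ, true_and, Set.mem_ofPred_eq] at hT
  refine ⟨fun k => T.toList[(k : ℕ)]?, by simp, ?_⟩
  ext i
  simp only [mem_filter, mem_univ, true_and]
  rw [← Finset.mem_toList, List.mem_iff_getElem?]
  constructor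
  · rintro ⟨k, hk⟩
    exact ⟨k, hk⟩
  · rintro ⟨k, hk⟩
    have hk' : k < T.toList.length := by
      by_contra hcon
      rw [List.getElem?_eq_none (by omega)] at hk
      exact absurd hk (by simp)
    rw [Finset.length_toList] at hk'
    exact ⟨⟨k, by omega⟩, hk⟩

/-- double counting -/
theorem double_count {κ α : Type} (K : Finset κ) (S : κ → Set α) (P : Set α) (hP : P.Finite)
    (hS : ∀ k ∈ K, S k ⊆ P) (N : ℕ)
    (hN : ∀ a ∈ P, ∀ U : Finset κ, (∀ k ∈ U, k ∈ K ∧ a ∈ S k) → U.card ≤ N) :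
    ∑ k ∈ K, (S k).ncard ≤ N * P.ncard := by
  classical
  have h1 : ∀ k ∈ K, (S k).ncard = (hP.toFinset.filter fun a => a ∈ S k).card := by
    intro k hk
    rw [← Set.ncard_coe_finset]
    congr 1
    ext a
    simp only [coe_filter, Set.Finite.mem_toFinset, Set.mem_ofPred_eq]
    exact ⟨fun h => ⟨hS k hk h, h⟩, fun h => h.2⟩
  rw [Finset.sum_congr rfl h1]
  have h2 := Finset.sum_card_bipartiteAbove_eq_sum_card_bipartiteBelow (s := K) (t := hP.toFinset)
    (fun k a => a ∈ S k)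
  simp only [Finset.bipartiteAbove, Finset.bipartiteBelow] at h2
  rw [h2]
  calc ∑ a ∈ hP.toFinset, (K.filter fun k => a ∈ S k).card
      ≤ ∑ a ∈ hP.toFinset, N := by
        apply Finset.sum_le_sum
        intro a ha
        apply hN a (hP.mem_toFinset.mp ha)
        intro k hk
        exact ⟨(mem_filter.mp hk).1, (mem_filter.mp hk).2⟩
    _ = N * P.ncard := by
        rw [Finset.sum_const, smul_eq_mul, mul_comm, Set.ncard_eq_toFinset_card P hP]

theorem pw (n : ℕ) (C : ℝ) : ∀ᶠ g : ℕ in Filter.atTop, C * Real.log g ^ n ≤ (g : ℝ) := by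
  have h := (Real.isLittleO_pow_log_id_atTop (n := n)).bound
    (show (0 : ℝ) < 1 / (|C| + 1) by positivity)
  have h2 := tendsto_natCast_atTop_atTop (R := ℝ) |>.eventually h
  filter_upwards [h2] with g hg
  simp only [Real.norm_eq_abs, id] at hg
  have h3 : (0 : ℝ) ≤ g := Nat.cast_nonneg g
  rw [abs_of_nonneg h3] at hg
  calc C * Real.log g ^ n ≤ |C * Real.log g ^ n| := le_abs_self _
    _ = |C| * |Real.log g ^ n| := abs_mul _ _
    _ ≤ |C| * (1 / (|C| + 1) * g) := by gcongr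
    _ ≤ g := by
      rw [← mul_assoc, mul_one_div]
      have : |C| / (|C| + 1) ≤ 1 := by
        rw [div_le_one (by positivity)]; linarith
      nlinarith

theorem lg (C : ℝ) : ∀ᶠ g : ℕ in Filter.atTop, C ≤ Real.log g :=
  (Real.tendsto_log_atTop.comp (tendsto_natCast_atTop_atTop (R := ℝ))).eventually_ge_atTop C

/-- the numerical facts -/
theorem num (q : ℕ) (hq : 2 ≤ q) (δ : ℝ) (hδ : 0 < δ) : ∀ᶠ g : ℕ in Filter.atTop,
    20 ≤ g ∧ 100 * g * √(q : ℝ) * epc g ≤ rho g ∧ 4 * eps g ≤ rho g ∧ rho g ≤ 1 ∧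
      2 * (Real.exp (Real.log g ^ 47) * ((g : ℝ) + 1) ^ ⌊Real.log g ^ 22 / 4 + 2⌋₊) ≤
        Real.exp (δ * g) := by
  have hs : (0 : ℝ) < √(q : ℝ) := Real.sqrt_pos.mpr (by exact_mod_cast (by omega : 0 < q))
  set C1 : ℝ := |Real.log (100 * √(q : ℝ))| with hC1
  filter_upwards [Filter.eventually_ge_atTop 20, lg 2, pw 10 (2 * (1 + C1)),
    pw 47 (8 / δ)] with g h20 hL2 hp1 hp2
  have hg0 : (0 : ℝ) < g := by exact_mod_cast (by omega : 0 < g)
  have hg20 : (20 : ℝ) ≤ g := by exact_mod_cast h20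
  set L := Real.log g with hL
  have hL0 : 0 < L := by linarith
  have hL1 : 1 ≤ L := by linarith
  refine ⟨h20, ?_, ?_, ?_, ?_⟩
  · -- 100 g Q epc ≤ rho
    have e1 : 100 * (g : ℝ) * √(q : ℝ) = Real.exp (Real.log (100 * √(q : ℝ)) + L) := by
      rw [Real.exp_add, Real.exp_log (by positivity), hL, Real.exp_log hg0]
      ring
    rw [e1, epc, rho, ell, ← Real.exp_add, Real.exp_le_exp]
    have h1 : (g : ℝ) / L ^ 20 ≤ g / L ^ 9 / 2 := by
      rw [div_div, div_le_div_iff₀ (by positivity) (by positivity)]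
      have : L ^ 20 = L ^ 9 * L ^ 11 := by ring
      rw [this]
      have h3 : (2 : ℝ) ^ 11 ≤ L ^ 11 := by gcongr
      have h4 : (2 : ℝ) ≤ L ^ 11 := by nlinarith
      have h5 : 0 ≤ (g : ℝ) * L ^ 9 := by positivity
      nlinarith
    have h2 : Real.log (100 * √(q : ℝ)) + L ≤ g / L ^ 9 / 2 := by
      rw [div_div, le_div_iff₀ (by positivity)]
      have h3 : Real.log (100 * √(q : ℝ)) ≤ C1 := le_abs_self _
      have hC0 : 0 ≤ C1 := abs_nonneg _
      have h4 : Real.log (100 * √(q : ℝ)) + L ≤ (1 + C1) * L := by nlinarith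
      calc (Real.log (100 * √(q : ℝ)) + L) * (L ^ 9 * 2) ≤ ((1 + C1) * L) * (L ^ 9 * 2) := by
            gcongr
        _ = 2 * (1 + C1) * L ^ 10 := by ring
        _ ≤ g := hp1
    linarith
  · rw [eps]
    have h1 : 0 < rho g := Real.exp_pos _
    have h2 : (4 : ℝ) ≤ (g : ℝ) ^ 10 := by
      calc (4 : ℝ) ≤ 20 ^ 10 := by norm_num
        _ ≤ (g : ℝ) ^ 10 := by gcongr
    rw [mul_div_assoc', div_le_iff₀ (by positivity)]
    nlinarith
  · rw [rho, Real.exp_le_one_iff, ell]
    have : 0 ≤ (g : ℝ) / Real.log g ^ 20 := by rw [← hL]; positivity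
    linarith
  · have h1 : (2 : ℝ) ≤ Real.exp 1 := by
      have := Real.add_one_le_exp (1 : ℝ); linarith
    have h2 : (g : ℝ) + 1 ≤ Real.exp (2 * L) := by
      have : Real.exp (2 * L) = g ^ 2 := by
        rw [two_mul, Real.exp_add, hL, Real.exp_log hg0]; ring
      rw [this]; nlinarith
    have h3 : ((g : ℝ) + 1) ^ ⌊L ^ 22 / 4 + 2⌋₊ ≤ Real.exp (2 * L * (L ^ 22 / 4 + 2)) := by
      calc ((g : ℝ) + 1) ^ ⌊L ^ 22 / 4 + 2⌋₊ ≤ Real.exp (2 * L) ^ ⌊L ^ 22 / 4 + 2⌋₊ := by gcongr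
        _ = Real.exp (⌊L ^ 22 / 4 + 2⌋₊ * (2 * L)) := by rw [← Real.exp_nat_mul]
        _ ≤ Real.exp (2 * L * (L ^ 22 / 4 + 2)) := by
            rw [Real.exp_le_exp, mul_comm]
            have := Nat.floor_le (show (0 : ℝ) ≤ L ^ 22 / 4 + 2 by positivity)
            gcongr
    calc 2 * (Real.exp (L ^ 47) * ((g : ℝ) + 1) ^ ⌊L ^ 22 / 4 + 2⌋₊)
        ≤ Real.exp 1 * (Real.exp (L ^ 47) * Real.exp (2 * L * (L ^ 22 / 4 + 2))) := by
          gcongr
      _ = Real.exp (1 + (L ^ 47 + 2 * L * (L ^ 22 / 4 + 2))) := by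
          rw [Real.exp_add, Real.exp_add]
      _ ≤ Real.exp (δ * g) := by
          rw [Real.exp_le_exp]
          have h4 : 1 ≤ L ^ 47 := one_le_pow₀ hL1
          have h5 : L ^ 23 ≤ L ^ 47 := pow_le_pow_right₀ hL1 (by norm_num)
          have h6 : L ≤ L ^ 47 := by
            calc L = L ^ 1 := by ring
              _ ≤ L ^ 47 := pow_le_pow_right₀ hL1 (by norm_num)
          have h7 : 8 * L ^ 47 ≤ δ * g := by
            have := hp2
            rw [div_mul_eq_mul_div, div_le_iff₀ hδ] at this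
            linarith
          have h8 : 2 * L * (L ^ 22 / 4 + 2) = L ^ 23 / 2 + 4 * L := by ring
          rw [h8]
          linarith

end KP_

open KP_ in
theorem tKP : T_FINP → T_CLUS → T_E7 → T_E8 → T_KPA → T_KP := by
  intro hFIN hCLUS hE7 hE8 hKPA q hq γ δ hγ hδ
  classical
  obtain ⟨g1, hg1⟩ := hKPA q hq γ hγ
  obtain ⟨g2, hg2⟩ := Filter.eventually_atTop.mp (num q hq δ hδ)
  refine ⟨max g1 g2, fun g hg n hn hn2 B hB hB2 R hR hinj => ?_⟩
  obtain ⟨h20, h100, h4, hr1, hfin⟩ := hg2 g (le_trans (le_max_right _ _) hg)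
  have hKPA' := hg1 g (le_trans (le_max_left _ _) hg) n hn hn2 B hB hB2
  choose! τ hτ using hR
  have heps : 0 < eps g := by
    have hg0 : (0 : ℝ) < g := by exact_mod_cast (by omega : 0 < g)
    rw [eps, rho]; positivity
  have hepc : 0 < epc g := Real.exp_pos _
  obtain ⟨θ, R', hR'R, hcard, hgrid⟩ := hE8 g h20 (eps g) heps (Fin g → ℤ) R τ
  have hx : ∀ a ∈ R', ∃ x : Fin g → ℝ, Nodes q (rho g) (epc g) (clus q (τ a) (rho g)) x ∧
      Close q (eps g) (epc g) (clus q (τ a) (rho g)) (τ a) x ∧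
      (∀ k, k ∉ clus q (τ a) (rho g) → ∃ m : ℤ, x k = θ + m * eps g) ∧
      ∀ i ∈ clus q (τ a) (rho g), ∃ m : ℤ, x i = m * epc g := by
    intro a ha
    have h := (hτ a (hR'R ha)).1
    exact hE7 q g hq h20 (rho g) (eps g) (epc g) θ hepc heps hr1 h100 h4 (τ a) h.1 h.2.1
      (hgrid a ha)
  choose! x hx1 hx2 hx3 hx4 using hx
  set key : (Fin g → ℤ) → (Fin g → ℤ) × Finset (Fin g) × (Fin g → ℝ) :=
    fun a => (topPart n a, clus q (τ a) (rho g), x a) with hkey
  set K := R'.image key with hK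
  set S : (Fin g → ℤ) × Finset (Fin g) × (Fin g → ℝ) → Set (Fin g → ℤ) := fun κ =>
    {a ∈ P q g | topPart n a = κ.1 ∧ ∃ τ', Roots q a τ' ∧
        (∀ k, k ∉ κ.2.1 → |τ' k - κ.2.2 k| < eps g / 2) ∧
        ∀ i ∈ κ.2.1, |τ' i - κ.2.2 i| < epc g / 2} with hS
  set E := Real.exp (Real.log g ^ 47) with hE
  have hE0 : 0 < E := Real.exp_pos _
  -- one key
  have hone : ∀ κ ∈ K, ((R'.filter fun a => key a = κ).card : ℝ) * ∏ j, (B j : ℝ) ≤
      E * ((S κ).ncard : ℕ) := by
    intro κ hκ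
    obtain ⟨b, hb, rfl⟩ := mem_image.mp hκ
    apply hKPA' b (clus q (τ b) (rho g)) (x b) (R'.filter fun a => key a = key b) (hx1 b hb)
    · intro a ha
      obtain ⟨ha1, ha2⟩ := mem_filter.mp ha
      have e1 : topPart n a = topPart n b := congrArg Prod.fst ha2
      have e2 : clus q (τ a) (rho g) = clus q (τ b) (rho g) :=
        congrArg (fun κ => κ.2.1) ha2
      have e3 : x a = x b := congrArg (fun κ => κ.2.2) ha2
      refine ⟨e1, τ a, (hτ a (hR'R ha1)).1, (hτ a (hR'R ha1)).2, e2, ?_⟩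
      rw [← e2, ← e3]
      exact hx2 a ha1
    · exact hinj.mono (fun a ha => hR'R (mem_filter.mp ha).1)
  -- the sum over the keys
  have hsum : ∑ κ ∈ K, (S κ).ncard ≤ (g + 1) ^ ⌊Real.log g ^ 22 / 4 + 2⌋₊ * (P q g).ncard := by
    apply double_count K S (P q g) (hFIN q g) (fun κ _ a ha => ha.1)
    intro a ha U hU
    refine le_trans ?_ (card_subsets g ⌊Real.log g ^ 22 / 4 + 2⌋₊)
    apply Finset.card_le_card_of_injOn (fun κ => κ.2.1)
    · intro κ hκ
      obtain ⟨hκK, _⟩ := hU κ hκ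
      obtain ⟨b, hb, rfl⟩ := mem_image.mp hκK
      simp only [coe_filter, mem_univ, true_and, Set.mem_ofPred_eq]
      have h1 := (hτ b (hR'R hb)).1
      have h2 := hCLUS q g (τ b) (rho g) h1.1 h1.2.1 (Real.exp_pos _)
      have h3 := (hτ b (hR'R hb)).2.tp
      apply Nat.le_floor
      have h5 : ((clus q (τ b) (rho g)).card : ℝ) ≤ 2 * (npairs (τ b) (rho g) : ℝ) + 2 := by
        exact_mod_cast h2
      have h6 : (npairs (τ b) (rho g) : ℝ) < Real.log g ^ 22 / 8 := h3
      calc ((clus q (τ b) (rho g)).card : ℝ) ≤ 2 * (npairs (τ b) (rho g) : ℝ) + 2 := h5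
        _ ≤ Real.log g ^ 22 / 4 + 2 := by linarith
    · intro κ hκ κ' hκ' hTT
      obtain ⟨hκK, hκS⟩ := hU κ hκ
      obtain ⟨hκK', hκS'⟩ := hU κ' hκ'
      obtain ⟨b, hb, rfl⟩ := mem_image.mp hκK
      obtain ⟨b', hb', rfl⟩ := mem_image.mp hκK'
      obtain ⟨_, ht1, τ1, hr1', hf1, hn1⟩ := hκS
      obtain ⟨_, ht2, τ2, hr2', hf2, hn2'⟩ := hκS'
      have hττ := roots_unique q a τ1 τ2 hr1' hr2'
      subst hττ
      simp only [hkey] at hTT ht1 ht2 hf1 hn1 hf2 hn2' ⊢
      have hxx : x b = x b' := by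
        ext k
        by_cases hk : k ∈ clus q (τ b) (rho g)
        · obtain ⟨m, hm⟩ := hx4 b hb k hk
          obtain ⟨m', hm'⟩ := hx4 b' hb' k (by rw [← hTT]; exact hk)
          have h1 := hn1 k hk
          have h2 := hn2' k (by rw [← hTT]; exact hk)
          have h3 : |x b k - x b' k| < epc g := by
            calc |x b k - x b' k| = |(τ1 k - x b' k) - (τ1 k - x b k)| := by
                  congr 1; ring
              _ ≤ |τ1 k - x b' k| + |τ1 k - x b k| := abs_sub _ _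
              _ < epc g := by linarith
          rw [hm, hm'] at h3 ⊢
          have h4 : ((m : ℝ) * epc g - m' * epc g) = ((m - m' : ℤ) : ℝ) * epc g := by
            push_cast; ring
          rw [h4, abs_mul, abs_of_pos hepc] at h3
          have h5 : |((m - m' : ℤ) : ℝ)| < 1 := by
            by_contra hcon
            push Not at hcon
            nlinarith
          have h6 : m - m' = 0 := by
            rw [← Int.abs_lt_one_iff]
            exact_mod_cast h5
          have h7 : m = m' := by omega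
          rw [h7]
        · obtain ⟨m, hm⟩ := hx3 b hb k hk
          obtain ⟨m', hm'⟩ := hx3 b' hb' k (by rw [← hTT]; exact hk)
          have h1 := hf1 k hk
          have h2 := hf2 k (by rw [← hTT]; exact hk)
          have h3 : |x b k - x b' k| < eps g := by
            calc |x b k - x b' k| = |(τ1 k - x b' k) - (τ1 k - x b k)| := by
                  congr 1; ring
              _ ≤ |τ1 k - x b' k| + |τ1 k - x b k| := abs_sub _ _
              _ < eps g := by linarith
          rw [hm, hm'] at h3 ⊢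
          have h4 : (θ + (m : ℝ) * eps g - (θ + m' * eps g)) = ((m - m' : ℤ) : ℝ) * eps g := by
            push_cast; ring
          rw [h4, abs_mul, abs_of_pos heps] at h3
          have h5 : |((m - m' : ℤ) : ℝ)| < 1 := by
            by_contra hcon
            push Not at hcon
            nlinarith
          have h6 : m - m' = 0 := by
            rw [← Int.abs_lt_one_iff]
            exact_mod_cast h5
          have h7 : m = m' := by omega
          rw [h7]
      rw [← ht1, ← ht2, hTT, hxx]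
  have hsumR : (∑ κ ∈ K, ((S κ).ncard : ℝ)) ≤
      ((g : ℝ) + 1) ^ ⌊Real.log g ^ 22 / 4 + 2⌋₊ * ((P q g).ncard : ℕ) := by
    exact_mod_cast hsum
  have hR'card : (R'.card : ℝ) = ∑ κ ∈ K, ((R'.filter fun a => key a = κ).card : ℝ) := by
    rw [Finset.card_eq_sum_card_image key R']
    push_cast
    rfl
  have hBpos : 0 ≤ ∏ j, (B j : ℝ) := Finset.prod_nonneg (fun j _ => Nat.cast_nonneg _)
  calc (R.card : ℝ) * ∏ j, (B j : ℝ) ≤ (2 * (R'.card : ℝ)) * ∏ j, (B j : ℝ) := by
        gcongr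
        exact_mod_cast hcard
    _ = 2 * ∑ κ ∈ K, (((R'.filter fun a => key a = κ).card : ℝ) * ∏ j, (B j : ℝ)) := by
        rw [hR'card, ← Finset.sum_mul]; ring
    _ ≤ 2 * ∑ κ ∈ K, (E * ((S κ).ncard : ℝ)) :=
        mul_le_mul_of_nonneg_left (Finset.sum_le_sum hone) (by norm_num)
    _ = 2 * (E * ∑ κ ∈ K, ((S κ).ncard : ℝ)) := by rw [← Finset.mul_sum]
    _ ≤ 2 * (E * (((g : ℝ) + 1) ^ ⌊Real.log g ^ 22 / 4 + 2⌋₊ * ((P q g).ncard : ℕ))) := by
        gcongr
    _ = 2 * (E * ((g : ℝ) + 1) ^ ⌊Real.log g ^ 22 / 4 + 2⌋₊) * ((P q g).ncard : ℕ) := by ring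
    _ ≤ Real.exp (δ * g) * ((P q g).ncard : ℕ) := by
        gcongr

end Pool.Agent.FQW
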