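import Mathlib
import Pool.Agent.FQW.Basic

set_option autoImplicit false

/-!
# The comparison for one choice of the nodes
-/

namespace Pool.Agent.FQW

open Polynomial Finset Filter
open scoped BigOperators

namespace KPA_

theorem ev_num (γ : ℝ) (hγ : 0 < γ) : ∃ g₀ : ℕ, ∀ g : ℕ, g₀ ≤ g → 20 ≤ g ∧ 4 ≤ Real.log g ∧
    2 * (g : ℝ) ^ 7 ≤ Real.exp (γ / 2 * g) ∧ 4 * Real.log g ^ 22 ≤ g ∧
    20 * Real.log g ^ 10 ≤ g := by
  have hc : Tendsto (fun g : ℕ => (g : ℝ)) atTop atTop := tendsto_natCast_atTop_atTop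
  have h1 : ∀ᶠ g : ℕ in atTop, 20 ≤ g := eventually_ge_atTop 20
  have h2 : ∀ᶠ g : ℕ in atTop, 4 ≤ Real.log (g : ℝ) :=
    (Real.tendsto_log_atTop.comp hc).eventually_ge_atTop 4
  have h3 : ∀ᶠ g : ℕ in atTop, 2 * (g : ℝ) ^ 7 ≤ Real.exp (γ / 2 * g) := by
    have h := (isLittleO_pow_exp_pos_mul_atTop (k := 7) (half_pos hγ)).bound
      (show (0 : ℝ) < 1 / 2 by norm_num)
    filter_upwards [hc.eventually h] with g hg
    rw [Real.norm_of_nonneg (by positivity), Real.norm_of_nonneg (Real.exp_pos _).le] at hg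
    linarith
  have h4 : ∀ᶠ g : ℕ in atTop, 4 * Real.log (g : ℝ) ^ 22 ≤ g := by
    have h := (Real.isLittleO_pow_log_id_atTop (n := 22)).bound (show (0 : ℝ) < 1 / 4 by norm_num)
    filter_upwards [hc.eventually h, h2] with g hg hg2
    rw [Real.norm_of_nonneg (by positivity), id, Real.norm_of_nonneg (by positivity)] at hg
    linarith
  have h5 : ∀ᶠ g : ℕ in atTop, 20 * Real.log (g : ℝ) ^ 10 ≤ g := by
    have h := (Real.isLittleO_pow_log_id_atTop (n := 10)).bound (show (0 : ℝ) < 1 / 20 by norm_num)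
    filter_upwards [hc.eventually h, h2] with g hg hg2
    rw [Real.norm_of_nonneg (by positivity), id, Real.norm_of_nonneg (by positivity)] at hg
    linarith
  have := h1.and (h2.and (h3.and (h4.and h5)))
  exact eventually_atTop.1 this

/-- the mesh for clusters is smaller -/
theorem epc_le (g : ℕ) (hg : 20 ≤ g) (hL : 4 ≤ Real.log g) (h5 : 20 * Real.log g ^ 10 ≤ g) :
    epc g ≤ eps g := by
  have hg0 : (0 : ℝ) < g := by
    have : 0 < g := by omega
    exact_mod_cast this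
  have hL0 : 0 < Real.log g := by linarith
  unfold epc eps rho ell
  rw [le_div_iff₀ (by positivity)]
  have h1 : (g : ℝ) ^ 10 = Real.exp (10 * Real.log g) := by
    rw [show (10 : ℝ) * Real.log g = ((10 : ℕ) : ℝ) * Real.log g by norm_num, Real.exp_nat_mul,
      Real.exp_log hg0]
  rw [h1, ← Real.exp_add]
  apply Real.exp_le_exp.2
  have h2 : (g : ℝ) / Real.log g ^ 20 ≤ g / (2 * Real.log g ^ 9) := by
    apply div_le_div_of_nonneg_left hg0.le (by positivity)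
    have : (2 : ℝ) ≤ Real.log g ^ 11 := by
      calc (2 : ℝ) ≤ 4 ^ 11 := by norm_num
        _ ≤ Real.log g ^ 11 := by gcongr
    calc 2 * Real.log g ^ 9 ≤ Real.log g ^ 11 * Real.log g ^ 9 := by gcongr
      _ = Real.log g ^ 20 := by ring
  have h3 : 10 * Real.log g ≤ g / (2 * Real.log g ^ 9) := by
    rw [le_div_iff₀ (by positivity)]
    calc 10 * Real.log (g : ℝ) * (2 * Real.log (g : ℝ) ^ 9) = 20 * Real.log (g : ℝ) ^ 10 := by ring
      _ ≤ (g : ℝ) := h5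
  have h4 : (g : ℝ) / Real.log g ^ 9 = g / (2 * Real.log g ^ 9) + g / (2 * Real.log g ^ 9) := by
    field_simp
    ring
  rw [h4]
  linarith

/-- the final constant -/
theorem const_le (g t : ℕ) (hg : 20 ≤ g) (hL : 4 ≤ Real.log g)
    (ht : (t : ℝ) ≤ Real.log g ^ 22 / 4 + 2) :
    4 * (100 * g * Cc g) ^ t ≤ Real.exp (Real.log g ^ 47) := by
  have hg0 : (0 : ℝ) < g := by
    have : 0 < g := by omega
    exact_mod_cast this
  set L := Real.log g with hLdef
  have hL0 : 0 < L := by linarith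
  have e1 : (g : ℝ) = Real.exp L := (Real.exp_log hg0).symm
  have e5 : (5 : ℝ) ≤ Real.exp 4 := by
    have := Real.add_one_le_exp (4 : ℝ)
    linarith
  have hx : 4 ≤ Real.exp (L ^ 24) := by
    have h1 : (4 : ℝ) ≤ L ^ 24 := by
      calc (4 : ℝ) ≤ 4 ^ 24 := by norm_num
        _ ≤ L ^ 24 := by gcongr
    have := Real.add_one_le_exp (L ^ 24)
    linarith
  have h100 : (100 : ℝ) ≤ Real.exp (3 * L) := by
    calc (100 : ℝ) ≤ 5 ^ 3 := by norm_num
      _ ≤ (Real.exp 4) ^ 3 := by gcongr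
      _ = Real.exp (3 * 4) := by rw [← Real.exp_nat_mul]; norm_num
      _ ≤ Real.exp (3 * L) := Real.exp_le_exp.2 (by linarith)
  have hC : 100 * (g : ℝ) * Cc g ≤ Real.exp (2 * L ^ 24) := by
    calc 100 * (g : ℝ) * Cc g ≤ Real.exp (3 * L) * Real.exp L * Real.exp (L ^ 24) := by
          unfold Cc
          rw [← hLdef, ← e1]
          gcongr
      _ = Real.exp (4 * L + L ^ 24) := by
          rw [← Real.exp_add, ← Real.exp_add]; congr 1; ring
      _ ≤ Real.exp (2 * L ^ 24) := by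
          apply Real.exp_le_exp.2
          have : 4 * L ≤ L ^ 24 := by
            calc 4 * L ≤ L ^ 23 * L := by
                  gcongr
                  calc (4 : ℝ) ≤ 4 ^ 23 := by norm_num
                    _ ≤ L ^ 23 := by gcongr
              _ = L ^ 24 := by ring
          linarith
  have hC0 : 0 ≤ 100 * (g : ℝ) * Cc g := by
    unfold Cc
    positivity
  calc 4 * (100 * (g : ℝ) * Cc g) ^ t ≤ Real.exp (L ^ 24) * (Real.exp (2 * L ^ 24)) ^ t := by
        gcongr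
    _ = Real.exp (L ^ 24 + t * (2 * L ^ 24)) := by
        rw [← Real.exp_nat_mul, ← Real.exp_add]
    _ ≤ Real.exp (L ^ 47) := by
        apply Real.exp_le_exp.2
        have h1 : (t : ℝ) ≤ L ^ 22 / 2 := by
          have : (8 : ℝ) ≤ L ^ 22 := by
            calc (8 : ℝ) ≤ 4 ^ 22 := by norm_num
              _ ≤ L ^ 22 := by gcongr
          linarith
        have h2 : (t : ℝ) * (2 * L ^ 24) ≤ L ^ 22 / 2 * (2 * L ^ 24) := by gcongr
        have h3 : L ^ 22 / 2 * (2 * L ^ 24) = L ^ 46 := by ring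
        have h4 : L ^ 24 ≤ L ^ 46 := by
          apply pow_le_pow_right₀ (by linarith) (by norm_num)
        have h5 : 2 * L ^ 46 ≤ L * L ^ 46 := by
          gcongr
          linarith
        have h6 : L * L ^ 46 = L ^ 47 := by ring
        linarith

theorem ext_eq {g : ℕ} (n : ℕ) (a b : Fin g → ℤ) (hn : n ≤ g) (h : topPart n a = topPart n b) :
    ext n b (fun j : Fin n => (a ⟨j, lt_of_lt_of_le j.2 hn⟩ : ℝ)) = fun i => (a i : ℝ) := by
  funext i
  unfold ext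
  split_ifs with hi
  · rfl
  · have := congrFun h i
    simp only [topPart, hi, if_false] at this
    rw [this]

end KPA_

theorem tKPA : T_FINP → T_CLUS → T_TUP → T_E2A → T_E2B → T_E2C → T_E4 → T_E5 → T_E6A → T_E6B →
    T_KPA := by
  intro hFINP hCLUS _ hE2A hE2B hE2C hE4 hE5 hE6A hE6B q hq γ hγ
  obtain ⟨gA, hA⟩ := hE2A q hq (γ / 2) (half_pos hγ)
  obtain ⟨gB, hB⟩ := hE2B q hq
  obtain ⟨gC, hC⟩ := hE2C q hq
  obtain ⟨gN, hN⟩ := KPA_.ev_num γ hγ
  refine ⟨max (max gA gB) (max gC gN), fun g hg n hng hgn B hB1 hBu b T x R hnod hR hinj => ?_⟩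
  have hgA : gA ≤ g := le_trans (le_trans (le_max_left _ _) (le_max_left _ _)) hg
  have hgB : gB ≤ g := le_trans (le_trans (le_max_right _ _) (le_max_left _ _)) hg
  have hgC : gC ≤ g := le_trans (le_trans (le_max_left _ _) (le_max_right _ _)) hg
  have hgN : gN ≤ g := le_trans (le_trans (le_max_right _ _) (le_max_right _ _)) hg
  obtain ⟨h20, hL, hexp, hl22, hl10⟩ := hN g hgN
  have hg0 : (0 : ℝ) < g := by
    have : 0 < g := by omega
    exact_mod_cast this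
  have hL0 : 0 < Real.log (g : ℝ) := by linarith
  have hq0 : (0 : ℝ) < q := by
    have : 0 < q := by omega
    exact_mod_cast this
  have hQ0 : 0 < √(q : ℝ) := Real.sqrt_pos.2 hq0
  rcases R.eq_empty_or_nonempty with hRe | ⟨a₀, ha₀⟩
  · rw [hRe]
    simp only [card_empty, Nat.cast_zero, zero_mul]
    positivity
  obtain ⟨ha₀t, τ₀, hτ₀, hτ₀t, hτ₀c, hτ₀cl⟩ := hR a₀ ha₀
  set M : Fin g → ℝ := Mn (eps g) (epc g) T x with hM
  have hMlow : ∀ k, √(q : ℝ) ^ g * Real.exp (-(γ / 2 * g)) ≤ M k := by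
    have := hA g hgA τ₀ x hτ₀.1 hτ₀.2.1 hτ₀t (by rw [hτ₀c]; exact hnod) (by rw [hτ₀c]; exact hτ₀cl)
    rw [hτ₀c] at this
    exact this
  have hM0 : ∀ k, 0 < M k := fun k => lt_of_lt_of_le (by positivity) (hMlow k)
  have hTcard : (T.card : ℝ) ≤ Real.log g ^ 22 / 4 + 2 := by
    have h1 := hCLUS q g τ₀ (rho g) hτ₀.1 hτ₀.2.1 (Real.exp_pos _)
    rw [hτ₀c] at h1
    have h2 : (T.card : ℝ) ≤ 2 * (npairs τ₀ (rho g) : ℝ) + 2 := by exact_mod_cast h1
    have h3 := hτ₀t.tp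
    change (npairs τ₀ (rho g) : ℝ) < _ at h3
    linarith
  have hTn : T.card ≤ n := by
    have h1 : (g : ℝ) ≤ 2 * n := by exact_mod_cast hgn
    have h2 : (20 : ℝ) ≤ g := by exact_mod_cast h20
    have h3 : (T.card : ℝ) ≤ n := by linarith
    exact_mod_cast h3
  have hinjx : Function.Injective x := hnod.mono.injective
  have hrho : 0 < rho g := Real.exp_pos _
  have hepc : 0 < epc g := Real.exp_pos _
  have hx : ∀ k, |x k| ≤ 2 * √(q : ℝ) := by
    intro k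
    by_cases hk : k ∈ T
    · have := hnod.inn k hk
      linarith
    · have := hnod.out k hk
      linarith
  have hKge : 1 ≤ Cc g := by
    unfold Cc
    apply Real.one_le_exp
    positivity
  -- the size of the boxes
  have hBsum : ∀ k, (g : ℝ) ^ 6 * ∑ j : Fin n, 2 * (B j : ℝ) * √(q : ℝ) ^ (j : ℕ) ≤ M k := by
    intro k
    refine le_trans ?_ (hMlow k)
    have h1 : ∀ j : Fin n, 2 * (B j : ℝ) * √(q : ℝ) ^ (j : ℕ) ≤
        2 * (√(q : ℝ) ^ g * Real.exp (-(γ * g))) := by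
      intro j
      have hj : (j : ℕ) ≤ g := le_trans j.2.le hng
      have e : √(q : ℝ) ^ g = √(q : ℝ) ^ (g - (j : ℕ)) * √(q : ℝ) ^ (j : ℕ) := by
        rw [← pow_add, Nat.sub_add_cancel hj]
      calc 2 * (B j : ℝ) * √(q : ℝ) ^ (j : ℕ)
          ≤ 2 * (√(q : ℝ) ^ (g - (j : ℕ)) * Real.exp (-(γ * g))) * √(q : ℝ) ^ (j : ℕ) := by
            have := hBu j
            gcongr
        _ = 2 * (√(q : ℝ) ^ g * Real.exp (-(γ * g))) := by rw [e]; ring
    have h2 : ∑ j : Fin n, 2 * (B j : ℝ) * √(q : ℝ) ^ (j : ℕ) ≤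
        g * (2 * (√(q : ℝ) ^ g * Real.exp (-(γ * g)))) := by
      calc ∑ j : Fin n, 2 * (B j : ℝ) * √(q : ℝ) ^ (j : ℕ)
          ≤ ∑ _j : Fin n, 2 * (√(q : ℝ) ^ g * Real.exp (-(γ * g))) :=
            Finset.sum_le_sum fun j _ => h1 j
        _ = n * (2 * (√(q : ℝ) ^ g * Real.exp (-(γ * g)))) := by
            rw [Finset.sum_const, card_univ, Fintype.card_fin, nsmul_eq_mul]
        _ ≤ g * (2 * (√(q : ℝ) ^ g * Real.exp (-(γ * g)))) := by
            have : (n : ℝ) ≤ g := by exact_mod_cast hng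
            gcongr
    have h3 : Real.exp (-(γ * g)) = Real.exp (-(γ / 2 * g)) * Real.exp (-(γ / 2 * g)) := by
      rw [← Real.exp_add]; congr 1; ring
    have h4 : 2 * (g : ℝ) ^ 7 * Real.exp (-(γ / 2 * g)) ≤ 1 := by
      rw [Real.exp_neg]
      rw [← div_eq_mul_inv, div_le_one (Real.exp_pos _)]
      exact hexp
    calc (g : ℝ) ^ 6 * ∑ j : Fin n, 2 * (B j : ℝ) * √(q : ℝ) ^ (j : ℕ)
        ≤ (g : ℝ) ^ 6 * (g * (2 * (√(q : ℝ) ^ g * Real.exp (-(γ * g))))) := by gcongr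
      _ = (√(q : ℝ) ^ g * Real.exp (-(γ / 2 * g))) *
          (2 * (g : ℝ) ^ 7 * Real.exp (-(γ / 2 * g))) := by rw [h3]; ring
      _ ≤ (√(q : ℝ) ^ g * Real.exp (-(γ / 2 * g))) * 1 := by gcongr
      _ = _ := mul_one _
  have h1sum : ∀ k, (g : ℝ) ^ 6 * ∑ j : Fin n, 2 * √(q : ℝ) ^ (j : ℕ) ≤ M k := by
    intro k
    refine le_trans ?_ (hBsum k)
    have : ∑ j : Fin n, 2 * √(q : ℝ) ^ (j : ℕ) ≤
        ∑ j : Fin n, 2 * (B j : ℝ) * √(q : ℝ) ^ (j : ℕ) := by
      refine Finset.sum_le_sum fun j _ => ?_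
      have h1 : (1 : ℝ) ≤ B j := by exact_mod_cast hB1 j
      calc 2 * √(q : ℝ) ^ (j : ℕ) = 2 * 1 * √(q : ℝ) ^ (j : ℕ) := by ring
        _ ≤ 2 * (B j : ℝ) * √(q : ℝ) ^ (j : ℕ) := by gcongr
    gcongr
  -- the values at the nodes
  have hval : ∀ a ∈ R, (∀ k, k ∉ T → |ev q a (x k)| ≤ (1 - 1 / (g : ℝ) ^ 2) * M k) ∧
      ∀ i ∈ T, |ev q a (x i)| ≤ Cc g / 2 * M i := by
    intro a ha
    obtain ⟨_, τ, hτ, hτt, hτc, hτcl⟩ := hR a ha
    have h := hB g hgB τ x hτ.1 hτ.2.1 hτt (by rw [hτc]; exact hnod) (by rw [hτc]; exact hτcl)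
    rw [hτc] at h
    refine ⟨fun k hk => ?_, fun i hi => ?_⟩
    · rw [ev_eq_prod q a τ hτ, Finset.abs_prod]
      exact h.1 k hk
    · rw [ev_eq_prod q a τ hτ, Finset.abs_prod]
      exact h.2 i hi
  -- E6A
  have s1 := hE6A q g n hq h20 hng B b T x M (Cc g) hB1 hKge hx hBsum R (fun a ha => (hR a ha).1)
    hinj (fun a ha => (hval a ha).1) (fun a ha => (hval a ha).2)
  -- E4
  have hcross : ∀ i ∈ T, ∀ k, k ∉ T → Cc g * M i *
      ∏ j ∈ T.erase i, (|x k - x j| / |x i - x j|) ≤ M k / (g : ℝ) ^ 8 := by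
    have h := hC g hgC τ₀ x hτ₀.1 hτ₀.2.1 hτ₀t (by rw [hτ₀c]; exact hnod)
      (by rw [hτ₀c]; exact hτ₀cl)
    rw [hτ₀c] at h
    exact h
  have hne : (Slab q n b T x M (1 - 1 / (g : ℝ) ^ 2) (Cc g)).Nonempty := by
    refine ⟨fun j : Fin n => (a₀ ⟨j, lt_of_lt_of_le j.2 hng⟩ : ℝ), ?_, ?_⟩
    · intro k hk
      rw [KPA_.ext_eq n a₀ b hng ha₀t, ← ev_eq]
      exact (hval a₀ ha₀).1 k hk
    · intro i hi
      rw [KPA_.ext_eq n a₀ b hng ha₀t, ← ev_eq]
      refine le_trans ((hval a₀ ha₀).2 i hi) ?_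
      have := hM0 i
      have h2 : Cc g / 2 ≤ Cc g := by linarith
      gcongr
  have s2 := hE4 q g n hq h20 hng b T x M (Cc g) hinjx hTn hM0 hKge hcross hne
  -- E6B
  set S : Set (Fin g → ℤ) := {a ∈ P q g | topPart n a = topPart n b ∧ ∃ τ', Roots q a τ' ∧
        (∀ k, k ∉ T → |τ' k - x k| < eps g / 2) ∧ ∀ i ∈ T, |τ' i - x i| < epc g / 2} with hS
  have hSfin : S.Finite := (hFINP q g).subset fun a ha => ha.1
  have hSmem : ∀ a : Fin g → ℤ, topPart n a = topPart n b →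
      (∀ k, k ∉ T → |ev q a (x k)| ≤ (1 - 1 / (g : ℝ) ^ 5) * M k) →
      (∀ i ∈ T, |ev q a (x i)| ≤ 1 / (50 * g) * M i) → a ∈ S := by
    intro a hat h1 h2
    have hmon : ((HZ q a).map (Int.castRingHom ℝ)).Monic := (HZ_monic q a).map _
    have hdeg : ((HZ q a).map (Int.castRingHom ℝ)).natDegree = g := by
      rw [(HZ_monic q a).natDegree_map, HZ_natDegree]
    obtain ⟨τ', hm, hb, hp, hn1, hn2⟩ := hE5 q g hq h20 (rho g) (eps g) (epc g) T x hepc
      (KPA_.epc_le g h20 hL hl10) (by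
        unfold eps
        rw [mul_div_cancel₀ _ (by positivity)]) hnod _ hmon hdeg h1 h2
    have hroots : Roots q a τ' := ⟨hm.monotone, hb, hp⟩
    exact ⟨⟨τ', hroots⟩, hat, τ', hroots, hn1, hn2⟩
  have s3 := hE6B q g n hq h20 hng b T x M hx h1sum S hSfin hSmem
  have s4 : (R.card : ENNReal) * ∏ j, (B j : ENNReal) ≤
      ENNReal.ofReal (4 * (100 * g * Cc g) ^ T.card) * (S.ncard : ENNReal) :=
    le_trans s1 (le_trans s2 (mul_le_mul_right s3 _))
  have s5 : (R.card : ℝ) * ∏ j, (B j : ℝ) ≤ 4 * (100 * g * Cc g) ^ T.card * (S.ncard : ℝ) := by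
    have hC0 : 0 ≤ 4 * (100 * (g : ℝ) * Cc g) ^ T.card := by
      have : 0 ≤ Cc g := by linarith
      positivity
    have e1 : (R.card : ENNReal) * ∏ j, (B j : ENNReal) =
        ENNReal.ofReal ((R.card : ℝ) * ∏ j, (B j : ℝ)) := by
      rw [← Nat.cast_prod, ← Nat.cast_mul, ← Nat.cast_prod, ← Nat.cast_mul, ENNReal.ofReal_natCast]
    have e2 : ENNReal.ofReal (4 * (100 * g * Cc g) ^ T.card) * (S.ncard : ENNReal) =
        ENNReal.ofReal (4 * (100 * g * Cc g) ^ T.card * (S.ncard : ℝ)) := by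
      rw [ENNReal.ofReal_mul hC0, ENNReal.ofReal_natCast]
    rw [e1, e2] at s4
    exact (ENNReal.ofReal_le_ofReal_iff (by positivity)).1 s4
  refine le_trans s5 ?_
  have := KPA_.const_le g T.card h20 hL hTcard
  gcongr

end Pool.Agent.FQW
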