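import Pool.Agent.FQW.Targets

set_option autoImplicit false

/-!
# LAM: the determinant of a rank `m` perturbation of the identity
-/

namespace Pool.Agent.FQW

open scoped BigOperators

theorem tLAM : T_LAM := by
  classical
  intro n m φ β hφ t
  -- matrices
  set Φ : Matrix (Fin m) (Fin n) ℝ := Matrix.of fun i j => φ i (Pi.single j 1) with hΦ
  set B : Matrix (Fin n) (Fin m) ℝ := Matrix.of fun j i => β i j with hB
  have hφv : ∀ (i : Fin m) (v : Fin n → ℝ), φ i v = ∑ j, Φ i j * v j := by
    intro i v
    have h1 : v = ∑ j, v j • (Pi.single j (1 : ℝ) : Fin n → ℝ) := by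
      ext k
      simp [Finset.sum_apply, Pi.single_apply]
    conv_lhs => rw [h1]
    rw [map_sum]
    refine Finset.sum_congr rfl fun j _ => ?_
    rw [map_smul, smul_eq_mul, hΦ, Matrix.of_apply, mul_comm]
  have hΦB : Φ * B = 1 := by
    ext i j
    rw [Matrix.mul_apply, Matrix.one_apply]
    have := hφ i j
    rw [hφv] at this
    simpa [hB] using this
  have hL : LinearMap.toMatrix' (LinearMap.id - (1 - t) • ∑ i, (φ i).smulRight (β i)) =
      1 - ((1 - t) • B) * Φ := by
    ext j k
    rw [LinearMap.toMatrix'_apply]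
    simp only [LinearMap.sub_apply, LinearMap.id_coe, id_eq, LinearMap.smul_apply,
      LinearMap.sum_apply, LinearMap.smulRight_apply, Pi.sub_apply, Pi.smul_apply,
      Finset.sum_apply, smul_eq_mul, Matrix.sub_apply, Matrix.one_apply, Matrix.smul_mul,
      Matrix.smul_apply, Matrix.mul_apply, Pi.single_apply]
    congr 2
    refine Finset.sum_congr rfl fun i _ => ?_
    have h1 : φ i (fun k' => if k' = k then 1 else 0) = Φ i k := by
      rw [hΦ, Matrix.of_apply]
      congr 1
      ext k'
      simp [Pi.single_apply]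
    have h2 : φ i (Pi.single k 1) = Φ i k := rfl
    first
      | rw [h1, hB, Matrix.of_apply, mul_comm]
      | rw [h2, hB, Matrix.of_apply, mul_comm]
  rw [← LinearMap.det_toMatrix', hL, Matrix.det_one_sub_mul_comm, Matrix.mul_smul, hΦB]
  have h3 : (1 : Matrix (Fin m) (Fin m) ℝ) - (1 - t) • (1 : Matrix (Fin m) (Fin m) ℝ) =
      t • (1 : Matrix (Fin m) (Fin m) ℝ) := by
    rw [sub_smul, one_smul]
    abel
  rw [h3, Matrix.det_smul, Matrix.det_one, mul_one, Fintype.card_fin]

end Pool.Agent.FQW
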