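import Pool.Agent.FQW.Targets

set_option autoImplicit false

/-!
# LAT: integral points in a parallelepiped
-/

namespace Pool.Agent.FQW

open scoped BigOperators
open MeasureTheory

namespace LAT_

/-- the open unit cube around an integral point -/
def cube {k : ℕ} (a : Fin k → ℤ) : Set (Fin k → ℝ) :=
  Set.univ.pi fun j => Set.Ioo ((a j : ℝ) - 1 / 2) ((a j : ℝ) + 1 / 2)

theorem vol_cube {k : ℕ} (a : Fin k → ℤ) : volume (cube a) = 1 := by
  rw [cube, Real.volume_pi_Ioo]
  have : ∀ i : Fin k, ENNReal.ofReal ((a i : ℝ) + 1 / 2 - ((a i : ℝ) - 1 / 2)) = 1 := by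
    intro i
    rw [show (a i : ℝ) + 1 / 2 - ((a i : ℝ) - 1 / 2) = 1 by ring, ENNReal.ofReal_one]
  rw [Finset.prod_congr rfl fun i _ => this i, Finset.prod_const_one]

theorem disj {k : ℕ} (a b : Fin k → ℤ) (hab : a ≠ b) : Disjoint (cube a) (cube b) := by
  rw [Set.disjoint_left]
  intro u hu hv
  apply hab
  ext j
  have h1 := hu j (Set.mem_univ j)
  have h2 := hv j (Set.mem_univ j)
  simp only [Set.mem_Ioo] at h1 h2
  have h3 : (a j : ℝ) - b j < 1 := by linarith
  have h4 : (b j : ℝ) - a j < 1 := by linarith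
  have h5 : a j - b j < 1 := by exact_mod_cast h3
  have h6 : b j - a j < 1 := by exact_mod_cast h4
  omega

end LAT_

open LAT_

theorem tLAT : T_LAT := by
  classical
  intro k A v N hN S hS
  have hN0 : ∀ i, 0 ≤ N i := by
    intro i
    have h1 : 0 ≤ ∑ j, |A i j| := Finset.sum_nonneg fun j _ => abs_nonneg _
    have := hN i
    linarith
  by_cases hdet : A.det = 0
  · rw [hdet, abs_zero, mul_zero]
    exact mul_nonneg (by positivity) (Finset.prod_nonneg fun i _ => hN0 i)
  set box : Set (Fin k → ℝ) := Set.univ.pi fun i => Set.Icc (-v i - 2 * N i) (-v i + 2 * N i)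
    with hbox
  have hsub : (⋃ a ∈ S, cube a) ⊆ (Matrix.toLin' A) ⁻¹' box := by
    intro u hu
    simp only [Set.mem_iUnion, exists_prop] at hu
    obtain ⟨a, ha, hu⟩ := hu
    rw [Set.mem_preimage, hbox]
    intro i _
    have h1 := hS a ha i
    have h2 : |∑ j, A i j * (u j - a j)| ≤ N i := by
      calc |∑ j, A i j * (u j - a j)| ≤ ∑ j, |A i j * (u j - a j)| :=
            Finset.abs_sum_le_sum_abs _ _
        _ ≤ ∑ j, |A i j| * (1 / 2) := by
            refine Finset.sum_le_sum fun j _ => ?_
            rw [abs_mul]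
            refine mul_le_mul_of_nonneg_left ?_ (abs_nonneg _)
            have h3 := hu j (Set.mem_univ j)
            simp only [Set.mem_Ioo] at h3
            rw [abs_le]
            constructor <;> linarith
        _ = (∑ j, |A i j|) * (1 / 2) := by rw [Finset.sum_mul]
        _ ≤ 2 * N i * (1 / 2) := mul_le_mul_of_nonneg_right (hN i) (by norm_num)
        _ = N i := by ring
    have h3 : (Matrix.toLin' A) u i = ∑ j, A i j * a j + ∑ j, A i j * (u j - a j) := by
      rw [Matrix.toLin'_apply, Matrix.mulVec, dotProduct, ← Finset.sum_add_distrib]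
      refine Finset.sum_congr rfl fun j _ => ?_
      ring
    rw [h3, Set.mem_Icc]
    rw [abs_le] at h1 h2
    constructor <;> linarith [h1.1, h1.2, h2.1, h2.2]
  have hvolS : volume (⋃ a ∈ S, cube a) = (S.card : ENNReal) := by
    rw [measure_biUnion_finset (fun a _ b _ hab => disj a b hab)
      (fun a _ => MeasurableSet.univ_pi fun j => measurableSet_Ioo)]
    simp [vol_cube]
  have hdet' : LinearMap.det (Matrix.toLin' A) ≠ 0 := by
    rw [LinearMap.det_toLin']
    exact hdet
  have hvolW : volume ((Matrix.toLin' A) ⁻¹' box) =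
      ENNReal.ofReal (|A.det⁻¹|) * ∏ i, ENNReal.ofReal (4 * N i) := by
    rw [Measure.addHaar_preimage_linearMap volume hdet', LinearMap.det_toLin', hbox,
      Set.pi_univ_Icc, Real.volume_Icc_pi]
    congr 1
    refine Finset.prod_congr rfl fun i _ => ?_
    congr 1
    ring
  have h1 := measure_mono (μ := volume) hsub
  rw [hvolS, hvolW, ← ENNReal.ofReal_prod_of_nonneg (fun i _ => by have := hN0 i; positivity),
    ← ENNReal.ofReal_mul (abs_nonneg _), ← ENNReal.ofReal_natCast] at h1
  have hnn : 0 ≤ |A.det⁻¹| * ∏ i, (4 * N i) :=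
    mul_nonneg (abs_nonneg _) (Finset.prod_nonneg fun i _ => by have := hN0 i; positivity)
  rw [ENNReal.ofReal_le_ofReal_iff hnn] at h1
  have hpos : 0 < |A.det| := abs_pos.mpr hdet
  calc (S.card : ℝ) * |A.det| ≤ |A.det⁻¹| * (∏ i, (4 * N i)) * |A.det| :=
        mul_le_mul_of_nonneg_right h1 hpos.le
    _ = ∏ i, (4 * N i) := by
        rw [abs_inv]
        field_simp
    _ = 4 ^ k * ∏ i, N i := by
        rw [Finset.prod_mul_distrib, Finset.prod_const, Finset.card_univ, Fintype.card_fin]

end Pool.Agent.FQW
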