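import Mathlib
import Pool.Agent.FQW.Basic

set_option autoImplicit false

/-!
# Polynomials near the Dickson polynomial `D_g` are real Weil polynomials
-/

namespace Pool.Agent.FQW

open Polynomial Finset
open scoped BigOperators Real

namespace LOWA_

/-- the extremal points of `D_g`, in increasing order -/
noncomputable def nod (q g i : ℕ) : ℝ := 2 * √(q : ℝ) * Real.cos (((g : ℝ) - i) * (π / g))

theorem nod_eval (q g i : ℕ) (hg : 1 ≤ g) (hi : i ≤ g) :
    (dkR ℝ q g).eval (nod q g i) = 2 * √(q : ℝ) ^ g * (-1) ^ (g - i) := by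
  obtain ⟨j, rfl⟩ : ∃ j, g = j + 1 := ⟨g - 1, by omega⟩
  unfold nod
  rw [dkR_eval_cos, ← Real.cos_nat_mul_pi]
  congr 2
  rw [Nat.cast_sub hi]
  have : ((j + 1 : ℕ) : ℝ) ≠ 0 := by positivity
  field_simp

theorem nod_lt (q g : ℕ) (hq : 2 ≤ q) (hg : 1 ≤ g) {i i' : ℕ} (h : i < i') (hi : i' ≤ g) :
    nod q g i < nod q g i' := by
  have hg0 : (0 : ℝ) < g := by exact_mod_cast hg
  have hq0 : (0 : ℝ) < √(q : ℝ) := Real.sqrt_pos.mpr (by exact_mod_cast (by omega : 0 < q))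
  have hpi := Real.pi_pos
  have hd : 0 < π / g := by positivity
  have e : ((g : ℝ)) * (π / g) = π := by field_simp
  have h1 : (i : ℝ) < i' := by exact_mod_cast h
  have h2 : (i' : ℝ) ≤ g := by exact_mod_cast hi
  have h3 : (0 : ℝ) ≤ i := Nat.cast_nonneg i
  unfold nod
  apply mul_lt_mul_of_pos_left _ (by positivity)
  apply Real.strictAntiOn_cos
  · refine ⟨mul_nonneg (by linarith) hd.le, ?_⟩
    calc ((g : ℝ) - i') * (π / g) ≤ g * (π / g) :=
          mul_le_mul_of_nonneg_right (by linarith) hd.le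
      _ = π := e
  · refine ⟨mul_nonneg (by linarith) hd.le, ?_⟩
    calc ((g : ℝ) - i) * (π / g) ≤ g * (π / g) :=
          mul_le_mul_of_nonneg_right (by linarith) hd.le
      _ = π := e
  · exact mul_lt_mul_of_pos_right (by linarith) hd

theorem nod_abs (q g i : ℕ) : |nod q g i| ≤ 2 * √(q : ℝ) := by
  unfold nod
  rw [abs_mul, abs_of_nonneg (by positivity : (0 : ℝ) ≤ 2 * √(q : ℝ))]
  have h1 := Real.abs_cos_le_one (((g : ℝ) - i) * (π / g))
  have h2 : (0 : ℝ) ≤ 2 * √(q : ℝ) := by positivity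
  nlinarith

theorem close (q g : ℕ) (hq : 2 ≤ q) (a : Fin g → ℤ)
    (ha : ∀ j : Fin g, |(a j : ℝ)| ≤ √(q : ℝ) ^ (g - (j : ℕ)) / (g + 1)) (x : ℝ)
    (hx : |x| ≤ 2 * √(q : ℝ)) :
    |ev q a x - (dkR ℝ q g).eval x| ≤ g * (2 * √(q : ℝ) ^ g / (g + 1)) := by
  rw [ev_eq, HR_eval, add_sub_cancel_left]
  calc |∑ j : Fin g, (a j : ℝ) * (dkR ℝ q j).eval x|
      ≤ ∑ j : Fin g, |(a j : ℝ) * (dkR ℝ q j).eval x| := Finset.abs_sum_le_sum_abs _ _
    _ ≤ ∑ _j : Fin g, 2 * √(q : ℝ) ^ g / (g + 1) := by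
        refine Finset.sum_le_sum fun j _ => ?_
        rw [abs_mul]
        have h1 := ha j
        have h2 := dkR_bound q (by omega) j x hx
        have h3 : √(q : ℝ) ^ g = √(q : ℝ) ^ (g - (j : ℕ)) * √(q : ℝ) ^ (j : ℕ) := by
          rw [← pow_add]
          congr 1
          have := j.2
          omega
        calc |(a j : ℝ)| * |(dkR ℝ q j).eval x|
            ≤ (√(q : ℝ) ^ (g - (j : ℕ)) / (g + 1)) * (2 * √(q : ℝ) ^ (j : ℕ)) :=
              mul_le_mul h1 h2 (abs_nonneg _) (by positivity)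
          _ = 2 * √(q : ℝ) ^ g / (g + 1) := by
              rw [h3]
              ring
    _ = g * (2 * √(q : ℝ) ^ g / (g + 1)) := by
        rw [Finset.sum_const, Finset.card_univ, Fintype.card_fin, nsmul_eq_mul]

theorem sign (q g : ℕ) (hq : 2 ≤ q) (hg : 1 ≤ g) (a : Fin g → ℤ)
    (ha : ∀ j : Fin g, |(a j : ℝ)| ≤ √(q : ℝ) ^ (g - (j : ℕ)) / (g + 1)) (i : ℕ) (hi : i ≤ g) :
    0 < (-1) ^ (g - i) * ev q a (nod q g i) := by
  have h1 := close q g hq a ha (nod q g i) (nod_abs q g i)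
  rw [nod_eval q g i hg hi] at h1
  have hq0 : (0 : ℝ) < √(q : ℝ) := Real.sqrt_pos.mpr (by exact_mod_cast (by omega : 0 < q))
  have hQ : 0 < √(q : ℝ) ^ g := by positivity
  have h2 : (g : ℝ) * (2 * √(q : ℝ) ^ g / (g + 1)) < 2 * √(q : ℝ) ^ g := by
    rw [mul_div_assoc', div_lt_iff₀ (by positivity)]
    nlinarith
  have h3 := abs_le.1 h1
  rcases neg_one_pow_eq_or ℝ (g - i) with h | h
  · rw [h] at h3 ⊢
    linarith [h3.1]
  · rw [h] at h3 ⊢
    linarith [h3.2]

theorem root (q g : ℕ) (hq : 2 ≤ q) (hg : 1 ≤ g) (a : Fin g → ℤ)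
    (ha : ∀ j : Fin g, |(a j : ℝ)| ≤ √(q : ℝ) ^ (g - (j : ℕ)) / (g + 1)) (i : ℕ) (hi : i < g) :
    ∃ τ : ℝ, nod q g i < τ ∧ τ < nod q g (i + 1) ∧ ev q a τ = 0 := by
  have h1 := sign q g hq hg a ha i hi.le
  have h2 := sign q g hq hg a ha (i + 1) hi
  have h3 := nod_lt q g hq hg (Nat.lt_succ_self i) hi
  have h4 : (-1 : ℝ) ^ (g - i) = -(-1) ^ (g - (i + 1)) := by
    have : g - i = (g - (i + 1)) + 1 := by omega
    rw [this, pow_succ]
    ring
  have hc : Continuous fun x => (-1 : ℝ) ^ (g - i) * ev q a x := by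
    unfold ev
    exact continuous_const.mul (Polynomial.continuous _)
  have h5 := intermediate_value_Ioo' h3.le hc.continuousOn
  have h6 : (0 : ℝ) ∈ Set.Ioo ((-1 : ℝ) ^ (g - i) * ev q a (nod q g (i + 1)))
      ((-1 : ℝ) ^ (g - i) * ev q a (nod q g i)) := by
    refine ⟨?_, h1⟩
    rw [h4]
    linarith
  obtain ⟨τ, hτ, hτ0⟩ := h5 h6
  refine ⟨τ, hτ.1, hτ.2, ?_⟩
  rcases mul_eq_zero.1 hτ0 with h | h
  · exact absurd h (pow_ne_zero _ (by norm_num))
  · exact h

end LOWA_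

/-- LOWA: polynomials near `D_g` -/
theorem tLOWA : T_LOWA := by
  intro q g hq hg a ha
  choose τ h1 h2 h3 using fun i : Fin g => LOWA_.root q g hq hg a ha i i.2
  have hmono : StrictMono τ := by
    intro i j hij
    refine (h2 i).trans_le (le_trans ?_ (h1 j).le)
    rcases (Nat.succ_le_of_lt (show (i : ℕ) < j from hij)).eq_or_lt with h | h
    · rw [show (i : ℕ) + 1 = j from h]
    · exact (LOWA_.nod_lt q g hq hg h j.2.le).le
  refine ⟨τ, hmono.monotone, ?_, ?_⟩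
  · intro i
    have h4 := (abs_le.1 (LOWA_.nod_abs q g i)).1
    have h5 := (abs_le.1 (LOWA_.nod_abs q g (i + 1))).2
    rw [abs_le]
    exact ⟨by linarith [h1 i], by linarith [h2 i]⟩
  · have hm1 : ((HZ q a).map (Int.castRingHom ℝ)).Monic := (HZ_monic q a).map _
    have hd1 : ((HZ q a).map (Int.castRingHom ℝ)).degree = g := by
      rw [degree_eq_natDegree hm1.ne_zero, (HZ_monic q a).natDegree_map, HZ_natDegree]
    have hm2 : (∏ i : Fin g, (X - C (τ i))).Monic := monic_prod_X_sub_C τ univ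
    have hd2 : (∏ i : Fin g, (X - C (τ i)) : ℝ[X]).degree = (g : WithBot ℕ) := by
      rw [degree_prod]
      simp
    apply eq_of_degree_sub_lt_of_eval_index_eq (univ : Finset (Fin g)) (v := τ)
      (hmono.injective.injOn)
    · have h := degree_sub_lt_left (p := (HZ q a).map (Int.castRingHom ℝ))
        (q := ∏ i : Fin g, (X - C (τ i))) (by rw [hd1, hd2]) hm1.ne_zero
        (by rw [hm1.leadingCoeff, hm2.leadingCoeff])
      rw [hd1] at h
      simpa using h
    · intro i _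
      have h4 : eval (τ i) ((HZ q a).map (Int.castRingHom ℝ)) = 0 := h3 i
      rw [h4, eval_prod]
      symm
      apply Finset.prod_eq_zero (Finset.mem_univ i)
      simp

end Pool.Agent.FQW
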