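import Pool.Agent.FQW.Basic

set_option autoImplicit false

namespace Pool.Agent.FQW

open Finset

namespace LOWER_

lemma sum_sub (g : ℕ) : ∑ j : Fin g, (g - (j : ℕ)) = g * (g + 1) / 2 := by
  rw [Fin.sum_univ_eq_sum_range (fun j => g - j) g]
  have h1 : ∑ j ∈ range g, (g - j) = ∑ j ∈ range g, (j + 1) := by
    rw [← Finset.sum_range_reflect (fun j => j + 1)]
    apply Finset.sum_congr rfl
    intro j hj
    rw [Finset.mem_range] at hj
    omega
  have h2 : (∑ j ∈ range g, (j + 1)) * 2 = g * (g + 1) := by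
    clear h1
    induction g with
    | zero => simp
    | succ n ih => rw [Finset.sum_range_succ, add_mul, ih]; ring
  rw [h1]
  omega

end LOWER_

open LOWER_

theorem tLOWER (hLOWA : T_LOWA) (hFINP : T_FINP) : T_LOWER := by
  classical
  intro q g hq hg
  set y : Fin g → ℝ := fun j => √(q : ℝ) ^ (g - (j : ℕ)) / (g + 1) with hy
  have hy0 : ∀ j, 0 ≤ y j := fun j => by rw [hy]; positivity
  set S : Finset (Fin g → ℤ) := Fintype.piFinset (fun j => Finset.Icc (-⌊y j⌋) ⌊y j⌋) with hS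
  have hSP : (S : Set (Fin g → ℤ)) ⊆ P q g := by
    intro a ha
    apply hLOWA q g hq hg
    intro j
    have h1 : a j ∈ Finset.Icc (-⌊y j⌋) ⌊y j⌋ := by
      have := Finset.mem_coe.1 ha
      rw [hS, Fintype.mem_piFinset] at this
      exact this j
    rw [Finset.mem_Icc] at h1
    have h2 : |a j| ≤ ⌊y j⌋ := abs_le.2 h1
    have h3 : (|a j| : ℝ) ≤ (⌊y j⌋ : ℝ) := by exact_mod_cast h2
    exact h3.trans (Int.floor_le _)
  have hcard : S.card ≤ (P q g).ncard := by
    rw [← Set.ncard_coe_finset]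
    exact Set.ncard_le_ncard hSP (hFINP q g)
  have hcard2 : ∏ j, y j ≤ (S.card : ℝ) := by
    rw [hS, Fintype.card_piFinset, Nat.cast_prod]
    apply Finset.prod_le_prod
    · intro j _
      exact hy0 j
    · intro j _
      have hf : 0 ≤ ⌊y j⌋ := Int.floor_nonneg.2 (hy0 j)
      rw [Int.card_Icc]
      have h4 : ((⌊y j⌋ + 1 - -⌊y j⌋).toNat : ℤ) = 2 * ⌊y j⌋ + 1 := by
        rw [Int.toNat_of_nonneg (by omega)]
        ring
      have h5 : (((⌊y j⌋ + 1 - -⌊y j⌋).toNat : ℕ) : ℝ) = 2 * (⌊y j⌋ : ℝ) + 1 := by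
        have := congrArg (Int.cast : ℤ → ℝ) h4
        push_cast at this
        exact this
      rw [h5]
      have h6 := (Int.lt_floor_add_one (y j)).le
      have h7 : (0 : ℝ) ≤ (⌊y j⌋ : ℝ) := by exact_mod_cast hf
      linarith
  have hprod : ∏ j, y j = √(q : ℝ) ^ (g * (g + 1) / 2) / ((g : ℝ) + 1) ^ g := by
    rw [hy, Finset.prod_div_distrib, Finset.prod_pow_eq_pow_sum, sum_sub]
    simp
  have hpos : (0 : ℝ) < ((g : ℝ) + 1) ^ g := by positivity
  have h8 : √(q : ℝ) ^ (g * (g + 1) / 2) / ((g : ℝ) + 1) ^ g ≤ ((P q g).ncard : ℕ) := by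
    rw [← hprod]
    exact hcard2.trans (by exact_mod_cast hcard)
  rw [div_le_iff₀ hpos] at h8
  linarith

end Pool.Agent.FQW
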