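import Mathlib
import Pool.Agent.FQW.Targets

set_option autoImplicit false

/-!
# The vector space of the algebraic numbers modulo roots of unity
-/

namespace Pool.Agent.FQW

open Polynomial Finset
open Pool.Agent.CMT (QBar)
open scoped BigOperators TensorProduct Classical

/-- nonzero algebraic numbers modulo roots of unity, tensored with the rationals -/
abbrev VQ : Type := ℚ ⊗[ℤ] (Additive QBarˣ)

/-- the class of an algebraic number -/
noncomputable def Lg (α : QBar) : VQ :=
  if h : α = 0 then 0 else (1 : ℚ) ⊗ₜ[ℤ] (Additive.ofMul (Units.mk0 α h))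

theorem Lg_one : Lg 1 = 0 := by
  have : Units.mk0 (1 : QBar) one_ne_zero = 1 := by ext; rfl
  rw [Lg, dif_neg one_ne_zero, this, ofMul_one, TensorProduct.tmul_zero]

theorem Lg_mul {α β : QBar} (hα : α ≠ 0) (hβ : β ≠ 0) : Lg (α * β) = Lg α + Lg β := by
  rw [Lg, Lg, Lg, dif_neg hα, dif_neg hβ, dif_neg (mul_ne_zero hα hβ), ← TensorProduct.tmul_add,
    ← ofMul_mul]
  congr 2
  ext
  rfl

theorem Lg_inv {α : QBar} (hα : α ≠ 0) : Lg α⁻¹ = -Lg α := by
  have h := Lg_mul hα (inv_ne_zero hα)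
  rw [mul_inv_cancel₀ hα, Lg_one] at h
  exact eq_neg_of_add_eq_zero_right h.symm

theorem Lg_div {α β : QBar} (hα : α ≠ 0) (hβ : β ≠ 0) : Lg (α / β) = Lg α - Lg β := by
  rw [div_eq_mul_inv, Lg_mul hα (inv_ne_zero hβ), Lg_inv hβ, sub_eq_add_neg]

theorem Lg_pow {α : QBar} (hα : α ≠ 0) (n : ℕ) : Lg (α ^ n) = n • Lg α := by
  induction n with
  | zero => rw [pow_zero, Lg_one, zero_smul]
  | succ n ih => rw [pow_succ, Lg_mul (pow_ne_zero n hα) hα, ih, succ_nsmul]

theorem Lg_zpow {α : QBar} (hα : α ≠ 0) (n : ℤ) : Lg (α ^ n) = n • Lg α := by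
  cases n with
  | ofNat n => rw [Int.ofNat_eq_natCast, zpow_natCast, Lg_pow hα, natCast_zsmul]
  | negSucc n =>
    rw [zpow_negSucc, Lg_inv (pow_ne_zero _ hα), Lg_pow hα, negSucc_zsmul]

theorem Lg_prod {ι : Type} (s : Finset ι) (f : ι → QBar) (hf : ∀ i ∈ s, f i ≠ 0) :
    Lg (∏ i ∈ s, f i) = ∑ i ∈ s, Lg (f i) := by
  classical
  induction s using Finset.induction_on with
  | empty => rw [prod_empty, sum_empty, Lg_one]
  | insert a s ha ih =>
    rw [prod_insert ha, sum_insert ha, Lg_mul (hf a (mem_insert_self a s))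
      (prod_ne_zero_iff.mpr fun i hi => hf i (mem_insert_of_mem hi)),
      ih fun i hi => hf i (mem_insert_of_mem hi)]

theorem Lg_eq_zero {α : QBar} (hα : α ≠ 0) : Lg α = 0 ↔ ∃ N : ℕ, 0 < N ∧ α ^ N = 1 := by
  constructor
  · intro h
    have hloc : IsLocalizedModule (nonZeroDivisors ℤ)
        (TensorProduct.mk ℤ ℚ (Additive QBarˣ) 1) :=
      (isLocalizedModule_iff_isBaseChange (nonZeroDivisors ℤ) ℚ _).mpr
        (TensorProduct.isBaseChange ℤ (Additive QBarˣ) ℚ)
    rw [Lg, dif_neg hα] at h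
    have h2 := (IsLocalizedModule.eq_zero_iff (nonZeroDivisors ℤ)
      (TensorProduct.mk ℤ ℚ (Additive QBarˣ) 1)).mp h
    obtain ⟨⟨s, hs⟩, h3⟩ := h2
    have hs0 : s ≠ 0 := nonZeroDivisors.ne_zero hs
    have h4 : (Units.mk0 α hα) ^ s = 1 := by
      have : Additive.ofMul ((Units.mk0 α hα) ^ s) = 0 := by
        rw [ofMul_zpow]
        exact h3
      exact Additive.ofMul.injective this
    have h5 : α ^ s = 1 := by
      have := congrArg (fun u : QBarˣ => (u : QBar)) h4
      simpa using this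
    refine ⟨s.natAbs, Int.natAbs_pos.mpr hs0, ?_⟩
    rcases Int.natAbs_eq s with h6 | h6
    · rw [h6] at h5
      rw [← zpow_natCast]
      exact h5
    · rw [h6, zpow_neg, inv_eq_one] at h5
      rw [← zpow_natCast]
      exact h5
  · rintro ⟨N, hN, h⟩
    have h1 := Lg_pow hα N
    rw [h, Lg_one, ← Nat.cast_smul_eq_nsmul ℚ] at h1
    exact (smul_eq_zero.mp h1.symm).resolve_left (by exact_mod_cast hN.ne')

theorem Lg_eq {α β : QBar} (hα : α ≠ 0) (hβ : β ≠ 0) :
    Lg α = Lg β ↔ ∃ N : ℕ, 0 < N ∧ (α / β) ^ N = 1 := by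
  rw [← Lg_eq_zero (div_ne_zero hα hβ), Lg_div hα hβ, sub_eq_zero]

theorem Lg_map (σ : QBar ≃+* QBar) {α β : QBar} (hα : α ≠ 0) (hβ : β ≠ 0) (h : Lg α = Lg β) :
    Lg (σ α) = Lg (σ β) := by
  obtain ⟨N, hN, h1⟩ := (Lg_eq hα hβ).mp h
  refine (Lg_eq (by simpa using hα) (by simpa using hβ)).mpr ⟨N, hN, ?_⟩
  rw [← map_div₀, ← map_pow, h1, map_one]

/-- a relation of prime length which is not constant forces equality -/
theorem shift_zero (p : ℕ) [hp : Fact p.Prime] (W : Type) [AddCommGroup W] [Module ℚ W]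
    (z : ZMod p → W) (e : ZMod p → ℤ) (hz : ∑ k, z k = 0)
    (h : ∀ j, ∑ k, e k • z (k + j) = 0) (hne : ∃ k, e k ≠ e 0) : z = 0 := by
  classical
  -- the shift
  let S : Module.End ℚ (ZMod p → W) :=
    { toFun := fun y j => y (j + 1)
      map_add' := fun _ _ => rfl
      map_smul' := fun _ _ => rfl }
  have hS : ∀ (i : ℕ) (y : ZMod p → W) (j : ZMod p), (S ^ i) y j = y (j + i) := by
    intro i
    induction i with
    | zero => intro y j; simp
    | succ i ih =>
      intro y j
      rw [pow_succ, Module.End.mul_apply, ih]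
      change y (j + i + 1) = _
      push_cast
      rw [add_assoc]
  have hval : ∀ k : ZMod p, ((k.val : ℕ) : ZMod p) = k := ZMod.natCast_zmod_val
  have hsum : ∀ f : ZMod p → W, ∑ i ∈ range p, f (i : ZMod p) = ∑ k, f k := by
    intro f
    refine Finset.sum_nbij' (fun i => (i : ZMod p)) (fun k => k.val) ?_ ?_ ?_ ?_ ?_
    · intro i _; exact mem_univ _
    · intro k _; exact mem_range.mpr (ZMod.val_lt k)
    · intro i hi; exact ZMod.val_cast_of_lt (mem_range.mp hi)
    · intro k _; exact hval k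
    · intro i _; rfl
  have haev : ∀ (c : ZMod p → ℚ) (j : ZMod p),
      (aeval S (∑ i ∈ range p, C (c (i : ZMod p)) * X ^ i) z) j = ∑ k, c k • z (k + j) := by
    intro c j
    rw [← hsum (fun k => c k • z (k + j)), map_sum, LinearMap.sum_apply, Finset.sum_apply]
    refine Finset.sum_congr rfl fun i _ => ?_
    rw [map_mul, aeval_C, map_pow, aeval_X, Module.End.mul_apply, Module.algebraMap_end_apply,
      Pi.smul_apply, hS, add_comm j]
  set E : ℚ[X] := ∑ i ∈ range p, C ((e (i : ZMod p) : ℤ) : ℚ) * X ^ i with hE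
  have hEz : aeval S E z = 0 := by
    ext j
    rw [hE, haev (fun k => (e k : ℚ)) j, Pi.zero_apply, ← h j]
    exact Finset.sum_congr rfl fun k _ => Int.cast_smul_eq_zsmul ℚ _ _
  have hPhi : cyclotomic p ℚ = ∑ i ∈ range p, C (1 : ℚ) * X ^ i := by
    rw [cyclotomic_prime]
    simp
  have hPz : aeval S (cyclotomic p ℚ) z = 0 := by
    ext j
    rw [hPhi, haev (fun _ => 1) j, Pi.zero_apply]
    simp only [one_smul]
    rw [← hz]
    exact Fintype.sum_equiv (Equiv.addRight j) _ _ (fun k => rfl)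
  have hcop : IsCoprime (cyclotomic p ℚ) E := by
    rw [(cyclotomic.irreducible_rat hp.out.pos).coprime_iff_not_dvd]
    rintro ⟨w, hw⟩
    have hcoeff : ∀ k : ZMod p, E.coeff k.val = e k := by
      intro k
      rw [hE, finsetSum_coeff, Finset.sum_eq_single k.val]
      · rw [coeff_C_mul, coeff_X_pow, if_pos rfl, mul_one, hval]
      · intro i _ hi
        rw [coeff_C_mul, coeff_X_pow, if_neg (Ne.symm hi), mul_zero]
      · intro hk
        exact absurd (mem_range.mpr (ZMod.val_lt k)) hk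
    have hE0 : E ≠ 0 := by
      intro h0
      obtain ⟨k, hk⟩ := hne
      apply hk
      have h1 := hcoeff k
      have h2 := hcoeff 0
      rw [h0, coeff_zero] at h1 h2
      have h3 : (e k : ℚ) = e 0 := by rw [← h1, ← h2]
      exact_mod_cast h3
    have hw0 : w ≠ 0 := by
      rintro rfl
      rw [mul_zero] at hw
      exact hE0 hw
    have hdE : E.natDegree ≤ p - 1 := by
      rw [hE]
      apply natDegree_sum_le_of_forall_le
      intro i hi
      refine le_trans (natDegree_C_mul_X_pow_le _ _) ?_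
      have := mem_range.mp hi
      omega
    have hdw : w.natDegree = 0 := by
      have h1 : E.natDegree = (cyclotomic p ℚ).natDegree + w.natDegree := by
        rw [hw, natDegree_mul (cyclotomic_ne_zero p ℚ) hw0]
      rw [natDegree_cyclotomic, Nat.totient_prime hp.out] at h1
      omega
    rw [eq_C_of_natDegree_eq_zero hdw] at hw
    obtain ⟨k, hk⟩ := hne
    apply hk
    have hco : ∀ k : ZMod p, (e k : ℚ) = w.coeff 0 := by
      intro k
      rw [← hcoeff k, hw, hPhi, mul_comm, coeff_C_mul, finsetSum_coeff,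
        Finset.sum_eq_single k.val]
      · rw [coeff_C_mul, coeff_X_pow, if_pos rfl, mul_one, mul_one]
      · intro i _ hi
        rw [coeff_C_mul, coeff_X_pow, if_neg (Ne.symm hi), mul_zero]
      · intro hk
        exact absurd (mem_range.mpr (ZMod.val_lt k)) hk
    have h3 : (e k : ℚ) = e 0 := by rw [hco k, hco 0]
    exact_mod_cast h3
  obtain ⟨u, v, huv⟩ := hcop
  have h1 : aeval S (u * cyclotomic p ℚ + v * E) z = z := by
    rw [huv, map_one]
    rfl
  rw [map_add, map_mul, map_mul, LinearMap.add_apply, Module.End.mul_apply, Module.End.mul_apply,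
    hPz, hEz, map_zero, map_zero, add_zero] at h1
  exact h1.symm

end Pool.Agent.FQW
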