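import Mathlib
import Pool.Agent.FQW.Basic

set_option autoImplicit false

/-!
# PAA: nodes for close pairs
-/

namespace Pool.Agent.FQW

open Polynomial Finset
open scoped BigOperators

namespace PAA_

/-- splitting of a product over disjoint pairs and the rest -/
theorem prod_split {K g : ℕ} (a b : Fin K → Fin g) (hab : ∀ m, a m < b m)
    (hsep : ∀ m m', m < m' → b m < a m') :
    ∃ R : Finset (Fin g), ∀ F : Fin g → ℝ,
      ∏ i, F i = (∏ m, F (a m) * F (b m)) * ∏ i ∈ R, F i := by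
  classical
  have hinj : Function.Injective (fun p : Fin K × Bool => if p.2 then b p.1 else a p.1) := by
    rintro ⟨m, c⟩ ⟨m', c'⟩ h
    simp only at h
    rcases lt_trichotomy m m' with hlt | heq | hgt
    · exfalso
      have h1 : (b m : ℕ) < a m' := hsep m m' hlt
      have h2 : (a m : ℕ) < b m := hab m
      have h3 : (a m' : ℕ) < b m' := hab m'
      have h' := congrArg Fin.val h
      cases c <;> cases c' <;> simp at h' <;> omega
    · subst heq
      have h2 : (a m : ℕ) < b m := hab m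
      have h' := congrArg Fin.val h
      cases c <;> cases c' <;> simp at h' ⊢ <;> omega
    · exfalso
      have h1 : (b m' : ℕ) < a m := hsep m' m hgt
      have h2 : (a m : ℕ) < b m := hab m
      have h3 : (a m' : ℕ) < b m' := hab m'
      have h' := congrArg Fin.val h
      cases c <;> cases c' <;> simp at h' <;> omega
  refine ⟨(univ.image (fun p : Fin K × Bool => if p.2 then b p.1 else a p.1))ᶜ, fun F => ?_⟩
  rw [← Finset.prod_mul_prod_compl
    (univ.image (fun p : Fin K × Bool => if p.2 then b p.1 else a p.1)) F]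
  congr 1
  rw [Finset.prod_image (fun x _ y _ h => hinj h), Fintype.prod_prod_type]
  apply Finset.prod_congr rfl
  intro m _
  rw [Fintype.prod_bool]
  simp [mul_comm]

theorem s_ge {g : ℕ} (hg : 1 ≤ g) (t : ℝ) : 1 / (g : ℝ) ≤ √(t ^ 2 + 1 / (g : ℝ) ^ 2) := by
  have hg0 : (0 : ℝ) < g := by exact_mod_cast hg
  apply Real.le_sqrt_of_sq_le
  have : (1 / (g : ℝ)) ^ 2 = 1 / (g : ℝ) ^ 2 := by ring
  rw [this]
  nlinarith [sq_nonneg t]

theorem s_ge_abs (g : ℕ) (t : ℝ) : |t| ≤ √(t ^ 2 + 1 / (g : ℝ) ^ 2) := by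
  apply Real.le_sqrt_of_sq_le
  rw [sq_abs]
  have : 0 ≤ 1 / (g : ℝ) ^ 2 := by positivity
  linarith

/-- the roots outside of the pairs -/
theorem rest {K g : ℕ} (hg : 1 ≤ g) (a b : Fin K → Fin g) (R : Finset (Fin g))
    (hR : ∀ F : Fin g → ℝ, ∏ i, F i = (∏ m, F (a m) * F (b m)) * ∏ i ∈ R, F i)
    (τ : Fin g → ℝ) (x U : ℝ) (hU : ∏ i, √((x - τ i) ^ 2 + 1 / (g : ℝ) ^ 2) ≤ U) :
    ∏ i ∈ R, √((x - τ i) ^ 2 + 1 / (g : ℝ) ^ 2) ≤ U * (g : ℝ) ^ (2 * K) := by
  have hg0 : (0 : ℝ) < g := by exact_mod_cast hg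
  rw [hR] at hU
  have h1 : (1 / (g : ℝ) ^ 2) ^ K ≤ ∏ m, √((x - τ (a m)) ^ 2 + 1 / (g : ℝ) ^ 2) *
      √((x - τ (b m)) ^ 2 + 1 / (g : ℝ) ^ 2) := by
    calc (1 / (g : ℝ) ^ 2) ^ K = ∏ _m : Fin K, (1 / (g : ℝ) ^ 2) := by simp
      _ ≤ _ := by
        apply Finset.prod_le_prod
        · intro m _; positivity
        · intro m _
          have h2 := s_ge hg (x - τ (a m))
          have h3 := s_ge hg (x - τ (b m))
          calc 1 / (g : ℝ) ^ 2 = (1 / (g : ℝ)) * (1 / (g : ℝ)) := by ring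
            _ ≤ _ := by gcongr
  have h0 : 0 ≤ ∏ i ∈ R, √((x - τ i) ^ 2 + 1 / (g : ℝ) ^ 2) :=
    Finset.prod_nonneg fun i _ => Real.sqrt_nonneg _
  have h2 : (1 / (g : ℝ) ^ 2) ^ K * ∏ i ∈ R, √((x - τ i) ^ 2 + 1 / (g : ℝ) ^ 2) ≤ U :=
    (mul_le_mul_of_nonneg_right h1 h0).trans hU
  have h3 : (1 / (g : ℝ) ^ 2) ^ K * (g : ℝ) ^ (2 * K) = 1 := by
    rw [pow_mul, ← mul_pow]
    have : 1 / (g : ℝ) ^ 2 * (g : ℝ) ^ 2 = 1 := by field_simp
    rw [this, one_pow]
  calc ∏ i ∈ R, √((x - τ i) ^ 2 + 1 / (g : ℝ) ^ 2)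
      = ((1 / (g : ℝ) ^ 2) ^ K * ∏ i ∈ R, √((x - τ i) ^ 2 + 1 / (g : ℝ) ^ 2)) *
          (g : ℝ) ^ (2 * K) := by
        rw [mul_comm ((1 / (g : ℝ) ^ 2) ^ K), mul_assoc, h3, mul_one]
    _ ≤ U * (g : ℝ) ^ (2 * K) := by gcongr

/-- the factors of the pairs -/
theorem pairs {K : ℕ} (m : Fin K) (F : Fin K → ℝ) (hF : ∀ m', 0 ≤ F m') (A : ℝ) (B : Fin K → ℝ)
    (h1 : F m ≤ A) (h2 : ∀ m', m' ≠ m → F m' ≤ B m') :
    ∏ m', F m' ≤ A * ∏ m' ∈ univ.erase m, B m' := by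
  rw [← Finset.mul_prod_erase univ F (Finset.mem_univ m)]
  have h3 : ∏ m' ∈ univ.erase m, F m' ≤ ∏ m' ∈ univ.erase m, B m' := by
    apply Finset.prod_le_prod
    · intro i _; exact hF i
    · intro i hi; exact h2 i (Finset.ne_of_mem_erase hi)
  have h4 : 0 ≤ ∏ m' ∈ univ.erase m, F m' := Finset.prod_nonneg fun i _ => hF i
  exact mul_le_mul h1 h3 h4 ((hF m).trans h1)

/-- the nodes -/
noncomputable def zz {K g : ℕ} (ρ : ℝ) (τ : Fin g → ℝ) (a : Fin K → Fin g) (m : Fin K) : ℤ :=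
  ⌊τ (a m) / ρ⌋ + (m : ℕ)

theorem zz_near {K g : ℕ} {ρ : ℝ} (hρ : 0 < ρ) (τ : Fin g → ℝ) (a : Fin K → Fin g) (m : Fin K) :
    |ρ * zz ρ τ a m - τ (a m)| ≤ K * ρ := by
  have h1 := Int.floor_le (τ (a m) / ρ)
  have h2 := Int.lt_floor_add_one (τ (a m) / ρ)
  have h3 : ρ * ⌊τ (a m) / ρ⌋ ≤ τ (a m) := by
    have := mul_le_mul_of_nonneg_left h1 hρ.le
    rwa [mul_div_cancel₀ _ hρ.ne'] at this
  have h4 : τ (a m) < ρ * ⌊τ (a m) / ρ⌋ + ρ := by
    have := mul_lt_mul_of_pos_left h2 hρ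
    rw [mul_div_cancel₀ _ hρ.ne'] at this
    linarith
  have h5 : ((m : ℕ) : ℝ) + 1 ≤ K := by exact_mod_cast m.2
  have h6 : (0 : ℝ) ≤ (m : ℕ) := by positivity
  unfold zz
  push_cast
  rw [mul_add, abs_le]
  constructor
  · nlinarith
  · nlinarith

theorem zz_mono {K g : ℕ} {ρ : ℝ} (hρ : 0 < ρ) (τ : Fin g → ℝ) (hτ : Monotone τ)
    (a : Fin K → Fin g) (ha : ∀ m m', m < m' → a m ≤ a m') : StrictMono (zz ρ τ a) := by
  intro m m' h
  have h1 : ⌊τ (a m) / ρ⌋ ≤ ⌊τ (a m') / ρ⌋ := by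
    apply Int.floor_le_floor
    have := hτ (ha m m' h)
    gcongr
  have h2 : (m : ℕ) < (m' : ℕ) := h
  unfold zz
  omega

theorem zz_far {K g : ℕ} {ρ : ℝ} (hρ : 0 < ρ) (τ : Fin g → ℝ) (hτ : Monotone τ)
    (a : Fin K → Fin g) (ha : ∀ m m', m < m' → a m ≤ a m') (m m' : Fin K) (h : m' ≠ m) :
    ρ ≤ |ρ * zz ρ τ a m - ρ * zz ρ τ a m'| := by
  have hne : zz ρ τ a m ≠ zz ρ τ a m' := fun e => h ((zz_mono hρ τ hτ a ha).injective e).symm
  have h1 : (1 : ℝ) ≤ |((zz ρ τ a m - zz ρ τ a m' : ℤ) : ℝ)| := by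
    have := Int.one_le_abs (sub_ne_zero.2 hne)
    rw [← Int.cast_abs]
    exact_mod_cast this
  rw [← mul_sub, abs_mul, abs_of_pos hρ]
  push_cast at h1
  nlinarith

theorem core {K g : ℕ} (Q : ℝ) (hQ : 1 ≤ Q) (hg : 2 ≤ g) (τ : Fin g → ℝ) (hmono : Monotone τ)
    (hτ : ∀ i, |τ i| ≤ 2 * Q) (ρ : ℝ) (hρ : 0 < ρ) (hK : K * ρ * (g : ℝ) ^ 2 ≤ 1 / 2) (U : ℝ)
    (hU : ∀ x, |x| ≤ 2 * Q → ∏ i, √((x - τ i) ^ 2 + 1 / (g : ℝ) ^ 2) ≤ U)
    (a b : Fin K → Fin g) (hab : ∀ m, a m < b m) (hsep : ∀ m m', m < m' → b m < a m')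
    (hgap : ∀ m, τ (b m) - τ (a m) < ρ) (m : Fin K) :
    |ρ * zz ρ τ a m| ≤ 3 * Q ∧
    ∏ i, |ρ * zz ρ τ a m - τ i| ≤ 2 * U * (g : ℝ) ^ (2 * K) * ((K + 3) * ρ) ^ 2 *
      ∏ m' ∈ univ.erase m, ((K + 4) * |ρ * zz ρ τ a m - ρ * zz ρ τ a m'|) ^ 2 ∧
    ∀ y, |y| ≤ 2 * Q → |y - τ (a m)| ≤ ρ →
      ∏ i, |y - τ i| ≤ 4 ^ K * (U * (g : ℝ) ^ (2 * K) * ((K + 3) * ρ) ^ 2 *
        ∏ m' ∈ univ.erase m, ((K + 4) * |ρ * zz ρ τ a m - ρ * zz ρ τ a m'|) ^ 2) := by
  obtain ⟨R, hR⟩ := prod_split a b hab hsep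
  have hg1 : 1 ≤ g := by omega
  have hg2 : (2 : ℝ) ≤ g := by exact_mod_cast hg
  have hg0 : (0 : ℝ) < g := by linarith
  have hK1 : (1 : ℝ) ≤ K := by
    have : 1 ≤ K := by have := m.2; omega
    exact_mod_cast this
  have hKρ : 0 < K * ρ := by positivity
  have hKρ2 : K * ρ ≤ 1 / 2 := by
    have : (1 : ℝ) ≤ (g : ℝ) ^ 2 := one_le_pow₀ (by linarith)
    nlinarith
  have ha : ∀ m m', m < m' → a m ≤ a m' := fun m m' h => ((hab m).trans (hsep m m' h)).le
  have hab' : ∀ m, |τ (b m) - τ (a m)| ≤ ρ := by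
    intro m
    rw [abs_of_nonneg (sub_nonneg.2 (hmono (hab m).le))]
    exact (hgap m).le
  obtain ⟨x, hx⟩ : ∃ x : Fin K → ℝ, x = fun m => ρ * (zz ρ τ a m : ℝ) := ⟨_, rfl⟩
  have hxm : ∀ m, ρ * (zz ρ τ a m : ℝ) = x m := fun m => by rw [hx]
  have hna : ∀ m, |x m - τ (a m)| ≤ K * ρ := fun m => by
    rw [← hxm]; exact zz_near hρ τ a m
  have hnb : ∀ m, |x m - τ (b m)| ≤ (K + 1) * ρ := by
    intro m
    have h1 := abs_sub_le (x m) (τ (a m)) (τ (b m))
    have h2 := hna m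
    have h3 := hab' m
    rw [abs_sub_comm] at h3
    linarith
  have hfar : ∀ m', m' ≠ m → ρ ≤ |x m - x m'| := fun m' h => by
    rw [← hxm, ← hxm]; exact zz_far hρ τ hmono a ha m m' h
  simp only [hxm]
  refine ⟨?_, ?_, ?_⟩
  · have h1 := hna m
    have h2 := hτ (a m)
    have h3 := abs_sub_abs_le_abs_sub (x m) (τ (a m))
    linarith
  · rw [hR]
    have h1 : ∏ m', |x m - τ (a m')| * |x m - τ (b m')| ≤ ((K + 3) * ρ) ^ 2 *
        ∏ m' ∈ univ.erase m, ((K + 4) * |x m - x m'|) ^ 2 := by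
      apply pairs m (fun m' => |x m - τ (a m')| * |x m - τ (b m')|)
      · intro m'; positivity
      · have h2 := hna m
        have h3 := hnb m
        rw [sq]
        apply mul_le_mul _ _ (abs_nonneg _) (by positivity)
        · nlinarith
        · nlinarith
      · intro m' hm'
        have h4 := hfar m' hm'
        have h5 := hna m'
        have h6 := hnb m'
        have h7 := abs_sub_le (x m) (x m') (τ (a m'))
        have h8 := abs_sub_le (x m) (x m') (τ (b m'))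
        have h9 := abs_nonneg (x m - x m')
        rw [sq]
        apply mul_le_mul _ _ (abs_nonneg _) (by positivity)
        · nlinarith
        · nlinarith
    have h2 : ∏ i ∈ R, |x m - τ i| ≤ 2 * (U * (g : ℝ) ^ (2 * K)) := by
      have h3 := rest hg1 a b R hR τ (τ (a m)) U (hU _ (hτ _))
      have h4 : ∏ i ∈ R, |x m - τ i| ≤
          ∏ i ∈ R, ((1 + K * ρ * g) * √((τ (a m) - τ i) ^ 2 + 1 / (g : ℝ) ^ 2)) := by
        apply Finset.prod_le_prod
        · intro i _; exact abs_nonneg _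
        · intro i _
          have h5 := s_ge hg1 (τ (a m) - τ i)
          have h6 := s_ge_abs g (τ (a m) - τ i)
          have h7 := abs_sub_le (x m) (τ (a m)) (τ i)
          have h8 := hna m
          have h9 : K * ρ ≤ K * ρ * g * √((τ (a m) - τ i) ^ 2 + 1 / (g : ℝ) ^ 2) := by
            calc K * ρ = K * ρ * g * (1 / g) := by field_simp
              _ ≤ _ := by gcongr
          linarith
      rw [Finset.prod_mul_distrib, Finset.prod_const] at h4
      have h5 : (1 + K * ρ * g) ^ R.card ≤ 2 := by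
        have h6 : R.card ≤ g := by
          have := Finset.card_le_univ R
          rwa [Fintype.card_fin] at this
        have h7 : (1 : ℝ) ≤ 1 + K * ρ * g := by
          have : 0 ≤ K * ρ * g := by positivity
          linarith
        calc (1 + K * ρ * g) ^ R.card ≤ (1 + K * ρ * g) ^ g := pow_le_pow_right₀ h7 h6
          _ ≤ (Real.exp (K * ρ * g)) ^ g := by
              apply pow_le_pow_left₀ (by linarith)
              have := Real.add_one_le_exp (K * ρ * g)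
              linarith
          _ = Real.exp (K * ρ * (g : ℝ) ^ 2) := by
              rw [← Real.exp_nat_mul]; ring_nf
          _ ≤ Real.exp (1 / 2) := Real.exp_le_exp.2 hK
          _ ≤ 2 := by
              have h8 := Real.exp_one_lt_d9
              have h9 : Real.exp (1 / 2) * Real.exp (1 / 2) = Real.exp 1 := by
                rw [← Real.exp_add]; norm_num
              have h10 := Real.exp_pos (1 / 2 : ℝ)
              nlinarith
      have h6 : 0 ≤ ∏ i ∈ R, √((τ (a m) - τ i) ^ 2 + 1 / (g : ℝ) ^ 2) :=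
        Finset.prod_nonneg fun i _ => Real.sqrt_nonneg _
      calc _ ≤ _ := h4
        _ ≤ 2 * ∏ i ∈ R, √((τ (a m) - τ i) ^ 2 + 1 / (g : ℝ) ^ 2) :=
            mul_le_mul_of_nonneg_right h5 h6
        _ ≤ _ := by linarith
    have h3 : 0 ≤ ∏ i ∈ R, |x m - τ i| := Finset.prod_nonneg fun i _ => abs_nonneg _
    have h4 : 0 ≤ ((K + 3) * ρ) ^ 2 * ∏ m' ∈ univ.erase m, ((K + 4) * |x m - x m'|) ^ 2 := by
      apply mul_nonneg (sq_nonneg _)
      exact Finset.prod_nonneg fun i _ => sq_nonneg _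
    calc _ ≤ _ := mul_le_mul h1 h2 h3 h4
      _ = _ := by ring
  · intro y hy hya
    rw [hR]
    have h1 : ∏ m', |y - τ (a m')| * |y - τ (b m')| ≤ ((K + 3) * ρ) ^ 2 *
        ∏ m' ∈ univ.erase m, (4 * ((K + 4) * |x m - x m'|) ^ 2) := by
      apply pairs m (fun m' => |y - τ (a m')| * |y - τ (b m')|)
      · intro m'; positivity
      · have h3 := abs_sub_le y (τ (a m)) (τ (b m))
        have h4 := hab' m
        rw [abs_sub_comm (τ (b m))] at h4
        rw [sq]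
        apply mul_le_mul _ _ (abs_nonneg _) (by positivity)
        · nlinarith
        · nlinarith
      · intro m' hm'
        have h4 := hfar m' hm'
        have h5 := hna m'
        have h6 := hnb m'
        have h6' := hna m
        rw [abs_sub_comm] at h6'
        have h7 := abs_sub_le (x m) (x m') (τ (a m'))
        have h8 := abs_sub_le (x m) (x m') (τ (b m'))
        have h9 := abs_nonneg (x m - x m')
        have h10 := abs_sub_le y (x m) (τ (a m'))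
        have h11 := abs_sub_le y (x m) (τ (b m'))
        have h12 := abs_sub_le y (τ (a m)) (x m)
        have e : 4 * ((K + 4) * |x m - x m'|) ^ 2 =
          (2 * ((K + 4) * |x m - x m'|)) * (2 * ((K + 4) * |x m - x m'|)) := by ring
        rw [e]
        have h13 : K * ρ ≤ K * |x m - x m'| := by gcongr
        apply mul_le_mul _ _ (abs_nonneg _) (by positivity)
        · nlinarith
        · nlinarith
    have e1 : ∏ m' ∈ univ.erase m, (4 * ((K + 4) * |x m - x m'|) ^ 2) =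
        4 ^ (univ.erase m).card * ∏ m' ∈ univ.erase m, ((K + 4) * |x m - x m'|) ^ 2 := by
      rw [Finset.prod_mul_distrib, Finset.prod_const]
    rw [e1] at h1
    have h2 : ∏ i ∈ R, |y - τ i| ≤ U * (g : ℝ) ^ (2 * K) := by
      refine le_trans ?_ (rest hg1 a b R hR τ y U (hU _ hy))
      apply Finset.prod_le_prod
      · intro i _; exact abs_nonneg _
      · intro i _; exact s_ge_abs g _
    have h3 : 0 ≤ ∏ i ∈ R, |y - τ i| := Finset.prod_nonneg fun i _ => abs_nonneg _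
    have hP : 0 ≤ ∏ m' ∈ univ.erase m, ((K + 4) * |x m - x m'|) ^ 2 :=
      Finset.prod_nonneg fun i _ => sq_nonneg _
    have h5 : (4 : ℝ) ^ (univ.erase m).card ≤ 4 ^ K := by
      apply pow_le_pow_right₀ (by norm_num)
      have := Finset.card_le_univ (univ.erase m)
      rwa [Fintype.card_fin] at this
    have h6 : ((K + 3) * ρ) ^ 2 * (4 ^ (univ.erase m).card *
        ∏ m' ∈ univ.erase m, ((K + 4) * |x m - x m'|) ^ 2) ≤
        4 ^ K * (((K + 3) * ρ) ^ 2 * ∏ m' ∈ univ.erase m, ((K + 4) * |x m - x m'|) ^ 2) := by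
      have h7 := mul_le_mul_of_nonneg_right h5 (mul_nonneg (sq_nonneg ((K + 3) * ρ)) hP)
      calc _ = 4 ^ (univ.erase m).card *
          (((K + 3) * ρ) ^ 2 * ∏ m' ∈ univ.erase m, ((K + 4) * |x m - x m'|) ^ 2) := by ring
        _ ≤ _ := h7
    calc _ ≤ _ := mul_le_mul (h1.trans h6) h2 h3
            (mul_nonneg (by positivity) (mul_nonneg (sq_nonneg _) hP))
      _ = _ := by ring

/-- the numerical conditions -/
theorem num (q : ℕ) (hq : 2 ≤ q) : ∃ g₀ : ℕ, ∀ g : ℕ, g₀ ≤ g → 2 ≤ g ∧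
    (2 * KN g : ℝ) ≤ Real.log g ^ 22 / 8 ∧
    (KN g : ℝ) * Real.exp (-ell g) * (g : ℝ) ^ 2 ≤ 1 / 2 ∧
    (4 * √(q : ℝ)) ^ KN g * 4 ^ KN g * Real.exp (Dl g (ell g)) ≤ √(q : ℝ) ^ g := by
  have hq2 : (2 : ℝ) ≤ q := by exact_mod_cast hq
  have hsq : 1 < √(q : ℝ) := by
    apply Real.lt_sqrt_of_sq_lt
    linarith
  obtain ⟨c, hc⟩ : ∃ c : ℝ, c = Real.log √(q : ℝ) := ⟨_, rfl⟩
  have hc0 : 0 < c := by rw [hc]; exact Real.log_pos hsq
  obtain ⟨B, hB⟩ : ∃ B : ℝ, B = 22 * (3 + c) / c + 22 := ⟨_, rfl⟩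
  have hB0 : 22 ≤ B := by
    rw [hB]
    have : 0 ≤ 22 * (3 + c) / c := by positivity
    linarith
  have hBpos : 0 < B := by linarith
  have e1 : ∀ᶠ x : ℝ in Filter.atTop, Real.log x ^ 21 ≤ (1 / B) * x := by
    have h := (Real.isLittleO_pow_log_id_atTop (n := 21)).bound (c := 1 / B) (by positivity)
    filter_upwards [h, Filter.eventually_ge_atTop (0 : ℝ)] with x hx hx0
    have h1 := le_abs_self (Real.log x ^ 21)
    simp only [Real.norm_eq_abs, id_eq] at hx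
    rw [abs_of_nonneg hx0] at hx
    exact h1.trans hx
  have e2 : ∀ᶠ x : ℝ in Filter.atTop, 176 + 64 / c ^ 2 ≤ Real.log x :=
    Real.tendsto_log_atTop.eventually_ge_atTop _
  have e3 : ∀ᶠ x : ℝ in Filter.atTop, 2 ≤ x := Filter.eventually_ge_atTop _
  have e4 := tendsto_natCast_atTop_atTop (R := ℝ) |>.eventually ((e1.and e2).and e3)
  obtain ⟨g₀, hg₀⟩ := Filter.eventually_atTop.1 e4
  refine ⟨g₀, fun g hg => ?_⟩
  obtain ⟨⟨h1, h2⟩, h3⟩ := hg₀ g hg
  obtain ⟨L, hL⟩ : ∃ L : ℝ, L = Real.log g := ⟨_, rfl⟩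
  rw [← hL] at h1 h2
  have hg0 : (0 : ℝ) < g := by linarith
  have hcc : 0 < 64 / c ^ 2 := by positivity
  have hL176 : 176 ≤ L := by linarith
  have hLc : 64 / c ^ 2 ≤ L := by linarith
  have hL0 : 0 < L := by linarith
  have hL1 : 1 ≤ L ^ 21 := one_le_pow₀ (by linarith)
  have hBL : B * L ^ 21 ≤ g := by
    have := mul_le_mul_of_nonneg_left h1 hBpos.le
    have e : B * (1 / B * (g : ℝ)) = g := by field_simp
    rwa [e] at this
  have hKN : (KN g : ℝ) ≤ 11 * L ^ 21 := by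
    have := Nat.ceil_lt_add_one (a := 10 * L ^ 21) (by positivity)
    unfold KN
    rw [← hL]
    linarith
  have hKg : (KN g : ℝ) ≤ g := by nlinarith
  have hell : 22 * L ≤ ell g := by
    unfold ell
    rw [← hL, le_div_iff₀ (by positivity)]
    have : L * L ^ 20 = L ^ 21 := by ring
    nlinarith
  refine ⟨by exact_mod_cast h3, ?_, ?_, ?_⟩
  · rw [← hL]
    have : L ^ 22 = L * L ^ 21 := by ring
    rw [this]
    nlinarith
  · have h4 : Real.exp (-ell g) ≤ Real.exp (-(4 * L)) := Real.exp_le_exp.2 (by linarith)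
    have h5 : Real.exp (-(4 * L)) = 1 / (g : ℝ) ^ 4 := by
      have h6 : Real.exp L = g := by rw [hL, Real.exp_log hg0]
      rw [Real.exp_neg, show (4 * L : ℝ) = ((4 : ℕ) : ℝ) * L by norm_num, Real.exp_nat_mul, h6]
      ring
    calc (KN g : ℝ) * Real.exp (-ell g) * (g : ℝ) ^ 2 ≤ g * (1 / (g : ℝ) ^ 4) * (g : ℝ) ^ 2 := by
          rw [← h5]
          gcongr
      _ = 1 / (g : ℝ) := by field_simp
      _ ≤ 1 / 2 := one_div_le_one_div_of_le (by norm_num) h3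
  · have hsq0 : 0 < √(q : ℝ) := by linarith
    have h16 : (16 : ℝ) ≤ Real.exp 3 := by
      have h6 : Real.log 16 ≤ 3 := by
        have : (16 : ℝ) = 2 ^ 4 := by norm_num
        rw [this, Real.log_pow]
        have := Real.log_two_lt_d9
        norm_num
        linarith
      rwa [Real.log_le_iff_le_exp (by norm_num)] at h6
    have hexpc : Real.exp c = √(q : ℝ) := by rw [hc, Real.exp_log hsq0]
    have h7 : (4 * √(q : ℝ)) ^ KN g * 4 ^ KN g ≤ Real.exp (KN g * (3 + c)) := by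
      rw [← mul_pow, Real.exp_nat_mul]
      apply pow_le_pow_left₀ (by positivity)
      rw [Real.exp_add, hexpc]
      nlinarith
    have h8 : Dl g (ell g) ≤ g * c / 2 := by
      unfold Dl ell
      rw [← hL]
      have h9 : √((g : ℝ) * (g / L ^ 20) * L) ≤ g * c / 8 := by
        apply Real.sqrt_le_iff.2
        refine ⟨by positivity, ?_⟩
        have h10 : (g : ℝ) * (g / L ^ 20) * L = (g : ℝ) ^ 2 / L ^ 19 := by
          field_simp
        rw [h10, div_le_iff₀ (by positivity)]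
        have h11 : L ≤ L ^ 19 := le_self_pow₀ (by linarith) (by norm_num)
        have h12 : 64 ≤ c ^ 2 * L ^ 19 := by
          have h13 : 64 / c ^ 2 ≤ L ^ 19 := hLc.trans h11
          rw [div_le_iff₀ (by positivity)] at h13
          linarith
        have h14 : (g * c / 8) ^ 2 * L ^ 19 = (g : ℝ) ^ 2 * (c ^ 2 * L ^ 19 / 64) := by ring
        rw [h14]
        have h15 : 1 ≤ c ^ 2 * L ^ 19 / 64 := by linarith
        have h16 : (0 : ℝ) ≤ (g : ℝ) ^ 2 := by positivity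
        nlinarith
      linarith
    have h9 : KN g * (3 + c) ≤ g * c / 2 := by
      have h10 : 22 * (3 + c) / c * L ^ 21 ≤ g := by
        refine le_trans ?_ hBL
        apply mul_le_mul_of_nonneg_right _ (by positivity)
        rw [hB]; linarith
      have h11 : 22 * (3 + c) * L ^ 21 ≤ g * c := by
        rw [div_mul_eq_mul_div, div_le_iff₀ hc0] at h10
        exact h10
      have h12 : KN g * (3 + c) ≤ 11 * L ^ 21 * (3 + c) := by
        gcongr
      linarith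
    calc (4 * √(q : ℝ)) ^ KN g * 4 ^ KN g * Real.exp (Dl g (ell g))
        ≤ Real.exp (KN g * (3 + c)) * Real.exp (g * c / 2) := by
          gcongr
      _ ≤ Real.exp (g * c / 2) * Real.exp (g * c / 2) := by gcongr
      _ = Real.exp (g * c) := by rw [← Real.exp_add]; ring_nf
      _ = √(q : ℝ) ^ g := by rw [Real.exp_nat_mul, hexpc]

end PAA_

theorem tPAA (hT : T_TUP) : T_PAA := by
  intro q hq
  obtain ⟨g₁, hg₁⟩ := hT q hq
  obtain ⟨g₂, hg₂⟩ := PAA_.num q hq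
  refine ⟨max g₁ g₂, fun g hg τ hmono hτ hTL0 hTL1 hnp => ?_⟩
  obtain ⟨hg2, hn1, hn2, hn3⟩ := hg₂ g (le_of_max_le_right hg)
  have hU := hg₁ g (le_of_max_le_left hg) τ hτ hTL0
  have hq2 : (2 : ℝ) ≤ q := by exact_mod_cast hq
  have hsq : 1 ≤ √(q : ℝ) := by
    apply Real.le_sqrt_of_sq_le
    linarith
  -- the pairs
  obtain ⟨S, hS⟩ : ∃ S : Finset (Fin g), S = univ.filter fun i : Fin g => ∃ h : (i : ℕ) + 1 < g,
    τ ⟨(i : ℕ) + 1, h⟩ - τ i < Real.exp (-ell g) := ⟨_, rfl⟩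
  have hcard : 2 * KN g ≤ S.card := by
    have h1 : (2 * KN g : ℝ) ≤ (npairs τ (Real.exp (-ell g)) : ℝ) := hn1.trans hnp
    unfold npairs at h1
    rw [← hS] at h1
    exact_mod_cast h1
  let e := S.orderEmbOfFin rfl
  have hlt : ∀ m : Fin (KN g), 2 * (m : ℕ) + 1 < S.card := fun m => by have := m.2; omega
  let a : Fin (KN g) → Fin g := fun m => e ⟨2 * (m : ℕ), by have := hlt m; omega⟩
  have haS : ∀ m, a m ∈ S := fun m => S.orderEmbOfFin_mem rfl _
  have haS' : ∀ m, ∃ h : (a m : ℕ) + 1 < g, τ ⟨(a m : ℕ) + 1, h⟩ - τ (a m) < Real.exp (-ell g) := by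
    intro m
    have := haS m
    rw [hS, mem_filter] at this
    exact this.2
  let b : Fin (KN g) → Fin g := fun m => ⟨(a m : ℕ) + 1, (haS' m).1⟩
  have hab : ∀ m, a m < b m := fun m => by
    rw [Fin.lt_def]
    exact Nat.lt_succ_self _
  have hsep : ∀ m m', m < m' → b m < a m' := by
    intro m m' h
    have h0 : (m : ℕ) < m' := h
    have h1 : e ⟨2 * (m : ℕ), by have := hlt m; omega⟩ < e ⟨2 * (m : ℕ) + 1, hlt m⟩ := by
      rw [e.lt_iff_lt, Fin.lt_def]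
      exact Nat.lt_succ_self _
    have h2 : e ⟨2 * (m : ℕ) + 1, hlt m⟩ < e ⟨2 * (m' : ℕ), by have := hlt m'; omega⟩ := by
      rw [e.lt_iff_lt, Fin.lt_def]
      show 2 * (m : ℕ) + 1 < 2 * (m' : ℕ)
      omega
    rw [Fin.lt_def] at h1 h2 ⊢
    show (a m : ℕ) + 1 < (a m' : ℕ)
    show (e ⟨2 * (m : ℕ), _⟩ : ℕ) + 1 < (e ⟨2 * (m' : ℕ), _⟩ : ℕ)
    omega
  have hgap : ∀ m, τ (b m) - τ (a m) < Real.exp (-ell g) := fun m => (haS' m).2
  have hcore := PAA_.core (√(q : ℝ)) hsq hg2 τ hmono hτ (Real.exp (-ell g)) (Real.exp_pos _) hn2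
    (√(q : ℝ) ^ g * Real.exp ((g : ℝ) ^ (4 / 5 : ℝ))) hU a b hab hsep hgap
  have ha : ∀ m m', m < m' → a m ≤ a m' := fun m m' h => ((hab m).trans (hsep m m' h)).le
  refine ⟨PAA_.zz (Real.exp (-ell g)) τ a, PAA_.zz_mono (Real.exp_pos _) τ hmono a ha,
    fun m => (hcore m).1, ?_, ?_⟩
  · intro m
    obtain ⟨y, hy1, hy2, hy3⟩ := hTL1 (τ (a m)) (hτ _)
    have h1 := (hcore m).2.2 y hy1 hy2
    have h2 := hy3.trans h1
    have h3 : (4 * √(q : ℝ)) ^ KN g * 4 ^ KN g ≤ √(q : ℝ) ^ g * Real.exp (-Dl g (ell g)) := by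
      rw [Real.exp_neg, ← div_eq_mul_inv, le_div_iff₀ (Real.exp_pos _)]
      exact hn3
    have h4 := h3.trans h2
    rw [mul_comm, mul_le_mul_iff_right₀ (by positivity)] at h4
    refine h4.trans ?_
    unfold MP
    have h5 : 0 ≤ √(q : ℝ) ^ g * Real.exp ((g : ℝ) ^ (4 / 5 : ℝ)) * (g : ℝ) ^ (2 * KN g) *
      ((KN g + 3) * Real.exp (-ell g)) ^ 2 *
      ∏ m' ∈ univ.erase m, ((KN g + 4) * |Real.exp (-ell g) * PAA_.zz (Real.exp (-ell g)) τ a m -
        Real.exp (-ell g) * PAA_.zz (Real.exp (-ell g)) τ a m'|) ^ 2 := by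
      apply mul_nonneg (by positivity)
      exact Finset.prod_nonneg fun i _ => sq_nonneg _
    linarith
  · intro m
    refine (hcore m).2.1.trans (le_of_eq ?_)
    unfold MP
    ring

end Pool.Agent.FQW
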