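import Mathlib
import Pool.Agent.FQW.Basic

set_option autoImplicit false

/-!
# PAB: the numerical inequality for PAIRS
-/

namespace Pool.Agent.FQW

open Polynomial Finset
open scoped BigOperators

namespace PAB_

theorem sum_card_Ioi (k : ℕ) : ∑ i : Fin k, (Ioi i).card = k * (k - 1) / 2 := by
  simp only [Fin.card_Ioi]
  rw [Fin.sum_univ_eq_sum_range (fun i => k - 1 - i) k, Finset.sum_range_reflect (fun i => i) k,
    Finset.sum_range_id]

theorem pairs_const (k : ℕ) (c : ℝ) : ∏ i : Fin k, ∏ _j ∈ Ioi i, c = c ^ (k * (k - 1) / 2) := by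
  simp only [Finset.prod_const]
  rw [Finset.prod_pow_eq_pow_sum, sum_card_Ioi]

theorem off_diag {k : ℕ} (x : Fin k → ℝ) (c : ℝ) :
    ∏ m, ∏ m' ∈ univ.erase m, (c * |x m - x m'|) ^ 2 =
      (c ^ 4) ^ (k * (k - 1) / 2) * vdm x ^ 4 := by
  have h1 := Finset.prod_prod_Ioi_mul_eq_prod_prod_off_diag
    (fun i j : Fin k => (c * |x j - x i|) ^ 2)
  have h2 : ∀ m : Fin k, univ.erase m = ({m}ᶜ : Finset (Fin k)) := by
    intro m; ext j; simp
  simp only [h2]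
  rw [← h1, ← pairs_const k (c ^ 4)]
  unfold vdm
  rw [← Finset.prod_pow, ← Finset.prod_mul_distrib]
  refine prod_congr rfl (fun i _ => ?_)
  rw [← Finset.prod_pow, ← Finset.prod_mul_distrib]
  refine prod_congr rfl (fun j _ => ?_)
  rw [abs_sub_comm (x i) (x j)]
  ring

theorem vdm_pos {k : ℕ} (x : Fin k → ℝ) (hx : Function.Injective x) : 0 < vdm x := by
  refine prod_pos (fun i _ => prod_pos (fun j hj => ?_))
  have hne : j ≠ i := by
    have : i < j := by simpa using hj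
    exact this.ne'
  exact abs_pos.mpr (sub_ne_zero.mpr (fun h => hne (hx h)))

theorem vdm_le {k : ℕ} (x : Fin k → ℝ) (Q : ℝ) (hx : ∀ i, |x i| ≤ 3 * Q) :
    vdm x ≤ (6 * Q) ^ (k * (k - 1) / 2) := by
  rw [← pairs_const]
  unfold vdm
  refine prod_le_prod (fun i _ => by positivity) (fun i _ => ?_)
  refine prod_le_prod (fun i _ => by positivity) (fun j _ => ?_)
  have h1 := abs_le.mp (hx i)
  have h2 := abs_le.mp (hx j)
  rw [abs_le]
  constructor <;> linarith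

theorem tri_le (k : ℕ) : k * (k - 1) / 2 ≤ k ^ 2 := by
  refine (Nat.div_le_self _ _).trans ?_
  rw [sq]
  exact Nat.mul_le_mul_left _ (Nat.sub_le _ _)

theorem tri_le' (k : ℕ) : 2 * (k * (k - 1) / 2) ≤ k ^ 2 := by
  refine (Nat.mul_div_le _ _).trans ?_
  rw [sq]
  exact Nat.mul_le_mul_left _ (Nat.sub_le _ _)

theorem expo (g K : ℕ) (h : K ≤ g) :
    (g - K) * (g - K + 1) / 2 + g * K ≤ g * (g + 1) / 2 + K ^ 2 := by
  obtain ⟨n, rfl⟩ := Nat.exists_eq_add_of_le h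
  rw [show K + n - K = n by omega]
  have h1 : 2 * (n * (n + 1) / 2) = n * (n + 1) :=
    Nat.mul_div_cancel' (Nat.even_mul_succ_self n).two_dvd
  have h2 : 2 * ((K + n) * (K + n + 1) / 2) = (K + n) * (K + n + 1) :=
    Nat.mul_div_cancel' (Nat.even_mul_succ_self (K + n)).two_dvd
  nlinarith

theorem prod_MP (q g : ℕ) {K : ℕ} (x : Fin K → ℝ) : ∏ m, MP q g x m =
    (2 * √(q : ℝ) ^ g * Real.exp ((g : ℝ) ^ (4 / 5 : ℝ)) * (g : ℝ) ^ (2 * K) *
    ((K + 3) * Real.exp (-ell g)) ^ 2) ^ K * ((((K : ℝ) + 4) ^ 4) ^ (K * (K - 1) / 2) * vdm x ^ 4) := by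
  unfold MP
  rw [Finset.prod_mul_distrib, Finset.prod_const, Finset.card_univ, Fintype.card_fin, off_diag]

theorem prod_MP_div (q g : ℕ) (hq : 1 ≤ q) {K : ℕ} (x : Fin K → ℝ) (hx : Function.Injective x)
    (hb : ∀ i, |x i| ≤ 3 * √(q : ℝ)) : (∏ m, MP q g x m) / vdm x ≤
    (2 * √(q : ℝ) ^ g * Real.exp ((g : ℝ) ^ (4 / 5 : ℝ)) * (g : ℝ) ^ (2 * K) *
    ((K + 3) * Real.exp (-ell g)) ^ 2) ^ K * (((K : ℝ) + 4) ^ (2 * K ^ 2) *
      (6 * √(q : ℝ)) ^ (3 * K ^ 2)) := by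
  have hv := vdm_pos x hx
  have hQ1 : 1 ≤ √(q : ℝ) := Real.one_le_sqrt.mpr (by exact_mod_cast hq)
  rw [prod_MP, mul_div_assoc]
  refine mul_le_mul_of_nonneg_left ?_ (by positivity)
  have h1 : (((K : ℝ) + 4) ^ 4) ^ (K * (K - 1) / 2) * vdm x ^ 4 / vdm x =
      (((K : ℝ) + 4) ^ 4) ^ (K * (K - 1) / 2) * vdm x ^ 3 := by
    field_simp
  rw [h1]
  refine mul_le_mul ?_ ?_ (by positivity) (by positivity)
  · rw [← pow_mul]
    refine pow_le_pow_right₀ ?_ ?_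
    · have : (0 : ℝ) ≤ K := Nat.cast_nonneg K
      linarith
    · have := tri_le' K
      omega
  · calc vdm x ^ 3 ≤ ((6 * √(q : ℝ)) ^ (K * (K - 1) / 2)) ^ 3 :=
          pow_le_pow_left₀ hv.le (vdm_le x _ hb) 3
      _ = (6 * √(q : ℝ)) ^ (K * (K - 1) / 2 * 3) := by rw [← pow_mul]
      _ ≤ (6 * √(q : ℝ)) ^ (3 * K ^ 2) := by
          refine pow_le_pow_right₀ (by linarith) ?_
          have := tri_le K
          omega

theorem ev1 (C : ℝ) : ∃ g₀ : ℕ, ∀ g : ℕ, g₀ ≤ g → 3 ≤ Real.log g ∧ 1 ≤ g ∧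
    (KN g : ℝ) + 4 ≤ g ∧ (KN g : ℝ) * (g : ℝ) ^ (4 / 5 : ℝ) ≤ g ∧
    (KN g : ℝ) ^ 2 * Real.log g ≤ g ∧ (KN g : ℝ) ^ 2 * C ≤ g ∧
    10 * g * Real.log g ≤ (KN g : ℝ) * ell g := by
  have hlog : Filter.Tendsto (fun g : ℕ => Real.log g) Filter.atTop Filter.atTop :=
    Real.tendsto_log_atTop.comp tendsto_natCast_atTop_atTop
  have hM : (0 : ℝ) < 11 ^ 5 * (|C| + 1) := by positivity
  have h1 : ∀ᶠ g : ℕ in Filter.atTop, Real.log g ^ 105 ≤ (1 / (11 ^ 5 * (|C| + 1))) * g := by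
    have := (Real.isLittleO_pow_log_id_atTop (n := 105)).bound
      (show (0 : ℝ) < 1 / (11 ^ 5 * (|C| + 1)) by positivity)
    have h2 := tendsto_natCast_atTop_atTop (R := ℝ) |>.eventually this
    filter_upwards [h2] with g hg
    rw [id, Real.norm_natCast] at hg
    exact (Real.le_norm_self _).trans hg
  have h2 := hlog.eventually_ge_atTop 3
  have h3 := Filter.eventually_ge_atTop (α := ℕ) 1
  obtain ⟨g₀, hg₀⟩ := Filter.eventually_atTop.mp (h1.and (h2.and h3))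
  refine ⟨g₀, fun g hg => ?_⟩
  obtain ⟨hA, hL, hg1⟩ := hg₀ g hg
  set L := Real.log g with hLdef
  have hg0 : (0 : ℝ) < g := by exact_mod_cast hg1
  have hL1 : 1 ≤ L := by linarith
  have hLn : ∀ n : ℕ, 1 ≤ L ^ n := fun n => one_le_pow₀ hL1
  have hA' : 11 ^ 5 * (|C| + 1) * L ^ 105 ≤ g := by
    rw [one_div, ← div_eq_inv_mul, le_div_iff₀ hM] at hA
    linarith
  have hK1 : (KN g : ℝ) ≤ 11 * L ^ 21 := by
    have := (Nat.ceil_lt_add_one (show 0 ≤ 10 * Real.log g ^ 21 by positivity)).le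
    have h4 := hLn 21
    unfold KN
    linarith
  have hK2 : 10 * L ^ 21 ≤ (KN g : ℝ) := Nat.le_ceil _
  have hK0 : (0 : ℝ) ≤ KN g := Nat.cast_nonneg _
  have hC0 : 0 ≤ |C| := abs_nonneg C
  have hP : 0 ≤ |C| * L ^ 105 := by positivity
  have hB : (11 : ℝ) ^ 5 * L ^ 105 ≤ g := by nlinarith
  have hK5 : (KN g : ℝ) ^ 5 ≤ g := by
    calc (KN g : ℝ) ^ 5 ≤ (11 * L ^ 21) ^ 5 := pow_le_pow_left₀ hK0 hK1 5
      _ = 11 ^ 5 * L ^ 105 := by ring
      _ ≤ g := hB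
  have hmono : ∀ m n : ℕ, m ≤ n → L ^ m ≤ L ^ n := fun m n h => pow_le_pow_right₀ hL1 h
  refine ⟨hL, hg1, ?_, ?_, ?_, ?_, ?_⟩
  · have h4 := hmono 21 105 (by norm_num)
    have h5 := hLn 21
    nlinarith
  · have h4 : (KN g : ℝ) ≤ (g : ℝ) ^ (1 / 5 : ℝ) := by
      have h5 : ((KN g : ℝ) ^ 5) ^ (1 / 5 : ℝ) ≤ (g : ℝ) ^ (1 / 5 : ℝ) :=
        Real.rpow_le_rpow (by positivity) hK5 (by norm_num)
      have h6 : ((KN g : ℝ) ^ 5) ^ (1 / 5 : ℝ) = KN g := by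
        rw [← Real.rpow_natCast, ← Real.rpow_mul hK0]
        norm_num
      rwa [h6] at h5
    calc (KN g : ℝ) * (g : ℝ) ^ (4 / 5 : ℝ) ≤ (g : ℝ) ^ (1 / 5 : ℝ) * (g : ℝ) ^ (4 / 5 : ℝ) :=
          mul_le_mul_of_nonneg_right h4 (by positivity)
      _ = g := by rw [← Real.rpow_add hg0]; norm_num
  · calc (KN g : ℝ) ^ 2 * L ≤ (11 * L ^ 21) ^ 2 * L :=
          mul_le_mul_of_nonneg_right (pow_le_pow_left₀ hK0 hK1 2) (by linarith)
      _ = 11 ^ 2 * L ^ 43 := by ring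
      _ ≤ 11 ^ 5 * L ^ 105 := by
          refine mul_le_mul (by norm_num) (hmono 43 105 (by norm_num)) (by positivity) (by norm_num)
      _ ≤ g := hB
  · calc (KN g : ℝ) ^ 2 * C ≤ (KN g : ℝ) ^ 2 * |C| :=
          mul_le_mul_of_nonneg_left (le_abs_self C) (by positivity)
      _ ≤ (11 * L ^ 21) ^ 2 * |C| :=
          mul_le_mul_of_nonneg_right (pow_le_pow_left₀ hK0 hK1 2) hC0
      _ = |C| * (11 ^ 2 * L ^ 42) := by ring
      _ ≤ |C| * (11 ^ 5 * L ^ 105) := by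
          refine mul_le_mul_of_nonneg_left ?_ hC0
          exact mul_le_mul (by norm_num) (hmono 42 105 (by norm_num)) (by positivity) (by norm_num)
      _ ≤ 11 ^ 5 * (|C| + 1) * L ^ 105 := by
          have : 0 ≤ L ^ 105 := by positivity
          nlinarith
      _ ≤ g := hA'
  · unfold ell
    have hL20 : 0 < L ^ 20 := by positivity
    calc 10 * g * L = (10 * L ^ 21) * (g / L ^ 20) := by field_simp
      _ ≤ (KN g : ℝ) * (g / L ^ 20) := mul_le_mul_of_nonneg_right hK2 (by positivity)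

end PAB_

open PAB_ in
theorem tPAB : T_PAB := by
  intro q hq
  have hQ1 : 1 ≤ √(q : ℝ) := Real.one_le_sqrt.mpr (by exact_mod_cast (by omega : 1 ≤ q))
  have hQ0 : 0 < √(q : ℝ) := by linarith
  set Q := √(q : ℝ) with hQ
  have hQ2 : (8 : ℝ) ≤ 7 * Q := by
    have h1 : (8 / 7 : ℝ) ≤ Q := by
      apply Real.le_sqrt_of_sq_le
      have : (2 : ℝ) ≤ q := by exact_mod_cast hq
      norm_num
      linarith
    linarith
  set C := Real.log (7 * Q) with hC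
  have hexpC : Real.exp C = 7 * Q := Real.exp_log (by positivity)
  have hC0 : 0 ≤ C := Real.log_nonneg (by linarith)
  obtain ⟨g₀, hg₀⟩ := ev1 C
  refine ⟨g₀, fun g hg => ?_⟩
  obtain ⟨hL, hg1, h1, h2, h3, h4, h5⟩ := hg₀ g hg
  have hKg : KN g ≤ g := by
    have : (KN g : ℝ) ≤ g := by linarith
    exact_mod_cast this
  refine ⟨hKg, ?_⟩
  generalize KN g = K at *
  intro x hx hxb
  have hmp := prod_MP_div q g (by omega) x hx hxb
  rw [← hQ] at hmp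
  have hv := vdm_pos x hx
  set L := Real.log g with hLdef
  set G := (g : ℝ) ^ (4 / 5 : ℝ) with hG
  have hg0 : (0 : ℝ) < g := by exact_mod_cast hg1
  have hgL : Real.exp L = g := Real.exp_log hg0
  have hK0 : (0 : ℝ) ≤ K := Nat.cast_nonneg _
  have hG0 : 0 ≤ G := by positivity
  -- rewriting
  have hstep : (7 * Q * Real.exp (ell g)) ^ K * (Real.exp (5 * g) *
      Q ^ ((g - K) * (g - K + 1) / 2) * 4 ^ K * (∏ m, MP q g x m) / vdm x) *
      ((g : ℝ) + 1) ^ g ≤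
      (7 * Q * Real.exp (ell g)) ^ K * (Real.exp (5 * g) *
      Q ^ ((g - K) * (g - K + 1) / 2) * 4 ^ K *
      ((2 * Q ^ g * Real.exp G * (g : ℝ) ^ (2 * K) *
    ((K + 3) * Real.exp (-ell g)) ^ 2) ^ K * (((K : ℝ) + 4) ^ (2 * K ^ 2) *
      (6 * Q) ^ (3 * K ^ 2)))) * ((g : ℝ) + 1) ^ g := by
    refine mul_le_mul_of_nonneg_right ?_ (by positivity)
    refine mul_le_mul_of_nonneg_left ?_ (by positivity)
    rw [mul_div_assoc]
    exact mul_le_mul_of_nonneg_left hmp (by positivity)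
  refine hstep.trans ?_
  have hrw : (7 * Q * Real.exp (ell g)) ^ K * (Real.exp (5 * g) *
      Q ^ ((g - K) * (g - K + 1) / 2) * 4 ^ K *
      ((2 * Q ^ g * Real.exp G * (g : ℝ) ^ (2 * K) *
    ((K + 3) * Real.exp (-ell g)) ^ 2) ^ K * (((K : ℝ) + 4) ^ (2 * K ^ 2) *
      (6 * Q) ^ (3 * K ^ 2)))) * ((g : ℝ) + 1) ^ g =
      Q ^ ((g - K) * (g - K + 1) / 2 + g * K) * ((7 * Q) ^ K * Real.exp (K * ell g) *
        Real.exp (5 * g) * 8 ^ K * Real.exp (K * G) * (g : ℝ) ^ (2 * K ^ 2) *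
        ((K : ℝ) + 3) ^ (2 * K) * Real.exp (-(2 * K * ell g)) * ((K : ℝ) + 4) ^ (2 * K ^ 2) *
        (6 * Q) ^ (3 * K ^ 2) * ((g : ℝ) + 1) ^ g) := by
    have e1 : Real.exp (K * ell g) = Real.exp (ell g) ^ K := Real.exp_nat_mul _ _
    have e2 : Real.exp (K * G) = Real.exp G ^ K := Real.exp_nat_mul _ _
    have e3 : Real.exp (-(2 * K * ell g)) = Real.exp (-ell g) ^ (2 * K) := by
      rw [← Real.exp_nat_mul]; congr 1; push_cast; ring
    have e4 : (8 : ℝ) ^ K = 2 ^ K * 4 ^ K := by rw [← mul_pow]; norm_num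
    rw [e1, e2, e3, e4]
    simp only [mul_pow, pow_add, ← pow_mul]
    rw [show 2 * K * K = 2 * K ^ 2 by ring]
    ring
  rw [hrw]
  -- bounds
  have b1 : Q ^ ((g - K) * (g - K + 1) / 2 + g * K) ≤
      Q ^ (g * (g + 1) / 2) * Real.exp (K ^ 2 * C) := by
    calc Q ^ ((g - K) * (g - K + 1) / 2 + g * K) ≤ Q ^ (g * (g + 1) / 2 + K ^ 2) :=
          pow_le_pow_right₀ hQ1 (expo g K hKg)
      _ = Q ^ (g * (g + 1) / 2) * Q ^ (K ^ 2) := pow_add _ _ _
      _ ≤ Q ^ (g * (g + 1) / 2) * Real.exp (K ^ 2 * C) := by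
          refine mul_le_mul_of_nonneg_left ?_ (by positivity)
          have : Real.exp ((K : ℝ) ^ 2 * C) = (7 * Q) ^ (K ^ 2) := by
            rw [← hexpC, ← Real.exp_nat_mul]; push_cast; rfl
          rw [this]
          exact pow_le_pow_left₀ hQ0.le (by linarith) _
  have b2 : (7 * Q) ^ K = Real.exp (K * C) := by
    rw [← hexpC, ← Real.exp_nat_mul]
  have b3 : (8 : ℝ) ^ K ≤ Real.exp (K * C) := by
    rw [← b2]; exact pow_le_pow_left₀ (by norm_num) hQ2 _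
  have b4 : (g : ℝ) ^ (2 * K ^ 2) = Real.exp (2 * K ^ 2 * L) := by
    rw [show (2 * (K : ℝ) ^ 2 * L) = ((2 * K ^ 2 : ℕ) : ℝ) * L by push_cast; ring,
      Real.exp_nat_mul, hgL]
  have b5 : ((K : ℝ) + 3) ^ (2 * K) ≤ Real.exp (2 * K * L) := by
    rw [show (2 * (K : ℝ) * L) = ((2 * K : ℕ) : ℝ) * L by push_cast; ring,
      Real.exp_nat_mul, hgL]
    exact pow_le_pow_left₀ (by positivity) (by linarith) _
  have b6 : ((K : ℝ) + 4) ^ (2 * K ^ 2) ≤ Real.exp (2 * K ^ 2 * L) := by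
    rw [← b4]
    exact pow_le_pow_left₀ (by positivity) (by linarith) _
  have b7 : (6 * Q) ^ (3 * K ^ 2) ≤ Real.exp (3 * K ^ 2 * C) := by
    rw [show (3 * (K : ℝ) ^ 2 * C) = ((3 * K ^ 2 : ℕ) : ℝ) * C by push_cast; ring,
      Real.exp_nat_mul, hexpC]
    exact pow_le_pow_left₀ (by positivity) (by linarith) _
  have b8 : ((g : ℝ) + 1) ^ g ≤ Real.exp (g * (L + 1)) := by
    rw [Real.exp_nat_mul, Real.exp_add, hgL]
    refine pow_le_pow_left₀ (by positivity) ?_ _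
    have he := Real.add_one_le_exp (1 : ℝ)
    have hg1' : (1 : ℝ) ≤ g := by exact_mod_cast hg1
    nlinarith
  have hKK : (K : ℝ) ≤ K ^ 2 := by
    have : K ≤ K ^ 2 := Nat.le_self_pow (by norm_num) K
    exact_mod_cast this
  calc Q ^ ((g - K) * (g - K + 1) / 2 + g * K) * ((7 * Q) ^ K * Real.exp (K * ell g) *
        Real.exp (5 * g) * 8 ^ K * Real.exp (K * G) * (g : ℝ) ^ (2 * K ^ 2) *
        ((K : ℝ) + 3) ^ (2 * K) * Real.exp (-(2 * K * ell g)) * ((K : ℝ) + 4) ^ (2 * K ^ 2) *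
        (6 * Q) ^ (3 * K ^ 2) * ((g : ℝ) + 1) ^ g)
      ≤ (Q ^ (g * (g + 1) / 2) * Real.exp (K ^ 2 * C)) * (Real.exp (K * C) * Real.exp (K * ell g) *
        Real.exp (5 * g) * Real.exp (K * C) * Real.exp (K * G) * Real.exp (2 * K ^ 2 * L) *
        Real.exp (2 * K * L) * Real.exp (-(2 * K * ell g)) * Real.exp (2 * K ^ 2 * L) *
        Real.exp (3 * K ^ 2 * C) * Real.exp (g * (L + 1))) := by
        rw [b2, b4]
        gcongr
    _ = Real.exp (K ^ 2 * C + (K * C + K * ell g + 5 * g + K * C + K * G + 2 * K ^ 2 * L +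
        2 * K * L + -(2 * K * ell g) + 2 * K ^ 2 * L + 3 * K ^ 2 * C + g * (L + 1))) *
        Q ^ (g * (g + 1) / 2) := by
        simp only [Real.exp_add]; ring
    _ ≤ Real.exp (-(g : ℝ)) * Q ^ (g * (g + 1) / 2) := by
        refine mul_le_mul_of_nonneg_right (Real.exp_le_exp.mpr ?_) (by positivity)
        have hL0 : 0 ≤ L := by linarith
        have hKC : (K : ℝ) * C ≤ g := (mul_le_mul_of_nonneg_right hKK hC0).trans h4
        have hKL : (K : ℝ) * L ≤ g := (mul_le_mul_of_nonneg_right hKK hL0).trans h3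
        have hgL3 : 3 * (g : ℝ) ≤ g * L := by nlinarith
        nlinarith [h2, h3, h4, h5, hKC, hKL, hgL3]

end Pool.Agent.FQW
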