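import Mathlib
import Pool.Agent.FQW.Basic

set_option autoImplicit false

/-!
# Few small gaps
-/

namespace Pool.Agent.FQW

open Polynomial Finset
open scoped BigOperators

namespace PAIRS_

theorem abs_ev (q : ℕ) {g : ℕ} (a : Fin g → ℤ) (τ : Fin g → ℝ) (h : Roots q a τ) (x : ℝ) :
    |ev q a x| = ∏ i, |x - τ i| := by
  rw [ev_eq_prod q a τ h, Finset.abs_prod]

/-- the number of admissible integral vectors -/
theorem card_box (K : ℕ) (Q E : ℝ) (hQ : 1 ≤ Q) (hE : 1 ≤ E) :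
    (((Fintype.piFinset fun _ : Fin K => Finset.Icc (-⌊3 * Q * E⌋) ⌊3 * Q * E⌋).card : ℕ) : ℝ) ≤
      (7 * Q * E) ^ K := by
  rw [Fintype.card_piFinset_const]
  push_cast
  have hQE : 1 ≤ Q * E := by nlinarith
  have h0 : (0 : ℝ) ≤ 3 * Q * E := by nlinarith
  have hfl : (0 : ℤ) ≤ ⌊3 * Q * E⌋ := Int.floor_nonneg.mpr h0
  refine pow_le_pow_left₀ (Nat.cast_nonneg _) ?_ K
  rw [Int.card_Icc]
  have h1 : (((⌊3 * Q * E⌋ + 1 - -⌊3 * Q * E⌋).toNat : ℕ) : ℝ) = 2 * (⌊3 * Q * E⌋ : ℝ) + 1 := by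
    have : (((⌊3 * Q * E⌋ + 1 - -⌊3 * Q * E⌋).toNat : ℕ) : ℤ) = 2 * ⌊3 * Q * E⌋ + 1 := by
      rw [Int.toNat_of_nonneg (by omega)]
      ring
    exact_mod_cast this
  rw [h1]
  have h2 : (⌊3 * Q * E⌋ : ℝ) ≤ 3 * Q * E := Int.floor_le _
  nlinarith

end PAIRS_

open PAIRS_ in
theorem tPAIRS : T_FINP → T_LOWER → T_STAR → T_PAA → T_PAB → T_PAIRS := by
  classical
  intro hF hL hS hA hB q hq
  obtain ⟨g1, h1⟩ := hA q hq
  obtain ⟨g2, h2⟩ := hB q hq
  refine ⟨max (max g1 g2) 1, fun g hg => ?_⟩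
  have hg1 : g1 ≤ g := le_trans (le_trans (le_max_left _ _) (le_max_left _ _)) hg
  have hg2 : g2 ≤ g := le_trans (le_trans (le_max_right _ _) (le_max_left _ _)) hg
  have hg3 : 1 ≤ g := le_trans (le_max_right _ _) hg
  obtain ⟨hK, h2⟩ := h2 g hg2
  have h1 := h1 g hg1
  have hlow := hL q g hq hg3
  set Q : ℝ := √(q : ℝ) with hQdef
  have hQ : 1 ≤ Q := by
    rw [hQdef, Real.one_le_sqrt]
    exact_mod_cast (by omega : 1 ≤ q)
  set K := KN g with hKdef
  set e : ℝ := Real.exp (-ell g) with hedef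
  set E : ℝ := Real.exp (ell g) with hEdef
  have he : 0 < e := Real.exp_pos _
  have hEe : E * e = 1 := by rw [hEdef, hedef, ← Real.exp_add]; simp
  have hell : 0 ≤ ell g := by
    unfold ell
    have : (0 : ℝ) ≤ Real.log g := Real.log_nonneg (by exact_mod_cast hg3)
    positivity
  have hE : 1 ≤ E := Real.one_le_exp hell
  set Pf : Finset (Fin g → ℤ) := (hF q g).toFinset with hPf
  have hPc : (P q g).ncard = Pf.card := Set.ncard_eq_toFinset_card _ (hF q g)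
  -- the admissible vectors
  set Z : Finset (Fin K → ℤ) := (Fintype.piFinset fun _ : Fin K =>
    Finset.Icc (-⌊3 * Q * E⌋) ⌊3 * Q * E⌋).filter (fun z => StrictMono z ∧
      (∀ m, |e * z m| ≤ 3 * Q) ∧ (∀ m, (4 * Q) ^ K ≤ MP q g (fun m => e * z m) m)) with hZ
  have hZc : (Z.card : ℝ) ≤ (7 * Q * E) ^ K := by
    refine le_trans ?_ (card_box K Q E hQ hE)
    exact_mod_cast Finset.card_filter_le _ _
  set S : (Fin K → ℤ) → Finset (Fin g → ℤ) := fun z => Pf.filter (fun a =>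
    ∀ i, |ev q a (e * z i)| ≤ MP q g (fun m => e * z m) i) with hSdef
  -- covering
  have hcov : {a ∈ P q g | ∃ τ, Roots q a τ ∧ TL q τ (10 * Real.log g) (Dl g (10 * Real.log g)) ∧
      TL q τ (ell g) (Dl g (ell g)) ∧
      Real.log g ^ 22 / 8 ≤ (npairs τ (Real.exp (-ell g)) : ℝ)} ⊆ ((Z.biUnion S : Finset _) :
        Set (Fin g → ℤ)) := by
    rintro a ⟨haP, τ, hτ, ht1, ht2, ht3⟩
    obtain ⟨z, hz1, hz2, hz3, hz4⟩ := h1 τ hτ.1 hτ.2.1 ht1 ht2 ht3
    rw [Finset.mem_coe, Finset.mem_biUnion]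
    refine ⟨z, ?_, ?_⟩
    · rw [hZ, Finset.mem_filter]
      refine ⟨?_, hz1, hz2, hz3⟩
      rw [Fintype.mem_piFinset]
      intro m
      have hm := abs_le.mp (hz2 m)
      have h3 : (z m : ℝ) ≤ 3 * Q * E := by
        have : (z m : ℝ) = E * (e * z m) := by rw [← mul_assoc, hEe, one_mul]
        rw [this]
        nlinarith [hm.2]
      have h4 : ((-z m : ℤ) : ℝ) ≤ 3 * Q * E := by
        have : ((-z m : ℤ) : ℝ) = E * (-(e * z m)) := by
          push_cast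
          rw [mul_neg, ← mul_assoc, hEe, one_mul]
        rw [this]
        nlinarith [hm.1]
      rw [Finset.mem_Icc]
      have h5 := Int.le_floor.mpr h3
      have h6 := Int.le_floor.mpr h4
      omega
    · rw [hSdef, Finset.mem_filter]
      refine ⟨(Set.Finite.mem_toFinset _).mpr haP, fun i => ?_⟩
      rw [abs_ev q a τ hτ]
      exact hz4 i
  have hcard : ({a ∈ P q g | ∃ τ, Roots q a τ ∧
      TL q τ (10 * Real.log g) (Dl g (10 * Real.log g)) ∧ TL q τ (ell g) (Dl g (ell g)) ∧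
      Real.log g ^ 22 / 8 ≤ (npairs τ (Real.exp (-ell g)) : ℝ)}).ncard ≤ ∑ z ∈ Z, (S z).card := by
    refine (Set.ncard_le_ncard hcov (Finset.finite_toSet _)).trans ?_
    rw [Set.ncard_coe_finset]
    exact Finset.card_biUnion_le
  -- the size of one set
  have h7 : (0 : ℝ) < (7 * Q * E) ^ K := by positivity
  have hone : ∀ z ∈ Z, ((S z).card : ℝ) * (7 * Q * E) ^ K ≤
      Real.exp (-(g : ℝ)) * ((P q g).ncard : ℕ) := by
    intro z hz
    rw [hZ, Finset.mem_filter] at hz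
    obtain ⟨-, hz1, hz2, hz3⟩ := hz
    have hinj : Function.Injective (fun m => e * (z m : ℝ)) := by
      intro m m' hmm
      have := mul_left_cancel₀ he.ne' hmm
      exact hz1.injective (by exact_mod_cast this)
    have hst := hS q g K hq hK (fun m => e * z m) hinj hz2 (MP q g (fun m => e * z m)) hz3
    have hpab := h2 (fun m => e * z m) hinj hz2
    have hSz : ({a ∈ P q g | ∀ i, |ev q a (e * z i)| ≤ MP q g (fun m => e * z m) i}).ncard =
        (S z).card := by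
      rw [← Set.ncard_coe_finset]
      congr 1
      ext a
      rw [hSdef, Finset.coe_filter]
      simp only [Set.mem_ofPred_eq]
      rw [hPf, Set.Finite.mem_toFinset]
    rw [hSz] at hst
    set V : ℝ := Real.exp (5 * g) * Q ^ ((g - K) * (g - K + 1) / 2) * 4 ^ K *
      (∏ i, MP q g (fun m => e * z m) i) / vdm (fun m => e * (z m : ℝ)) with hV
    have hg0 : (0 : ℝ) < ((g : ℝ) + 1) ^ g := by positivity
    have h8 : ((S z).card : ℝ) * (7 * Q * E) ^ K * ((g : ℝ) + 1) ^ g ≤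
        Real.exp (-(g : ℝ)) * ((P q g).ncard : ℕ) * ((g : ℝ) + 1) ^ g := by
      calc ((S z).card : ℝ) * (7 * Q * E) ^ K * ((g : ℝ) + 1) ^ g
          ≤ V * (7 * Q * E) ^ K * ((g : ℝ) + 1) ^ g := by gcongr
        _ = (7 * Q * E) ^ K * V * ((g : ℝ) + 1) ^ g := by ring
        _ ≤ Real.exp (-(g : ℝ)) * Q ^ (g * (g + 1) / 2) := hpab
        _ ≤ Real.exp (-(g : ℝ)) * (((g : ℝ) + 1) ^ g * ((P q g).ncard : ℕ)) := by gcongr
        _ = _ := by ring
    exact le_of_mul_le_mul_right h8 hg0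
  calc ((({a ∈ P q g | ∃ τ, Roots q a τ ∧
      TL q τ (10 * Real.log g) (Dl g (10 * Real.log g)) ∧ TL q τ (ell g) (Dl g (ell g)) ∧
      Real.log g ^ 22 / 8 ≤ (npairs τ (Real.exp (-ell g)) : ℝ)}).ncard : ℕ) : ℝ)
      ≤ ∑ z ∈ Z, ((S z).card : ℝ) := by exact_mod_cast hcard
    _ ≤ ∑ z ∈ Z, Real.exp (-(g : ℝ)) * ((P q g).ncard : ℕ) / (7 * Q * E) ^ K := by
        refine Finset.sum_le_sum fun z hz => ?_
        rw [le_div_iff₀ h7]
        exact hone z hz
    _ = (Z.card : ℝ) * (Real.exp (-(g : ℝ)) * ((P q g).ncard : ℕ) / (7 * Q * E) ^ K) := by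
        rw [Finset.sum_const, nsmul_eq_mul]
    _ ≤ (7 * Q * E) ^ K * (Real.exp (-(g : ℝ)) * ((P q g).ncard : ℕ) / (7 * Q * E) ^ K) := by
        gcongr
    _ = _ := by field_simp

end Pool.Agent.FQW
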