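import Mathlib
import Pool.Agent.FQW.Basic

set_option autoImplicit false

/-!
# The density of the pattern
-/

namespace Pool.Agent.FQW

open Polynomial Finset
open scoped BigOperators

namespace PD_

/-- the polynomials near `M` with a good inert factor -/
def good (q : ℕ) {k : Type} [Field k] (N : ℕ) (M : k[X]) : Set k[X] :=
  {h | (h - M).degree < N ∧ ∃ v : k[X], Inert q v ∧ v ∣ h ∧ ¬ v ^ 2 ∣ h}

/-- the inert factor is kept by multiplication with a polynomial of large degree -/
theorem keep (q : ℕ) {k : Type} [Field k] (u m : k[X]) (hu : Irreducible u) (hd : 3 ≤ u.natDegree)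
    (h : ∃ v : k[X], Inert q v ∧ v ∣ m ∧ ¬ v ^ 2 ∣ m) :
    ∃ v : k[X], Inert q v ∧ v ∣ u * m ∧ ¬ v ^ 2 ∣ u * m := by
  obtain ⟨v, hv, hvm, hv2⟩ := h
  refine ⟨v, hv, hvm.mul_left u, fun hc => hv2 ?_⟩
  have h1 : ¬ u ∣ v := by
    intro hh
    have := natDegree_le_of_dvd hh hv.1.ne_zero
    rw [hv.2.1] at this
    omega
  have h2 : IsCoprime u v := (hu.coprime_iff_not_dvd).mpr h1
  have h3 : IsCoprime (v ^ 2) u := (h2.symm).pow_left
  exact h3.dvd_of_dvd_mul_left hc

/-- the degree of the product -/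
theorem near {k : Type} [Field k] (n p : ℕ) (hpn : p ≤ n) (H u m : k[X]) (hum : u.Monic)
    (hup : u.natDegree = p) (hp : 1 ≤ p) (hm : (m - H /ₘ u).degree < ((n - p : ℕ) : WithBot ℕ)) :
    (u * m - H).degree < n := by
  have h1 : u * m - H = u * (m - H /ₘ u) - H %ₘ u := by
    have := modByMonic_add_div H u
    linear_combination this
  rw [h1]
  refine lt_of_le_of_lt (degree_sub_le _ _) (max_lt ?_ ?_)
  · by_cases h0 : m - H /ₘ u = 0
    · rw [h0, mul_zero, degree_zero]
      exact WithBot.bot_lt_coe n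
    · rw [degree_mul, degree_eq_natDegree hum.ne_zero, hup, degree_eq_natDegree h0]
      rw [degree_eq_natDegree h0] at hm
      have h2 : (m - H /ₘ u).natDegree < n - p := by exact_mod_cast hm
      have h3 : p + (m - H /ₘ u).natDegree < n := by omega
      exact_mod_cast h3
  · refine lt_of_lt_of_le (degree_modByMonic_lt H hum) ?_
    rw [degree_eq_natDegree hum.ne_zero, hup]
    exact_mod_cast hpn

/-- a polynomial near `H` has the same degree -/
theorem natDegree_near {k : Type} [Field k] (n g : ℕ) (hng : n ≤ g) (H h : k[X]) (hH : H.Monic)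
    (hg : H.natDegree = g) (hh : (h - H).degree < n) : h ≠ 0 ∧ h.natDegree = g := by
  have h1 : (h - H).degree < H.degree := by
    rw [degree_eq_natDegree hH.ne_zero, hg]
    exact lt_of_lt_of_le hh (by exact_mod_cast hng)
  have h2 : (h - H + H).degree = H.degree := degree_add_eq_right_of_degree_lt h1
  rw [sub_add_cancel] at h2
  have h3 : h.natDegree = g := by
    rw [natDegree_eq_of_degree_eq h2, hg]
  refine ⟨?_, h3⟩
  intro h0
  rw [h0, degree_zero] at h2
  exact hH.ne_zero (degree_eq_bot.mp h2.symm)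

/-- two different irreducible factors of large degree -/
theorem disj {k : Type} [Field k] (p g : ℕ) (hgp : g < 2 * p) (h u u' : k[X]) (h0 : h ≠ 0)
    (hg : h.natDegree = g) (hum : u.Monic) (hum' : u'.Monic) (hu : Irreducible u)
    (hu' : Irreducible u') (hd : u.natDegree = p) (hd' : u'.natDegree = p) (h1 : u ∣ h)
    (h2 : u' ∣ h) : u = u' := by
  by_contra hne
  have h3 : ¬ u ∣ u' := by
    intro hh
    exact hne (eq_of_monic_of_associated hum hum' (hu.associated_of_dvd hu' hh))
  have h4 : IsCoprime u u' := (hu.coprime_iff_not_dvd).mpr h3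
  have h5 : u * u' ∣ h := h4.mul_dvd h1 h2
  have h6 := natDegree_le_of_dvd h5 h0
  rw [hum.natDegree_mul hum', hd, hd', hg] at h6
  omega

end PD_

open PD_ in
/-- PD: the density of the pattern -/
theorem tPD : T_VC → T_CNT → T_IRC → T_PDV → T_PD := by
  intro _ hCNT hIRC hPDV q g n p l hl hl10 hlq hp hp3 hgp hpn hng H hH hHg
  have hlp : 0 < l := hl.out.pos
  -- finiteness
  have hfin : {h : (ZMod l)[X] | (h - H).degree < n}.Finite := by
    have h1 := hCNT l n H 1 monic_one (by simp)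
    have h2 : {h : (ZMod l)[X] | (h - H).degree < n ∧ 1 ∣ h}.ncard ≠ 0 := by
      rw [h1]
      exact (pow_pos hlp _).ne'
    have h3 := Set.finite_of_ncard_ne_zero h2
    refine h3.subset ?_
    intro h hh
    exact ⟨hh, one_dvd h⟩
  have hfinP : {h : (ZMod l)[X] | (h - H).degree < n ∧ Pat q p h}.Finite :=
    hfin.subset (fun h hh => hh.1)
  have hirc := hIRC l p hl.out hp
  have hfinU : {u : (ZMod l)[X] | u.Monic ∧ Irreducible u ∧ u.natDegree = p}.Finite := by
    apply Set.finite_of_ncard_ne_zero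
    intro h0
    rw [h0, mul_zero] at hirc
    exact absurd hirc (not_le.mpr (pow_pos hlp _))
  have hgood : ∀ M : (ZMod l)[X], l ^ (n - p) ≤ 16 * (good q (n - p) M).ncard :=
    fun M => hPDV q l hl10 hlq (n - p) (by omega) M
  have hgfin : ∀ M : (ZMod l)[X], (good q (n - p) M).Finite := by
    intro M
    apply Set.finite_of_ncard_ne_zero
    intro h0
    have := hgood M
    rw [h0, mul_zero] at this
    exact absurd this (not_le.mpr (pow_pos hlp _))
  classical
  let U := hfinU.toFinset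
  let S : (ZMod l)[X] → Finset (ZMod l)[X] := fun u =>
    ((hgfin (H /ₘ u)).toFinset).image (fun m => u * m)
  have hmemU : ∀ u ∈ U, u.Monic ∧ Irreducible u ∧ u.natDegree = p := by
    intro u hu
    exact (Set.Finite.mem_toFinset hfinU).mp hu
  have hScard : ∀ u ∈ U, l ^ (n - p) ≤ 16 * (S u).card := by
    intro u hu
    have h1 : (S u).card = (good q (n - p) (H /ₘ u)).ncard := by
      rw [Set.ncard_eq_toFinset_card _ (hgfin (H /ₘ u))]
      apply Finset.card_image_of_injective
      intro m m' hmm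
      exact mul_left_cancel₀ (hmemU u hu).1.ne_zero hmm
    rw [h1]
    exact hgood _
  have hSmem : ∀ u ∈ U, ∀ h ∈ S u, (h - H).degree < n ∧ u ∣ h ∧ Pat q p h := by
    intro u hu h hh
    obtain ⟨h1, h2, h3⟩ := hmemU u hu
    obtain ⟨m, hm, rfl⟩ := Finset.mem_image.mp hh
    have hm' := (Set.Finite.mem_toFinset (hgfin (H /ₘ u))).mp hm
    refine ⟨near n p (by omega) H u m h1 h3 (by omega) hm'.1, dvd_mul_right u m,
      ⟨u, h2, h3, dvd_mul_right u m⟩, keep q u m h2 (by omega) hm'.2⟩
  have hdisj : ∀ u ∈ U, ∀ u' ∈ U, u ≠ u' → Disjoint (S u) (S u') := by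
    intro u hu u' hu' hne
    rw [Finset.disjoint_left]
    intro h h1 h2
    obtain ⟨a1, a2, a3⟩ := hmemU u hu
    obtain ⟨b1, b2, b3⟩ := hmemU u' hu'
    obtain ⟨c1, c2, _⟩ := hSmem u hu h h1
    obtain ⟨_, d2, _⟩ := hSmem u' hu' h h2
    obtain ⟨e1, e2⟩ := natDegree_near n g hng H h hH hHg c1
    exact hne (disj p g hgp h u u' e1 e2 a1 b1 a2 b2 a3 b3 c2 d2)
  have hcard : (U.biUnion S).card ≤ {h : (ZMod l)[X] | (h - H).degree < n ∧ Pat q p h}.ncard := by
    rw [Set.ncard_eq_toFinset_card _ hfinP]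
    apply Finset.card_le_card
    intro h hh
    obtain ⟨u, hu, hhu⟩ := Finset.mem_biUnion.mp hh
    obtain ⟨h1, _, h2⟩ := hSmem u hu h hhu
    exact (Set.Finite.mem_toFinset hfinP).mpr ⟨h1, h2⟩
  rw [Finset.card_biUnion hdisj] at hcard
  have hsum : U.card * l ^ (n - p) ≤ 16 * ∑ u ∈ U, (S u).card := by
    rw [Finset.mul_sum, ← smul_eq_mul, ← Finset.sum_const]
    exact Finset.sum_le_sum hScard
  have hU : {u : (ZMod l)[X] | u.Monic ∧ Irreducible u ∧ u.natDegree = p}.ncard = U.card :=
    Set.ncard_eq_toFinset_card _ hfinU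
  rw [hU] at hirc
  have hpow : l ^ n = l ^ p * l ^ (n - p) := by
    rw [← pow_add]
    congr 1
    omega
  calc l ^ n = l ^ p * l ^ (n - p) := hpow
    _ ≤ (2 * p * U.card) * l ^ (n - p) := Nat.mul_le_mul_right _ hirc
    _ = 2 * p * (U.card * l ^ (n - p)) := by ring
    _ ≤ 2 * p * (16 * ∑ u ∈ U, (S u).card) := Nat.mul_le_mul_left _ hsum
    _ ≤ 2 * p * (16 * {h : (ZMod l)[X] | (h - H).degree < n ∧ Pat q p h}.ncard) :=
        Nat.mul_le_mul_left _ (Nat.mul_le_mul_left _ hcard)
    _ = (32 * p) * {h : (ZMod l)[X] | (h - H).degree < n ∧ Pat q p h}.ncard := by ring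
    _ ≤ (64 * g) * {h : (ZMod l)[X] | (h - H).degree < n ∧ Pat q p h}.ncard :=
        Nat.mul_le_mul_right _ (by omega)

end Pool.Agent.FQW
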