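import Pool.Agent.FQW.Basic

set_option autoImplicit false

/-!
# Inert quadratic factors: Bonferroni
-/

namespace Pool.Agent.FQW

open Polynomial Finset
open scoped BigOperators

namespace PDV_

theorem bonf {α ι : Type} [DecidableEq α] [DecidableEq ι] (V : Finset ι) (A : ι → Finset α)
    (a b : ℕ) (h1 : ∀ v ∈ V, a ≤ (A v).card)
    (h2 : ∀ v ∈ V, ∀ w ∈ V, v ≠ w → (A v ∩ A w).card ≤ b) :
    V.card * a ≤ (V.biUnion A).card + b * V.card.choose 2 := by
  induction V using Finset.induction_on with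
  | empty => simp
  | insert v V hv ih =>
    have ih' := ih (fun w hw => h1 w (Finset.mem_insert_of_mem hw))
      (fun w hw w' hw' => h2 w (Finset.mem_insert_of_mem hw) w' (Finset.mem_insert_of_mem hw'))
    rw [Finset.card_insert_of_notMem hv, Finset.biUnion_insert]
    have h3 := Finset.card_union_add_card_inter (A v) (V.biUnion A)
    have h4 : (A v ∩ V.biUnion A).card ≤ V.card * b := by
      rw [Finset.inter_biUnion]
      refine Finset.card_biUnion_le_card_mul _ _ _ ?_
      intro w hw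
      refine h2 v (Finset.mem_insert_self _ _) w (Finset.mem_insert_of_mem hw) ?_
      rintro rfl
      exact hv hw
    have h5 := h1 v (Finset.mem_insert_self _ _)
    have h6 : (V.card + 1).choose 2 = V.card + V.card.choose 2 := by
      rw [Nat.choose_succ_succ' V.card 1, Nat.choose_one_right]
    rw [h6]
    nlinarith

theorem inert_irreducible {q : ℕ} {k : Type} [Field k] {v : k[X]} (hv : Inert q v) :
    Irreducible v := by
  obtain ⟨hm, hd, hQ⟩ := hv
  rw [hm.irreducible_iff_roots_eq_zero_of_degree_le_three (by omega) (by omega)]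
  by_contra hne
  obtain ⟨r, hr⟩ := Multiset.exists_mem_of_ne_zero hne
  rw [mem_roots hm.ne_zero, IsRoot.def] at hr
  have h1 : r ^ 2 + v.coeff 1 * r + v.coeff 0 = 0 := by
    have h2 := hr
    rw [eval_eq_sum_range, hd] at h2
    have h3 : v.coeff 2 = 1 := by
      have := hm.coeff_natDegree
      rwa [hd] at this
    simp only [Finset.sum_range_succ, Finset.sum_range_zero, h3] at h2
    linear_combination h2
  have h4 : (X ^ 2 + C (q : k)) ^ 2 + C (v.coeff 1) * X * (X ^ 2 + C (q : k)) +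
      C (v.coeff 0) * X ^ 2 =
      (X ^ 2 + C (-r) * X + C (q : k)) * (X ^ 2 + C (v.coeff 1 + r) * X + C (q : k)) := by
    have h5 : v.coeff 0 = - r ^ 2 - v.coeff 1 * r := by linear_combination h1
    rw [h5]
    simp only [C_add, C_sub, C_mul, C_neg, C_pow]
    ring
  rw [h4] at hQ
  have h6 : ∀ b c : k, ¬ IsUnit (X ^ 2 + C b * X + C c) := by
    intro b c hu
    have h7 := natDegree_eq_zero_of_isUnit hu
    have h8 : (X ^ 2 + C b * X + C c).natDegree = 2 := by compute_degree!
    omega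
  rcases hQ.isUnit_or_isUnit rfl with h7 | h7
  · exact h6 _ _ h7
  · exact h6 _ _ h7

theorem arith (L M C t U : ℕ) (h1 : 8 * M ≤ L) (h2 : L ≤ 8 * M + 7) (h3 : 100 ≤ L)
    (h4 : 2 * C = M * (M - 1)) (h5 : M * (t * L - t) ≤ U + t * C) : t * L ^ 2 ≤ 16 * U := by
  have hM : 1 ≤ M := by omega
  have hL : 1 ≤ L := by omega
  obtain ⟨m, rfl⟩ : ∃ m, M = m + 1 := ⟨M - 1, by omega⟩
  obtain ⟨K, rfl⟩ : ∃ K, L = K + 1 := ⟨L - 1, by omega⟩
  have h6 : t * (K + 1) - t = t * K := by
    rw [Nat.mul_succ, Nat.add_sub_cancel]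
  rw [h6] at h5
  rw [Nat.add_sub_cancel] at h4
  have h7 : (K + 1) ^ 2 + 16 * C ≤ 16 * ((m + 1) * K) := by
    have h8 : 16 * C = 8 * ((m + 1) * m) := by rw [← h4]; ring
    rw [h8]
    nlinarith
  have h9 : t * ((K + 1) ^ 2 + 16 * C) ≤ t * (16 * ((m + 1) * K)) := Nat.mul_le_mul_left t h7
  nlinarith

end PDV_

open PDV_ in
/-- PDV: inert quadratic factors -/
theorem tPDV : T_VC → T_CNT → T_PDV := by
  classical
  intro hVC hCNT q l _ hl hlq n hn H
  -- the affine space
  have hA : {h : (ZMod l)[X] | (h - H).degree < n ∧ (1 : (ZMod l)[X]) ∣ h}.Finite := by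
    apply Set.finite_of_ncard_ne_zero
    rw [hCNT l n H 1 monic_one (by simp)]
    exact pow_ne_zero _ (by omega)
  set S : Finset (ZMod l)[X] := hA.toFinset with hS
  have hmem : ∀ h : (ZMod l)[X], h ∈ S ↔ (h - H).degree < n := by
    intro h
    rw [hS, Set.Finite.mem_toFinset]
    simp
  have hcount : ∀ m : (ZMod l)[X], m.Monic → m.natDegree ≤ n →
      (S.filter fun h => m ∣ h).card = l ^ (n - m.natDegree) := by
    intro m hm hmn
    rw [← hCNT l n H m hm hmn, ← Set.ncard_coe_finset]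
    congr 1
    ext h
    rw [Finset.mem_coe, Finset.mem_filter, hmem]
    rfl
  -- the inert polynomials
  have hV : l ^ 2 / 8 ≤ {v : (ZMod l)[X] | Inert q v}.ncard := by
    have h1 := hVC q l (by omega) hlq
    omega
  have hVfin : {v : (ZMod l)[X] | Inert q v}.Finite := by
    apply Set.finite_of_ncard_ne_zero
    have h1 := hVC q l (by omega) hlq
    intro h2
    rw [h2] at h1
    have h3 : 0 < l ^ 2 := by positivity
    omega
  obtain ⟨V, hVsub, hVcard⟩ : ∃ V : Finset (ZMod l)[X], V ⊆ hVfin.toFinset ∧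
      V.card = l ^ 2 / 8 := by
    apply Finset.exists_subset_card_eq
    rw [← Set.ncard_eq_toFinset_card _ hVfin]
    exact hV
  have hVin : ∀ v ∈ V, Inert q v := fun v hv => by
    have := hVsub hv
    rwa [Set.Finite.mem_toFinset] at this
  set A : (ZMod l)[X] → Finset (ZMod l)[X] :=
    fun v => S.filter fun h => v ∣ h ∧ ¬ v ^ 2 ∣ h with hAdef
  have hLn : l ^ (n - 2) = l ^ (n - 4) * l ^ 2 := by
    rw [← pow_add]
    congr 1
    omega
  have h1 : ∀ v ∈ V, l ^ (n - 4) * l ^ 2 - l ^ (n - 4) ≤ (A v).card := by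
    intro v hv
    obtain ⟨hm, hd, -⟩ := hVin v hv
    have e1 := hcount v hm (by omega)
    have e2 := hcount (v ^ 2) (hm.pow 2) (by rw [hm.natDegree_pow]; omega)
    rw [hd] at e1
    rw [hm.natDegree_pow, hd] at e2
    have e3 : A v = (S.filter fun h => v ∣ h) \ (S.filter fun h => v ^ 2 ∣ h) := by
      ext h
      simp only [hAdef, Finset.mem_filter, Finset.mem_sdiff]
      tauto
    have e4 := Finset.le_card_sdiff (S.filter fun h => v ^ 2 ∣ h) (S.filter fun h => v ∣ h)
    rw [e1, e2, hLn] at e4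
    rw [e3]
    exact e4
  have h2 : ∀ v ∈ V, ∀ w ∈ V, v ≠ w → (A v ∩ A w).card ≤ l ^ (n - 4) := by
    intro v hv w hw hvw
    have hiv := inert_irreducible (hVin v hv)
    have hiw := inert_irreducible (hVin w hw)
    obtain ⟨hmv, hdv, -⟩ := hVin v hv
    obtain ⟨hmw, hdw, -⟩ := hVin w hw
    have hco : IsCoprime v w := by
      rw [hiv.coprime_iff_not_dvd]
      intro hdvd
      exact hvw (eq_of_monic_of_associated hmv hmw (hiv.associated_of_dvd hiw hdvd))
    have e1 := hcount (v * w) (hmv.mul hmw) (by rw [hmv.natDegree_mul hmw]; omega)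
    rw [hmv.natDegree_mul hmw, hdv, hdw] at e1
    have e2 : n - (2 + 2) = n - 4 := by omega
    rw [e2] at e1
    rw [← e1]
    apply Finset.card_le_card
    intro h hh
    simp only [hAdef, Finset.mem_inter, Finset.mem_filter] at hh
    rw [Finset.mem_filter]
    exact ⟨hh.1.1, hco.mul_dvd hh.1.2.1 hh.2.2.1⟩
  have h3 := bonf V A _ _ h1 h2
  have h4 : (V.biUnion A).card ≤ {h : (ZMod l)[X] | (h - H).degree < n ∧
      ∃ v : (ZMod l)[X], Inert q v ∧ v ∣ h ∧ ¬ v ^ 2 ∣ h}.ncard := by
    rw [← Set.ncard_coe_finset]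
    apply Set.ncard_le_ncard
    · intro h hh
      rw [Finset.mem_coe, Finset.mem_biUnion] at hh
      obtain ⟨v, hv, hh⟩ := hh
      rw [hAdef, Finset.mem_filter, hmem] at hh
      exact ⟨hh.1, v, hVin v hv, hh.2.1, hh.2.2⟩
    · apply Set.Finite.subset hA
      intro h hh
      exact ⟨hh.1, one_dvd _⟩
  have h5 : 100 ≤ l ^ 2 := by nlinarith
  have h6 : 2 * (l ^ 2 / 8).choose 2 = (l ^ 2 / 8) * (l ^ 2 / 8 - 1) := by
    rw [Nat.choose_two_right, Nat.mul_div_cancel']
    exact (Nat.even_mul_pred_self _).two_dvd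
  rw [hVcard] at h3
  have h7 := arith (l ^ 2) (l ^ 2 / 8) ((l ^ 2 / 8).choose 2) (l ^ (n - 4)) (V.biUnion A).card
    (by omega) (by omega) h5 h6 h3
  have h8 : l ^ (n - 4) * (l ^ 2) ^ 2 = l ^ n := by
    rw [← pow_mul, ← pow_add]
    congr 1
    omega
  rw [h8] at h7
  exact h7.trans (Nat.mul_le_mul_left 16 h4)

end Pool.Agent.FQW
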