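import Mathlib
import Pool.Agent.FQW.Basic

set_option autoImplicit false

/-!
# A prime a little larger than `g / 2`
-/

namespace Pool.Agent.FQW

open Filter

namespace PRG_

/-- the central binomial coefficient if there are no primes between `n` and `2 n - m` -/
theorem central_le (n m : ℕ) (hn : 2 < n) (hm : m ≤ n)
    (no_prime : ∀ p : ℕ, p.Prime → n < p → 2 * n - m < p) :
    n.centralBinom ≤ (2 * n) ^ Nat.sqrt (2 * n) * 4 ^ (2 * n / 3) * (2 * n).choose m := by
  have n_pos : 0 < n := (Nat.zero_le _).trans_lt hn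
  have n2_pos : 1 ≤ 2 * n := mul_pos (zero_lt_two' ℕ) n_pos
  let f : ℕ → ℕ := fun x => x ^ n.centralBinom.factorization x
  have hf : n.centralBinom = ∏ p ∈ Finset.range (2 * n + 1), f p :=
    n.prod_pow_factorization_centralBinom.symm
  have hnp : ∀ x : ℕ, ¬ x.Prime → f x = 1 := by
    intro x hx
    dsimp only [f]
    rw [Nat.factorization_eq_zero_of_not_prime n.centralBinom hx, pow_zero]
  have hle : ∀ x : ℕ, x.Prime → Nat.sqrt (2 * n) < x → f x ≤ x := by
    intro x hx hs
    refine (pow_right_mono₀ hx.one_lt.le ?_).trans (pow_one x).le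
    exact Nat.factorization_choose_le_one (Nat.sqrt_lt'.mp hs)
  -- the three parts
  let S := {p ∈ Finset.range (2 * n / 3 + 1) | Nat.Prime p}
  let U := {p ∈ Finset.range (2 * n + 1) | Nat.Prime p ∧ n < p}
  have h1 : n.centralBinom = (∏ p ∈ S, f p) * ∏ p ∈ U, f p := by
    have hd : Disjoint S U := by
      rw [Finset.disjoint_left]
      intro p hp hq
      have h1 := Finset.mem_range.1 (Finset.mem_filter.1 hp).1
      have h2 := (Finset.mem_filter.1 hq).2.2
      omega
    rw [hf, ← Finset.prod_union hd]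
    symm
    apply Finset.prod_subset
    · intro p hp
      rcases Finset.mem_union.1 hp with hp | hp
      · have h1 := Finset.mem_range.1 (Finset.mem_filter.1 hp).1
        rw [Finset.mem_range]
        omega
      · exact (Finset.mem_filter.1 hp).1
    · intro x hx hxn
      by_cases hxp : x.Prime
      · rw [Finset.mem_union, not_or] at hxn
        have h2 : ¬ x < 2 * n / 3 + 1 := fun h =>
          hxn.1 (Finset.mem_filter.2 ⟨Finset.mem_range.2 h, hxp⟩)
        have h3 : ¬ n < x := fun h => hxn.2 (Finset.mem_filter.2 ⟨hx, hxp, h⟩)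
        dsimp only [f]
        rw [Nat.factorization_centralBinom_of_two_mul_self_lt_three_mul hn (by omega) (by omega),
          pow_zero]
      · exact hnp x hxp
  have h2 : ∏ p ∈ S, f p ≤ (2 * n) ^ Nat.sqrt (2 * n) * 4 ^ (2 * n / 3) := by
    rw [← Finset.prod_filter_mul_prod_filter_not S (· ≤ Nat.sqrt (2 * n))]
    apply mul_le_mul'
    · refine (Finset.prod_le_prod' fun p _ => (?_ : f p ≤ 2 * n)).trans ?_
      · exact Nat.pow_factorization_choose_le (mul_pos two_pos n_pos)
      have : (Finset.Icc 1 (Nat.sqrt (2 * n))).card = Nat.sqrt (2 * n) := by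
        rw [Nat.card_Icc, Nat.add_sub_cancel]
      rw [Finset.prod_const]
      refine pow_right_mono₀ n2_pos ((Finset.card_le_card fun x hx => ?_).trans this.le)
      obtain ⟨h1, h2⟩ := Finset.mem_filter.1 hx
      exact Finset.mem_Icc.mpr ⟨(Finset.mem_filter.1 h1).2.one_lt.le, h2⟩
    · refine le_trans ?_ (primorial_le_four_pow (2 * n / 3))
      refine (Finset.prod_le_prod' fun p hp => (?_ : f p ≤ p)).trans ?_
      · obtain ⟨h1, h2⟩ := Finset.mem_filter.1 hp
        exact hle p (Finset.mem_filter.1 h1).2 (not_le.1 h2)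
      refine Finset.prod_le_prod_of_subset_of_one_le' (Finset.filter_subset _ _) ?_
      exact fun p hp _ => (Finset.mem_filter.1 hp).2.one_lt.le
  have h3 : ∏ p ∈ U, f p ≤ (2 * n).choose m := by
    have hs : Nat.sqrt (2 * n) ≤ n := by
      have h9 : Nat.sqrt (2 * n) < n + 1 := Nat.sqrt_lt'.2 (by nlinarith)
      omega
    have h4 : ∏ p ∈ U, f p ≤ ∏ p ∈ U, p := by
      apply Finset.prod_le_prod'
      intro p hp
      have h5 := (Finset.mem_filter.1 hp).2
      exact hle p h5.1 (lt_of_le_of_lt hs h5.2)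
    refine h4.trans ?_
    apply Nat.le_of_dvd (Nat.choose_pos (by omega))
    apply Finset.prod_primes_dvd
    · intro p hp
      exact (Finset.mem_filter.1 hp).2.1.prime
    · intro p hp
      have h5 := (Finset.mem_filter.1 hp).2
      have h6 := Finset.mem_range.1 (Finset.mem_filter.1 hp).1
      exact h5.1.dvd_choose (by omega) (no_prime p h5.1 h5.2) (by omega)
  rw [h1]
  exact mul_le_mul' h2 h3

/-- a bound for the binomial coefficient -/
theorem choose_le (n : ℕ) (hn : 8400 ≤ n) : (2 * n).choose (n / 20) ≤ 4 ^ (5 * (n / 20)) := by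
  set m := n / 20 with hm
  have hm0 : 0 < m := by omega
  have hm1 : n ≤ 21 * m := by omega
  have h1 : ((2 * n).choose m : ℝ) ≤ ((2 * n : ℕ) : ℝ) ^ m / (m.factorial : ℝ) :=
    Nat.choose_le_pow_div m (2 * n)
  have h2 : (m : ℝ) ^ m / (m.factorial : ℝ) ≤ Real.exp m :=
    Real.pow_div_factorial_le_exp (m : ℝ) (Nat.cast_nonneg _) m
  have h3 : Real.exp (m : ℝ) ≤ 3 ^ m := by
    rw [show (m : ℝ) = m * 1 by ring, Real.exp_nat_mul]
    gcongr
    have := Real.exp_one_lt_d9
    linarith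
  have hf : (0 : ℝ) < m.factorial := by exact_mod_cast Nat.factorial_pos m
  have h4 : ((2 * n : ℕ) : ℝ) ^ m ≤ 42 ^ m * (m : ℝ) ^ m := by
    rw [← mul_pow]
    gcongr
    have : (n : ℝ) ≤ 21 * m := by exact_mod_cast hm1
    push_cast
    linarith
  have h5 : ((2 * n).choose m : ℝ) ≤ (4 : ℝ) ^ (5 * m) := by
    calc ((2 * n).choose m : ℝ) ≤ ((2 * n : ℕ) : ℝ) ^ m / (m.factorial : ℝ) := h1
      _ ≤ 42 ^ m * (m : ℝ) ^ m / (m.factorial : ℝ) := by gcongr
      _ = 42 ^ m * ((m : ℝ) ^ m / (m.factorial : ℝ)) := by ring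
      _ ≤ 42 ^ m * 3 ^ m := by
          gcongr
          exact le_trans h2 h3
      _ = 126 ^ m := by rw [← mul_pow]; norm_num
      _ ≤ (4 ^ 5) ^ m := by gcongr; norm_num
      _ = (4 : ℝ) ^ (5 * m) := by rw [pow_mul]
  exact_mod_cast h5

/-- the main inequality -/
theorem main_ineq : ∀ᶠ n : ℕ in atTop,
    n * ((2 * n) ^ Nat.sqrt (2 * n) * 4 ^ (2 * n / 3) * 4 ^ (5 * (n / 20))) ≤ 4 ^ n := by
  have hc : Tendsto (fun n : ℕ => ((2 * n : ℕ) : ℝ)) atTop atTop := by
    have h1 : Tendsto (fun n : ℕ => 2 * n) atTop atTop :=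
      tendsto_id.const_mul_atTop' (by norm_num)
    exact tendsto_natCast_atTop_atTop.comp h1
  have h1 := hc.eventually ((isLittleO_log_rpow_atTop (r := 1 / 2) (by norm_num)).bound
    (show (0 : ℝ) < 1 / 100 by norm_num))
  filter_upwards [h1, eventually_ge_atTop 1] with n hn hn1
  have hn0 : (0 : ℝ) < n := by exact_mod_cast hn1
  have hn1' : (1 : ℝ) ≤ n := by exact_mod_cast hn1
  have hlog : 0 ≤ Real.log ((2 * n : ℕ) : ℝ) := Real.log_natCast_nonneg _
  rw [Real.norm_of_nonneg hlog, Real.norm_of_nonneg (by positivity), ← Real.sqrt_eq_rpow] at hn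
  have h2 : ((n : ℝ) * (((2 * n : ℕ) : ℝ) ^ Nat.sqrt (2 * n) * 4 ^ (2 * n / 3) *
      4 ^ (5 * (n / 20)))) ≤ 4 ^ n := by
    have hp : (0 : ℝ) < (n : ℝ) * (((2 * n : ℕ) : ℝ) ^ Nat.sqrt (2 * n) * 4 ^ (2 * n / 3) *
      4 ^ (5 * (n / 20))) := by positivity
    rw [← Real.log_le_log_iff hp (by positivity)]
    have h2n : (((2 * n : ℕ) : ℝ)) ≠ 0 := by
      have : (0 : ℝ) < ((2 * n : ℕ) : ℝ) := by exact_mod_cast (by omega : 0 < 2 * n)
      exact this.ne'
    rw [Real.log_mul hn0.ne' (by positivity), Real.log_mul (by positivity) (by positivity),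
      Real.log_mul (by positivity) (by positivity), Real.log_pow, Real.log_pow, Real.log_pow,
      Real.log_pow]
    have hs : (Nat.sqrt (2 * n) : ℝ) ≤ √((2 * n : ℕ) : ℝ) := Real.nat_sqrt_le_real_sqrt
    have hs2 : √((2 * n : ℕ) : ℝ) * √((2 * n : ℕ) : ℝ) = 2 * n := by
      rw [Real.mul_self_sqrt (by positivity)]
      push_cast
      ring
    have hs0 : 0 ≤ √((2 * n : ℕ) : ℝ) := Real.sqrt_nonneg _
    have hs3 : √((2 * n : ℕ) : ℝ) ≤ 2 * n := by
      have h5 : 1 ≤ √((2 * n : ℕ) : ℝ) := by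
        rw [Real.one_le_sqrt]
        push_cast
        linarith
      nlinarith
    have hA : (Nat.sqrt (2 * n) : ℝ) * Real.log ((2 * n : ℕ) : ℝ) ≤ n / 50 := by
      calc (Nat.sqrt (2 * n) : ℝ) * Real.log ((2 * n : ℕ) : ℝ)
          ≤ √((2 * n : ℕ) : ℝ) * (1 / 100 * √((2 * n : ℕ) : ℝ)) := by gcongr
        _ = 1 / 100 * (√((2 * n : ℕ) : ℝ) * √((2 * n : ℕ) : ℝ)) := by ring
        _ = n / 50 := by rw [hs2]; ring
    have hB : Real.log (n : ℝ) ≤ n / 50 := by
      have h6 : Real.log (n : ℝ) ≤ Real.log ((2 * n : ℕ) : ℝ) := by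
        apply Real.log_le_log hn0
        push_cast
        linarith
      linarith
    have hC : ((2 * n / 3 : ℕ) : ℝ) ≤ 2 * n / 3 := by
      have := @Nat.cast_div_le ℝ _ _ _ (2 * n) 3
      push_cast at this
      linarith
    have hD : ((5 * (n / 20) : ℕ) : ℝ) ≤ n / 4 := by
      have := @Nat.cast_div_le ℝ _ _ _ n 20
      push_cast at this ⊢
      linarith
    have hE : 1 ≤ Real.log 4 := by
      have h7 : Real.log 4 = 2 * Real.log 2 := by
        rw [show (4 : ℝ) = 2 ^ 2 by norm_num, Real.log_pow]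
        norm_num
      have := Real.log_two_gt_d9
      linarith
    have hF : (((2 * n / 3 : ℕ) : ℝ) + ((5 * (n / 20) : ℕ) : ℝ)) * Real.log 4 ≤
        (11 / 12 * n) * Real.log 4 := by
      gcongr
      linarith
    have hG : (n : ℝ) / 12 * 1 ≤ n / 12 * Real.log 4 := by gcongr
    nlinarith
  exact_mod_cast h2

end PRG_

theorem tPRG : T_PRG := by
  obtain ⟨n₀, h₀⟩ := eventually_atTop.1 PRG_.main_ineq
  refine ⟨2 * n₀ + 20000, fun g hg => ?_⟩
  set n := (g + 1) / 2 with hn
  have hn1 : n₀ ≤ n := by omega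
  have hn2 : 8400 ≤ n := by omega
  have key : ∃ p : ℕ, p.Prime ∧ n < p ∧ p ≤ 2 * n - n / 20 := by
    by_contra hno
    push Not at hno
    have h1 := PRG_.central_le n (n / 20) (by omega) (by omega) hno
    have h2 : 4 ^ n < n * n.centralBinom := Nat.four_pow_lt_mul_centralBinom n (by omega)
    have h3 := PRG_.choose_le n hn2
    have h4 := h₀ n hn1
    have h5 : n * n.centralBinom ≤
        n * ((2 * n) ^ Nat.sqrt (2 * n) * 4 ^ (2 * n / 3) * 4 ^ (5 * (n / 20))) :=
      Nat.mul_le_mul_left _ (le_trans h1 (Nat.mul_le_mul_left _ h3))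
    omega
  obtain ⟨p, hp, hp1, hp2⟩ := key
  exact ⟨p, hp, by omega, by omega⟩

end Pool.Agent.FQW
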