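import Mathlib
import Pool.Agent.FQW.Basic

set_option autoImplicit false

/-!
# RED: reducible polynomials in a box
-/

namespace Pool.Agent.FQW

open Polynomial Finset
open scoped BigOperators

namespace RED_

theorem exists_enum (s : Multiset ℝ) (d : ℕ) (h : Multiset.card s = d) :
    ∃ f : Fin d → ℝ, Monotone f ∧ Multiset.map f univ.val = s := by
  subst h
  induction s using Quotient.inductionOn with
  | _ l =>
    refine ⟨l.get ∘ Tuple.sort l.get, Tuple.monotone_sort _, ?_⟩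
    have h1 : Multiset.map (l.get ∘ Tuple.sort l.get) (univ : Finset (Fin l.length)).val =
        Multiset.map l.get (univ : Finset (Fin l.length)).val := by
      rw [← Multiset.map_map]
      congr 1
      have := Finset.map_univ_equiv (Tuple.sort l.get)
      have h2 := congrArg Finset.val this
      rw [Finset.map_val] at h2
      exact h2
    refine h1.trans ?_
    rw [Fin.univ_val_map, List.ofFn_get]
    rfl

theorem factor_mem (q g d : ℕ) (a : Fin g → ℤ) (ha : a ∈ P q g) (b : Fin d → ℤ)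
    (h : HZ q b ∣ HZ q a) : b ∈ P q d := by
  obtain ⟨τ, _, hτ, hA⟩ := ha
  set H := (HZ q b).map (Int.castRingHom ℝ) with hH
  have hHm : H.Monic := (HZ_monic q b).map _
  have hHd : H.natDegree = d := by rw [hH, (HZ_monic q b).natDegree_map, HZ_natDegree]
  have hdvd : H ∣ ∏ i, (X - C (τ i)) := by
    rw [← hA]; exact Polynomial.map_dvd _ h
  have hne : ∏ i, (X - C (τ i)) ≠ 0 := (monic_prod_of_monic _ _ (fun i _ => monic_X_sub_C _)).ne_zero
  have hspl : H.Splits :=
    Polynomial.Splits.of_dvd (Polynomial.Splits.prod (fun i _ => Polynomial.Splits.X_sub_C _)) hne hdvd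
  have hcard : Multiset.card H.roots = H.natDegree := Polynomial.splits_iff_card_roots.mp hspl
  obtain ⟨f, hf, hfr⟩ := exists_enum H.roots d (by rw [hcard, hHd])
  refine ⟨f, hf, ?_, ?_⟩
  · intro i
    have h1 : f i ∈ H.roots := by
      rw [← hfr]; exact Multiset.mem_map_of_mem f (mem_univ_val i)
    have h2 : (∏ i, (X - C (τ i))).IsRoot (f i) := by
      have := (mem_roots hHm.ne_zero).mp h1
      exact this.dvd hdvd
    rw [IsRoot, eval_prod] at h2
    obtain ⟨j, _, hj⟩ := Finset.prod_eq_zero_iff.mp h2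
    rw [eval_sub, eval_X, eval_C] at hj
    rw [show f i = τ j by linarith]
    exact hτ j
  · have h1 := Polynomial.prod_multiset_X_sub_C_of_monic_of_roots_card_eq hHm hcard
    rw [← hfr, Multiset.map_map] at h1
    exact h1.symm

/-- a factor of small degree -/
theorem exists_factor (q g : ℕ) (hg : 1 ≤ g) (a : Fin g → ℤ) (ha : a ∈ P q g)
    (h : ¬ Irreducible (HZ q a)) :
    ∃ d ∈ Finset.Icc 1 (g / 2), ∃ b ∈ P q d, HZ q b ∣ HZ q a := by
  have hm := HZ_monic q a
  have hd := HZ_natDegree q a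
  rw [hm.irreducible_iff_natDegree'] at h
  push Not at h
  obtain ⟨u, w, hu, hw, huw, hmem⟩ := h (by
    intro h1
    rw [h1, natDegree_one] at hd
    omega)
  rw [hd, Finset.mem_Ioc] at hmem
  obtain ⟨b, hb⟩ := HZ_surj q w.natDegree w hw rfl
  have hdvd : HZ q b ∣ HZ q a := ⟨u, by rw [← hb, ← huw, mul_comm]⟩
  exact ⟨w.natDegree, Finset.mem_Icc.mpr ⟨hmem.1, hmem.2⟩, b, factor_mem q g _ a ha b hdvd, hdvd⟩

theorem box_finite (g n : ℕ) (B : Fin n → ℕ) (hB : ∀ j, 1 ≤ B j) (c : Fin g → ℤ) :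
    {a : Fin g → ℤ | idx n B a = c}.Finite := by
  refine (Set.finite_Icc (fun i => min (c i) (if h : (i : ℕ) < n then c i * (B ⟨i, h⟩ : ℤ) else c i))
    (fun i => if h : (i : ℕ) < n then c i * (B ⟨i, h⟩ : ℤ) + (B ⟨i, h⟩ : ℤ) else c i)).subset ?_
  intro a ha
  rw [Set.mem_Icc, Pi.le_def, Pi.le_def]
  have key : ∀ i : Fin g, (if h : (i : ℕ) < n then c i * (B ⟨i, h⟩ : ℤ) else c i) ≤ a i ∧
      a i ≤ (if h : (i : ℕ) < n then c i * (B ⟨i, h⟩ : ℤ) + (B ⟨i, h⟩ : ℤ) else c i) := by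
    intro i
    have h1 := congrFun (show idx n B a = c from ha) i
    by_cases h : (i : ℕ) < n
    · simp only [idx, h, dif_pos] at h1 ⊢
      have hBpos : (0 : ℤ) < (B ⟨i, h⟩ : ℤ) := by exact_mod_cast hB _
      have h3 := Int.mul_ediv_self_le (x := a i) (k := (B ⟨i, h⟩ : ℤ)) hBpos.ne'
      have h4 := Int.lt_mul_ediv_self_add (x := a i) (k := (B ⟨i, h⟩ : ℤ)) hBpos
      rw [h1] at h3 h4
      constructor
      · rw [mul_comm]; exact h3
      · rw [mul_comm (c i)]; exact h4.le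
    · simp only [idx, h, dif_neg, not_false_eq_true] at h1 ⊢
      exact ⟨h1.ge, h1.le⟩
  exact ⟨fun i => (min_le_right _ _).trans (key i).1, fun i => (key i).2⟩

theorem low_prod (n d : ℕ) (h : d ≤ n) (f : ℕ → ℝ) :
    ∏ j ∈ univ.filter (fun j : Fin n => ¬ d ≤ (j : ℕ)), f j = ∏ j ∈ range d, f j := by
  rw [Finset.prod_filter, Fin.prod_univ_eq_prod_range (fun j => if ¬ d ≤ j then f j else 1) n,
    ← Finset.prod_filter]
  refine Finset.prod_congr ?_ (fun _ _ => rfl)
  ext j
  simp only [mem_filter, mem_range]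
  omega

theorem sigma (g d : ℕ) (h : d ≤ g) :
    ∑ j ∈ range d, (g - j) = d * (d + 1) / 2 + d * (g - d) := by
  induction d with
  | zero => simp
  | succ d ih =>
    rw [sum_range_succ, ih (by omega)]
    have h1 : 2 * (d * (d + 1) / 2) = d * (d + 1) :=
      Nat.mul_div_cancel' (Nat.even_mul_succ_self d).two_dvd
    have h2 : 2 * ((d + 1) * (d + 1 + 1) / 2) = (d + 1) * (d + 1 + 1) :=
      Nat.mul_div_cancel' (Nat.even_mul_succ_self (d + 1)).two_dvd
    obtain ⟨m, rfl⟩ := Nat.exists_eq_add_of_le h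
    rw [show d + 1 + m - d = m + 1 by omega, show d + 1 + m - (d + 1) = m by omega]
    nlinarith

theorem ev1 (C γ : ℝ) (hγ : 0 < γ) : ∃ g₀ : ℕ, ∀ g : ℕ, g₀ ≤ g → 1 ≤ g ∧
    C * Real.exp (-(γ * g)) ≤ 1 ∧ C * g * Real.exp (-(γ * g)) ≤ 1 := by
  have h1 : Filter.Tendsto (fun x : ℝ => Real.exp (-(γ * x))) Filter.atTop (nhds 0) := by
    apply Real.tendsto_exp_neg_atTop_nhds_zero.comp
    exact Filter.tendsto_id.const_mul_atTop hγ
  have h2 : Filter.Tendsto (fun x : ℝ => x * Real.exp (-(γ * x))) Filter.atTop (nhds 0) := by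
    have := Real.tendsto_pow_mul_exp_neg_atTop_nhds_zero 1
    have h3 := (this.comp (Filter.tendsto_id.const_mul_atTop hγ)).const_mul (1 / γ)
    rw [mul_zero] at h3
    refine h3.congr (fun x => ?_)
    simp only [Function.comp, pow_one, id]
    field_simp
  have h3 := (h1.const_mul C).comp (tendsto_natCast_atTop_atTop (R := ℝ))
  have h4 := (h2.const_mul C).comp (tendsto_natCast_atTop_atTop (R := ℝ))
  rw [mul_zero] at h3 h4
  have h5 := h3.eventually_le_const (show (0 : ℝ) < 1 by norm_num)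
  have h6 := h4.eventually_le_const (show (0 : ℝ) < 1 by norm_num)
  obtain ⟨g₀, hg₀⟩ := Filter.eventually_atTop.mp
    (h5.and (h6.and (Filter.eventually_ge_atTop (α := ℕ) 1)))
  refine ⟨g₀, fun g hg => ?_⟩
  obtain ⟨a1, a2, a3⟩ := hg₀ g hg
  refine ⟨a3, a1, ?_⟩
  simp only [Function.comp] at a2
  linarith

end RED_

open RED_ in
theorem tRED : T_FINP → T_TOP → T_REDA → T_RED := by
  intro hFIN hTOP hREDA q hq γ hγ hγ4
  have hQ1 : 1 ≤ √(q : ℝ) := Real.one_le_sqrt.mpr (by exact_mod_cast (by omega : 1 ≤ q))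
  have hQ0 : 0 < √(q : ℝ) := by linarith
  set Q := √(q : ℝ) with hQ
  set C := 4 * Real.exp 10 * Q with hC
  obtain ⟨g₀, hg₀⟩ := ev1 C γ hγ
  refine ⟨g₀, fun g hg n hn hgn B hB c => ?_⟩
  obtain ⟨hg1, hs1, hs2⟩ := hg₀ g hg
  have hBpos : ∀ j, 1 ≤ B j := by
    intro j
    have h1 := hB j
    have h2 : 0 < Q ^ (g - (j : ℕ)) * Real.exp (-(γ * g)) := by positivity
    have h3 : (0 : ℝ) < B j := by linarith
    exact_mod_cast h3
  have hBP : (0 : ℝ) < ∏ j, (B j : ℝ) := prod_pos (fun j _ => by exact_mod_cast hBpos j)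
  set y := Real.exp (-(γ * g)) with hy
  have hy0 : 0 < y := Real.exp_pos _
  have he10 : Real.exp 10 = Real.exp 5 ^ 2 := by rw [← Real.exp_nat_mul]; norm_num
  have he5 : 1 ≤ Real.exp 5 := Real.one_le_exp (by norm_num)
  -- powers of Q
  have hQpow : ∀ m : ℕ, Real.exp (4 * γ * m) ≤ Q ^ m := by
    intro m
    have h1 : Real.exp (4 * γ) ≤ Q := by
      rw [← Real.exp_log hQ0]
      exact Real.exp_le_exp.mpr hγ4
    calc Real.exp (4 * γ * m) = Real.exp (4 * γ) ^ m := by
          rw [← Real.exp_nat_mul]; congr 1; ring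
      _ ≤ Q ^ m := pow_le_pow_left₀ (Real.exp_pos _).le h1 m
  -- one degree
  have hterm : ∀ d ∈ Finset.Icc 1 (g / 2), (((P q d).ncard : ℕ) : ℝ) *
      ((∏ j ∈ univ.filter (fun j : Fin n => d ≤ (j : ℕ)), B j : ℕ) : ℝ) ≤
      C * y ^ 2 * ∏ j, (B j : ℝ) := by
    intro d hd
    rw [Finset.mem_Icc] at hd
    have hdg : d ≤ g := by omega
    have hdn : d ≤ n := by omega
    set A := ∏ j ∈ univ.filter (fun j : Fin n => ¬ d ≤ (j : ℕ)), (B j : ℝ) with hA
    set R := ∏ j ∈ univ.filter (fun j : Fin n => d ≤ (j : ℕ)), (B j : ℝ) with hR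
    have hAR : R * A = ∏ j, (B j : ℝ) :=
      Finset.prod_filter_mul_prod_filter_not univ (fun j : Fin n => d ≤ (j : ℕ)) (fun j => (B j : ℝ))
    have hA0 : 0 < A := prod_pos (fun j _ => by exact_mod_cast hBpos j)
    have hR0 : 0 < R := prod_pos (fun j _ => by exact_mod_cast hBpos j)
    -- lower bound for A
    have hA2 : Q ^ (∑ j ∈ range d, (g - j)) * y ^ d ≤ 2 ^ d * A := by
      have h1 : ∏ j ∈ univ.filter (fun j : Fin n => ¬ d ≤ (j : ℕ)), (Q ^ (g - (j : ℕ)) * y) ≤
          ∏ j ∈ univ.filter (fun j : Fin n => ¬ d ≤ (j : ℕ)), (2 * (B j : ℝ)) :=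
        prod_le_prod (fun j _ => by positivity) (fun j _ => hB j)
      rw [low_prod n d hdn (fun j => Q ^ (g - j) * y)] at h1
      have h2 : ∏ j ∈ univ.filter (fun j : Fin n => ¬ d ≤ (j : ℕ)), (2 * (B j : ℝ)) = 2 ^ d * A := by
        rw [Finset.prod_mul_distrib, low_prod n d hdn (fun _ => (2 : ℝ)), Finset.prod_const,
          Finset.card_range]
      rw [h2, Finset.prod_mul_distrib, Finset.prod_const, Finset.card_range,
        Finset.prod_pow_eq_pow_sum] at h1
      exact h1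
    have hP : (((P q d).ncard : ℕ) : ℝ) ≤ Real.exp (5 * d) * Q ^ (d * (d + 1) / 2) := by
      have h1 := hTOP q d 0 hq (Nat.zero_le _)
      have h2 : topPart 0 '' P q d = P q d := by
        have : (topPart 0 : (Fin d → ℤ) → (Fin d → ℤ)) = id := by
          funext a; funext i; simp [topPart]
        rw [this, Set.image_id]
      rw [h2, Nat.sub_zero] at h1
      exact h1
    -- combine
    rw [sigma g d hdg, pow_add] at hA2
    have hQd : 0 < Q ^ (d * (g - d)) := by positivity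
    have h5d : Real.exp (5 * d) = Real.exp 5 ^ d := by
      rw [← Real.exp_nat_mul]; congr 1; ring
    have hyd : 0 < y ^ d := by positivity
    have hmain : (((P q d).ncard : ℕ) : ℝ) * (Q ^ (d * (g - d)) * y ^ d) ≤
        (2 * Real.exp 5) ^ d * A := by
      calc (((P q d).ncard : ℕ) : ℝ) * (Q ^ (d * (g - d)) * y ^ d)
          ≤ (Real.exp (5 * d) * Q ^ (d * (d + 1) / 2)) * (Q ^ (d * (g - d)) * y ^ d) :=
            mul_le_mul_of_nonneg_right hP (by positivity)
        _ = Real.exp 5 ^ d * (Q ^ (d * (d + 1) / 2) * Q ^ (d * (g - d)) * y ^ d) := by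
            rw [h5d]; ring
        _ ≤ Real.exp 5 ^ d * (2 ^ d * A) := mul_le_mul_of_nonneg_left hA2 (by positivity)
        _ = (2 * Real.exp 5) ^ d * A := by rw [mul_pow]; ring
    -- the power of x_d
    have hx : (2 * Real.exp 5) ^ d ≤ C * y ^ 2 * (Q ^ (d * (g - d)) * y ^ d) := by
      rcases Nat.lt_or_ge d 2 with hd2 | hd2
      · have hd1 : d = 1 := by omega
        rw [hd1, pow_one, one_mul, pow_one]
        have h1 : Real.exp (4 * γ * g) ≤ Q * Q ^ (g - 1) := by
          have : Q * Q ^ (g - 1) = Q ^ g := by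
            rw [← pow_succ']; congr 1; omega
          rw [this]; exact hQpow g
        have h2 : Real.exp (4 * γ * g) * y ^ 4 = 1 := by
          rw [hy, ← Real.exp_nat_mul, ← Real.exp_add]
          rw [Real.exp_eq_one_iff]; push_cast; ring
        have h3 : y ≤ 1 := Real.exp_le_one_iff.mpr (by
          have : 0 ≤ γ * g := by positivity
          linarith)
        have h4 : 1 ≤ Q * Q ^ (g - 1) * y ^ 3 := by
          calc (1 : ℝ) = Real.exp (4 * γ * g) * y ^ 4 := h2.symm
            _ ≤ Real.exp (4 * γ * g) * y ^ 3 :=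
                mul_le_mul_of_nonneg_left (pow_le_pow_of_le_one hy0.le h3 (by norm_num)) (by positivity)
            _ ≤ Q * Q ^ (g - 1) * y ^ 3 := mul_le_mul_of_nonneg_right h1 (by positivity)
        have h5 : C * y ^ 2 * (Q ^ (g - 1) * y) = 4 * Real.exp 5 ^ 2 * (Q * Q ^ (g - 1) * y ^ 3) := by
          rw [hC, he10]; ring
        rw [h5]
        have h6 : Real.exp 5 ≤ Real.exp 5 ^ 2 := by nlinarith
        have h7 : 4 * Real.exp 5 ^ 2 * 1 ≤ 4 * Real.exp 5 ^ 2 * (Q * Q ^ (g - 1) * y ^ 3) :=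
          mul_le_mul_of_nonneg_left h4 (by positivity)
        linarith
      · -- d ≥ 2
        have h1 : 1 ≤ Q ^ (g - d) * y ^ 2 := by
          have h2 : Real.exp (2 * γ * g) ≤ Q ^ (g - d) := by
            refine le_trans (Real.exp_le_exp.mpr ?_) (hQpow (g - d))
            have h3 : (g : ℝ) ≤ 2 * ((g - d : ℕ) : ℝ) := by
              have : g ≤ 2 * (g - d) := by omega
              exact_mod_cast this
            nlinarith
          have h3 : Real.exp (2 * γ * g) * y ^ 2 = 1 := by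
            rw [hy, ← Real.exp_nat_mul, ← Real.exp_add, Real.exp_eq_one_iff]; push_cast; ring
          rw [← h3]
          exact mul_le_mul_of_nonneg_right h2 (by positivity)
        have h2 : 2 * Real.exp 5 * y ≤ 1 := by
          refine le_trans ?_ hs1
          refine mul_le_mul_of_nonneg_right ?_ hy0.le
          rw [hC, he10]
          nlinarith [mul_nonneg (sq_nonneg (Real.exp 5)) (by linarith : (0 : ℝ) ≤ Q - 1)]
        have h3 : (2 * Real.exp 5 * y) ^ d ≤ (2 * Real.exp 5 * y) ^ 2 :=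
          pow_le_pow_of_le_one (by positivity) h2 hd2
        have h4 : (2 * Real.exp 5 * y) ^ 2 ≤ C * y ^ 2 := by
          rw [hC, he10]
          have : 0 ≤ 4 * Real.exp 5 ^ 2 * y ^ 2 := by positivity
          nlinarith
        have h5 : 1 ≤ (Q ^ (g - d) * y ^ 2) ^ d := one_le_pow₀ h1
        have h6 : Q ^ (d * (g - d)) * y ^ d * y ^ d = (Q ^ (g - d) * y ^ 2) ^ d := by
          rw [mul_pow, ← pow_mul, ← pow_mul, mul_assoc, ← pow_add, mul_comm d (g - d)]
          congr 2; omega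
        calc (2 * Real.exp 5) ^ d ≤ (2 * Real.exp 5) ^ d * (Q ^ (d * (g - d)) * y ^ d * y ^ d) := by
              rw [h6]
              exact le_mul_of_one_le_right (by positivity) h5
          _ = (2 * Real.exp 5 * y) ^ d * (Q ^ (d * (g - d)) * y ^ d) := by
              rw [mul_pow (2 * Real.exp 5) y]; ring
          _ ≤ C * y ^ 2 * (Q ^ (d * (g - d)) * y ^ d) :=
              mul_le_mul_of_nonneg_right (h3.trans h4) (by positivity)
    have hfin : (((P q d).ncard : ℕ) : ℝ) ≤ C * y ^ 2 * A := by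
      have h1 : (((P q d).ncard : ℕ) : ℝ) * (Q ^ (d * (g - d)) * y ^ d) ≤
          (C * y ^ 2 * A) * (Q ^ (d * (g - d)) * y ^ d) := by
        refine hmain.trans ?_
        calc (2 * Real.exp 5) ^ d * A ≤ (C * y ^ 2 * (Q ^ (d * (g - d)) * y ^ d)) * A :=
              mul_le_mul_of_nonneg_right hx hA0.le
          _ = _ := by ring
      exact le_of_mul_le_mul_right h1 (by positivity)
    push_cast
    calc (((P q d).ncard : ℕ) : ℝ) * R ≤ (C * y ^ 2 * A) * R :=
          mul_le_mul_of_nonneg_right hfin hR0.le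
      _ = C * y ^ 2 * (R * A) := by ring
      _ = _ := by rw [hAR]
  -- the union
  set S : Set (Fin g → ℤ) := {a ∈ P q g | idx n B a = c ∧ ¬ Irreducible (HZ q a)} with hS
  set W : (d : ℕ) → (Fin d → ℤ) → Set (Fin g → ℤ) :=
    fun d b => {a : Fin g → ℤ | idx n B a = c ∧ HZ q b ∣ HZ q a} with hW
  have hsub : S ⊆ ⋃ d ∈ Finset.Icc 1 (g / 2), ⋃ b ∈ (hFIN q d).toFinset, W d b := by
    rintro a ⟨haP, hac, hair⟩
    obtain ⟨d, hd, b, hb, hdvd⟩ := exists_factor q g hg1 a haP hair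
    simp only [Set.mem_iUnion]
    exact ⟨d, hd, b, by rw [Set.Finite.mem_toFinset]; exact hb, hac, hdvd⟩
  have hfinU : (⋃ d ∈ Finset.Icc 1 (g / 2), ⋃ b ∈ (hFIN q d).toFinset, W d b).Finite := by
    refine (box_finite g n B hBpos c).subset ?_
    intro a ha
    simp only [Set.mem_iUnion] at ha
    obtain ⟨d, _, b, _, h⟩ := ha
    exact h.1
  have hcount : S.ncard ≤ ∑ d ∈ Finset.Icc 1 (g / 2), (P q d).ncard *
      ∏ j ∈ univ.filter (fun j : Fin n => d ≤ (j : ℕ)), B j := by
    refine (Set.ncard_le_ncard hsub hfinU).trans ?_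
    refine (Finset.set_ncard_biUnion_le _ _).trans ?_
    refine sum_le_sum (fun d hd => ?_)
    refine (Finset.set_ncard_biUnion_le _ _).trans ?_
    rw [Set.ncard_eq_toFinset_card (P q d) (hFIN q d), ← smul_eq_mul]
    refine Finset.sum_le_card_nsmul _ _ _ (fun b _ => ?_)
    have h1 := hREDA q g n hn B hBpos c (HZ q b) (HZ_monic q b) (by
      rw [HZ_natDegree]
      rw [Finset.mem_Icc] at hd
      omega)
    rw [HZ_natDegree] at h1
    exact h1
  have hcount' : ((S.ncard : ℕ) : ℝ) ≤ ∑ d ∈ Finset.Icc 1 (g / 2), (((P q d).ncard : ℕ) : ℝ) *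
      ((∏ j ∈ univ.filter (fun j : Fin n => d ≤ (j : ℕ)), B j : ℕ) : ℝ) := by
    exact_mod_cast hcount
  refine hcount'.trans ((sum_le_sum hterm).trans ?_)
  rw [Finset.sum_const, nsmul_eq_mul, Nat.card_Icc]
  have hle : ((g / 2 + 1 - 1 : ℕ) : ℝ) ≤ g := by
    have : g / 2 + 1 - 1 ≤ g := by omega
    exact_mod_cast this
  calc ((g / 2 + 1 - 1 : ℕ) : ℝ) * (C * y ^ 2 * ∏ j, (B j : ℝ))
      ≤ g * (C * y ^ 2 * ∏ j, (B j : ℝ)) := mul_le_mul_of_nonneg_right hle (by positivity)
    _ = (C * g * y) * (y * ∏ j, (B j : ℝ)) := by ring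
    _ ≤ 1 * (y * ∏ j, (B j : ℝ)) := mul_le_mul_of_nonneg_right hs2 (by positivity)
    _ = y * ∏ j, (B j : ℝ) := one_mul _

end Pool.Agent.FQW
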