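import Mathlib
import Pool.Agent.FQW.Basic

set_option autoImplicit false

/-!
# REDA: the multiples of one polynomial in a box
-/

namespace Pool.Agent.FQW

open Polynomial Finset
open scoped BigOperators

namespace REDA_

theorem sub_degree {q g : ℕ} (a a' : Fin g → ℤ) (d : ℕ) (h : ∀ j : Fin g, d ≤ (j : ℕ) → a j = a' j) :
    (HZ q a - HZ q a').degree < d := by
  have h1 : HZ q a - HZ q a' = ∑ j : Fin g, C (a j - a' j) * dk q j := by
    simp only [HZ, C_sub, sub_mul, sum_sub_distrib]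
    ring
  rw [h1, degree_lt_iff_coeff_zero]
  intro m hm
  rw [finsetSum_coeff]
  refine sum_eq_zero (fun j _ => ?_)
  rw [coeff_C_mul]
  by_cases hj : d ≤ (j : ℕ)
  · rw [h j hj, sub_self, zero_mul]
  · have : (dk q j).coeff m = 0 := by
      apply coeff_eq_zero_of_degree_lt
      rw [dk_degree]
      exact_mod_cast (by omega : (j : ℕ) < m)
    rw [this, mul_zero]

end REDA_

open REDA_ in
theorem tREDA : T_REDA := by
  intro q g n hn B hB c w hw hwn
  set d := w.natDegree with hd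
  set J := univ.filter (fun j : Fin n => d ≤ (j : ℕ)) with hJ
  set f : (Fin g → ℤ) → ((j : {j : Fin n // j ∈ J}) → ℤ) :=
    fun a j => a ⟨(j : Fin n), lt_of_lt_of_le (j : Fin n).2 hn⟩ with hf
  set T : Finset ((j : {j : Fin n // j ∈ J}) → ℤ) :=
    Fintype.piFinset (fun j => Finset.Ico
      (c ⟨(j : Fin n), lt_of_lt_of_le (j : Fin n).2 hn⟩ * (B (j : Fin n) : ℤ))
      (c ⟨(j : Fin n), lt_of_lt_of_le (j : Fin n).2 hn⟩ * (B (j : Fin n) : ℤ) + (B (j : Fin n) : ℤ)))
    with hT
  have hcard : T.card = ∏ j ∈ J, B j := by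
    rw [hT, Fintype.card_piFinset]
    simp only [Int.card_Ico, add_sub_cancel_left, Int.toNat_natCast]
    exact Finset.prod_coe_sort J B
  rw [← hcard, ← Set.ncard_coe_finset]
  refine Set.ncard_le_ncard_of_injOn f ?_ ?_ (Finset.finite_toSet T)
  · rintro a ⟨ha, -⟩
    rw [Finset.mem_coe, hT, Fintype.mem_piFinset]
    intro j
    have h1 := congrFun ha ⟨(j : Fin n), lt_of_lt_of_le (j : Fin n).2 hn⟩
    have h2 : ((j : Fin n) : ℕ) < n := (j : Fin n).2
    simp only [idx, h2, dif_pos] at h1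
    have hBpos : (0 : ℤ) < (B (j : Fin n) : ℤ) := by exact_mod_cast hB _
    rw [Finset.mem_Ico]
    have h3 := Int.mul_ediv_self_le (x := a ⟨(j : Fin n), lt_of_lt_of_le (j : Fin n).2 hn⟩)
      (k := (B (j : Fin n) : ℤ)) hBpos.ne'
    have h4 := Int.lt_mul_ediv_self_add (x := a ⟨(j : Fin n), lt_of_lt_of_le (j : Fin n).2 hn⟩)
      (k := (B (j : Fin n) : ℤ)) hBpos
    have h5 : a ⟨(j : Fin n), lt_of_lt_of_le (j : Fin n).2 hn⟩ / (B (j : Fin n) : ℤ) =
        c ⟨(j : Fin n), lt_of_lt_of_le (j : Fin n).2 hn⟩ := h1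
    rw [h5] at h3 h4
    simp only [hf]
    constructor
    · rw [mul_comm]; exact h3
    · rw [mul_comm (c _)]; exact h4
  · rintro a ⟨ha, hwa⟩ a' ⟨ha', hwa'⟩ hff
    have hagree : ∀ j : Fin g, d ≤ (j : ℕ) → a j = a' j := by
      intro j hj
      by_cases hjn : (j : ℕ) < n
      · have hmem : (⟨j, hjn⟩ : Fin n) ∈ J := by
          rw [hJ, Finset.mem_filter]; exact ⟨mem_univ _, hj⟩
        exact congrFun hff ⟨⟨j, hjn⟩, hmem⟩
      · have h1 := congrFun ha j
        have h2 := congrFun ha' j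
        simp only [idx, hjn, dif_neg, not_false_eq_true] at h1 h2
        rw [h1, h2]
    have hlt := sub_degree (q := q) a a' d hagree
    have hdvd : w ∣ HZ q a - HZ q a' := dvd_sub hwa hwa'
    have hz : HZ q a - HZ q a' = 0 := by
      by_contra hne
      refine hw.not_dvd_of_degree_lt hne ?_ hdvd
      rwa [degree_eq_natDegree hw.ne_zero]
    exact HZ_injective q g (sub_eq_zero.mp hz)

end Pool.Agent.FQW
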