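import Mathlib
import Pool.Agent.FQW.Basic

set_option autoImplicit false

/-!
# Relations: reduction to antisymmetric relations
-/

namespace Pool.Agent.FQW

open Polynomial Finset
open Pool.Agent.CMT (QBar)
open scoped BigOperators

namespace RELA_

variable {q g : ℕ} {a : Fin g → ℤ}

theorem isRt_map (σ : QBar ≃+* QBar) {α : QBar} (h : IsRt q a α) : IsRt q a (σ α) := by
  obtain ⟨h0, h1⟩ := h
  refine ⟨(map_ne_zero σ).2 h0, ?_⟩
  have h2 : σ α + q / σ α = σ (α + q / α) := by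
    rw [map_add, map_div₀, map_natCast]
  have h3 : aeval (σ (α + q / α)) (HZ q a) = σ (aeval (α + q / α) (HZ q a)) := by
    have e : σ (aeval (α + q / α) (HZ q a)) =
      (σ : QBar →+* QBar).toIntAlgHom (aeval (α + q / α) (HZ q a)) := rfl
    rw [e, ← Polynomial.aeval_algHom_apply]
    rfl
  rw [h2, h3, h1, map_zero]

theorem isRt_inv (hq : 0 < q) {α : QBar} (h : IsRt q a α) : IsRt q a (q / α) := by
  obtain ⟨h0, h1⟩ := h
  have hq0 : (q : QBar) ≠ 0 := by exact_mod_cast hq.ne'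
  refine ⟨div_ne_zero hq0 h0, ?_⟩
  have h2 : q / α + q / (q / α) = α + q / α := by
    rw [div_div_cancel₀ hq0, add_comm]
  rw [h2]
  exact h1

/-- the permutations of the roots which are induced by automorphisms -/
def GG (R : Finset QBar) : Subgroup (Equiv.Perm R) where
  carrier := {π | ∃ σ : QBar ≃+* QBar, ∀ x : R, ((π x : R) : QBar) = σ x}
  one_mem' := ⟨RingEquiv.refl _, fun _ => rfl⟩
  mul_mem' := by
    rintro π π' ⟨σ, hσ⟩ ⟨σ', hσ'⟩
    refine ⟨σ'.trans σ, fun x => ?_⟩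
    rw [Equiv.Perm.mul_apply, hσ, hσ']
    rfl
  inv_mem' := by
    rintro π ⟨σ, hσ⟩
    refine ⟨σ.symm, fun x => ?_⟩
    apply σ.injective
    rw [← hσ, σ.apply_symm_apply]
    exact congrArg Subtype.val (Equiv.apply_symm_apply π x)

theorem exists_perm (R : Finset QBar) (hR : ∀ α, α ∈ R ↔ IsRt q a α) (σ : QBar ≃+* QBar) :
    ∃ π : GG R, ∀ x : R, (((π : Equiv.Perm R) x : R) : QBar) = σ x := by
  have h1 : ∀ (σ : QBar ≃+* QBar) (x : R), σ x ∈ R := fun σ x =>
    (hR _).2 (isRt_map σ ((hR _).1 x.2))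
  refine ⟨⟨⟨fun x => ⟨σ x, h1 σ x⟩, fun x => ⟨σ.symm x, h1 σ.symm x⟩, fun x => ?_, fun x => ?_⟩,
    σ, fun x => rfl⟩, fun x => rfl⟩
  · exact Subtype.ext (σ.symm_apply_apply x)
  · exact Subtype.ext (σ.apply_symm_apply x)

/-- relations with a value which is a power of `q` and sum zero have value one -/
theorem exp_zero (hq : 2 ≤ q) (htr : Trans q a) (R : Finset QBar)
    (hR : ∀ α, α ∈ R ↔ IsRt q a α) (e : QBar → ℤ) (hsum : ∑ α ∈ R, e α = 0) (N : ℕ) (t : ℤ)
    (ht : (∏ α ∈ R, α ^ e α) ^ N = (q : QBar) ^ t) : t = 0 := by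
  classical
  have hq0 : (q : QBar) ≠ 0 := by exact_mod_cast (by omega : q ≠ 0)
  -- the relation after an automorphism
  have h1 : ∀ π : GG R, (∏ x : R, (((π : Equiv.Perm R) x : R) : QBar) ^ e x) ^ N =
      (q : QBar) ^ t := by
    rintro ⟨π, σ, hσ⟩
    have h2 : ∏ x : R, ((π x : R) : QBar) ^ e x = σ (∏ α ∈ R, α ^ e α) := by
      rw [← Finset.prod_coe_sort R (fun α => α ^ e α), map_prod]
      refine prod_congr rfl fun x _ => ?_
      rw [map_zpow₀, hσ]
    show (∏ x : R, ((π x : R) : QBar) ^ e x) ^ N = (q : QBar) ^ t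
    rw [h2, ← map_pow, ht, map_zpow₀, map_natCast]
  have h2 : (∏ π : GG R, ∏ x : R, (((π : Equiv.Perm R) x : R) : QBar) ^ e x) ^ N =
      ((q : QBar) ^ t) ^ Fintype.card (GG R) := by
    rw [← Finset.prod_pow, Finset.prod_congr rfl fun π _ => h1 π, Finset.prod_const,
      Finset.card_univ]
  -- the inner product does not depend on the root
  have h3 : ∀ x y : R, ∏ π : GG R, (((π : Equiv.Perm R) x : R) : QBar) =
      ∏ π : GG R, (((π : Equiv.Perm R) y : R) : QBar) := by
    intro x y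
    obtain ⟨σ, hσ⟩ := htr x y ((hR _).1 x.2) ((hR _).1 y.2)
    obtain ⟨ρ, hρ⟩ := exists_perm R hR σ
    have h4 : (ρ : Equiv.Perm R) x = y := Subtype.ext (by rw [hρ, hσ])
    rw [← Equiv.prod_comp (Equiv.mulRight ρ)
      (fun π : GG R => (((π : Equiv.Perm R) x : R) : QBar))]
    refine prod_congr rfl fun π _ => ?_
    rw [Equiv.coe_mulRight, Subgroup.coe_mul, Equiv.Perm.mul_apply, h4]
  have h5 : ∏ π : GG R, ∏ x : R, (((π : Equiv.Perm R) x : R) : QBar) ^ e x = 1 := by
    rw [Finset.prod_comm]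
    by_cases hne : Nonempty R
    · obtain ⟨x₀⟩ := hne
      have h6 : ∀ x : R, ∏ π : GG R, (((π : Equiv.Perm R) x : R) : QBar) ^ e x =
          (∏ π : GG R, (((π : Equiv.Perm R) x₀ : R) : QBar)) ^ e x := by
        intro x
        rw [← h3 x x₀, Finset.prod_zpow]
      have hc : ∏ π : GG R, (((π : Equiv.Perm R) x₀ : R) : QBar) ≠ 0 :=
        prod_ne_zero_iff.2 fun π _ => ((hR _).1 ((π : Equiv.Perm R) x₀).2).1
      rw [Finset.prod_congr rfl fun x _ => h6 x]
      have h7 : ∀ s : Finset R, ∏ x ∈ s, (∏ π : GG R, (((π : Equiv.Perm R) x₀ : R) : QBar)) ^ e x =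
          (∏ π : GG R, (((π : Equiv.Perm R) x₀ : R) : QBar)) ^ (∑ x ∈ s, e x) := by
        intro s
        induction s using Finset.induction_on with
        | empty => simp
        | insert x s hx ih => rw [prod_insert hx, sum_insert hx, zpow_add₀ hc, ih]
      rw [h7, Finset.sum_coe_sort R (fun α => e α), hsum, zpow_zero]
    · have : IsEmpty R := not_nonempty_iff.1 hne
      simp
  rw [h5, one_pow, ← zpow_natCast, ← zpow_mul] at h2
  have hcard : 0 < Fintype.card (GG R) := Fintype.card_pos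
  have h8 : (q : ℚ) ^ (t * (Fintype.card (GG R) : ℤ)) = 1 := by
    have h9 : ((((q : ℚ) ^ (t * (Fintype.card (GG R) : ℤ)) : ℚ)) : QBar) = ((1 : ℚ) : QBar) := by
      push_cast
      exact h2.symm
    exact_mod_cast h9
  have h10 : t * (Fintype.card (GG R) : ℤ) = 0 := by
    by_contra hne
    have h11 : (1 : ℚ) < q := by exact_mod_cast (by omega : 1 < q)
    have := (zpow_right_injective₀ (by linarith) (ne_of_gt h11)) (h8.trans (zpow_zero _).symm)
    exact hne this
  rcases mul_eq_zero.1 h10 with h | h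
  · exact h
  · exfalso
    omega

end RELA_

open RELA_

/-- RELA -/
theorem tRELA : T_RELA := by
  classical
  intro q g hq a htr hAR R hR e ⟨N, hN, s, hs⟩ α hα
  have hq0 : (q : QBar) ≠ 0 := by exact_mod_cast (by omega : q ≠ 0)
  have hq1 : 0 < q := by omega
  have hne : ∀ α ∈ R, α ≠ 0 := fun α hα => ((hR α).1 hα).1
  have hinv : ∀ α ∈ R, (q : QBar) / α ∈ R := fun α hα => (hR _).2 (isRt_inv hq1 ((hR α).1 hα))
  have hdd : ∀ α : QBar, (q : QBar) / (q / α) = α := fun α => div_div_cancel₀ hq0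
  -- reindexing
  have hre : ∀ (M : Type) [CommMonoid M] (f : QBar → M), ∏ α ∈ R, f (q / α) = ∏ α ∈ R, f α := by
    intro M _ f
    refine Finset.prod_bij' (fun α _ => (q : QBar) / α) (fun α _ => (q : QBar) / α) ?_ ?_ ?_ ?_ ?_
    · exact hinv
    · exact hinv
    · intro α _
      exact hdd α
    · intro α _
      exact hdd α
    · intro α _
      rfl
  have hprod : ∏ α ∈ R, α ^ e (q / α) = (q : QBar) ^ (∑ α ∈ R, e α) / ∏ α ∈ R, α ^ e α := by
    have h1 := hre QBar (fun α => ((q : QBar) / α) ^ e α)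
    have h2 : ∏ α ∈ R, α ^ e (q / α) = ∏ α ∈ R, ((q : QBar) / (q / α)) ^ e (q / α) :=
      prod_congr rfl fun α _ => by rw [hdd]
    rw [h2, h1]
    have h3 : ∀ S : Finset QBar, ∏ α ∈ S, ((q : QBar) / α) ^ e α =
        (q : QBar) ^ (∑ α ∈ S, e α) / ∏ α ∈ S, α ^ e α := by
      intro S
      induction S using Finset.induction_on with
      | empty => simp
      | insert x S hx ih =>
        rw [prod_insert hx, sum_insert hx, prod_insert hx, zpow_add₀ hq0, ih, div_zpow]
        rw [div_mul_div_comm]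
    exact h3 R
  have hP0 : ∏ α ∈ R, α ^ e α ≠ 0 := prod_ne_zero_iff.2 fun α hα => zpow_ne_zero _ (hne α hα)
  set e' : QBar → ℤ := fun α => e α - e (q / α) with he'
  have hprod' : ∏ α ∈ R, α ^ e' α =
      (∏ α ∈ R, α ^ e α) ^ 2 / (q : QBar) ^ (∑ α ∈ R, e α) := by
    have h1 : ∏ α ∈ R, α ^ e' α = (∏ α ∈ R, α ^ e α) / ∏ α ∈ R, α ^ e (q / α) := by
      rw [← prod_div_distrib]
      refine prod_congr rfl fun α hα => ?_
      rw [he', zpow_sub₀ (hne α hα)]
    rw [h1, hprod]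
    have : (q : QBar) ^ (∑ α ∈ R, e α) ≠ 0 := zpow_ne_zero _ hq0
    field_simp
  have hsum : ∑ α ∈ R, e' α = 0 := by
    have h1 := hre (Multiplicative ℤ) (fun α => Multiplicative.ofAdd (e α))
    have h2 : ∑ α ∈ R, e (q / α) = ∑ α ∈ R, e α := by
      have h3 := congrArg Multiplicative.toAdd h1
      rw [toAdd_prod, toAdd_prod] at h3
      exact h3
    rw [he', sum_sub_distrib, h2, sub_self]
  have hN' : (∏ α ∈ R, α ^ e' α) ^ N = (q : QBar) ^ (2 * s - N * ∑ α ∈ R, e α) := by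
    rw [hprod', div_pow, ← pow_mul, mul_comm 2 N, pow_mul, hs, ← zpow_natCast, ← zpow_natCast,
      ← zpow_mul, ← zpow_mul, ← zpow_sub₀ hq0]
    congr 1
    push_cast
    ring
  have ht := exp_zero hq htr R hR e' hsum N _ hN'
  have hAR' : AR q a e' := by
    refine ⟨fun β hβ => ?_, R, N, hR, hN, ?_⟩
    · simp only [he']
      rw [hdd]
      ring
    · rw [hN', ht, zpow_zero]
  have := hAR e' hAR' α ((hR α).1 hα)
  simp only [he'] at this
  linarith

end Pool.Agent.FQW
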