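import Mathlib
import Pool.Agent.FQW.LogV

set_option autoImplicit false

/-!
# RELB: antisymmetric relations are constant on the cycle
-/

namespace Pool.Agent.FQW

open Polynomial Finset
open Pool.Agent.CMT (QBar)
open scoped BigOperators

namespace RELB_

/-- powers of the cycle -/
theorem powers {q p g : ℕ} {a : Fin g → ℤ} {τ : QBar ≃+* QBar} {ρ : ZMod p → QBar}
    (hc : Cyc q p a τ ρ) (j : ℕ) : ∃ s : QBar ≃+* QBar, (∀ k, s (ρ k) = ρ (k + j)) ∧
      ∀ α, IsRt q a α → (∀ k, α ≠ ρ k ∧ α * ρ k ≠ q) → s α = α := by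
  induction j with
  | zero => exact ⟨RingEquiv.refl _, fun k => by simp, fun α _ _ => rfl⟩
  | succ j ih =>
    obtain ⟨s, h1, h2⟩ := ih
    refine ⟨s.trans τ, fun k => ?_, fun α hα hk => ?_⟩
    · rw [RingEquiv.trans_apply, h1, hc.2.2.2.1]
      push_cast
      rw [add_assoc]
    · rw [RingEquiv.trans_apply, h2 α hα hk, hc.2.2.2.2 α hα hk]

theorem root_ne_zero {q g : ℕ} {a : Fin g → ℤ} {α : QBar} (h : IsRt q a α) : α ≠ 0 := h.1

theorem root_conj {q g : ℕ} (hq : 2 ≤ q) {a : Fin g → ℤ} {α : QBar} (h : IsRt q a α) :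
    IsRt q a (q / α) := by
  have hq0 : (q : QBar) ≠ 0 := by exact_mod_cast (by omega : q ≠ 0)
  refine ⟨div_ne_zero hq0 h.1, ?_⟩
  have : (q : QBar) / α + q / (q / α) = α + q / α := by
    rw [div_div_cancel₀ hq0, add_comm]
  rw [this]
  exact h.2

theorem root_map {q g : ℕ} {a : Fin g → ℤ} {α : QBar} (s : QBar ≃+* QBar) (h : IsRt q a α) :
    IsRt q a (s α) := by
  refine ⟨by simpa using h.1, ?_⟩
  have h1 : s α + (q : QBar) / s α = s (α + q / α) := by
    rw [map_add, map_div₀, map_natCast]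
  rw [h1]
  have h2 := h.2
  rw [aeval_def] at h2 ⊢
  have h3 : eval₂ (algebraMap ℤ QBar) (s (α + q / α)) (HZ q a) =
      s (eval₂ (algebraMap ℤ QBar) (α + q / α) (HZ q a)) := by
    rw [← RingEquiv.coe_toRingHom, Polynomial.hom_eval₂]
    congr 1
    exact Subsingleton.elim _ _
  rw [h3, h2, map_zero]

/-- the relation after an automorphism -/
theorem rel_sum {q g : ℕ} {a : Fin g → ℤ} {e : QBar → ℤ} {R : Finset QBar} {N : ℕ}
    (hR : ∀ α, α ∈ R ↔ IsRt q a α) (hN : 0 < N) (h : (∏ α ∈ R, α ^ e α) ^ N = 1)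
    (s : QBar ≃+* QBar) : ∑ α ∈ R, e α • Lg (s α) = 0 := by
  have hne : ∀ α ∈ R, s α ≠ 0 := fun α hα => by
    simpa using ((hR α).mp hα).1
  have h1 : (∏ α ∈ R, (s α) ^ e α) ^ N = 1 := by
    have := congrArg s h
    rw [map_pow, map_prod, map_one] at this
    simpa [map_zpow₀] using this
  have h2 : Lg (∏ α ∈ R, (s α) ^ e α) = 0 :=
    (Lg_eq_zero (prod_ne_zero_iff.mpr fun α hα => zpow_ne_zero _ (hne α hα))).mpr ⟨N, hN, h1⟩
  rw [Lg_prod R _ (fun α hα => zpow_ne_zero _ (hne α hα))] at h2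
  rw [← h2]
  exact Finset.sum_congr rfl fun α hα => (Lg_zpow (hne α hα) _).symm

/-- the differences vanish -/
theorem diff_zero (q g p : ℕ) [hp : Fact p.Prime] (hq : 2 ≤ q) (a : Fin g → ℤ)
    (τ : QBar ≃+* QBar) (ρ : ZMod p → QBar) (hc : Cyc q p a τ ρ) (e : QBar → ℤ) (he : AR q a e)
    (hne : ∃ k, e (ρ k) ≠ e (ρ 0)) : ∀ k, Lg (ρ k) = Lg (ρ 0) := by
  classical
  obtain ⟨has, R, N, hR, hN, hprod⟩ := he
  have hq0 : (q : QBar) ≠ 0 := by exact_mod_cast (by omega : q ≠ 0)
  have hr0 : ∀ k, ρ k ≠ 0 := fun k => (hc.1 k).1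
  set y : ZMod p → VQ := fun k => Lg (ρ k) - Lg (q / ρ k) with hy
  set z : ZMod p → VQ := fun k => y k - y (k + 1) with hz
  have hz0 : ∑ k, z k = 0 := by
    rw [hz, Finset.sum_sub_distrib]
    rw [Fintype.sum_equiv (Equiv.addRight (1 : ZMod p)) (fun k => y (k + 1)) y (fun k => rfl),
      sub_self]
  have hinj := hc.2.1
  have hkl := hc.2.2.1
  -- the three parts of R
  set R1 : Finset QBar := univ.image ρ with hR1
  set R2 : Finset QBar := univ.image (fun k => (q : QBar) / ρ k) with hR2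
  have hR1R : R1 ⊆ R := by
    intro α hα
    obtain ⟨k, _, rfl⟩ := mem_image.mp hα
    exact (hR _).mpr (hc.1 k)
  have hR2R : R2 ⊆ R := by
    intro α hα
    obtain ⟨k, _, rfl⟩ := mem_image.mp hα
    exact (hR _).mpr (root_conj hq (hc.1 k))
  have hdisj : Disjoint R1 R2 := by
    rw [Finset.disjoint_left]
    intro α h1 h2
    obtain ⟨k, _, rfl⟩ := mem_image.mp h1
    obtain ⟨l, _, hl⟩ := mem_image.mp h2
    apply hkl k l
    rw [← hl]
    field_simp [hr0 l]
  have hrel : ∀ j : ZMod p, ∑ k, e (ρ k) • z (k + j) = 0 := by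
    intro j
    obtain ⟨s, hs1, hs2⟩ := powers hc j.val
    obtain ⟨t, ht1, ht2⟩ := powers hc (j.val + 1)
    have h1 := rel_sum hR hN hprod s
    have h2 := rel_sum hR hN hprod t
    have h3 : ∑ α ∈ R, e α • (Lg (s α) - Lg (t α)) = 0 := by
      simp only [smul_sub, Finset.sum_sub_distrib, h1, h2, sub_self]
    have h4 : ∑ α ∈ R, e α • (Lg (s α) - Lg (t α)) =
        ∑ α ∈ R1 ∪ R2, e α • (Lg (s α) - Lg (t α)) := by
      symm
      apply Finset.sum_subset (union_subset hR1R hR2R)
      intro α hα hα2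
      have hk : ∀ k, α ≠ ρ k ∧ α * ρ k ≠ q := by
        intro k
        refine ⟨?_, ?_⟩
        · rintro rfl
          exact hα2 (mem_union_left _ (mem_image_of_mem _ (mem_univ k)))
        · intro h
          apply hα2 (mem_union_right _ (mem_image.mpr ⟨k, mem_univ k, ?_⟩))
          rw [← h]
          field_simp [hr0 k]
      rw [hs2 α ((hR α).mp hα) hk, ht2 α ((hR α).mp hα) hk, sub_self, smul_zero]
    rw [h4, Finset.sum_union hdisj, hR1, hR2, Finset.sum_image (fun x _ y _ h => hinj h),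
      Finset.sum_image] at h3
    · rw [← h3, ← Finset.sum_add_distrib]
      refine Finset.sum_congr rfl fun k _ => ?_
      rw [has (ρ k) (hc.1 k), map_div₀, map_div₀, map_natCast, map_natCast, hs1, ht1]
      have e1 : k + ((j.val : ℕ) : ZMod p) = k + j := by rw [ZMod.natCast_zmod_val]
      have e2 : k + ((j.val + 1 : ℕ) : ZMod p) = k + j + 1 := by
        push_cast
        rw [ZMod.natCast_zmod_val, add_assoc]
      rw [e1, e2, hz, hy]
      simp only [neg_smul, smul_sub]
      abel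
    · intro x _ y _ h
      apply hinj
      have h5 : (q : QBar) / ρ x = q / ρ y := h
      rw [div_eq_div_iff (hr0 x) (hr0 y)] at h5
      exact (mul_left_cancel₀ hq0 h5).symm
  have hzz := shift_zero p VQ z (fun k => e (ρ k)) hz0 hrel hne
  have hstep : ∀ k, y (k + 1) = y k := by
    intro k
    have := congrFun hzz k
    simp only [hz, Pi.zero_apply, sub_eq_zero] at this
    exact this.symm
  have hall : ∀ n : ℕ, y (n : ZMod p) = y 0 := by
    intro n
    induction n with
    | zero => simp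
    | succ n ih => push_cast; rw [hstep, ih]
  intro k
  have h1 : y k = y 0 := by
    have := hall k.val
    rwa [ZMod.natCast_zmod_val] at this
  simp only [hy, Lg_div hq0 (hr0 _)] at h1
  have h2 : (2 : ℚ) • Lg (ρ k) = (2 : ℚ) • Lg (ρ 0) := by
    rw [two_smul, two_smul]
    have h3 : Lg (ρ k) + Lg (ρ k) = (Lg (ρ k) - (Lg (q : QBar) - Lg (ρ k))) + Lg (q : QBar) := by
      abel
    rw [h3, h1]
    abel
  exact smul_right_injective VQ (two_ne_zero : (2 : ℚ) ≠ 0) h2

end RELB_

open RELB_ in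
theorem tRELB : T_RELB := by
  intro q g p hq hp hp3 hg2p hpg a htr hcard hinv τ ρ hc e he
  classical
  haveI : Fact p.Prime := ⟨hp⟩
  by_contra hcon
  push Not at hcon
  have hL := diff_zero q g p hq a τ ρ hc e he hcon
  obtain ⟨_, R, N, hR, hN, _⟩ := he
  have hq0 : (q : QBar) ≠ 0 := by exact_mod_cast (by omega : q ≠ 0)
  have hr0 : ∀ k, ρ k ≠ 0 := fun k => (hc.1 k).1
  have hinj := hc.2.1
  have hkl := hc.2.2.1
  have hRcard : R.card = 2 * g := by
    rw [← hcard, ← Set.ncard_coe_finset]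
    congr 1
    ext α
    exact hR α
  have hcyccard : Fintype.card (ZMod p) = p := ZMod.card p
  by_cases h1 : Lg (ρ 0) = Lg (q / ρ 0)
  · -- supersingular
    have hall : ∀ α, IsRt q a α → Lg α = Lg (q / α) := by
      intro α hα
      obtain ⟨s, hs⟩ := htr (ρ 0) α (hc.1 0) hα
      have h2 := Lg_map s (hr0 0) (div_ne_zero hq0 (hr0 0)) h1
      rwa [map_div₀, map_natCast, hs] at h2
    -- a root fixed by τ
    obtain ⟨β, hβR, hβk⟩ : ∃ β ∈ R, ∀ k, β ≠ ρ k ∧ β * ρ k ≠ q := by
      by_contra hno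
      push Not at hno
      have hsub : R ⊆ univ.image ρ ∪ univ.image (fun k => (q : QBar) / ρ k) := by
        intro β hβ
        obtain ⟨k, hk⟩ := hno β hβ
        by_cases hk2 : β = ρ k
        · exact mem_union_left _ (mem_image.mpr ⟨k, mem_univ k, hk2.symm⟩)
        · refine mem_union_right _ (mem_image.mpr ⟨k, mem_univ k, ?_⟩)
          rw [← hk hk2]
          field_simp [hr0 k]
      have h3 := card_le_card hsub
      have h4 := card_union_le (univ.image ρ) (univ.image (fun k => (q : QBar) / ρ k))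
      have h5 : (univ.image ρ).card ≤ p := by
        refine le_trans card_image_le ?_
        rw [card_univ, hcyccard]
      have h6 : (univ.image (fun k => (q : QBar) / ρ k)).card ≤ p := by
        refine le_trans card_image_le ?_
        rw [card_univ, hcyccard]
      omega
    have hβrt := (hR β).mp hβR
    have hτβ : τ β = β := hc.2.2.2.2 β hβrt hβk
    obtain ⟨s, hs⟩ := htr β (ρ 0) hβrt (hc.1 0)
    set ζ : QBar := β ^ 2 / q with hζ
    have hζ0 : ζ ≠ 0 := div_ne_zero (pow_ne_zero 2 hβrt.1) hq0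
    have hfin : ∃ M : ℕ, 0 < M ∧ ζ ^ M = 1 := by
      apply (Lg_eq_zero hζ0).mp
      rw [hζ, Lg_div (pow_ne_zero 2 hβrt.1) hq0, Lg_pow hβrt.1]
      have h2 := hall β hβrt
      rw [Lg_div hq0 hβrt.1] at h2
      rw [two_smul]
      nth_rewrite 2 [h2]
      abel
    have hζfin : IsOfFinOrder ζ := isOfFinOrder_iff_pow_eq_one.mpr hfin
    have hprim : IsPrimitiveRoot ζ (orderOf ζ) := IsPrimitiveRoot.orderOf ζ
    have hopos : 0 < orderOf ζ := hζfin.orderOf_pos
    have hτζ : τ ζ = ζ := by rw [hζ, map_div₀, map_pow, hτβ, map_natCast]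
    have hsζ : s ζ = (ρ 0) ^ 2 / q := by rw [hζ, map_div₀, map_pow, hs, map_natCast]
    have hpow : (s ζ) ^ orderOf ζ = 1 := by rw [← map_pow, pow_orderOf_eq_one, map_one]
    haveI : NeZero (orderOf ζ) := ⟨hopos.ne'⟩
    obtain ⟨i, _, hi⟩ := hprim.eq_pow_of_pow_eq_one hpow
    have hτs : τ (s ζ) = s ζ := by rw [← hi, map_pow, hτζ]
    have h01 : ρ 1 ^ 2 = ρ 0 ^ 2 := by
      rw [hsζ, map_div₀, map_pow, map_natCast, hc.2.2.2.1, zero_add] at hτs
      field_simp at hτs
      exact hτs
    have h12 : ρ 2 ^ 2 = ρ 1 ^ 2 := by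
      have h3 := congrArg τ h01
      rw [map_pow, map_pow, hc.2.2.2.1, hc.2.2.2.1, zero_add] at h3
      rwa [show (1 : ZMod p) + 1 = 2 by norm_num] at h3
    have hne01 : ρ 1 ≠ ρ 0 := fun h => one_ne_zero (hinj h)
    have hp2 : ((2 : ℕ) : ZMod p) ≠ 0 := by
      rw [Ne, ZMod.natCast_eq_zero_iff]
      intro hd
      have := Nat.le_of_dvd (by norm_num) hd
      omega
    have hne02 : ρ 2 ≠ ρ 0 := fun h => hp2 (by exact_mod_cast hinj h)
    have hne12 : ρ 2 ≠ ρ 1 := fun h => by
      have h3 := hinj h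
      have h4 : (1 : ZMod p) = 0 := by
        have : (2 : ZMod p) - 1 = 0 := by rw [h3, sub_self]
        calc (1 : ZMod p) = 2 - 1 := by ring
          _ = 0 := this
      exact one_ne_zero h4
    have e1 : ρ 1 = -ρ 0 := (sq_eq_sq_iff_eq_or_eq_neg.mp h01).resolve_left hne01
    have e2 : ρ 2 = -ρ 1 := (sq_eq_sq_iff_eq_or_eq_neg.mp h12).resolve_left hne12
    apply hne02
    rw [e2, e1, neg_neg]
  · -- two classes
    have hno : ∀ α, IsRt q a α → Lg α ≠ Lg (q / α) := by
      intro α hα h2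
      obtain ⟨s, hs⟩ := htr α (ρ 0) hα (hc.1 0)
      have h3 := Lg_map s hα.1 (div_ne_zero hq0 hα.1) h2
      rw [map_div₀, map_natCast, hs] at h3
      exact h1 h3
    have htwo : ∀ β, IsRt q a β → Lg β = Lg (ρ 0) ∨ Lg β = Lg (q / ρ 0) := by
      intro β hβ
      by_contra hcon2
      push Not at hcon2
      obtain ⟨hb1, hb2⟩ := hcon2
      obtain ⟨s, hs⟩ := htr (ρ 0) β (hc.1 0) hβ
      have hsr : ∀ k, IsRt q a (s (ρ k)) := fun k => root_map s (hc.1 k)
      have hsL : ∀ k, Lg (s (ρ k)) = Lg β := by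
        intro k
        rw [← hs]
        exact Lg_map s (hr0 k) (hr0 0) (hL k)
      set A1 : Finset QBar := univ.image ρ
      set A2 : Finset QBar := univ.image (fun k => (q : QBar) / ρ k)
      set A3 : Finset QBar := univ.image (fun k => s (ρ k))
      set A4 : Finset QBar := univ.image (fun k => (q : QBar) / s (ρ k))
      have hdivinj : ∀ x y : QBar, x ≠ 0 → y ≠ 0 → (q : QBar) / x = q / y → x = y := by
        intro x y hx hy h
        rw [div_eq_div_iff hx hy] at h
        exact (mul_left_cancel₀ hq0 h).symm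
      have c1 : A1.card = p := by
        rw [card_image_of_injective _ hinj, card_univ, hcyccard]
      have c2 : A2.card = p := by
        rw [card_image_of_injective _ (fun x y h => hinj (hdivinj _ _ (hr0 x) (hr0 y) h)),
          card_univ, hcyccard]
      have c3 : A3.card = p := by
        rw [card_image_of_injective _ (fun x y h => hinj (s.injective h)), card_univ, hcyccard]
      have c4 : A4.card = p := by
        rw [card_image_of_injective _ (fun x y h => hinj (s.injective
          (hdivinj _ _ (hsr x).1 (hsr y).1 h))), card_univ, hcyccard]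
      have v1 : ∀ x ∈ A1, Lg x = Lg (ρ 0) ∧ IsRt q a x := by
        intro x hx
        obtain ⟨k, _, rfl⟩ := mem_image.mp hx
        exact ⟨hL k, hc.1 k⟩
      have v2 : ∀ x ∈ A2, Lg x = Lg (q : QBar) - Lg (ρ 0) ∧ IsRt q a x := by
        intro x hx
        obtain ⟨k, _, rfl⟩ := mem_image.mp hx
        exact ⟨by rw [Lg_div hq0 (hr0 k), hL k], root_conj hq (hc.1 k)⟩
      have v3 : ∀ x ∈ A3, Lg x = Lg β ∧ IsRt q a x := by
        intro x hx
        obtain ⟨k, _, rfl⟩ := mem_image.mp hx
        exact ⟨hsL k, hsr k⟩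
      have v4 : ∀ x ∈ A4, Lg x = Lg (q : QBar) - Lg β ∧ IsRt q a x := by
        intro x hx
        obtain ⟨k, _, rfl⟩ := mem_image.mp hx
        exact ⟨by rw [Lg_div hq0 (hsr k).1, hsL k], root_conj hq (hsr k)⟩
      have hbb := hno β hβ
      rw [Lg_div hq0 hβ.1] at hbb
      rw [Lg_div hq0 (hr0 0)] at h1 hb2
      have n14 : Lg (ρ 0) ≠ Lg (q : QBar) - Lg β := by
        intro h
        apply hb2
        rw [h]; abel
      have n24 : Lg (q : QBar) - Lg (ρ 0) ≠ Lg (q : QBar) - Lg β := by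
        intro h
        exact hb1 (sub_right_injective h).symm
      have d12 : Disjoint A1 A2 := Finset.disjoint_left.mpr fun x hx hy =>
        h1 ((v1 x hx).1.symm.trans (v2 x hy).1)
      have d13 : Disjoint (A1 ∪ A2) A3 := by
        rw [Finset.disjoint_left]
        intro x hx hy
        rcases mem_union.mp hx with hx | hx
        · exact hb1 ((v3 x hy).1.symm.trans (v1 x hx).1)
        · exact hb2 ((v3 x hy).1.symm.trans (v2 x hx).1)
      have d14 : Disjoint (A1 ∪ A2 ∪ A3) A4 := by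
        rw [Finset.disjoint_left]
        intro x hx hy
        rcases mem_union.mp hx with hx | hx
        · rcases mem_union.mp hx with hx | hx
          · exact n14 ((v1 x hx).1.symm.trans (v4 x hy).1)
          · exact n24 ((v2 x hx).1.symm.trans (v4 x hy).1)
        · exact hbb ((v3 x hx).1.symm.trans (v4 x hy).1)
      have hsub : A1 ∪ A2 ∪ A3 ∪ A4 ⊆ R := by
        intro x hx
        rw [hR]
        rcases mem_union.mp hx with hx | hx
        · rcases mem_union.mp hx with hx | hx
          · rcases mem_union.mp hx with hx | hx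
            · exact (v1 x hx).2
            · exact (v2 x hx).2
          · exact (v3 x hx).2
        · exact (v4 x hx).2
      have h5 := card_le_card hsub
      rw [card_union_of_disjoint d14, card_union_of_disjoint d13, card_union_of_disjoint d12,
        c1, c2, c3, c4, hRcard] at h5
      omega
    -- two values only
    have hpair : ∀ α β, IsRt q a α → IsRt q a β → Lg β = Lg α ∨ Lg β = Lg (q / α) := by
      intro α β hα hβ
      rw [Lg_div hq0 hα.1]
      have h2 := htwo α hα
      have h3 := htwo β hβ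
      rw [Lg_div hq0 (hr0 0)] at h2 h3
      rcases h2 with h2 | h2 <;> rcases h3 with h3 | h3
      · left; rw [h2, h3]
      · right; rw [h2, h3]
      · right; rw [h2, h3]; abel
      · left; rw [h2, h3]
    obtain ⟨σ, α, hα, hσ, _⟩ := hinv
    have hσσ : σ (σ α) = q / α := by
      rw [← hσ]
      field_simp [hα.1]
    have hσα := root_map σ hα
    apply hno α hα
    rcases hpair α (σ α) hα hσα with h2 | h2
    · have h3 := Lg_map σ hσα.1 hα.1 h2
      rw [hσσ] at h3
      rw [h3, h2]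
    · have h3 := Lg_map σ hσα.1 (div_ne_zero hq0 hα.1) h2
      rw [hσσ, map_div₀, map_natCast, Lg_div hq0 hσα.1, h2, Lg_div hq0 hα.1] at h3
      rw [Lg_div hq0 hα.1, h3]
      abel

end Pool.Agent.FQW
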