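import Mathlib
import Pool.Agent.FQW.Basic

set_option autoImplicit false

/-!
# Relations which are constant on the cycle vanish
-/

namespace Pool.Agent.FQW

open Polynomial Finset
open Pool.Agent.CMT (QBar)
open scoped BigOperators

namespace RELC_

variable {q g : ℕ} {a : Fin g → ℤ}

theorem q_ne (hq : 2 ≤ q) : (q : QBar) ≠ 0 := by
  exact_mod_cast (by omega : q ≠ 0)

theorem isRt_map {α : QBar} (σ : QBar ≃+* QBar) (h : IsRt q a α) : IsRt q a (σ α) := by
  refine ⟨(map_ne_zero_iff σ σ.injective).2 h.1, ?_⟩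
  have e1 : σ (aeval (α + q / α) (HZ q a)) = aeval (σ (α + q / α)) (HZ q a) := by
    have e : σ (aeval (α + q / α) (HZ q a)) =
      (σ : QBar →+* QBar).toIntAlgHom (aeval (α + q / α) (HZ q a)) := rfl
    rw [e, ← Polynomial.aeval_algHom_apply]
    rfl
  have e2 : σ (α + q / α) = σ α + q / σ α := by
    rw [map_add, map_div₀, map_natCast]
  rw [← e2, ← e1, h.2, map_zero]

theorem isRt_map_iff {α : QBar} (σ : QBar ≃+* QBar) : IsRt q a (σ α) ↔ IsRt q a α := by
  refine ⟨fun h => ?_, isRt_map σ⟩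
  have := isRt_map σ.symm h
  rwa [RingEquiv.symm_apply_apply] at this

theorem isRt_conj (hq : 2 ≤ q) {α : QBar} (h : IsRt q a α) : IsRt q a (q / α) := by
  refine ⟨div_ne_zero (q_ne hq) h.1, ?_⟩
  have e : (q : QBar) / α + q / (q / α) = α + q / α := by
    rw [div_div_cancel₀ (q_ne hq)]
    ring
  rw [e]
  exact h.2

/-- relations may be moved by automorphisms -/
theorem ar_comp {e : QBar → ℤ} (h : AR q a e) (σ : QBar ≃+* QBar) :
    AR q a (fun α => e (σ α)) := by
  obtain ⟨h1, R, N, hR, hN, hprod⟩ := h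
  refine ⟨?_, R, N, hR, hN, ?_⟩
  · intro α hα
    have := h1 (σ α) (isRt_map σ hα)
    rw [← this]
    simp only
    rw [map_div₀, map_natCast]
  · apply σ.injective
    rw [map_pow, map_one, map_prod, ← hprod]
    congr 1
    refine Finset.prod_bij (fun α _ => σ α) ?_ ?_ ?_ ?_
    · intro α hα
      rw [hR, isRt_map_iff, ← hR]
      exact hα
    · intro α _ β _ hab
      exact σ.injective hab
    · intro β hβ
      refine ⟨σ.symm β, ?_, by simp⟩
      rw [hR, isRt_map_iff, ← hR]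
      exact hβ
    · intro α _
      rw [map_zpow₀]

/-- relations may be added -/
theorem ar_add {e e' : QBar → ℤ} (h : AR q a e) (h' : AR q a e') :
    AR q a (fun α => e α + e' α) := by
  obtain ⟨h1, R, N, hR, hN, hprod⟩ := h
  obtain ⟨h1', R', N', hR', hN', hprod'⟩ := h'
  have hRR : R' = R := by
    ext α
    rw [hR, hR']
  subst hRR
  refine ⟨?_, R', N * N', hR, Nat.mul_pos hN hN', ?_⟩
  · intro α hα
    simp only
    rw [h1 α hα, h1' α hα]
    ring
  · have e1 : ∏ α ∈ R', α ^ (e α + e' α) = (∏ α ∈ R', α ^ e α) * ∏ α ∈ R', α ^ e' α := by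
      rw [← Finset.prod_mul_distrib]
      apply Finset.prod_congr rfl
      intro α hα
      exact zpow_add₀ ((hR α).1 hα).1 _ _
    rw [e1, mul_pow, pow_mul, hprod, one_pow, one_mul, mul_comm N N', pow_mul, hprod', one_pow]

/-- the absolute value of a relation is constant -/
theorem abs_const {p : ℕ} (hq : 2 ≤ q) (hp : p.Prime) (hg : g < 2 * p)
    (ht : Trans q a) (hc : {α : QBar | IsRt q a α}.ncard = 2 * g) (ρ : ZMod p → QBar)
    (hρ : ∀ k, IsRt q a (ρ k)) (hinj : Function.Injective ρ) (hne : ∀ k l, ρ k * ρ l ≠ q)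
    (hconst : ∀ e : QBar → ℤ, AR q a e → ∀ k, e (ρ k) = e (ρ 0))
    {e : QBar → ℤ} (he : AR q a e) {α β : QBar} (hα : IsRt q a α) (hβ : IsRt q a β) :
    |e α| = |e β| := by
  classical
  have : NeZero p := ⟨hp.ne_zero⟩
  obtain ⟨h1, R, N, hR, hN, hprod⟩ := id he
  have hcard : R.card = 2 * g := by
    rw [← hc, ← Set.ncard_coe_finset]
    congr 1
    ext α
    simp [hR]
  have key : ∀ (s : QBar ≃+* QBar), ∃ A : Finset QBar, A ⊆ R ∧ A.card = 2 * p ∧
      ∀ γ ∈ A, |e γ| = |e (s (ρ 0))| := by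
    intro s
    have hk : ∀ k, e (s (ρ k)) = e (s (ρ 0)) := fun k => hconst _ (ar_comp he s) k
    have hi1 : Function.Injective (fun k => s (ρ k)) := s.injective.comp hinj
    have hi2 : Function.Injective (fun k => (q : QBar) / s (ρ k)) := by
      intro k l hkl
      simp only at hkl
      have hk0 : s (ρ k) ≠ 0 := (isRt_map s (hρ k)).1
      have hl0 : s (ρ l) ≠ 0 := (isRt_map s (hρ l)).1
      rw [div_eq_div_iff hk0 hl0] at hkl
      exact hi1 (mul_left_cancel₀ (q_ne hq) hkl).symm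
    refine ⟨univ.image (fun k => s (ρ k)) ∪ univ.image (fun k => (q : QBar) / s (ρ k)), ?_, ?_, ?_⟩
    · intro γ hγ
      rw [mem_union, mem_image, mem_image] at hγ
      rw [hR]
      rcases hγ with ⟨k, _, rfl⟩ | ⟨k, _, rfl⟩
      · exact isRt_map s (hρ k)
      · exact isRt_conj hq (isRt_map s (hρ k))
    · rw [card_union_of_disjoint, card_image_of_injective _ hi1, card_image_of_injective _ hi2,
        Finset.card_univ, ZMod.card]
      · ring
      · rw [Finset.disjoint_left]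
        intro γ h h'
        rw [mem_image] at h h'
        obtain ⟨k, _, rfl⟩ := h
        obtain ⟨l, _, hl⟩ := h'
        have hl0 : s (ρ l) ≠ 0 := (isRt_map s (hρ l)).1
        rw [div_eq_iff hl0] at hl
        apply hne k l
        apply s.injective
        rw [map_mul, map_natCast, hl]
    · intro γ hγ
      rw [mem_union, mem_image, mem_image] at hγ
      rcases hγ with ⟨k, _, rfl⟩ | ⟨k, _, rfl⟩
      · rw [hk]
      · rw [h1 _ (isRt_map s (hρ k)), hk, abs_neg]
  obtain ⟨s, hs⟩ := ht (ρ 0) α (hρ 0) hα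
  obtain ⟨s', hs'⟩ := ht (ρ 0) β (hρ 0) hβ
  obtain ⟨A, hAR, hAc, hA⟩ := key s
  obtain ⟨B, hBR, hBc, hB⟩ := key s'
  have hint : (A ∩ B).Nonempty := by
    rw [← Finset.card_pos]
    have h2 := Finset.card_union_add_card_inter A B
    have h3 : (A ∪ B).card ≤ R.card := Finset.card_le_card (Finset.union_subset hAR hBR)
    omega
  obtain ⟨γ, hγ⟩ := hint
  rw [mem_inter] at hγ
  rw [← hs, ← hs', ← hA γ hγ.1, ← hB γ hγ.2]

theorem arith {x y z : ℤ} (h1 : |x| = |y|) (h2 : |x + y| = |y + z|) (h3 : z = -x) : x = 0 := by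
  subst h3
  rcases abs_eq_abs.1 h1 with h | h <;> rcases abs_eq_abs.1 h2 with h' | h' <;> omega

end RELC_

open RELC_ in
theorem tRELC : T_RELC := by
  intro q g p hq hp _ hg _ a ht hc _ hinv τ ρ hcyc hconst e he β hβ
  obtain ⟨hρ, hinj, hne, -, -⟩ := hcyc
  have habs : ∀ e : QBar → ℤ, AR q a e → ∀ α β : QBar, IsRt q a α → IsRt q a β →
      |e α| = |e β| := fun e he α β hα hβ =>
    abs_const hq hp hg ht hc ρ hρ hinj hne hconst he hα hβ
  obtain ⟨σ, α, hα, hσ, -⟩ := hinv
  have hσα := isRt_map σ hα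
  have hσσα := isRt_map σ hσα
  have hz : e (σ (σ α)) = - e α := by
    have h0 : σ (σ α) = q / α := by
      rw [eq_div_iff hα.1]
      exact hσ
    rw [h0]
    exact he.1 α hα
  have h1 := habs _ he _ _ hα hσα
  have h2 := habs _ (ar_add he (ar_comp he σ)) _ _ hα hσα
  have h3 := arith h1 h2 hz
  have h4 := habs _ he _ _ hα hβ
  rw [h3, abs_zero] at h4
  exact abs_eq_zero.1 h4.symm

end Pool.Agent.FQW
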