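import Mathlib
import Pool.Agent.FQW.Targets

set_option autoImplicit false

/-!
# SM: second moment
-/

namespace Pool.Agent.FQW

open Finset
open scoped BigOperators

namespace SM_

/-- the box as a finset -/
noncomputable def bx {n : ℕ} (B : Fin n → ℕ) (k : Fin n → ℤ) : Finset (Fin n → ℤ) :=
  Fintype.piFinset fun j => Finset.Ico (k j * (B j : ℤ)) ((k j + 1) * (B j : ℤ))

theorem mem_bx {n : ℕ} {B : Fin n → ℕ} (hB : ∀ j, 0 < B j) (k : Fin n → ℤ) (x : Fin n → ℤ) :
    x ∈ bx B k ↔ ∀ j, x j / (B j : ℤ) = k j := by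
  unfold bx
  rw [Fintype.mem_piFinset]
  refine forall_congr' fun j => ?_
  have hj : (0 : ℤ) < B j := by exact_mod_cast hB j
  rw [Finset.mem_Ico]
  constructor
  · rintro ⟨h1, h2⟩
    apply le_antisymm
    · have := (Int.ediv_lt_iff_lt_mul hj).2 h2
      omega
    · exact (Int.le_ediv_iff_mul_le hj).2 h1
  · intro h
    refine ⟨(Int.le_ediv_iff_mul_le hj).1 h.ge, (Int.ediv_lt_iff_lt_mul hj).1 (by omega)⟩

open Classical in
theorem ncard_eq {n : ℕ} {B : Fin n → ℕ} (hB : ∀ j, 0 < B j) (k : Fin n → ℤ)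
    (Q : (Fin n → ℤ) → Prop) :
    {x : Fin n → ℤ | (∀ j, x j / (B j : ℤ) = k j) ∧ Q x}.ncard = ((bx B k).filter Q).card := by
  rw [← Set.ncard_coe_finset]
  congr 1
  ext x
  simp only [Set.mem_ofPred_eq, Finset.coe_filter, mem_bx hB]

/-- the Chinese remainder theorem for vectors -/
noncomputable def crt {n l m : ℕ} (h : l.Coprime m) :
    (Fin n → ZMod (l * m)) ≃ (Fin n → ZMod l) × (Fin n → ZMod m) :=
  (Equiv.piCongrRight fun _ : Fin n => (ZMod.chineseRemainder h).toEquiv).trans
    (Equiv.arrowProdEquivProdArrow (Fin n) (fun _ => ZMod l) (fun _ => ZMod m))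

theorem crt_cast {n l m : ℕ} (h : l.Coprime m) (x : Fin n → ℤ) :
    crt h (fun j => (x j : ZMod (l * m))) =
      ((fun j => (x j : ZMod l)), (fun j => (x j : ZMod m))) := by
  unfold crt
  refine Prod.ext ?_ ?_
  · funext j
    simp [Equiv.arrowProdEquivProdArrow]
  · funext j
    simp [Equiv.arrowProdEquivProdArrow]

theorem crt_ncard {n l m : ℕ} (h : l.Coprime m) (S : Set (Fin n → ZMod l))
    (S' : Set (Fin n → ZMod m)) :
    (crt h ⁻¹' (S ×ˢ S')).ncard = S.ncard * S'.ncard := by
  rw [← Set.ncard_prod, ← Set.ncard_image_of_injective _ (crt h).injective,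
    Set.image_preimage_eq _ (crt h).surjective]

end SM_

open SM_ in
open Classical in
/-- SM: second moment -/
theorem tSM : T_SMA → T_SM := by
  intro hSMA n Bm Y B hBm hY hn L hL hLp S θ hθ hS k
  rcases Nat.eq_zero_or_pos n with rfl | hn0
  · -- dimension zero
    have he : {x : Fin 0 → ℤ | (∀ j, x j / (B j : ℤ) = k j) ∧
        ∀ l ∈ L, (fun j => (x j : ZMod l)) ∉ S l} = ∅ := by
      ext x
      simp only [Set.mem_ofPred_eq, Set.mem_empty_iff_false, iff_false, not_and]
      intro _ h
      obtain ⟨l, hl⟩ := hL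
      have h1 := hS l hl
      have h2 : (0 : ℝ) < ((S l).ncard : ℕ) := by
        refine lt_of_lt_of_le ?_ h1
        simpa using hθ
      have h3 : (S l).ncard ≠ 0 := by
        intro h4
        rw [h4] at h2
        simp at h2
      obtain ⟨y, hy⟩ := Set.nonempty_of_ncard_ne_zero h3
      have h5 : (fun j => (x j : ZMod l)) = y := funext fun j => j.elim0
      exact h l hl (h5 ▸ hy)
    rw [he]
    simp
    positivity
  · have hY2 : 1 ≤ Y ^ 2 := Nat.one_le_pow _ _ hY
    have hBm8 : 8 ≤ Bm := by nlinarith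
    have hBm0 : 0 < Bm := by omega
    have hB0 : ∀ j, 0 < B j := fun j => lt_of_lt_of_le hBm0 (hBm j)
    have hBmr : (0 : ℝ) < Bm := by exact_mod_cast hBm0
    set W : ℝ := ∏ j, (B j : ℝ) with hW
    have hW0 : 0 ≤ W := Finset.prod_nonneg fun j _ => Nat.cast_nonneg _
    set η : ℝ := 2 * n * Y ^ 2 / Bm with hη
    have hη0 : 0 ≤ η := by positivity
    have hη1 : η ≤ 1 := by
      rw [hη, div_le_one hBmr]
      have : ((8 * n * Y ^ 2 : ℕ) : ℝ) ≤ Bm := by exact_mod_cast hn
      push_cast at this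
      have h0 : (0 : ℝ) ≤ n * Y ^ 2 := by positivity
      nlinarith
    -- the estimate for one modulus
    have key : ∀ (M : ℕ), 1 ≤ M → M ≤ Y ^ 2 → ∀ T : Set (Fin n → ZMod M),
        |((((bx B k).filter fun x => (fun j => (x j : ZMod M)) ∈ T).card : ℕ) : ℝ) -
          W * ((T.ncard : ℕ) / (M : ℝ) ^ n)| ≤ W * ((T.ncard : ℕ) / (M : ℝ) ^ n) * η := by
      intro M hM1 hM2 T
      have h4 : 4 * n * M ≤ Bm := by
        refine le_trans ?_ hn
        have : n * M ≤ n * Y ^ 2 := Nat.mul_le_mul_left _ hM2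
        nlinarith
      have h := hSMA n M Bm B hM1 hBm0 hBm h4 T k
      rw [ncard_eq hB0 k] at h
      refine h.trans ?_
      have hM2' : (M : ℝ) ≤ (Y : ℝ) ^ 2 := by exact_mod_cast hM2
      have hle : 2 * (n : ℝ) * M / Bm ≤ η := by
        rw [hη]
        gcongr
      gcongr
    set δ : ℕ → ℝ := fun l => ((S l).ncard : ℕ) / (l : ℝ) ^ n with hδ
    have hδ0 : ∀ l, 0 ≤ δ l := fun l => by positivity
    have hδθ : ∀ l ∈ L, θ ≤ δ l := by
      intro l hl
      have hl0 : (0 : ℝ) < (l : ℝ) ^ n := by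
        have := (hLp l hl).1.pos
        positivity
      rw [hδ]
      simp only
      rw [le_div_iff₀ hl0]
      exact hS l hl
    set μ : ℝ := ∑ l ∈ L, δ l with hμ
    have hLc : (0 : ℝ) < L.card := by exact_mod_cast hL.card_pos
    have hμθ : θ * L.card ≤ μ := by
      rw [hμ, mul_comm, ← nsmul_eq_mul]
      exact Finset.card_nsmul_le_sum _ _ _ hδθ
    have hμ0 : 0 < μ := lt_of_lt_of_le (by positivity) hμθ
    -- the indicators
    set I : ℕ → (Fin n → ℤ) → ℝ := fun l x => if (fun j => (x j : ZMod l)) ∈ S l then 1 else 0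
      with hI
    set Z : (Fin n → ℤ) → ℝ := fun x => ∑ l ∈ L, I l x with hZ
    have hsumI : ∀ l, ∑ x ∈ bx B k, I l x =
        ((((bx B k).filter fun x => (fun j => (x j : ZMod l)) ∈ S l).card : ℕ) : ℝ) := by
      intro l
      simp only [hI]
      rw [Finset.sum_boole]
    have hlY : ∀ l ∈ L, 1 ≤ l ∧ l ≤ Y ^ 2 := by
      intro l hl
      have h1 := (hLp l hl).1.pos
      have h2 := (hLp l hl).2
      refine ⟨h1, ?_⟩
      nlinarith
    have h1 : ∀ l ∈ L, W * δ l * (1 - η) ≤ ∑ x ∈ bx B k, I l x := by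
      intro l hl
      have h := abs_le.1 (key l (hlY l hl).1 (hlY l hl).2 (S l))
      rw [hsumI]
      have h' := h.1
      simp only [hδ]
      linarith
    have h2 : ∀ l ∈ L, ∑ x ∈ bx B k, I l x ≤ W * δ l * (1 + η) := by
      intro l hl
      have h := abs_le.1 (key l (hlY l hl).1 (hlY l hl).2 (S l))
      rw [hsumI]
      have h' := h.2
      simp only [hδ]
      linarith
    have h3 : ∀ l ∈ L, ∀ m ∈ L, l ≠ m → ∑ x ∈ bx B k, I l x * I m x ≤ W * (δ l * δ m) * (1 + η) := by
      intro l hl m hm hlm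
      have hco : l.Coprime m := (Nat.coprime_primes (hLp l hl).1 (hLp m hm).1).2 hlm
      have hlm1 : 1 ≤ l * m := Nat.mul_pos (hlY l hl).1 (hlY m hm).1
      have hlm2 : l * m ≤ Y ^ 2 := by
        rw [sq]
        exact Nat.mul_le_mul (hLp l hl).2 (hLp m hm).2
      have h := (abs_le.1 (key (l * m) hlm1 hlm2 (crt hco ⁻¹' (S l ×ˢ S m)))).2
      rw [crt_ncard] at h
      have e : ∑ x ∈ bx B k, I l x * I m x =
          ((((bx B k).filter fun x => (fun j => (x j : ZMod (l * m))) ∈
            crt hco ⁻¹' (S l ×ˢ S m)).card : ℕ) : ℝ) := by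
        rw [← Finset.sum_boole]
        refine Finset.sum_congr rfl fun x _ => ?_
        simp only [hI, Set.mem_preimage, crt_cast, Set.mem_prod]
        split_ifs <;> simp_all
      rw [e]
      have e2 : (((S l).ncard * (S m).ncard : ℕ) : ℝ) / ((l * m : ℕ) : ℝ) ^ n = δ l * δ m := by
        simp only [hδ]
        push_cast
        rw [mul_pow, mul_div_mul_comm]
      rw [e2] at h
      linarith
    have h4 : (((bx B k).card : ℕ) : ℝ) ≤ W * (1 + η) := by
      have h := (abs_le.1 (key 1 le_rfl hY2 Set.univ)).2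
      have e2 : (Set.univ : Set (Fin n → ZMod 1)).ncard = 1 := by
        rw [Set.ncard_univ, Nat.card_unique]
      rw [e2] at h
      simp only [Set.mem_univ, Finset.filter_true, Nat.cast_one, one_pow, div_one, mul_one] at h
      linarith
    -- the sums of Z and of Z ^ 2
    have hZ1 : W * μ * (1 - η) ≤ ∑ x ∈ bx B k, Z x := by
      simp only [hZ]
      rw [Finset.sum_comm]
      calc W * μ * (1 - η) = ∑ l ∈ L, W * δ l * (1 - η) := by
            rw [hμ, Finset.mul_sum, Finset.sum_mul]
        _ ≤ _ := Finset.sum_le_sum h1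
    have hZ2 : ∑ x ∈ bx B k, Z x ^ 2 ≤ W * (μ + μ ^ 2) * (1 + η) := by
      have e : ∀ x, Z x ^ 2 = ∑ l ∈ L, ∑ m ∈ L, I l x * I m x := by
        intro x
        rw [sq]
        simp only [hZ]
        rw [Finset.sum_mul_sum]
      simp_rw [e]
      rw [Finset.sum_comm]
      have h5 : ∀ l ∈ L, ∑ x ∈ bx B k, ∑ m ∈ L, I l x * I m x ≤
          W * (1 + η) * (δ l + δ l * μ) := by
        intro l hl
        rw [Finset.sum_comm]
        calc ∑ m ∈ L, ∑ x ∈ bx B k, I l x * I m x
            ≤ ∑ m ∈ L, W * (1 + η) * ((if m = l then δ l else 0) + δ l * δ m) := by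
              refine Finset.sum_le_sum fun m hm => ?_
              by_cases hlm : m = l
              · subst hlm
                have hII : ∀ x, I m x * I m x = I m x := by
                  intro x
                  simp only [hI]
                  split_ifs <;> simp
                simp only [hII, if_true]
                have h6 := h2 m hm
                have h7 : 0 ≤ W * (1 + η) * (δ m * δ m) := by
                  have := hδ0 m
                  positivity
                linarith
              · rw [if_neg hlm, zero_add]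
                have h6 := h3 l hl m hm (Ne.symm hlm)
                linarith
          _ = W * (1 + η) * (δ l + δ l * μ) := by
              rw [← Finset.mul_sum, Finset.sum_add_distrib, Finset.sum_ite_eq' L l,
                if_pos hl, ← Finset.mul_sum, hμ]
      calc _ ≤ ∑ l ∈ L, W * (1 + η) * (δ l + δ l * μ) := Finset.sum_le_sum h5
        _ = W * (1 + η) * (μ + μ * μ) := by
            rw [← Finset.mul_sum, Finset.sum_add_distrib, ← Finset.sum_mul]
        _ = _ := by ring
    -- Chebyshev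
    have hK : ∑ x ∈ bx B k, (Z x - μ) ^ 2 ≤ W * ((1 + η) * μ + 4 * η * μ ^ 2) := by
      have e : ∑ x ∈ bx B k, (Z x - μ) ^ 2 =
          ∑ x ∈ bx B k, Z x ^ 2 - 2 * μ * ∑ x ∈ bx B k, Z x + μ ^ 2 * (bx B k).card := by
        rw [Finset.mul_sum, ← Finset.sum_sub_distrib, mul_comm (μ ^ 2), ← nsmul_eq_mul,
          ← Finset.sum_const, ← Finset.sum_add_distrib]
        refine Finset.sum_congr rfl fun x _ => ?_
        ring
      rw [e]
      have h6 : 2 * μ * (W * μ * (1 - η)) ≤ 2 * μ * ∑ x ∈ bx B k, Z x := by gcongr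
      have h7 : μ ^ 2 * (bx B k).card ≤ μ ^ 2 * (W * (1 + η)) := by gcongr
      nlinarith
    have hcount : ((((bx B k).filter fun x => ∀ l ∈ L, (fun j => (x j : ZMod l)) ∉ S l).card : ℕ) :
        ℝ) * μ ^ 2 ≤ ∑ x ∈ bx B k, (Z x - μ) ^ 2 := by
      rw [← nsmul_eq_mul, ← Finset.sum_const]
      calc ∑ _x ∈ (bx B k).filter (fun x => ∀ l ∈ L, (fun j => (x j : ZMod l)) ∉ S l), μ ^ 2
          = ∑ x ∈ (bx B k).filter (fun x => ∀ l ∈ L, (fun j => (x j : ZMod l)) ∉ S l),
              (Z x - μ) ^ 2 := by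
            refine Finset.sum_congr rfl fun x hx => ?_
            have hZ0 : Z x = 0 := by
              simp only [hZ]
              apply Finset.sum_eq_zero
              intro l hl
              simp only [hI]
              rw [if_neg ((Finset.mem_filter.1 hx).2 l hl)]
            rw [hZ0]
            ring
        _ ≤ _ := by
            apply Finset.sum_le_sum_of_subset_of_nonneg (Finset.filter_subset _ _)
            intro x _ _
            positivity
    have hNe : {x : Fin n → ℤ | (∀ j, x j / (B j : ℤ) = k j) ∧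
        ∀ l ∈ L, (fun j => (x j : ZMod l)) ∉ S l}.ncard =
        ((bx B k).filter fun x => ∀ l ∈ L, (fun j => (x j : ZMod l)) ∉ S l).card := by
      rw [ncard_eq hB0 k]
      congr!
    rw [hNe]
    set N : ℝ := ((((bx B k).filter fun x => ∀ l ∈ L, (fun j => (x j : ZMod l)) ∉ S l).card : ℕ) :
      ℝ) with hN
    have h8 : N * μ ^ 2 ≤ W * ((1 + η) * μ + 4 * η * μ ^ 2) := hcount.trans hK
    have h9 : N ≤ W * ((1 + η) / μ + 4 * η) := by
      have h10 : W * ((1 + η) / μ + 4 * η) * μ ^ 2 = W * ((1 + η) * μ + 4 * η * μ ^ 2) := by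
        field_simp
      rw [← h10] at h8
      exact le_of_mul_le_mul_right h8 (by positivity)
    refine h9.trans ?_
    have h11 : (1 + η) / μ ≤ 2 / (θ * L.card) := by
      gcongr
      linarith
    have h12 : 4 * η = 8 * n * Y ^ 2 / Bm := by
      rw [hη]
      ring
    rw [h12]
    gcongr

end Pool.Agent.FQW
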