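import Mathlib
import Pool.Agent.FQW.Targets

set_option autoImplicit false

/-!
# FQW, SMA: residue classes in a box
-/

namespace Pool.Agent.FQW

open Finset
open scoped BigOperators Classical

namespace SMA_

/-- residue classes in an interval -/
lemma count (M B : ℕ) (hM : 1 ≤ M) (k : ℤ) (r : ZMod M) :
    |((((Finset.Ico (k * B) ((k + 1) * B)).filter fun x : ℤ => (x : ZMod M) = r).card : ℕ) : ℝ) -
      (B : ℝ) / M| ≤ 1 := by
  have hM0 : (0 : ℤ) < (M : ℤ) := by exact_mod_cast hM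
  obtain ⟨v, hv⟩ : ∃ v : ℤ, (v : ZMod M) = r := ZMod.intCast_surjective r
  have e1 : ((Finset.Ico (k * B) ((k + 1) * B)).filter fun x : ℤ => (x : ZMod M) = r) =
      (Finset.Ico (k * B) ((k + 1) * B)).filter fun x : ℤ => x ≡ v [ZMOD (M : ℤ)] := by
    apply Finset.filter_congr
    intro x _
    rw [← hv, ZMod.intCast_eq_intCast_iff]
  rw [e1]
  have h1 := Int.Ico_filter_modEq_card (k * B) ((k + 1) * B) hM0 v
  set c := ((Finset.Ico (k * B) ((k + 1) * B)).filter fun x : ℤ => x ≡ v [ZMOD (M : ℤ)]).card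
    with hc
  set y1 : ℚ := (((k + 1) * B : ℤ) - v : ℚ) / ((M : ℤ) : ℚ) with hy1
  set y0 : ℚ := (((k * B : ℤ) : ℚ) - v) / ((M : ℤ) : ℚ) with hy0
  have hMq : (0 : ℚ) < M := by exact_mod_cast hM
  have hdiff : y1 - y0 = (B : ℚ) / M := by
    rw [hy1, hy0]
    push_cast
    field_simp
    ring
  have hB0 : (0 : ℚ) ≤ (B : ℚ) / M := by positivity
  have hmono : ⌈y0⌉ ≤ ⌈y1⌉ := Int.ceil_mono (by linarith)
  have h2 : (c : ℤ) = ⌈y1⌉ - ⌈y0⌉ := by
    rw [h1]
    exact max_eq_left (by linarith)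
  have h3 : ((c : ℤ) : ℚ) = ⌈y1⌉ - ⌈y0⌉ := by
    rw [h2]
    push_cast
    ring
  have a1 := Int.le_ceil y1
  have a2 := Int.ceil_lt_add_one y1
  have a3 := Int.le_ceil y0
  have a4 := Int.ceil_lt_add_one y0
  have h4 : |((c : ℤ) : ℚ) - (B : ℚ) / M| ≤ 1 := by
    rw [h3, abs_le]
    constructor <;> linarith
  have h5 : |(((c : ℤ) : ℚ) : ℝ) - ((B : ℚ) / M : ℚ)| ≤ 1 := by exact_mod_cast h4
  push_cast at h5
  exact h5

lemma pow_upper (n : ℕ) (t : ℝ) (ht : 0 ≤ t) (h : n * t ≤ 1 / 4) :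
    (1 + t) ^ n ≤ 1 + 2 * (n * t) := by
  have h0 : 0 ≤ n * t := by positivity
  calc (1 + t) ^ n ≤ Real.exp t ^ n := by
        apply pow_le_pow_left₀ (by positivity)
        linarith [Real.add_one_le_exp t]
    _ = Real.exp (n * t) := (Real.exp_nat_mul t n).symm
    _ ≤ 1 / (1 - n * t) := Real.exp_bound_div_one_sub_of_interval h0 (by linarith)
    _ ≤ 1 + 2 * (n * t) := by
        rw [div_le_iff₀ (by linarith)]
        nlinarith

lemma pow_lower (n : ℕ) (t : ℝ) (ht : 0 ≤ t) (h : n * t ≤ 1 / 4) :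
    1 - n * t ≤ (1 - t) ^ n := by
  rcases Nat.eq_zero_or_pos n with rfl | hn
  · simp
  · have hn1 : (1 : ℝ) ≤ n := by exact_mod_cast hn
    have ht1 : t ≤ 1 / 4 := by nlinarith
    have := one_add_mul_le_pow (a := -t) (by linarith) n
    calc 1 - n * t = 1 + n * (-t) := by ring
      _ ≤ (1 + -t) ^ n := this
      _ = (1 - t) ^ n := by ring

/-- products of numbers close to `B_j / M` -/
lemma prods {n : ℕ} (M Bm : ℕ) (B c : Fin n → ℕ) (hM : 1 ≤ M) (hBm : 1 ≤ Bm)
    (hB : ∀ j, Bm ≤ B j) (h4 : 4 * n * M ≤ Bm) (hc : ∀ j, |(c j : ℝ) - (B j : ℝ) / M| ≤ 1) :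
    |∏ j, (c j : ℝ) - (∏ j, (B j : ℝ)) / (M : ℝ) ^ n| ≤
      (∏ j, (B j : ℝ)) / (M : ℝ) ^ n * (2 * n * M / Bm) := by
  have hMp : (0 : ℝ) < M := by exact_mod_cast hM
  have hBp : (0 : ℝ) < Bm := by exact_mod_cast hBm
  set t : ℝ := (M : ℝ) / Bm with ht
  have ht0 : 0 ≤ t := by positivity
  have hnt : n * t ≤ 1 / 4 := by
    rw [ht, mul_div_assoc', div_le_iff₀ hBp]
    have : (4 * n * M : ℝ) ≤ Bm := by exact_mod_cast h4
    linarith
  have hj : ∀ j, (B j : ℝ) / M * (1 - t) ≤ c j ∧ (c j : ℝ) ≤ (B j : ℝ) / M * (1 + t) ∧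
      0 ≤ (B j : ℝ) / M * (1 - t) := by
    intro j
    have hBj : (Bm : ℝ) ≤ B j := by exact_mod_cast hB j
    have h1 := abs_le.1 (hc j)
    have h2 : 1 ≤ (B j : ℝ) / M * t := by
      rw [ht, div_mul_div_comm, mul_comm (M : ℝ) Bm, le_div_iff₀ (by positivity), one_mul]
      exact mul_le_mul_of_nonneg_right hBj hMp.le
    have hn1 : (1 : ℝ) ≤ n := by
      have : 1 ≤ n := by
        have := j.2
        omega
      exact_mod_cast this
    have ht1 : t ≤ 1 / 4 := by nlinarith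
    have h3 : (0 : ℝ) ≤ (B j : ℝ) / M := by positivity
    refine ⟨by nlinarith, by nlinarith, mul_nonneg h3 (by linarith)⟩
  have hW : ∏ j, (B j : ℝ) / M = (∏ j, (B j : ℝ)) / (M : ℝ) ^ n := by
    rw [Finset.prod_div_distrib, Finset.prod_const, Finset.card_univ, Fintype.card_fin]
  set W : ℝ := (∏ j, (B j : ℝ)) / (M : ℝ) ^ n with hWd
  have hW0 : 0 ≤ W := by positivity
  have up : ∏ j, (c j : ℝ) ≤ W * (1 + 2 * (n * t)) := by
    calc ∏ j, (c j : ℝ) ≤ ∏ j, ((B j : ℝ) / M * (1 + t)) :=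
          Finset.prod_le_prod (fun j _ => Nat.cast_nonneg _) (fun j _ => (hj j).2.1)
      _ = W * (1 + t) ^ n := by
          rw [Finset.prod_mul_distrib, hW, Finset.prod_const, Finset.card_univ, Fintype.card_fin]
      _ ≤ W * (1 + 2 * (n * t)) := mul_le_mul_of_nonneg_left (pow_upper n t ht0 hnt) hW0
  have low : W * (1 - n * t) ≤ ∏ j, (c j : ℝ) := by
    calc W * (1 - n * t) ≤ W * (1 - t) ^ n :=
          mul_le_mul_of_nonneg_left (pow_lower n t ht0 hnt) hW0
      _ = ∏ j, ((B j : ℝ) / M * (1 - t)) := by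
          rw [Finset.prod_mul_distrib, hW, Finset.prod_const, Finset.card_univ, Fintype.card_fin]
      _ ≤ ∏ j, (c j : ℝ) := Finset.prod_le_prod (fun j _ => (hj j).2.2) (fun j _ => (hj j).1)
  have e2 : (2 * n * M / Bm : ℝ) = 2 * (n * t) := by
    rw [ht]
    ring
  rw [e2, abs_le]
  have h0 : 0 ≤ W * (n * t) := by positivity
  constructor <;> nlinarith

end SMA_

open SMA_ in
theorem tSMA : T_SMA := by
  intro n M Bm B hM hBm hB h4 S k
  have : NeZero M := ⟨by omega⟩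
  have hMp : (0 : ℝ) < M := by exact_mod_cast hM
  have hBpos : ∀ j, 0 < (B j : ℤ) := by
    intro j
    have := hB j
    have : 0 < B j := by omega
    exact_mod_cast this
  let I : Fin n → Finset ℤ := fun j => Finset.Ico (k j * B j) ((k j + 1) * B j)
  let T : Finset (Fin n → ℤ) := Fintype.piFinset I
  let SF : Finset (Fin n → ZMod M) := S.toFinset
  let cast : (Fin n → ℤ) → Fin n → ZMod M := fun x j => (x j : ZMod M)
  have hset : {x : Fin n → ℤ | (∀ j, x j / (B j : ℤ) = k j) ∧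
      (fun j => (x j : ZMod M)) ∈ S} = ↑(T.filter fun x => cast x ∈ SF) := by
    ext x
    simp only [Set.mem_ofPred_eq, coe_filter, T, Fintype.mem_piFinset, I, Finset.mem_Ico, SF,
      Set.mem_toFinset, cast]
    refine and_congr_left fun _ => forall_congr' fun j => ?_
    rw [Int.ediv_eq_iff_of_pos (hBpos j), add_one_mul]
  rw [hset, Set.ncard_coe_finset]
  have hS : S.ncard = SF.card := Set.ncard_eq_toFinset_card' S
  rw [hS]
  -- the fibres
  have hcount : (T.filter fun x => cast x ∈ SF).card =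
      ∑ r ∈ SF, ∏ j, ((I j).filter fun x : ℤ => (x : ZMod M) = r j).card := by
    rw [Finset.card_eq_sum_card_fiberwise (f := cast) (s := T.filter fun x => cast x ∈ SF)
      (t := SF) (fun x hx => (Finset.mem_filter.1 hx).2)]
    refine Finset.sum_congr rfl fun r hr => ?_
    rw [← Fintype.card_piFinset]
    congr 1
    ext x
    simp only [Finset.mem_filter, T, Fintype.mem_piFinset]
    constructor
    · rintro ⟨⟨h1, _⟩, h3⟩ j
      exact ⟨h1 j, congrFun h3 j⟩
    · intro h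
      have h3 : cast x = r := funext fun j => (h j).2
      exact ⟨⟨fun j => (h j).1, h3 ▸ hr⟩, h3⟩
  rw [hcount]
  push_cast
  have hW : (∏ j, (B j : ℝ)) * ((SF.card : ℝ) / (M : ℝ) ^ n) =
      ∑ _r ∈ SF, (∏ j, (B j : ℝ)) / (M : ℝ) ^ n := by
    rw [Finset.sum_const, nsmul_eq_mul]
    ring
  rw [hW, ← Finset.sum_sub_distrib, Finset.sum_mul]
  refine (Finset.abs_sum_le_sum_abs _ _).trans (Finset.sum_le_sum fun r _ => ?_)
  have := prods M Bm B (fun j => ((I j).filter fun x : ℤ => (x : ZMod M) = r j).card) hM hBm hB h4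
    (fun j => count M (B j) hM (k j) (r j))
  exact this

end Pool.Agent.FQW
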