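import Mathlib
import Pool.Agent.FQW.Basic

set_option autoImplicit false

/-!
# Interpolation bound for the number of polynomials with small values at `k` nodes
-/

namespace Pool.Agent.FQW

open Polynomial Finset
open scoped BigOperators

namespace STAR_

theorem geom (r : ℝ) (hr : 2 ≤ r) : ∀ k : ℕ, ∑ j ∈ range k, r ^ j ≤ r ^ k
  | 0 => by simp
  | (k + 1) => by
    rw [Finset.sum_range_succ, pow_succ]
    have h1 := geom r hr k
    have h2 : 0 < r ^ k := by positivity
    nlinarith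

theorem vdm_pos {k : ℕ} (x : Fin k → ℝ) (hx : Function.Injective x) : 0 < vdm x := by
  unfold vdm
  refine Finset.prod_pos fun i _ => Finset.prod_pos fun j hj => ?_
  rw [abs_pos, sub_ne_zero]
  intro h
  have h1 := hx h
  rw [Finset.mem_Ioi] at hj
  exact absurd h1 hj.ne'

/-- the values of the basis at the nodes -/
noncomputable def AA (q : ℕ) {k : ℕ} (x : Fin k → ℝ) : Matrix (Fin k) (Fin k) ℝ :=
  Matrix.of fun i j : Fin k => ((dk q j).map (Int.castRingHom ℝ)).eval (x i)

theorem AA_apply (q : ℕ) {k : ℕ} (x : Fin k → ℝ) (i j : Fin k) :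
    AA q x i j = (dkR ℝ q j).eval (x i) := rfl

theorem row (q : ℕ) (hq : 2 ≤ q) {k : ℕ} (x : Fin k → ℝ) (hx : ∀ i, |x i| ≤ 3 * √(q : ℝ))
    (i : Fin k) : ∑ j, |AA q x i j| ≤ (4 * √(q : ℝ)) ^ k := by
  have hq1 : (1 : ℝ) ≤ √(q : ℝ) := by
    rw [Real.one_le_sqrt]
    exact_mod_cast (by omega : 1 ≤ q)
  calc ∑ j, |AA q x i j| ≤ ∑ j : Fin k, (4 * √(q : ℝ)) ^ (j : ℕ) :=
        Finset.sum_le_sum fun j _ => dkR_bound3 q (by omega) (x i) (hx i) j
    _ = ∑ j ∈ range k, (4 * √(q : ℝ)) ^ j :=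
        (Finset.sum_range fun j => (4 * √(q : ℝ)) ^ j).symm
    _ ≤ _ := geom _ (by linarith) k

/-- the part of the value which comes from the upper coefficients -/
noncomputable def vv (q : ℕ) {k m : ℕ} (x : Fin k → ℝ) (b : Fin (k + m) → ℤ) (i : Fin k) : ℝ :=
  (dkR ℝ q (k + m)).eval (x i) +
    ∑ j : Fin m, (b (Fin.natAdd k j) : ℝ) * (dkR ℝ q (k + j)).eval (x i)

theorem ev_split (q : ℕ) {k m : ℕ} (x : Fin k → ℝ) (a : Fin (k + m) → ℤ) (i : Fin k) :
    ev q a (x i) = vv q x (topPart k a) i + ∑ j, AA q x i j * (a (Fin.castAdd m j) : ℝ) := by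
  rw [ev_eq, HR_eval, Fin.sum_univ_add]
  unfold vv
  have h1 : ∀ j : Fin m, topPart k a (Fin.natAdd k j) = a (Fin.natAdd k j) := by
    intro j
    unfold topPart
    rw [if_neg]
    simp
  have h2 : ∑ j : Fin k, AA q x i j * (a (Fin.castAdd m j) : ℝ) =
      ∑ j : Fin k, (a (Fin.castAdd m j) : ℝ) * (dkR ℝ q (Fin.castAdd m j : Fin (k + m))).eval (x i) :=
    Finset.sum_congr rfl fun j _ => by
      rw [AA_apply, mul_comm]
      rfl
  have h3 : ∑ j : Fin m, (topPart k a (Fin.natAdd k j) : ℝ) * (dkR ℝ q (k + j)).eval (x i) =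
      ∑ j : Fin m, (a (Fin.natAdd k j) : ℝ) *
        (dkR ℝ q (Fin.natAdd k j : Fin (k + m))).eval (x i) :=
    Finset.sum_congr rfl fun j _ => by
      rw [h1]
      rfl
  rw [h2, h3]
  ring

theorem fibre_inj {k m : ℕ} {a a' : Fin (k + m) → ℤ} (h1 : topPart k a = topPart k a')
    (h2 : ∀ j, a (Fin.castAdd m j) = a' (Fin.castAdd m j)) : a = a' := by
  ext i
  refine Fin.addCases (fun j => h2 j) (fun j => ?_) i
  have h3 := congrFun h1 (Fin.natAdd k j)
  unfold topPart at h3
  rw [if_neg (by simp), if_neg (by simp)] at h3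
  exact h3

end STAR_

open STAR_ in
/-- STAR: interpolation bound for the number of polynomials with small values at `k` nodes -/
theorem tSTAR : T_FINP → T_TOP → T_LAT → T_DET → T_STAR := by
  classical
  intro hF hT hL hD q g k hq hk x hinj hx M hM
  obtain ⟨m, rfl⟩ : ∃ m, g = k + m := ⟨g - k, by omega⟩
  have hfin := hF q (k + m)
  have hfinS : {a ∈ P q (k + m) | ∀ i, |ev q a (x i)| ≤ M i}.Finite :=
    hfin.subset fun a ha => ha.1
  set F : Finset (Fin (k + m) → ℤ) := hfinS.toFinset with hFd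
  have hmem : ∀ a, a ∈ F ↔ a ∈ P q (k + m) ∧ ∀ i, |ev q a (x i)| ≤ M i := fun a => by
    rw [hFd, Set.Finite.mem_toFinset]
    exact Iff.rfl
  have hcard : ({a ∈ P q (k + m) | ∀ i, |ev q a (x i)| ≤ M i}.ncard : ℕ) = F.card :=
    Set.ncard_eq_toFinset_card _ hfinS
  rw [hcard]
  have hv := vdm_pos x hinj
  have hq0 : (0 : ℝ) < √(q : ℝ) := Real.sqrt_pos.mpr (by exact_mod_cast (by omega : 0 < q))
  have hM0 : ∀ i, 0 < M i := fun i => lt_of_lt_of_le (by positivity) (hM i)
  have hMp : 0 ≤ ∏ i, M i := Finset.prod_nonneg fun i _ => (hM0 i).le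
  -- the fibres
  have hfib : ∀ b ∈ F.image (topPart k),
      (((F.filter fun a => topPart k a = b).card : ℕ) : ℝ) ≤ 4 ^ k * (∏ i, M i) / vdm x := by
    intro b _
    set S : Finset (Fin k → ℤ) := (F.filter fun a => topPart k a = b).image
      (fun a j => a (Fin.castAdd m j)) with hS
    have hSc : S.card = (F.filter fun a => topPart k a = b).card := by
      rw [hS, Finset.card_image_of_injOn]
      intro a ha a' ha' haa
      rw [Finset.mem_coe, Finset.mem_filter] at ha ha'
      exact fibre_inj (ha.2.trans ha'.2.symm) (fun j => congrFun haa j)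
    rw [← hSc, le_div_iff₀ hv]
    have h1 := hL k (AA q x) (vv q x b) M (fun i => by
      have h2 := row q hq x hx i
      have h3 := hM i
      have h4 := hM0 i
      linarith) S (fun c hc i => by
        rw [hS, Finset.mem_image] at hc
        obtain ⟨a, ha, rfl⟩ := hc
        rw [Finset.mem_filter] at ha
        have h2 := ((hmem a).1 ha.1).2 i
        rw [ev_split, ha.2] at h2
        exact h2)
    have h5 : |(AA q x).det| = vdm x := hD q k x
    rwa [h5] at h1
  -- the number of fibres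
  have himg : ((F.image (topPart k)).card : ℝ) ≤
      Real.exp (5 * (k + m : ℕ)) * √(q : ℝ) ^ ((k + m - k) * (k + m - k + 1) / 2) := by
    refine le_trans ?_ (hT q (k + m) k hq hk)
    have h1 : (F.image (topPart k)).card ≤ (topPart k '' P q (k + m)).ncard := by
      rw [← Set.ncard_coe_finset]
      refine Set.ncard_le_ncard ?_ (hfin.image _)
      intro b hb
      rw [Finset.coe_image] at hb
      obtain ⟨a, ha, rfl⟩ := hb
      exact ⟨a, ((hmem a).1 ha).1, rfl⟩
    exact_mod_cast h1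
  have hsum : (F.card : ℝ) = ∑ b ∈ F.image (topPart k),
      (((F.filter fun a => topPart k a = b).card : ℕ) : ℝ) := by
    rw [← Nat.cast_sum, ← Finset.card_eq_sum_card_image]
  rw [hsum]
  calc ∑ b ∈ F.image (topPart k), (((F.filter fun a => topPart k a = b).card : ℕ) : ℝ)
      ≤ ∑ _b ∈ F.image (topPart k), 4 ^ k * (∏ i, M i) / vdm x := Finset.sum_le_sum hfib
    _ = (F.image (topPart k)).card * (4 ^ k * (∏ i, M i) / vdm x) := by
        rw [Finset.sum_const, nsmul_eq_mul]
    _ ≤ (Real.exp (5 * (k + m : ℕ)) * √(q : ℝ) ^ ((k + m - k) * (k + m - k + 1) / 2)) *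
          (4 ^ k * (∏ i, M i) / vdm x) :=
        mul_le_mul_of_nonneg_right himg (by positivity)
    _ = _ := by ring

end Pool.Agent.FQW
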