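import Mathlib
import Pool.Agent.FQW.Basic

set_option autoImplicit false

/-!
# STEP: Newton's identities
-/

namespace Pool.Agent.FQW

open Polynomial Finset
open scoped BigOperators

namespace STEP_

/-- elementary symmetric function -/
noncomputable def E {g : ℕ} (τ : Fin g → ℝ) (k : ℕ) : ℝ :=
  ((univ : Finset (Fin g)).val.map τ).esymm k

/-- power sum -/
noncomputable def pw {g : ℕ} (τ : Fin g → ℝ) (k : ℕ) : ℝ := ∑ i, τ i ^ k

theorem newton {g : ℕ} (τ : Fin g → ℝ) (k : ℕ) :
    k * E τ k = (-1) ^ (k + 1) *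
      ∑ a ∈ antidiagonal k with a.1 < k, (-1) ^ a.1 * E τ a.1 * pw τ a.2 := by
  have h := congrArg (MvPolynomial.aeval τ) (MvPolynomial.mul_esymm_eq_sum (Fin g) ℝ k)
  simp only [map_mul, map_natCast, map_pow, map_neg, map_one, map_sum,
    MvPolynomial.aeval_esymm_eq_multiset_esymm, MvPolynomial.psum, MvPolynomial.aeval_X] at h
  exact h

theorem E_zero {g : ℕ} (τ : Fin g → ℝ) : E τ 0 = 1 := by
  simp [E, Multiset.esymm, Multiset.powersetCard_zero_left]

/-- Newton for the power sums -/
theorem newton' {g : ℕ} (τ : Fin g → ℝ) (k : ℕ) (hk : 1 ≤ k) :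
    pw τ k = (-1) ^ (k + 1) * (k * E τ k) -
      ∑ a ∈ antidiagonal k with (a.1 < k ∧ a.1 ≠ 0), (-1) ^ a.1 * E τ a.1 * pw τ a.2 := by
  rw [newton τ k, ← mul_assoc, ← mul_pow]
  have h1 : ((-1 : ℝ) * -1) ^ (k + 1) = 1 := by norm_num
  rw [h1, one_mul]
  have h2 : (antidiagonal k).filter (fun a => a.1 < k) =
      insert (0, k) ((antidiagonal k).filter (fun a => a.1 < k ∧ a.1 ≠ 0)) := by
    ext ⟨x, y⟩
    simp only [mem_filter, HasAntidiagonal.mem_antidiagonal, mem_insert, Prod.mk.injEq]
    constructor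
    · rintro ⟨h, h'⟩
      by_cases hx : x = 0
      · left; exact ⟨hx, by omega⟩
      · right; exact ⟨h, h', hx⟩
    · rintro (⟨h, h'⟩ | ⟨h, h', _⟩)
      · subst h h'
        exact ⟨by simp, by omega⟩
      · exact ⟨h, h'⟩
  rw [h2, sum_insert (by simp)]
  simp only [pow_zero, one_mul, E_zero]
  ring

theorem coeff_prod {g : ℕ} (τ : Fin g → ℝ) (k : ℕ) (h : k ≤ g) :
    (∏ i, (X - C (τ i))).coeff k = (-1) ^ (g - k) * E τ (g - k) := by
  have hc : Multiset.card ((univ : Finset (Fin g)).val.map τ) = g := by simp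
  have := Multiset.prod_X_sub_C_coeff ((univ : Finset (Fin g)).val.map τ) (k := k)
    (by rw [hc]; exact h)
  rw [hc] at this
  rw [Multiset.map_map] at this
  exact this

theorem sum_eval {g : ℕ} (τ : Fin g → ℝ) (p : ℝ[X]) :
    ∑ i, p.eval (τ i) = ∑ m ∈ range (p.natDegree + 1), p.coeff m * pw τ m := by
  simp only [eval_eq_sum_range, pw, mul_sum]
  rw [sum_comm]

end STEP_

open STEP_ in
theorem tSTEP : T_STEP := by
  intro q g hq a ha b hb i hab
  obtain ⟨τ, _, hτ, hA⟩ := ha
  obtain ⟨σ, _, hσ, hB⟩ := hb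
  rw [HZ_map] at hA hB
  have hi : (i : ℕ) < g := i.2
  -- the difference
  have hdiff : HG ℝ q (fun j => (a j : ℝ)) - HG ℝ q (fun j => (b j : ℝ)) =
      ∑ j : Fin g, C ((a j : ℝ) - b j) * dkR ℝ q j := by
    simp only [HG, C_sub, sub_mul, sum_sub_distrib]
    ring
  have hcoef : ∀ m, (i : ℕ) ≤ m → (HG ℝ q (fun j => (a j : ℝ)) - HG ℝ q (fun j => (b j : ℝ))).coeff m =
      if m = i then (a i : ℝ) - b i else 0 := by
    intro m hm
    rw [hdiff, finsetSum_coeff]
    have h1 : ∀ j : Fin g, j ≠ i → (C ((a j : ℝ) - b j) * dkR ℝ q j).coeff m = 0 := by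
      intro j hj
      rw [coeff_C_mul]
      rcases lt_or_gt_of_ne hj with h | h
      · have : (dkR ℝ q j).coeff m = 0 := by
          apply coeff_eq_zero_of_degree_lt
          rw [dkR_degree]
          have : (j : ℕ) < m := lt_of_lt_of_le h hm
          exact_mod_cast this
        rw [this, mul_zero]
      · rw [hab j h, sub_self, zero_mul]
    rw [sum_eq_single i (fun j _ hj => h1 j hj) (fun h => absurd (mem_univ i) h), coeff_C_mul]
    split_ifs with hmi
    · subst hmi
      have := (dkR_monic ℝ q i).coeff_natDegree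
      rw [dkR_natDegree] at this
      rw [this, mul_one]
    · have : (dkR ℝ q i).coeff m = 0 := by
        apply coeff_eq_zero_of_degree_lt
        rw [dkR_degree]
        have : (i : ℕ) < m := by omega
        exact_mod_cast this
      rw [this, mul_zero]
  -- elementary symmetric functions
  have hE : ∀ m, m ≤ g - i → (-1 : ℝ) ^ m * (E τ m - E σ m) =
      if m = g - i then (a i : ℝ) - b i else 0 := by
    intro m hm
    have h1 := hcoef (g - m) (by omega)
    rw [coeff_sub, hA, hB, coeff_prod τ _ (by omega), coeff_prod σ _ (by omega)] at h1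
    rw [show g - (g - m) = m by omega] at h1
    rw [mul_sub, h1]
    by_cases hmi : m = g - i
    · rw [if_pos hmi, if_pos (by omega)]
    · rw [if_neg hmi, if_neg (by omega)]
  have hE0 : ∀ m, m < g - i → E τ m = E σ m := by
    intro m hm
    have := hE m hm.le
    rw [if_neg hm.ne] at this
    rcases mul_eq_zero.mp this with h | h
    · exact absurd h (pow_ne_zero _ (by norm_num))
    · linarith
  have hp0 : ∀ m, m < g - i → pw τ m = pw σ m := by
    intro m
    induction m using Nat.strong_induction_on with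
    | _ m ih =>
      intro hm
      rcases Nat.eq_zero_or_pos m with h0 | hpos
      · subst h0; simp [pw]
      · rw [newton' τ m hpos, newton' σ m hpos, hE0 m hm]
        congr 1
        apply sum_congr rfl
        intro x hx
        simp only [mem_filter, HasAntidiagonal.mem_antidiagonal] at hx
        rw [hE0 x.1 (by omega), ih x.2 (by omega) (by omega)]
  set j := g - (i : ℕ) with hj
  have hjpos : 1 ≤ j := by omega
  have hpj : |pw τ j - pw σ j| = (j : ℝ) * |(a i : ℝ) - b i| := by
    have h1 : pw τ j - pw σ j = (-1) ^ (j + 1) * (j * (E τ j - E σ j)) := by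
      rw [newton' τ j hjpos, newton' σ j hjpos]
      have : ∑ x ∈ antidiagonal j with (x.1 < j ∧ x.1 ≠ 0), (-1) ^ x.1 * E τ x.1 * pw τ x.2 =
          ∑ x ∈ antidiagonal j with (x.1 < j ∧ x.1 ≠ 0), (-1) ^ x.1 * E σ x.1 * pw σ x.2 := by
        apply sum_congr rfl
        intro x hx
        simp only [mem_filter, HasAntidiagonal.mem_antidiagonal] at hx
        rw [hE0 x.1 (by omega), hp0 x.2 (by omega)]
      rw [this]
      ring
    have h2 := hE j le_rfl
    rw [if_pos rfl] at h2
    rw [h1, ← h2]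
    simp only [abs_mul, abs_pow, abs_neg, abs_one, one_pow, one_mul, Nat.abs_cast]
  have hsum : pw τ j - pw σ j = ∑ k, (dkR ℝ q j).eval (τ k) - ∑ k, (dkR ℝ q j).eval (σ k) := by
    rw [sum_eval, sum_eval, dkR_natDegree, ← sum_sub_distrib, sum_range_succ]
    have h1 : ∑ m ∈ range j, ((dkR ℝ q j).coeff m * pw τ m - (dkR ℝ q j).coeff m * pw σ m) = 0 := by
      apply sum_eq_zero
      intro m hm
      rw [hp0 m (mem_range.mp hm), sub_self]
    have h2 := (dkR_monic ℝ q j).coeff_natDegree
    rw [dkR_natDegree] at h2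
    rw [h1, h2]
    ring
  have hb1 : ∀ ρ : Fin g → ℝ, (∀ k, |ρ k| ≤ 2 * √(q : ℝ)) →
      |∑ k, (dkR ℝ q j).eval (ρ k)| ≤ g * (2 * √(q : ℝ) ^ j) := by
    intro ρ hρ
    refine (abs_sum_le_sum_abs _ _).trans ?_
    refine (sum_le_sum (fun k _ => dkR_bound q (by omega) j (ρ k) (hρ k))).trans ?_
    simp
  have hfin : |pw τ j - pw σ j| ≤ 4 * g * √(q : ℝ) ^ j := by
    rw [hsum]
    refine (abs_sub _ _).trans ?_
    have := hb1 τ hτ
    have := hb1 σ hσ
    linarith
  rw [hpj] at hfin
  have hcast : (j : ℝ) = (g : ℝ) - (i : ℕ) := by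
    rw [hj, Nat.cast_sub hi.le]
  rw [← hcast]
  exact hfin

end Pool.Agent.FQW
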