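import Pool.Agent.FQW.Basic

set_option autoImplicit false

namespace Pool.Agent.FQW

open Finset Filter Topology

namespace TLA_

lemma half (n : ℕ) : ((n * (n + 1) / 2 : ℕ) : ℝ) = (n : ℝ) * (n + 1) / 2 := by
  have h : 2 ∣ n * (n + 1) := (Nat.even_mul_succ_self n).two_dvd
  rw [Nat.cast_div h (by norm_num)]
  push_cast
  ring

lemma half' (n : ℕ) (hn : 1 ≤ n) : ((n * (n - 1) / 2 : ℕ) : ℝ) = (n : ℝ) * (n - 1) / 2 := by
  obtain ⟨m, rfl⟩ : ∃ m, n = m + 1 := ⟨n - 1, by omega⟩
  have : (m + 1) * (m + 1 - 1) = m * (m + 1) := by rw [Nat.add_sub_cancel]; ring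
  rw [this, half]
  push_cast
  ring

/-- the thresholds -/
lemma large (b c : ℝ) : ∃ g₀ : ℕ, ∀ g : ℕ, g₀ ≤ g →
    1 ≤ Real.log g ∧ 64 / b ^ 2 ≤ Real.log g ∧ 12 + b ≤ Real.log g ∧
    16 ≤ √(g : ℝ) ∧ 4 * c / b ≤ √(g : ℝ) ∧ Real.log 40 + b ≤ g ∧ 1 ≤ g := by
  have h1 : Tendsto (fun g : ℕ => Real.log (g : ℝ)) atTop atTop :=
    Real.tendsto_log_atTop.comp tendsto_natCast_atTop_atTop
  have h2 : Tendsto (fun g : ℕ => √(g : ℝ)) atTop atTop :=
    Real.tendsto_sqrt_atTop.comp tendsto_natCast_atTop_atTop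
  have h3 : Tendsto (fun g : ℕ => (g : ℝ)) atTop atTop := tendsto_natCast_atTop_atTop
  have := (h1.eventually_ge_atTop 1).and ((h1.eventually_ge_atTop (64 / b ^ 2)).and
    ((h1.eventually_ge_atTop (12 + b)).and ((h2.eventually_ge_atTop 16).and
    ((h2.eventually_ge_atTop (4 * c / b)).and ((h3.eventually_ge_atTop (Real.log 40 + b)).and
    (eventually_ge_atTop 1))))))
  exact eventually_atTop.1 this

end TLA_

open TLA_

theorem tTLA : T_TLA := by
  intro q hq
  have hq' : (2 : ℝ) ≤ q := by exact_mod_cast hq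
  have hQ1 : 1 < √(q : ℝ) := by
    rw [Real.lt_sqrt (by norm_num)]
    linarith
  have hQ0 : 0 < √(q : ℝ) := by linarith
  set b := Real.log (√(q : ℝ)) with hbdef
  have hb : 0 < b := Real.log_pos hQ1
  have hQe : √(q : ℝ) = Real.exp b := (Real.exp_log hQ0).symm
  set c := Real.log (4 * √(q : ℝ)) with hcdef
  have hc0 : 0 ≤ c := Real.log_nonneg (by linarith)
  have hce : 4 * √(q : ℝ) = Real.exp c := (Real.exp_log (by positivity)).symm
  obtain ⟨g₀, hg₀⟩ := large b c
  refine ⟨g₀, ?_⟩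
  intro g hg l hl1 hl2
  obtain ⟨hL1, hLb, hLc, hs16, hsc, hg40, hg1⟩ := hg₀ g hg
  set L := Real.log (g : ℝ) with hL
  have hgR : (1 : ℝ) ≤ g := by exact_mod_cast hg1
  have hg0 : (0 : ℝ) < g := by linarith
  have hL0 : 0 < L := by linarith
  have hl0 : 0 < l := by linarith
  set r := √(g : ℝ) with hr
  have hrr : r * r = g := Real.mul_self_sqrt hg0.le
  have hr0 : 0 < r := by linarith
  -- s = sqrt (g L / l)
  set s := √(g * L / l) with hs
  have hss : s * s = g * L / l := Real.mul_self_sqrt (by positivity)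
  have hs0 : 0 ≤ s := Real.sqrt_nonneg _
  have hs2 : s * s ≤ g / 10 := by
    rw [hss, div_le_div_iff₀ hl0 (by norm_num)]
    have := mul_le_mul_of_nonneg_left hl1 hg0.le
    linarith
  have hs1 : 1 ≤ s := by
    rw [hs, Real.one_le_sqrt, le_div_iff₀ hl0, one_mul]
    refine hl2.trans ?_
    rw [div_le_iff₀ (by positivity)]
    have h3 : (1 : ℝ) ≤ L * L ^ 2 := by
      have := one_le_pow₀ (n := 3) hL1
      linarith [this, show L ^ 3 = L * L ^ 2 by ring]
    have h4 := mul_le_mul_of_nonneg_left h3 hg0.le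
    linarith
  have hsr : s ≤ r := Real.sqrt_le_sqrt (by rw [← hss]; linarith)
  set k := ⌈s⌉₊ with hk
  have hks : s ≤ k := Nat.le_ceil s
  have hks1 : (k : ℝ) < s + 1 := Nat.ceil_lt_add_one hs0
  have hk1 : 1 ≤ k := Nat.one_le_ceil_iff.2 (by linarith)
  have hk1' : (1 : ℝ) ≤ k := by exact_mod_cast hk1
  have hk2r : (k : ℝ) ≤ 2 * r := by linarith
  have h8k : 8 * (k : ℝ) ≤ g := by
    have := mul_le_mul_of_nonneg_right hs16 hr0.le
    linarith
  have hkg' : (k : ℝ) ≤ g := by linarith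
  have hkg : k ≤ g := by exact_mod_cast hkg'
  -- D
  set D := Dl g l with hD
  have hDdef : D = 4 * √(g * l * L) := rfl
  have hD1 : D * √L ≤ 4 * g := by
    rw [hDdef, mul_assoc, ← Real.sqrt_mul (by positivity)]
    have : g * l * L * L ≤ (g : ℝ) ^ 2 := by
      have h1 : l * L ^ 2 ≤ g := by
        rwa [le_div_iff₀ (by positivity)] at hl2
      have h2 := mul_le_mul_of_nonneg_left h1 hg0.le
      linarith [h2, show g * l * L * L = (g : ℝ) * (l * L ^ 2) by ring,
        show (g : ℝ) * g = (g : ℝ) ^ 2 by ring]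
    have h2 := Real.sqrt_le_sqrt this
    rw [Real.sqrt_sq hg0.le] at h2
    linarith
  have hsqL : 8 / b ≤ √L := by
    rw [Real.le_sqrt (by positivity)]
    · refine le_trans (le_of_eq ?_) hLb
      ring
    · exact hL0.le
  have hD2 : D ≤ g * b / 2 := by
    have h1 : 0 ≤ D := by rw [hDdef]; positivity
    have h2 : D * (8 / b) ≤ 4 * g := (mul_le_mul_of_nonneg_left hsqL h1).trans hD1
    rw [mul_div_assoc', div_le_iff₀ hb] at h2
    linarith
  have hkD : 4 * g * L ≤ k * D := by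
    have h1 : s * √(g * l * L) = g * L := by
      rw [hs, ← Real.sqrt_mul (by positivity)]
      have : g * L / l * (g * l * L) = ((g : ℝ) * L) ^ 2 := by field_simp
      rw [this, Real.sqrt_sq (by positivity)]
    have h2 : 0 ≤ √(g * l * L) := Real.sqrt_nonneg _
    have h3 := mul_le_mul_of_nonneg_right hks h2
    rw [h1] at h3
    rw [hDdef]
    linarith
  refine ⟨k, hk1, hkg, ?_, ?_⟩
  · -- (4Q)^k ≤ Q^g e^{-D}
    rw [hce, hQe, ← Real.exp_nat_mul, ← Real.exp_nat_mul, ← Real.exp_add]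
    apply Real.exp_le_exp.2
    have h1 : (k : ℝ) * c ≤ g * b / 2 := by
      have h2 : 4 * c ≤ r * b := by rwa [div_le_iff₀ hb] at hsc
      have h3 : (k : ℝ) * c ≤ 2 * r * c := mul_le_mul_of_nonneg_right hk2r hc0
      have h4 := mul_le_mul_of_nonneg_left h2 hr0.le
      have h5 : r * (r * b) = g * b := by rw [← mul_assoc, hrr]
      rw [h5] at h4
      linarith
    linarith
  · -- the main inequality
    have hN1 : (((g - k) * (g - k + 1) / 2 : ℕ) : ℝ) = ((g : ℝ) - k) * (g - k + 1) / 2 := by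
      rw [half, Nat.cast_sub hkg]
    have hN2 := half' k hk1
    have hN3 := half g
    set N1 := (g - k) * (g - k + 1) / 2 with hN1d
    set N2 := k * (k - 1) / 2 with hN2d
    set N3 := g * (g + 1) / 2 with hN3d
    have hk8 : (0 : ℝ) < 8 * k := by linarith
    have e1 : (40 : ℝ) = Real.exp (Real.log 40) := (Real.exp_log (by norm_num)).symm
    have e2 : ∀ n : ℕ, √(q : ℝ) ^ n = Real.exp (n * b) := fun n => by
      rw [Real.exp_nat_mul, ← hQe]
    have e3 : (4 : ℝ) ^ k = Real.exp (k * Real.log 4) := by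
      rw [Real.exp_nat_mul, Real.exp_log (by norm_num)]
    have e4 : (Real.exp (-l) / (8 * (k : ℝ))) ^ N2 = Real.exp (N2 * (-l - Real.log (8 * k))) := by
      rw [Real.exp_nat_mul, Real.exp_sub, Real.exp_log hk8]
    have e5 : ((g : ℝ) + 1) ^ g = Real.exp (g * Real.log (g + 1)) := by
      rw [Real.exp_nat_mul, Real.exp_log (by linarith)]
    have e6 : (√(q : ℝ) ^ g * Real.exp (-D)) ^ k = Real.exp (k * (g * b + -D)) := by
      rw [e2, ← Real.exp_add, ← Real.exp_nat_mul]
    rw [e6, e3, e4, e5, e2, e2]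
    nth_rewrite 1 [e1]
    nth_rewrite 1 [hQe]
    simp only [← Real.exp_add, ← Real.exp_sub]
    apply Real.exp_le_exp.2
    rw [hN1, hN2, hN3]
    -- logarithmic estimates
    have hlog4 : Real.log 4 ≤ 2 := by
      have := Real.log_le_sub_one_of_pos (show (0 : ℝ) < 4 by norm_num)
      have h2 : Real.log 4 = 2 * Real.log 2 := by
        rw [show (4 : ℝ) = 2 ^ 2 by norm_num, Real.log_pow]; norm_num
      have h3 := Real.log_le_sub_one_of_pos (show (0 : ℝ) < 2 by norm_num)
      linarith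
    have hlogg : Real.log ((g : ℝ) + 1) ≤ L + 1 := by
      have h1 : (g : ℝ) + 1 ≤ g * Real.exp 1 := by
        have := mul_le_mul_of_nonneg_left (Real.add_one_le_exp (1 : ℝ)) hg0.le
        linarith
      have h2 := Real.log_le_log (by linarith) h1
      rwa [Real.log_mul hg0.ne' (Real.exp_pos 1).ne', Real.log_exp] at h2
    have hlog8k : Real.log (8 * (k : ℝ)) ≤ L := Real.log_le_log hk8 h8k
    have hlg : l ≤ g := by
      refine hl2.trans ?_
      rw [div_le_iff₀ (by positivity)]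
      exact le_mul_of_one_le_right hg0.le (one_le_pow₀ hL1)
    have hkk : (k : ℝ) * (k - 1) / 2 ≤ (s * s + s) / 2 := by
      have := mul_le_mul hks1.le (show (k : ℝ) - 1 ≤ s by linarith)
        (show (0 : ℝ) ≤ (k : ℝ) - 1 by linarith) (show (0 : ℝ) ≤ s + 1 by linarith)
      linarith
    have hkk0 : 0 ≤ (k : ℝ) * (k - 1) / 2 := by
      have : 0 ≤ (k : ℝ) - 1 := by linarith
      positivity
    have hkk2 : (k : ℝ) * (k - 1) / 2 ≤ s * s := by
      have := mul_le_mul_of_nonneg_right hs1 hs0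
      linarith
    -- first term
    have hssl : s * s * l = g * L := by rw [hss]; field_simp
    have hsl : s * l ≤ g := by
      have h1 : (s * l) * (s * l) ≤ g * g := by
        have h2 : (s * l) * (s * l) = (g * L) * l := by rw [← hssl]; ring
        rw [h2]
        have h3 : l * L ^ 2 ≤ g := by rwa [le_div_iff₀ (by positivity)] at hl2
        have h4 : l * L ≤ g := by
          refine le_trans ?_ h3
          exact mul_le_mul_of_nonneg_left (le_self_pow₀ hL1 two_ne_zero) hl0.le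
        have h5 := mul_le_mul_of_nonneg_left h4 hg0.le
        linarith [h5, show (g : ℝ) * L * l = g * (l * L) by ring]
      exact (mul_self_le_mul_self_iff (mul_nonneg hs0 hl0.le) hg0.le).2 h1
    have t1 : (k : ℝ) * (k - 1) / 2 * l ≤ g * L / 2 + g := by
      have h1 := mul_le_mul_of_nonneg_right hkk hl0.le
      have h2 : (s * s + s) / 2 * l = (s * s * l + s * l) / 2 := by ring
      rw [h2, hssl] at h1
      linarith
    have t2 : (k : ℝ) * (k - 1) / 2 * Real.log (8 * (k : ℝ)) ≤ g * L / 10 := by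
      have h1 := mul_le_mul_of_nonneg_left hlog8k hkk0
      have h2 := mul_le_mul_of_nonneg_right hkk2 hL0.le
      have h3 := mul_le_mul_of_nonneg_right hs2 hL0.le
      linarith
    have t3 : (k : ℝ) * (k - 1) / 2 * b ≤ g * b / 10 := by
      have h2 := mul_le_mul_of_nonneg_right hkk2 hb.le
      have h3 := mul_le_mul_of_nonneg_right hs2 hb.le
      linarith
    have t4 : (k : ℝ) * Real.log 4 ≤ 2 * g := by
      have h1 : (k : ℝ) * Real.log 4 ≤ k * 2 := mul_le_mul_of_nonneg_left hlog4 (by linarith)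
      linarith
    have t5 : (g : ℝ) * Real.log ((g : ℝ) + 1) ≤ g * (L + 1) :=
      mul_le_mul_of_nonneg_left hlogg hg0.le
    have t6 : (g : ℝ) * (12 + b) ≤ g * L := mul_le_mul_of_nonneg_left hLc hg0.le
    have t7 : 0 < (g : ℝ) * L := mul_pos hg0 hL0
    have t8 : 0 < (g : ℝ) * b := mul_pos hg0 hb
    linarith

end Pool.Agent.FQW
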