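import Mathlib
import Pool.Agent.FQW.Basic

set_option autoImplicit false

/-!
# TLOW: the polynomials are not small on short intervals
-/

namespace Pool.Agent.FQW

open Polynomial Finset
open scoped BigOperators

namespace TLOW_

/-- the points -/
noncomputable def pt (k : ℕ) (r : ℝ) (j : ℤ) (i : Fin k) : ℝ :=
  j * (r / 8) + (i : ℕ) * (r / (8 * k))

theorem pt_sub (k : ℕ) (r : ℝ) (j : ℤ) (i i' : Fin k) :
    pt k r j i' - pt k r j i = (((i' : ℕ) : ℝ) - ((i : ℕ) : ℝ)) * (r / (8 * k)) := by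
  unfold pt; ring

theorem pt_injective (k : ℕ) (r : ℝ) (hk : 1 ≤ k) (hr : 0 < r) (j : ℤ) :
    Function.Injective (pt k r j) := by
  intro i i' h
  have hk' : (0 : ℝ) < k := by exact_mod_cast hk
  have h1 := pt_sub k r j i i'
  rw [h, sub_self] at h1
  have h2 : r / (8 * k) ≠ 0 := by positivity
  rcases mul_eq_zero.mp h1.symm with h3 | h3
  · have h4 : (((i' : ℕ) : ℝ)) = ((i : ℕ) : ℝ) := by linarith
    exact (Fin.ext (by exact_mod_cast h4)).symm
  · exact absurd h3 h2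

theorem sum_card_Ioi (k : ℕ) : ∑ i : Fin k, (Ioi i).card = k * (k - 1) / 2 := by
  simp only [Fin.card_Ioi]
  rw [Fin.sum_univ_eq_sum_range (fun i => k - 1 - i) k, Finset.sum_range_reflect (fun i => i) k,
    Finset.sum_range_id]

theorem vdm_pt (k : ℕ) (r : ℝ) (hk : 1 ≤ k) (hr : 0 < r) (j : ℤ) :
    (r / (8 * k)) ^ (k * (k - 1) / 2) ≤ vdm (pt k r j) := by
  have hk' : (0 : ℝ) < k := by exact_mod_cast hk
  have hs : (0 : ℝ) < r / (8 * k) := by positivity
  rw [← sum_card_Ioi k, ← Finset.prod_pow_eq_pow_sum]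
  unfold vdm
  refine prod_le_prod (fun i _ => by positivity) (fun i _ => ?_)
  rw [← Finset.prod_const]
  refine prod_le_prod (fun i _ => hs.le) (fun i' hi' => ?_)
  have hlt : (i : ℕ) < (i' : ℕ) := by simpa using hi'
  have h1 : (1 : ℝ) ≤ ((i' : ℕ) : ℝ) - ((i : ℕ) : ℝ) := by
    have : ((i : ℕ) : ℝ) + 1 ≤ ((i' : ℕ) : ℝ) := by exact_mod_cast hlt
    linarith
  rw [pt_sub, abs_mul, abs_of_pos hs, abs_of_pos (by linarith)]
  nlinarith

theorem pt_mem (k : ℕ) (r : ℝ) (hk : 1 ≤ k) (hr : 0 < r) (j : ℤ) (i : Fin k) :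
    j * (r / 8) ≤ pt k r j i ∧ pt k r j i ≤ j * (r / 8) + r / 8 := by
  have hk' : (0 : ℝ) < k := by exact_mod_cast hk
  have hi : ((i : ℕ) : ℝ) ≤ k := by exact_mod_cast i.2.le
  unfold pt
  constructor
  · have : 0 ≤ ((i : ℕ) : ℝ) * (r / (8 * k)) := by positivity
    linarith
  · have h1 : ((i : ℕ) : ℝ) * (r / (8 * k)) ≤ k * (r / (8 * k)) :=
      mul_le_mul_of_nonneg_right hi (by positivity)
    have h2 : (k : ℝ) * (r / (8 * k)) = r / 8 := by field_simp
    linarith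

/-- an interval of length `r / 8` with left end point in the grid -/
theorem grid (r : ℝ) (hr : 0 < r) (z : ℝ) : ∃ j : ℤ, z ≤ j * (r / 8) ∧ j * (r / 8) ≤ z + r / 8 := by
  refine ⟨⌈z / (r / 8)⌉, ?_, ?_⟩
  · have := Int.le_ceil (z / (r / 8))
    rwa [div_le_iff₀ (by positivity)] at this
  · have := (Int.ceil_lt_add_one (z / (r / 8))).le
    calc (⌈z / (r / 8)⌉ : ℝ) * (r / 8) ≤ (z / (r / 8) + 1) * (r / 8) :=
          mul_le_mul_of_nonneg_right this (by positivity)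
      _ = z + r / 8 := by field_simp

end TLOW_

open TLOW_ in
theorem tTLOW : T_FINP → T_LOWER → T_STAR → T_TLA → T_TLOW := by
  intro hFIN hLOW hSTAR hTLA q hq
  obtain ⟨g₀, hg₀⟩ := hTLA q hq
  refine ⟨max g₀ 1, fun g hg l hl1 hl2 => ?_⟩
  have hg1 : 1 ≤ g := le_trans (le_max_right _ _) hg
  obtain ⟨k, hk1, hkg, hM, hmain⟩ := hg₀ g (le_trans (le_max_left _ _) hg) l hl1 hl2
  set D := Dl g l with hD
  set r := Real.exp (-l) with hr
  set M := √(q : ℝ) ^ g * Real.exp (-D) with hMdef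
  have hrpos : 0 < r := Real.exp_pos _
  have hl0 : 0 ≤ l := by
    have : 0 ≤ Real.log g := Real.log_natCast_nonneg g
    linarith
  have hr1 : r ≤ 1 := Real.exp_le_one_iff.mpr (by linarith)
  have hQ1 : 1 ≤ √(q : ℝ) := Real.one_le_sqrt.mpr (by exact_mod_cast (by omega : 1 ≤ q))
  have hQ0 : 0 < √(q : ℝ) := by linarith
  have hMpos : 0 < M := by positivity
  have hel : Real.exp l * r = 1 := by rw [hr, ← Real.exp_add]; simp
  have hel1 : 1 ≤ Real.exp l := Real.one_le_exp hl0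
  have hk' : (0 : ℝ) < k := by exact_mod_cast hk1
  -- the index set
  set N : ℤ := ⌊16 * √(q : ℝ) * Real.exp l⌋ with hN
  have hN0 : 0 ≤ N := Int.floor_nonneg.mpr (by positivity)
  have hNle : (N : ℝ) ≤ 16 * √(q : ℝ) * Real.exp l := Int.floor_le _
  set S : ℤ → Set (Fin g → ℤ) := fun j => {a ∈ P q g | ∀ i, |ev q a (pt k r j i)| ≤ M} with hS
  have hsub : {a ∈ P q g | ∃ τ, Roots q a τ ∧ ¬ TL q τ l D} ⊆ ⋃ j ∈ Finset.Icc (-N) N, S j := by
    rintro a ⟨haP, τ, hτ, hbad⟩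
    unfold TL at hbad
    push Not at hbad
    obtain ⟨x, hx, hxy⟩ := hbad
    have hx' := abs_le.mp hx
    have key : ∃ z : ℝ, -(2 * √(q : ℝ)) ≤ z ∧ z + r ≤ 2 * √(q : ℝ) ∧ x - r ≤ z ∧ z ≤ x := by
      rcases le_total x 0 with h0 | h0
      · exact ⟨x, hx'.1, by linarith, by linarith, le_rfl⟩
      · exact ⟨x - r, by linarith, by linarith [hx'.2], le_rfl, by linarith⟩
    obtain ⟨z, hz1, hz2, hz3, hz4⟩ := key
    obtain ⟨j, hj1, hj2⟩ := grid r hrpos z
    have hjN : j ∈ Finset.Icc (-N) N := by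
      have hj3 : |(j : ℝ)| ≤ 16 * √(q : ℝ) * Real.exp l := by
        have h1 : |(j : ℝ) * (r / 8)| ≤ 2 * √(q : ℝ) := by
          rw [abs_le]
          constructor <;> linarith
        rw [abs_mul, abs_of_pos (by positivity : (0 : ℝ) < r / 8)] at h1
        have h2 : |(j : ℝ)| * (r / 8) * (8 * Real.exp l) ≤ 2 * √(q : ℝ) * (8 * Real.exp l) :=
          mul_le_mul_of_nonneg_right h1 (by positivity)
        have h3 : |(j : ℝ)| * (r / 8) * (8 * Real.exp l) = |(j : ℝ)| * (Real.exp l * r) := by ring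
        rw [h3, hel] at h2
        linarith
      rw [abs_le] at hj3
      rw [Finset.mem_Icc]
      constructor
      · have : -j ≤ N := by
          rw [hN, Int.le_floor]
          push_cast
          linarith [hj3.1]
        omega
      · rw [hN, Int.le_floor]
        exact hj3.2
    simp only [Set.mem_iUnion]
    refine ⟨j, hjN, haP, fun i => ?_⟩
    obtain ⟨hp1, hp2⟩ := pt_mem k r hk1 hrpos j i
    have h1 : |pt k r j i| ≤ 2 * √(q : ℝ) := by
      rw [abs_le]; constructor <;> linarith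
    have h2 : |pt k r j i - x| ≤ r := by
      rw [abs_le]; constructor <;> linarith
    have h3 := hxy _ h1 h2
    rw [ev_eq_prod q a τ hτ, abs_prod]
    exact h3.le
  -- the bound for one set
  set B := Real.exp (5 * g) * √(q : ℝ) ^ ((g - k) * (g - k + 1) / 2) * 4 ^ k * M ^ k /
    (r / (8 * k)) ^ (k * (k - 1) / 2) with hB
  have hB0 : 0 ≤ B := by positivity
  have hone : ∀ j ∈ Finset.Icc (-N) N, (((S j).ncard : ℕ) : ℝ) ≤ B := by
    intro j hj
    rw [Finset.mem_Icc] at hj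
    have hjb : |(j : ℝ)| * (r / 8) ≤ 2 * √(q : ℝ) := by
      have h1 : |(j : ℝ)| ≤ 16 * √(q : ℝ) * Real.exp l := by
        refine le_trans ?_ hNle
        rw [abs_le]
        constructor
        · exact_mod_cast hj.1
        · exact_mod_cast hj.2
      calc |(j : ℝ)| * (r / 8) ≤ 16 * √(q : ℝ) * Real.exp l * (r / 8) :=
            mul_le_mul_of_nonneg_right h1 (by positivity)
        _ = 2 * √(q : ℝ) * (Real.exp l * r) := by ring
        _ = 2 * √(q : ℝ) := by rw [hel, mul_one]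
    have hpt : ∀ i, |pt k r j i| ≤ 3 * √(q : ℝ) := by
      intro i
      obtain ⟨hp1, hp2⟩ := pt_mem k r hk1 hrpos j i
      have h2 : |(j : ℝ) * (r / 8)| ≤ 2 * √(q : ℝ) := by
        rw [abs_mul, abs_of_pos (by positivity : (0 : ℝ) < r / 8)]; exact hjb
      have h3 := abs_le.mp h2
      rw [abs_le]
      constructor <;> linarith
    have h1 := hSTAR q g k hq hkg (pt k r j) (pt_injective k r hk1 hrpos j) hpt (fun _ => M)
      (fun _ => hM)
    refine h1.trans ?_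
    rw [Finset.prod_const, Finset.card_univ, Fintype.card_fin, hB]
    exact div_le_div_of_nonneg_left (by positivity) (by positivity) (vdm_pt k r hk1 hrpos j)
  -- finiteness and the sum
  have hfinU : (⋃ j ∈ Finset.Icc (-N) N, S j).Finite := by
    refine (hFIN q g).subset ?_
    intro a ha
    simp only [Set.mem_iUnion] at ha
    obtain ⟨j, _, ha⟩ := ha
    exact ha.1
  have hcard : ((Finset.Icc (-N) N).card : ℝ) ≤ 40 * √(q : ℝ) * Real.exp l := by
    rw [Int.card_Icc]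
    have h1 : ((N + 1 - -N).toNat : ℤ) = 2 * N + 1 := by
      rw [Int.toNat_of_nonneg (by omega)]; ring
    have h2 : ((N + 1 - -N).toNat : ℝ) = 2 * (N : ℝ) + 1 := by exact_mod_cast h1
    rw [h2]
    have h3 : 1 ≤ √(q : ℝ) * Real.exp l := by nlinarith
    nlinarith
  have hcount : (({a ∈ P q g | ∃ τ, Roots q a τ ∧ ¬ TL q τ l D}.ncard : ℕ) : ℝ) ≤
      40 * √(q : ℝ) * Real.exp l * B := by
    have h1 : {a ∈ P q g | ∃ τ, Roots q a τ ∧ ¬ TL q τ l D}.ncard ≤
        ∑ j ∈ Finset.Icc (-N) N, (S j).ncard :=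
      (Set.ncard_le_ncard hsub hfinU).trans (Finset.set_ncard_biUnion_le _ _)
    have h2 : (({a ∈ P q g | ∃ τ, Roots q a τ ∧ ¬ TL q τ l D}.ncard : ℕ) : ℝ) ≤
        ∑ j ∈ Finset.Icc (-N) N, (((S j).ncard : ℕ) : ℝ) := by exact_mod_cast h1
    refine h2.trans ((sum_le_sum hone).trans ?_)
    rw [Finset.sum_const, nsmul_eq_mul]
    exact mul_le_mul_of_nonneg_right hcard hB0
  have hlow := hLOW q g hq hg1
  have hG : (0 : ℝ) < ((g : ℝ) + 1) ^ g := by positivity
  have hfinal : (({a ∈ P q g | ∃ τ, Roots q a τ ∧ ¬ TL q τ l D}.ncard : ℕ) : ℝ) *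
      ((g : ℝ) + 1) ^ g ≤ (Real.exp (-(g : ℝ)) * ((P q g).ncard : ℕ)) * ((g : ℝ) + 1) ^ g := by
    calc _ ≤ (40 * √(q : ℝ) * Real.exp l * B) * ((g : ℝ) + 1) ^ g :=
          mul_le_mul_of_nonneg_right hcount hG.le
      _ ≤ Real.exp (-(g : ℝ)) * √(q : ℝ) ^ (g * (g + 1) / 2) := hmain
      _ ≤ Real.exp (-(g : ℝ)) * (((g : ℝ) + 1) ^ g * ((P q g).ncard : ℕ)) :=
          mul_le_mul_of_nonneg_left hlow (Real.exp_pos _).le
      _ = _ := by ring
  exact le_of_mul_le_mul_right hfinal hG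

end Pool.Agent.FQW
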