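import Mathlib
import Pool.Agent.FQW.Basic

set_option autoImplicit false

/-!
# The number of top parts

Induction with `T_STEP`: the map from the top parts of index at least `k` to the top parts of index
at least `k + 1` has small fibres.
-/

namespace Pool.Agent.FQW

open Polynomial Finset
open scoped BigOperators

/-- a set of integers with small differences is small -/
private theorem TOP_card (S : Finset ℤ) (D : ℝ) (hD : 0 ≤ D)
    (h : ∀ x ∈ S, ∀ y ∈ S, |(x : ℝ) - y| ≤ D) : (S.card : ℝ) ≤ D + 1 := by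
  rcases S.eq_empty_or_nonempty with rfl | hne
  · simp; linarith
  · have hsub : S ⊆ Finset.Icc (S.min' hne) (S.max' hne) := fun x hx =>
      Finset.mem_Icc.mpr ⟨S.min'_le x hx, S.le_max' x hx⟩
    have h1 := Finset.card_le_card hsub
    rw [Int.card_Icc] at h1
    have h2 : S.min' hne ≤ S.max' hne := S.min'_le _ (S.max'_mem hne)
    have h3 : ((S.card : ℕ) : ℤ) ≤ S.max' hne + 1 - S.min' hne := by
      have : (((S.max' hne + 1 - S.min' hne).toNat : ℕ) : ℤ) = S.max' hne + 1 - S.min' hne :=
        Int.toNat_of_nonneg (by omega)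
      rw [← this]
      exact_mod_cast h1
    have h4 : ((S.card : ℕ) : ℝ) ≤ (S.max' hne : ℝ) + 1 - (S.min' hne : ℝ) := by
      exact_mod_cast h3
    have h5 := (abs_le.mp (h _ (S.max'_mem hne) _ (S.min'_mem hne))).2
    linarith

private theorem TOP_top (k : ℕ) {g : ℕ} (a : Fin g → ℤ) :
    topPart (k + 1) (topPart k a) = topPart (k + 1) a := by
  ext i
  simp only [topPart]
  split_ifs with h1 h2
  · rfl
  · omega
  · rfl

private theorem TOP_exp (J : ℕ) : J * (J + 1) / 2 + (J + 1) = (J + 1) * (J + 1 + 1) / 2 := by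
  have h : (J + 1) * (J + 1 + 1) = J * (J + 1) + 2 * (J + 1) := by ring
  rw [h, Nat.add_mul_div_left _ _ (by norm_num)]

private theorem TOP_main (hF : T_FINP) (hS : T_STEP) (q g : ℕ) (hq : 2 ≤ q) : ∀ J : ℕ, J ≤ g →
    (((topPart (g - J) '' P q g).ncard : ℕ) : ℝ) ≤
      (5 * (g : ℝ)) ^ J / (J.factorial : ℝ) * √(q : ℝ) ^ (J * (J + 1) / 2)
  | 0, _ => by
    have h1 : topPart (g - 0) '' P q g ⊆ {fun _ => 0} := by
      rintro _ ⟨a, -, rfl⟩
      rw [Set.mem_singleton_iff]
      ext i
      simp [topPart, i.2]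
    have h2 := Set.ncard_le_ncard h1 (Set.finite_singleton _)
    rw [Set.ncard_singleton] at h2
    have h3 : (((topPart (g - 0) '' P q g).ncard : ℕ) : ℝ) ≤ 1 := by exact_mod_cast h2
    simpa using h3
  | (J + 1), hJ => by
    have ih := TOP_main hF hS q g hq J (by omega)
    obtain ⟨k, hk⟩ : ∃ k, g = k + (J + 1) := ⟨g - (J + 1), by omega⟩
    have hk1 : g - (J + 1) = k := by omega
    have hk2 : g - J = k + 1 := by omega
    rw [hk2] at ih
    rw [hk1]
    have hkg : k < g := by omega
    set κ : Fin g := ⟨k, hkg⟩ with hκ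
    have hQ : (1 : ℝ) ≤ √(q : ℝ) := by
      rw [Real.one_le_sqrt]
      exact_mod_cast (by omega : 1 ≤ q)
    have hj0 : (0 : ℝ) < (J : ℝ) + 1 := by positivity
    have hQJ : (1 : ℝ) ≤ √(q : ℝ) ^ (J + 1) := one_le_pow₀ hQ
    set D : ℝ := 4 * g * √(q : ℝ) ^ (J + 1) / ((J : ℝ) + 1) with hDdef
    have hD0 : 0 ≤ D := by positivity
    have hfin := (hF q g).image (topPart k)
    have hfin' := (hF q g).image (topPart (k + 1))
    classical
    set S : Finset (Fin g → ℤ) := hfin.toFinset with hSdef
    have hmem : ∀ x, x ∈ S ↔ ∃ a ∈ P q g, topPart k a = x := by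
      intro x
      rw [hSdef, Set.Finite.mem_toFinset]
      rfl
    have himg : S.image (topPart (k + 1)) = hfin'.toFinset := by
      ext x
      rw [Finset.mem_image, Set.Finite.mem_toFinset]
      constructor
      · rintro ⟨y, hy, rfl⟩
        obtain ⟨a, ha, rfl⟩ := (hmem y).mp hy
        exact ⟨a, ha, (TOP_top k a).symm⟩
      · rintro ⟨a, ha, rfl⟩
        exact ⟨topPart k a, (hmem _).mpr ⟨a, ha, rfl⟩, TOP_top k a⟩
    have hfib : ∀ c ∈ S.image (topPart (k + 1)),
        (S.filter fun x => topPart (k + 1) x = c).card ≤ ⌊D + 1⌋₊ := by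
      intro c _
      apply Nat.le_floor
      set T := S.filter fun x => topPart (k + 1) x = c with hT
      have hinj : Set.InjOn (fun x : Fin g → ℤ => x κ) (T : Set (Fin g → ℤ)) := by
        intro x hx y hy hxy
        rw [Finset.mem_coe, hT, Finset.mem_filter] at hx hy
        obtain ⟨a, -, ha⟩ := (hmem x).mp hx.1
        obtain ⟨b, -, hb⟩ := (hmem y).mp hy.1
        ext i
        rcases lt_trichotomy (i : ℕ) k with hi | hi | hi
        · rw [← ha, ← hb]
          simp [topPart, hi]
        · have : i = κ := Fin.ext hi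
          rw [this]
          exact hxy
        · have h1 : x i = topPart (k + 1) x i := by
            simp only [topPart]
            rw [if_neg (by omega)]
          have h2 : y i = topPart (k + 1) y i := by
            simp only [topPart]
            rw [if_neg (by omega)]
          rw [h1, h2, hx.2, hy.2]
      rw [← Finset.card_image_of_injOn hinj]
      refine TOP_card _ D hD0 ?_
      intro u hu v hv
      rw [Finset.mem_image] at hu hv
      obtain ⟨x, hx, rfl⟩ := hu
      obtain ⟨y, hy, rfl⟩ := hv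
      rw [hT, Finset.mem_filter] at hx hy
      obtain ⟨a, ha, hax⟩ := (hmem x).mp hx.1
      obtain ⟨b, hb, hby⟩ := (hmem y).mp hy.1
      have hab : ∀ i, κ < i → a i = b i := by
        intro i hi
        have hi' : k < (i : ℕ) := hi
        have h1 : topPart (k + 1) a i = topPart (k + 1) b i := by
          rw [← TOP_top k a, ← TOP_top k b, hax, hby, hx.2, hy.2]
        simp only [topPart] at h1
        rwa [if_neg (by omega), if_neg (by omega)] at h1
      have h := hS q g hq a ha b hb κ hab
      have h1 : g - (κ : ℕ) = J + 1 := by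
        rw [hκ]
        simp only
        omega
      rw [h1] at h
      have h2 : (g : ℝ) - ((κ : ℕ) : ℝ) = (J : ℝ) + 1 := by
        rw [hκ]
        simp only
        rw [hk]
        push_cast
        ring
      rw [h2] at h
      have h3 : x κ = a κ := by
        rw [← hax]
        simp [topPart, hκ]
      have h4 : y κ = b κ := by
        rw [← hby]
        simp [topPart, hκ]
      rw [h3, h4, hDdef, le_div_iff₀ hj0]
      linarith
    have hcard := Finset.card_le_mul_card_image S ⌊D + 1⌋₊ hfib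
    rw [himg] at hcard
    rw [Set.ncard_eq_toFinset_card _ hfin'] at ih
    rw [Set.ncard_eq_toFinset_card _ hfin]
    have h1 : ((S.card : ℕ) : ℝ) ≤ (⌊D + 1⌋₊ : ℝ) * ((hfin'.toFinset.card : ℕ) : ℝ) := by
      exact_mod_cast hcard
    have h2 : (⌊D + 1⌋₊ : ℝ) ≤ D + 1 := Nat.floor_le (by linarith)
    have h3 : D + 1 ≤ 5 * (g : ℝ) * √(q : ℝ) ^ (J + 1) / ((J : ℝ) + 1) := by
      have h4 : 1 ≤ (g : ℝ) * √(q : ℝ) ^ (J + 1) / ((J : ℝ) + 1) := by
        rw [le_div_iff₀ hj0]
        have h5 : (J : ℝ) + 1 ≤ g := by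
          rw [hk]
          push_cast
          linarith [(Nat.cast_nonneg k : (0 : ℝ) ≤ k)]
        nlinarith
      have h6 : 5 * (g : ℝ) * √(q : ℝ) ^ (J + 1) / ((J : ℝ) + 1) =
          D + (g : ℝ) * √(q : ℝ) ^ (J + 1) / ((J : ℝ) + 1) := by
        rw [hDdef]
        ring
      linarith
    calc ((S.card : ℕ) : ℝ) ≤ (⌊D + 1⌋₊ : ℝ) * ((hfin'.toFinset.card : ℕ) : ℝ) := h1
      _ ≤ (5 * (g : ℝ) * √(q : ℝ) ^ (J + 1) / ((J : ℝ) + 1)) *
          ((5 * (g : ℝ)) ^ J / (J.factorial : ℝ) * √(q : ℝ) ^ (J * (J + 1) / 2)) := by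
          apply mul_le_mul (h2.trans h3) ih (by positivity) (by positivity)
      _ = (5 * (g : ℝ)) ^ (J + 1) / ((J + 1).factorial : ℝ) *
          √(q : ℝ) ^ ((J + 1) * (J + 1 + 1) / 2) := by
          rw [← TOP_exp, Nat.factorial_succ, pow_add _ (J * (J + 1) / 2)]
          push_cast
          have hf : (J.factorial : ℝ) ≠ 0 := by positivity
          field_simp
          ring

theorem tTOP : T_FINP → T_STEP → T_TOP := by
  intro hF hS q g k hq hk
  have h := TOP_main hF hS q g hq (g - k) (Nat.sub_le _ _)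
  rw [Nat.sub_sub_self hk] at h
  refine h.trans ?_
  have h1 : (5 * (g : ℝ)) ^ (g - k) / ((g - k).factorial : ℝ) ≤ Real.exp (5 * g) :=
    Real.pow_div_factorial_le_exp (5 * (g : ℝ)) (by positivity) (g - k)
  gcongr

end Pool.Agent.FQW
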