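import Mathlib
import Pool.Agent.FQW.Basic

set_option autoImplicit false

/-!
# TUA: a lower bound on a circle
-/

namespace Pool.Agent.FQW

open Finset

namespace TUA_

theorem sq_im {z : ℂ} (hz : ‖z‖ = 1) : z.re ^ 2 + z.im ^ 2 = 1 := by
  have h := Complex.sq_norm z
  rw [hz, Complex.normSq_apply] at h
  nlinarith

theorem norm_one_of {z : ℂ} (h : z.re ^ 2 + z.im ^ 2 = 1) : ‖z‖ = 1 := by
  have h1 : ‖z‖ ^ 2 = 1 := by
    rw [Complex.sq_norm, Complex.normSq_apply]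
    nlinarith
  nlinarith [norm_nonneg z, sq_nonneg (‖z‖ - 1)]

theorem exists_pt (z : ℂ) (hz : ‖z‖ = 1) (s : ℝ) (hs : |s| ≤ 2) :
    ∃ z' : ℂ, ‖z'‖ = 1 ∧ 2 * z'.re = s ∧ ‖z - z'‖ ^ 2 ≤ 2 * |2 * z.re - s| := by
  have hs2 := abs_le.1 hs
  have h1 : (0 : ℝ) ≤ 1 - (s / 2) ^ 2 := by nlinarith
  have hS' : √(1 - (s / 2) ^ 2) ^ 2 = 1 - (s / 2) ^ 2 := Real.sq_sqrt h1
  have hS0 : 0 ≤ √(1 - (s / 2) ^ 2) := Real.sqrt_nonneg _
  generalize √(1 - (s / 2) ^ 2) = S' at hS' hS0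
  have hz2 := sq_im hz
  obtain ⟨σ, hσ, hσz⟩ : ∃ σ : ℝ, σ ^ 2 = 1 ∧ 0 ≤ σ * z.im := by
    rcases le_total 0 z.im with h | h
    · exact ⟨1, by norm_num, by simpa using h⟩
    · exact ⟨-1, by norm_num, by simpa using h⟩
  refine ⟨⟨s / 2, σ * S'⟩, ?_, ?_, ?_⟩
  · apply norm_one_of
    simp only
    rw [mul_pow, hσ, hS']
    ring
  · simp only
    ring
  · rw [Complex.sq_norm, Complex.normSq_apply]
    simp only [Complex.sub_re, Complex.sub_im]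
    set T : ℝ := σ * z.im with hT
    have hT2 : T ^ 2 = 1 - z.re ^ 2 := by
      rw [hT, mul_pow, hσ]
      linarith
    have h2 : (z.im - σ * S') * (z.im - σ * S') = (T - S') ^ 2 := by
      have : (T - S') ^ 2 = σ ^ 2 * z.im ^ 2 - 2 * (σ * z.im) * S' + S' ^ 2 := by
        rw [hT]; ring
      rw [this, hσ]
      have h3 : (z.im - σ * S') * (z.im - σ * S') = z.im ^ 2 - 2 * (σ * z.im) * S' +
        σ ^ 2 * S' ^ 2 := by ring
      rw [h3, hσ]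
      ring
    rw [h2]
    have h3 : (T - S') ^ 2 ≤ |T ^ 2 - S' ^ 2| := by
      have h4 : T ^ 2 - S' ^ 2 = (T - S') * (T + S') := by ring
      rw [h4, abs_mul, abs_of_nonneg (add_nonneg hσz hS0), ← sq_abs (T - S'), sq]
      apply mul_le_mul_of_nonneg_left _ (abs_nonneg _)
      rw [abs_le]
      constructor <;> linarith
    have hzr : |z.re| ≤ 1 := by
      rw [abs_le]
      constructor <;> nlinarith [sq_nonneg z.im]
    have hzr2 := abs_le.1 hzr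
    have h5 : |T ^ 2 - S' ^ 2| ≤ |2 * z.re - s| := by
      rw [hT2, hS']
      have h6 : 1 - z.re ^ 2 - (1 - (s / 2) ^ 2) = (2 * z.re - s) * (-(z.re + s / 2) / 2) := by ring
      rw [h6, abs_mul]
      refine mul_le_of_le_one_right (abs_nonneg _) ?_
      rw [abs_le]
      constructor <;> linarith
    have h7 : (z.re - s / 2) * (z.re - s / 2) ≤ |2 * z.re - s| := by
      have h8 : (z.re - s / 2) * (z.re - s / 2) = |2 * z.re - s| * (|2 * z.re - s| / 4) := by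
        have h9 : |2 * z.re - s| * |2 * z.re - s| = (2 * z.re - s) * (2 * z.re - s) :=
          abs_mul_abs_self _
        nlinarith
      rw [h8]
      refine mul_le_of_le_one_right (abs_nonneg _) ?_
      rw [div_le_one (by norm_num), abs_le]
      constructor <;> linarith
    linarith

theorem ident (v : ℂ) (hv : ‖v‖ = 1) (R : ℝ) :
    ‖1 - (R : ℂ) * v‖ ^ 2 = (1 - R) ^ 2 + R * ‖1 - v‖ ^ 2 := by
  have h := sq_im hv
  rw [Complex.sq_norm, Complex.sq_norm, Complex.normSq_apply, Complex.normSq_apply]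
  simp only [Complex.sub_re, Complex.one_re, Complex.mul_re, Complex.ofReal_re, Complex.ofReal_im,
    zero_mul, sub_zero, Complex.sub_im, Complex.one_im, Complex.mul_im, add_zero, zero_sub]
  linear_combination (R ^ 2 - R) * h

theorem fac (g : ℕ) (hg : 3 ≤ g) (w z z' : ℂ) (hw : ‖w‖ = 1) (hz : ‖z‖ = 1)
    (hd : ‖z - z'‖ ^ 2 ≤ 2 / (g : ℝ) ^ 10) :
    (g / (g + 1) : ℝ) * ‖1 - w * z'‖ ^ 2 ≤
      ‖1 - w * (((1 / (1 + 1 / (g : ℝ) ^ 2) : ℝ) : ℂ) * z)‖ ^ 2 := by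
  have hg' : (3 : ℝ) ≤ g := by exact_mod_cast hg
  have hwz : ‖w * z‖ = 1 := by rw [norm_mul, hw, hz, one_mul]
  set R : ℝ := 1 / (1 + 1 / (g : ℝ) ^ 2) with hR
  have hRe : R = (g : ℝ) ^ 2 / ((g : ℝ) ^ 2 + 1) := by
    rw [hR]; field_simp
  rw [show w * ((R : ℂ) * z) = (R : ℂ) * (w * z) by ring, ident _ hwz R]
  set a : ℝ := ‖1 - w * z‖ with ha
  set b : ℝ := ‖1 - w * z'‖ with hb
  set d : ℝ := ‖z - z'‖ with hdd
  have hab : b ≤ a + d := by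
    have h1 : 1 - w * z' = (1 - w * z) + w * (z - z') := by ring
    rw [hb, h1]
    refine (norm_add_le _ _).trans ?_
    rw [norm_mul, hw, one_mul]
  have ha0 : 0 ≤ a := norm_nonneg _
  have hb0 : 0 ≤ b := norm_nonneg _
  have hd0 : 0 ≤ d := norm_nonneg _
  have hb2 : b ^ 2 ≤ (1 + 1 / (4 * g)) * a ^ 2 + (1 + 4 * g) * d ^ 2 := by
    have h1 : b ^ 2 ≤ (a + d) ^ 2 := by gcongr
    have h2 : 2 * a * d ≤ 1 / (4 * g) * a ^ 2 + 4 * g * d ^ 2 := by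
      have h3 : 0 ≤ (a - 4 * g * d) ^ 2 / (4 * g) := by positivity
      have h4 : (a - 4 * g * d) ^ 2 / (4 * g) = 1 / (4 * g) * a ^ 2 + 4 * g * d ^ 2 - 2 * a * d := by
        field_simp
        ring
      linarith
    nlinarith
  have hk0 : (0 : ℝ) ≤ g / (g + 1) := by positivity
  have hk1 : (g / (g + 1) : ℝ) * (1 + 1 / (4 * g)) ≤ R := by
    rw [hRe, div_mul_eq_mul_div, div_le_div_iff₀ (by positivity) (by positivity)]
    have h1 : (g : ℝ) * (1 + 1 / (4 * g)) = g + 1 / 4 := by field_simp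
    rw [h1]
    nlinarith
  have hk2 : (g / (g + 1) : ℝ) * ((1 + 4 * g) * d ^ 2) ≤ (1 - R) ^ 2 := by
    have h1 : 1 - R = 1 / ((g : ℝ) ^ 2 + 1) := by
      rw [hRe]; field_simp; ring
    have h2 : (g / (g + 1) : ℝ) ≤ 1 := by
      rw [div_le_one (by positivity)]; linarith
    have h3 : (g / (g + 1) : ℝ) * ((1 + 4 * g) * d ^ 2) ≤ (5 * g) * (2 / (g : ℝ) ^ 10) := by
      calc (g / (g + 1) : ℝ) * ((1 + 4 * g) * d ^ 2) ≤ 1 * ((1 + 4 * g) * d ^ 2) := by gcongr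
        _ = (1 + 4 * g) * d ^ 2 := one_mul _
        _ ≤ (5 * g) * (2 / (g : ℝ) ^ 10) := by
          gcongr
          linarith
    refine h3.trans ?_
    rw [h1, div_pow, one_pow, ← mul_div_assoc, div_le_div_iff₀ (by positivity) (by positivity)]
    have h4 : ((g : ℝ) ^ 2 + 1) ^ 2 ≤ 4 * (g : ℝ) ^ 4 := by
      have h6 : (g : ℝ) ^ 2 + 1 ≤ 2 * (g : ℝ) ^ 2 := by nlinarith
      calc ((g : ℝ) ^ 2 + 1) ^ 2 ≤ (2 * (g : ℝ) ^ 2) ^ 2 := by gcongr
        _ = 4 * (g : ℝ) ^ 4 := by ring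
    have h5 : (243 : ℝ) ≤ (g : ℝ) ^ 5 := by
      calc (243 : ℝ) = 3 ^ 5 := by norm_num
        _ ≤ (g : ℝ) ^ 5 := by gcongr
    calc 5 * (g : ℝ) * 2 * (g ^ 2 + 1) ^ 2 ≤ 5 * (g : ℝ) * 2 * (4 * (g : ℝ) ^ 4) := by gcongr
      _ = 40 * (g : ℝ) ^ 5 := by ring
      _ ≤ (g : ℝ) ^ 5 * (g : ℝ) ^ 5 := by gcongr; linarith
      _ = 1 * (g : ℝ) ^ 10 := by ring
  calc (g / (g + 1) : ℝ) * b ^ 2 ≤
      (g / (g + 1) : ℝ) * ((1 + 1 / (4 * g)) * a ^ 2 + (1 + 4 * g) * d ^ 2) := by gcongr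
    _ = (g / (g + 1) : ℝ) * (1 + 1 / (4 * g)) * a ^ 2 +
        (g / (g + 1) : ℝ) * ((1 + 4 * g) * d ^ 2) := by ring
    _ ≤ R * a ^ 2 + (1 - R) ^ 2 := by gcongr
    _ = _ := by ring

theorem fac2 (g : ℕ) (hg : 3 ≤ g) (z z' : ℂ) (hz : ‖z‖ = 1) (hz' : ‖z'‖ = 1)
    (hd : ‖z - z'‖ ^ 2 ≤ 2 / (g : ℝ) ^ 10) (c : ℝ) (hc : |c| ≤ 2) (u : ℂ)
    (hu : u = ((1 / (1 + 1 / (g : ℝ) ^ 2) : ℝ) : ℂ) * z) :
    (g / (g + 1) : ℝ) * |2 * z'.re - c| ≤ ‖1 - (c : ℂ) * u + u ^ 2‖ := by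
  obtain ⟨w, hw, hwc, -⟩ := exists_pt 1 (by simp) c hc
  have hw2 : (starRingEnd ℂ) w * w = 1 := by
    rw [← Complex.normSq_eq_conj_mul_self, Complex.normSq_eq_norm_sq, hw]; simp
  have hz2 : (starRingEnd ℂ) z' * z' = 1 := by
    rw [← Complex.normSq_eq_conj_mul_self, Complex.normSq_eq_norm_sq, hz']; simp
  have hcw : (c : ℂ) = w + (starRingEnd ℂ) w := by
    rw [Complex.add_conj, hwc]
  have hcz : ((2 * z'.re : ℝ) : ℂ) = z' + (starRingEnd ℂ) z' := by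
    rw [Complex.add_conj]
  have hcw1 : ‖(starRingEnd ℂ) w‖ = 1 := by rw [Complex.norm_conj, hw]
  have e1 : 1 - (c : ℂ) * u + u ^ 2 = (1 - w * u) * (1 - (starRingEnd ℂ) w * u) := by
    rw [hcw]
    linear_combination (-u ^ 2) * hw2
  have e2 : z' * ((2 * z'.re - c : ℝ) : ℂ) = (1 - w * z') * (1 - (starRingEnd ℂ) w * z') := by
    rw [Complex.ofReal_sub, hcz, hcw]
    linear_combination (-z' ^ 2) * hw2 + hz2
  have e3 : |2 * z'.re - c| = ‖1 - w * z'‖ * ‖1 - (starRingEnd ℂ) w * z'‖ := by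
    rw [← norm_mul, ← e2, norm_mul, hz', one_mul, Complex.norm_real, Real.norm_eq_abs]
  have f1 := fac g hg w z z' hw hz hd
  have f2 := fac g hg ((starRingEnd ℂ) w) z z' hcw1 hz hd
  rw [← hu] at f1 f2
  have hk0 : (0 : ℝ) ≤ g / (g + 1) := by positivity
  have h1 : ((g / (g + 1) : ℝ) * |2 * z'.re - c|) ^ 2 ≤ ‖1 - (c : ℂ) * u + u ^ 2‖ ^ 2 := by
    rw [e1, norm_mul, e3]
    calc ((g / (g + 1) : ℝ) * (‖1 - w * z'‖ * ‖1 - (starRingEnd ℂ) w * z'‖)) ^ 2 =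
        ((g / (g + 1) : ℝ) * ‖1 - w * z'‖ ^ 2) *
          ((g / (g + 1) : ℝ) * ‖1 - (starRingEnd ℂ) w * z'‖ ^ 2) := by ring
      _ ≤ ‖1 - w * u‖ ^ 2 * ‖1 - (starRingEnd ℂ) w * u‖ ^ 2 := by gcongr
      _ = _ := by ring
  exact le_of_sq_le_sq h1 (norm_nonneg _)

end TUA_

open TUA_

/-- TUA: a lower bound on a circle -/
theorem tTUA : T_TUA := by
  intro q hq
  refine ⟨3, fun g hg τ hτ D hTL u hu => ?_⟩
  have hg' : (3 : ℝ) ≤ g := by exact_mod_cast hg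
  have hg0 : (0 : ℝ) < g := by linarith
  have hQ0 : (0 : ℝ) < √(q : ℝ) := Real.sqrt_pos.mpr (by exact_mod_cast (by omega : 0 < q))
  have hQ1 : (1 : ℝ) ≤ √(q : ℝ) := by
    rw [Real.one_le_sqrt]
    exact_mod_cast (by omega : 1 ≤ q)
  set Q : ℝ := √(q : ℝ) with hQ
  set R : ℝ := 1 / (1 + 1 / (g : ℝ) ^ 2) with hR
  have hR0 : 0 < R := by positivity
  set z : ℂ := u / (R : ℂ) with hz
  have hRC : (R : ℂ) ≠ 0 := by exact_mod_cast hR0.ne'
  have huz : u = (R : ℂ) * z := by rw [hz]; field_simp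
  have hz1 : ‖z‖ = 1 := by
    rw [hz, norm_div, hu, Complex.norm_real, Real.norm_eq_abs, abs_of_pos hR0]
    exact div_self hR0.ne'
  have hzr : |z.re| ≤ 1 := by
    have := Complex.abs_re_le_norm z
    rwa [hz1] at this
  obtain ⟨y, hy, hyx, hprod⟩ := hTL (2 * Q * z.re) (by
    rw [abs_mul, abs_of_pos (by positivity : (0 : ℝ) < 2 * Q)]
    exact mul_le_of_le_one_right (by positivity) hzr)
  have hexp : Real.exp (-(10 * Real.log g)) = 1 / (g : ℝ) ^ 10 := by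
    rw [Real.exp_neg, show (10 : ℝ) * Real.log g = ((10 : ℕ) : ℝ) * Real.log g by norm_num,
      ← Real.log_pow, Real.exp_log (by positivity), one_div]
  rw [hexp] at hyx
  obtain ⟨z', hz', hzs, hdist⟩ := exists_pt z hz1 (y / Q) (by
    rw [abs_div, abs_of_pos hQ0, div_le_iff₀ hQ0]
    exact hy)
  have hd : ‖z - z'‖ ^ 2 ≤ 2 / (g : ℝ) ^ 10 := by
    refine hdist.trans ?_
    have h1 : |2 * z.re - y / Q| ≤ 1 / (g : ℝ) ^ 10 := by
      have h2 : 2 * z.re - y / Q = -((y - 2 * Q * z.re) / Q) := by field_simp; ring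
      rw [h2, abs_neg, abs_div, abs_of_pos hQ0]
      refine (div_le_self (abs_nonneg _) hQ1).trans hyx
    calc 2 * |2 * z.re - y / Q| ≤ 2 * (1 / (g : ℝ) ^ 10) := by gcongr
      _ = 2 / (g : ℝ) ^ 10 := by ring
  have hfac : ∀ i, (g / (g + 1) : ℝ) * |y / Q - τ i / Q| ≤
      ‖1 - ((τ i / Q : ℝ) : ℂ) * u + u ^ 2‖ := by
    intro i
    rw [← hzs]
    refine fac2 g hg z z' hz1 hz' hd (τ i / Q) ?_ u huz
    rw [abs_div, abs_of_pos hQ0, div_le_iff₀ hQ0]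
    exact hτ i
  rw [norm_prod]
  have h1 : ∏ i : Fin g, ((g / (g + 1) : ℝ) * |y / Q - τ i / Q|) ≤
      ∏ i, ‖1 - ((τ i / Q : ℝ) : ℂ) * u + u ^ 2‖ :=
    prod_le_prod (fun i _ => by positivity) fun i _ => hfac i
  refine le_trans ?_ h1
  rw [prod_mul_distrib, prod_const, card_univ, Fintype.card_fin]
  have h2 : ∏ i : Fin g, |y / Q - τ i / Q| = (∏ i, |y - τ i|) / Q ^ g := by
    have h3 : ∀ i : Fin g, |y / Q - τ i / Q| = |y - τ i| / Q := by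
      intro i
      rw [← sub_div, abs_div, abs_of_pos hQ0]
    rw [prod_congr rfl fun i _ => h3 i, prod_div_distrib, prod_const, card_univ, Fintype.card_fin]
  rw [h2]
  have h4 : Real.exp (-D) ≤ (∏ i, |y - τ i|) / Q ^ g := by
    rw [le_div_iff₀ (by positivity)]
    linarith
  have h5 : Real.exp (-1) ≤ (g / (g + 1) : ℝ) ^ g := by
    have h6 : ((g + 1) / g : ℝ) ^ g ≤ Real.exp 1 := by
      calc ((g + 1) / g : ℝ) ^ g ≤ (Real.exp (1 / g)) ^ g := by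
            gcongr
            have := Real.add_one_le_exp (1 / (g : ℝ))
            calc ((g + 1) / g : ℝ) = 1 / g + 1 := by field_simp; ring
              _ ≤ _ := this
        _ = Real.exp 1 := by
          rw [← Real.exp_nat_mul]
          congr 1
          field_simp
    rw [Real.exp_neg, ← inv_div, inv_pow]
    exact inv_anti₀ (by positivity) h6
  calc Real.exp (-D - 1) = Real.exp (-1) * Real.exp (-D) := by
        rw [← Real.exp_add]; congr 1; ring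
    _ ≤ _ := by gcongr

end Pool.Agent.FQW
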