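import Mathlib
import Pool.Agent.FQW.Targets

set_option autoImplicit false

/-!
# TUB: Borel-Caratheodory for a product of quadratic factors
-/

namespace Pool.Agent.FQW

namespace TUB_

open Metric

theorem exists_w (c : ℝ) (hc : |c| ≤ 2) :
    ∃ w w' : ℂ, ‖w‖ = 1 ∧ ‖w'‖ = 1 ∧ w + w' = c ∧ w * w' = 1 := by
  have h4 : 0 ≤ 1 - (c / 2) ^ 2 := by
    have h := abs_le.1 hc
    nlinarith [h.1, h.2]
  have hs := Real.sq_sqrt h4
  obtain ⟨w, hw⟩ : ∃ w : ℂ, w = ⟨c / 2, √(1 - (c / 2) ^ 2)⟩ := ⟨_, rfl⟩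
  have hn : Complex.normSq w = 1 := by
    rw [hw, Complex.normSq_mk]
    nlinarith
  have hnorm : ‖w‖ = 1 := by
    rw [← Complex.sq_norm] at hn
    have h0 := norm_nonneg w
    nlinarith
  refine ⟨w, (starRingEnd ℂ) w, hnorm, ?_, ?_, ?_⟩
  · rw [RCLike.norm_conj]
    exact hnorm
  · rw [Complex.add_conj, hw]
    push_cast
    ring
  · rw [Complex.mul_conj, hn]
    simp

theorem re_pos {w u : ℂ} (hw : ‖w‖ = 1) (hu : ‖u‖ < 1) : 0 < (1 - w * u).re := by
  have h1 : (w * u).re ≤ ‖w * u‖ := Complex.re_le_norm _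
  rw [norm_mul, hw, one_mul] at h1
  rw [Complex.sub_re, Complex.one_re]
  linarith

theorem slit {w u : ℂ} (hw : ‖w‖ = 1) (hu : ‖u‖ < 1) : (1 - w * u) ∈ Complex.slitPlane :=
  Or.inl (re_pos hw hu)

theorem log_diff {w : ℂ} (hw : ‖w‖ = 1) :
    DifferentiableOn ℂ (fun u => Complex.log (1 - w * u)) (ball (0 : ℂ) 1) := by
  intro u hu
  rw [mem_ball_zero_iff] at hu
  have h1 : DifferentiableAt ℂ (fun u : ℂ => 1 - w * u) u := by fun_prop
  exact (h1.clog (slit hw hu)).differentiableWithinAt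

end TUB_

open TUB_ Metric in
theorem tTUB : T_TUB := by
  intro g c hc R A hR hR1 hA hlow u hu
  choose w w' hw hw' hadd hmul using fun i => exists_w (c i) (hc i)
  obtain ⟨G, hG⟩ : ∃ G : ℂ → ℂ, G = fun u => ∑ i, (Complex.log (1 - w i * u) +
    Complex.log (1 - w' i * u)) := ⟨_, rfl⟩
  have hGd : DifferentiableOn ℂ G (ball (0 : ℂ) 1) := by
    rw [hG]
    exact DifferentiableOn.fun_sum fun i _ => (log_diff (hw i)).add (log_diff (hw' i))
  have hG0 : G 0 = 0 := by
    rw [hG]
    simp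
  have hexp : ∀ z : ℂ, ‖z‖ < 1 →
      Complex.exp (G z) = ∏ i, (1 - (c i : ℂ) * z + z ^ 2) := by
    intro z hz
    rw [hG]
    simp only
    rw [Complex.exp_sum]
    refine Finset.prod_congr rfl fun i _ => ?_
    rw [Complex.exp_add, Complex.exp_log, Complex.exp_log]
    · rw [← hadd i]
      linear_combination z ^ 2 * hmul i
    · intro h0
      have := re_pos (hw' i) hz
      rw [h0] at this
      simp at this
    · intro h0
      have := re_pos (hw i) hz
      rw [h0] at this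
      simp at this
  have hnorm : ∀ z : ℂ, ‖z‖ < 1 →
      ‖∏ i, (1 - (c i : ℂ) * z + z ^ 2)‖ = Real.exp ((G z).re) := by
    intro z hz
    rw [← hexp z hz, Complex.norm_exp]
  have hsub : closedBall (0 : ℂ) R ⊆ ball (0 : ℂ) 1 := closedBall_subset_ball hR1
  have hmax : ∀ z ∈ ball (0 : ℂ) R, (-(G z)).re ≤ A := by
    intro z hz
    have hd : DiffContOnCl ℂ (fun z => Complex.exp (-(G z))) (ball (0 : ℂ) R) := by
      refine DifferentiableOn.diffContOnCl ?_
      rw [closure_ball _ hR.ne']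
      exact ((hGd.mono hsub).neg).cexp
    have h1 := Complex.norm_le_of_forall_mem_frontier_norm_le isBounded_ball hd
      (C := Real.exp A) (fun y hy => ?_) (subset_closure hz)
    · rw [Complex.norm_exp] at h1
      exact Real.exp_le_exp.1 h1
    · rw [frontier_ball _ hR.ne', mem_sphere_zero_iff_norm] at hy
      have h2 := hlow y hy
      rw [hnorm y (by rw [hy]; exact hR1)] at h2
      rw [Complex.norm_exp, Complex.neg_re]
      have h3 := Real.exp_le_exp.1 h2
      exact Real.exp_le_exp.2 (by linarith)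
  have hBC := Complex.borelCaratheodory_zero (f := fun z => -(G z)) (M := A) (R := R) (z := u) hA
    ((hGd.mono (ball_subset_ball hR1.le)).neg) (fun z hz => hmax z hz) hR
    (mem_ball_zero_iff.2 hu) (by rw [hG0, neg_zero])
  rw [norm_neg] at hBC
  rw [hnorm u (hu.trans hR1)]
  refine Real.exp_le_exp.2 (((Complex.re_le_norm _).trans hBC).trans (le_of_eq ?_))
  ring

end Pool.Agent.FQW
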