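import Mathlib
import Pool.Agent.FQW.Targets

set_option autoImplicit false

/-!
# TUP: the lower bound at the scale `g ^ (-10)` implies an upper bound
-/

namespace Pool.Agent.FQW

namespace TUP_

/-- the point of the circle of radius `r` above `x` -/
theorem point (Q r x : ℝ) (hQ : 0 < Q) (hr : 0 < r) (hx : |x| ≤ 2 * Q) :
    ∃ u : ℂ, ‖u‖ = r ∧ ∀ t : ℝ,
      (x - t) ^ 2 + (Q * (1 / r - r) ^ 2 / (r + 1 / r)) ^ 2 ≤
        (Q / r * ‖1 - ((t / Q : ℝ) : ℂ) * u + u ^ 2‖) ^ 2 := by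
  have hri : 0 < 1 / r := by positivity
  set k : ℝ := r + 1 / r with hk
  have hk0 : 0 < k := by positivity
  set d : ℝ := 1 / r - r with hd
  have hkd : k ^ 2 - d ^ 2 = 4 := by
    rw [hk, hd]
    field_simp
    ring
  set c : ℝ := x / (Q * k) with hc
  have hxc : x = Q * k * c := by
    rw [hc]
    field_simp
  have hx2 : x ^ 2 ≤ (2 * Q) ^ 2 := sq_le_sq' (by linarith [(abs_le.1 hx).1]) (abs_le.1 hx).2
  have hc2 : c ^ 2 * k ^ 2 ≤ 4 := by
    rw [hxc] at hx2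
    have h1 : Q ^ 2 * (c ^ 2 * k ^ 2) ≤ Q ^ 2 * 4 := by nlinarith
    exact le_of_mul_le_mul_left h1 (by positivity)
  have hS0 : 0 ≤ 1 - c ^ 2 := by
    by_contra h
    push Not at h
    have h1 : 1 < c ^ 2 := by linarith
    have h2 : (4 : ℝ) ≤ k ^ 2 := by nlinarith [sq_nonneg d]
    nlinarith
  set S : ℝ := √(1 - c ^ 2) with hS
  have hS2 : S ^ 2 = 1 - c ^ 2 := Real.sq_sqrt hS0
  refine ⟨⟨r * c, -(r * S)⟩, ?_, ?_⟩
  · have h1 : ‖(⟨r * c, -(r * S)⟩ : ℂ)‖ ^ 2 = r ^ 2 := by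
      rw [Complex.sq_norm, Complex.normSq_mk]
      have : r * c * (r * c) + -(r * S) * -(r * S) = r ^ 2 * (c ^ 2 + S ^ 2) := by ring
      rw [this, hS2]
      ring
    exact (sq_eq_sq₀ (norm_nonneg _) hr.le).1 h1
  · intro t
    have hu : (1 - ((t / Q : ℝ) : ℂ) * (⟨r * c, -(r * S)⟩ : ℂ) + (⟨r * c, -(r * S)⟩ : ℂ) ^ 2) =
        ⟨1 - t / Q * (r * c) + r ^ 2 * (c ^ 2 - S ^ 2), t / Q * (r * S) - 2 * r ^ 2 * (c * S)⟩ := by
      apply Complex.ext
      · simp [pow_two]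
        ring
      · simp [pow_two]
        ring
    rw [hu, mul_pow, Complex.sq_norm, Complex.normSq_mk]
    have e1 : (Q / r) ^ 2 * ((1 - t / Q * (r * c) + r ^ 2 * (c ^ 2 - S ^ 2)) *
        (1 - t / Q * (r * c) + r ^ 2 * (c ^ 2 - S ^ 2)) +
        (t / Q * (r * S) - 2 * r ^ 2 * (c * S)) * (t / Q * (r * S) - 2 * r ^ 2 * (c * S))) =
        (Q * (1 / r) - t * c + Q * r * (c ^ 2 - S ^ 2)) ^ 2 +
          (S ^ 2) * (t - 2 * (Q * r * c)) ^ 2 := by
      field_simp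
    rw [e1, hS2]
    have e2 : (Q * (1 / r) - t * c + Q * r * (c ^ 2 - (1 - c ^ 2))) ^ 2 +
        (1 - c ^ 2) * (t - 2 * (Q * r * c)) ^ 2 = (x - t) ^ 2 + Q ^ 2 * d ^ 2 * (1 - c ^ 2) := by
      rw [hxc, hk, hd]
      ring
    rw [e2]
    have e3 : (Q * d ^ 2 / k) ^ 2 ≤ Q ^ 2 * d ^ 2 * (1 - c ^ 2) := by
      rw [div_pow, div_le_iff₀ (by positivity)]
      have : d ^ 2 ≤ (1 - c ^ 2) * k ^ 2 := by nlinarith
      calc (Q * d ^ 2) ^ 2 = Q ^ 2 * d ^ 2 * d ^ 2 := by ring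
        _ ≤ Q ^ 2 * d ^ 2 * ((1 - c ^ 2) * k ^ 2) := mul_le_mul_of_nonneg_left this (by positivity)
        _ = _ := by ring
    linarith

/-- the numbers -/
theorem nums (g : ℕ) (hg : 10000 ^ 40 ≤ g) : ∃ t : ℝ, 10000 ≤ t ∧ t ^ 40 = g ∧
    Real.log g ≤ 40 * t ∧ (g : ℝ) ^ (4 / 5 : ℝ) = t ^ 32 := by
  have hg0 : (0 : ℝ) ≤ g := Nat.cast_nonneg g
  have ht0 : (0 : ℝ) ≤ (g : ℝ) ^ (1 / 40 : ℝ) := Real.rpow_nonneg hg0 _
  have ht : ((g : ℝ) ^ (1 / 40 : ℝ)) ^ 40 = g := by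
    rw [← Real.rpow_natCast, ← Real.rpow_mul hg0]
    norm_num
  refine ⟨(g : ℝ) ^ (1 / 40 : ℝ), ?_, ht, ?_, ?_⟩
  · refine le_of_pow_le_pow_left₀ (n := 40) (by norm_num) ht0 ?_
    rw [ht]
    exact_mod_cast hg
  · have h1 := Real.log_le_sub_one_of_pos (x := (g : ℝ) ^ (1 / 40 : ℝ)) (by
      have : (0 : ℝ) < g := by
        have : 0 < g := lt_of_lt_of_le (by positivity) hg
        exact_mod_cast this
      positivity)
    have h2 : Real.log g = 40 * Real.log ((g : ℝ) ^ (1 / 40 : ℝ)) := by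
      conv_lhs => rw [← ht]
      rw [Real.log_pow]
      norm_num
    rw [h2]
    linarith
  · rw [← Real.rpow_natCast, ← Real.rpow_mul hg0]
    norm_num

end TUP_

open TUP_ in
theorem tTUP : T_TUA → T_TUB → T_TUP := by
  intro hA hB q hq
  obtain ⟨g₁, hg₁⟩ := hA q hq
  refine ⟨max g₁ (10000 ^ 40), fun g hg τ hτ hTL x hx => ?_⟩
  obtain ⟨t, ht, ht40, hlog, h45⟩ := nums g ((le_max_right _ _).trans hg)
  have hT := hg₁ g ((le_max_left _ _).trans hg) τ hτ _ hTL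
  set Q : ℝ := √(q : ℝ) with hQ
  have hQ1 : 1 ≤ Q := by
    rw [hQ]
    refine Real.one_le_sqrt.2 ?_
    have : (2 : ℝ) ≤ q := by exact_mod_cast hq
    linarith
  have hQ0 : 0 < Q := by linarith
  have ht0 : 0 < t := by linarith
  set D : ℝ := Dl g (10 * Real.log g) with hD
  have hD0 : 0 ≤ D := by
    rw [hD, Dl]
    positivity
  have hg1 : (1 : ℝ) ≤ g := by
    rw [← ht40]
    exact one_le_pow₀ (by linarith)
  have hlog0 : 0 ≤ Real.log g := Real.log_nonneg hg1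
  have hD1 : D ≤ 520 * t ^ 21 := by
    have h1 : √((g : ℝ) * (10 * Real.log g) * Real.log g) ≤ 130 * t ^ 21 := by
      refine Real.sqrt_le_iff.2 ⟨by positivity, ?_⟩
      have h2 : Real.log g * Real.log g ≤ 40 * t * (40 * t) :=
        mul_le_mul hlog hlog hlog0 (by positivity)
      calc (g : ℝ) * (10 * Real.log g) * Real.log g = t ^ 40 * 10 * (Real.log g * Real.log g) := by
            rw [← ht40]
            ring
        _ ≤ t ^ 40 * 10 * (40 * t * (40 * t)) := mul_le_mul_of_nonneg_left h2 (by positivity)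
        _ = 16000 * t ^ 42 := by ring
        _ ≤ 16900 * t ^ 42 := by
            have : 0 ≤ t ^ 42 := by positivity
            linarith
        _ = (130 * t ^ 21) ^ 2 := by ring
    rw [hD, Dl]
    linarith
  set s : ℝ := 1 / t ^ 10 with hs
  have hs0 : 0 < s := by positivity
  have hs1 : s ≤ 1 / 10 := by
    rw [hs]
    refine one_div_le_one_div_of_le (by norm_num) ?_
    calc (10 : ℝ) ≤ t := by linarith
      _ = t ^ 1 := (pow_one t).symm
      _ ≤ t ^ 10 := pow_le_pow_right₀ (by linarith) (by norm_num)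
  have hst : s * t ^ 10 = 1 := by
    rw [hs]
    field_simp
  have hg4 : 1 / (g : ℝ) = s ^ 4 := by
    rw [hs, ← ht40]
    field_simp
  have hg8 : 1 / (g : ℝ) ^ 2 = s ^ 8 := by
    rw [hs, ← ht40]
    field_simp
  set R : ℝ := 1 / (1 + 1 / (g : ℝ) ^ 2) with hR
  set r : ℝ := 1 / (1 + s) with hr
  have hr0 : 0 < r := by positivity
  have hr1 : r ≤ 1 := by
    rw [hr, div_le_one (by positivity)]
    linarith
  have hr2 : r ≤ 1 - s / 2 := by
    rw [hr, div_le_iff₀ (by positivity)]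
    nlinarith
  have hs8 : s ^ 8 ≤ s / 6 := by
    have h1 : s ^ 7 ≤ 1 / 6 := by
      calc s ^ 7 ≤ s ^ 1 := pow_le_pow_of_le_one hs0.le (by linarith) (by norm_num)
        _ = s := pow_one s
        _ ≤ 1 / 6 := by linarith
    calc s ^ 8 = s * s ^ 7 := by ring
      _ ≤ s * (1 / 6) := mul_le_mul_of_nonneg_left h1 hs0.le
      _ = s / 6 := by ring
  have hR1 : 1 - s ^ 8 ≤ R := by
    rw [hR, hg8, le_div_iff₀ (by positivity)]
    nlinarith [sq_nonneg (s ^ 8)]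
  have hR2 : R < 1 := by
    rw [hR, hg8, div_lt_one (by positivity)]
    have : 0 < s ^ 8 := by positivity
    linarith
  have hR0 : 0 < R := by positivity
  have hRr : s / 3 ≤ R - r := by linarith
  -- the point
  obtain ⟨u, hu, hpt⟩ := point Q r x hQ0 hr0 hx
  have hF := hB g (fun i => τ i / Q) (fun i => by
    rw [abs_div, abs_of_pos hQ0, div_le_iff₀ hQ0]
    exact hτ i) R (D + 1) hR0 hR2 (by linarith) (fun u hu => by
      have h := hT u hu
      rwa [show -(D + 1) = -D - 1 by ring]) u (by rw [hu]; linarith)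
  rw [hu] at hF
  have hexp : 2 * r * (D + 1) / (R - r) ≤ t ^ 32 / 2 := by
    rw [div_le_iff₀ (by linarith)]
    have h1 : t ^ 32 / 2 * (s / 3) ≤ t ^ 32 / 2 * (R - r) :=
      mul_le_mul_of_nonneg_left hRr (by positivity)
    refine le_trans ?_ h1
    have h2 : t ^ 32 / 2 * (s / 3) = t ^ 22 / 6 := by
      calc t ^ 32 / 2 * (s / 3) = t ^ 22 / 6 * (s * t ^ 10) := by ring
        _ = t ^ 22 / 6 := by rw [hst, mul_one]
    rw [h2]
    have h3 : (1 : ℝ) ≤ t ^ 21 := one_le_pow₀ (by linarith)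
    calc 2 * r * (D + 1) ≤ 2 * 1 * (521 * t ^ 21) := by
          refine mul_le_mul (by linarith) (by linarith) (by linarith) (by norm_num)
      _ ≤ t / 6 * t ^ 21 := by
          have : 2 * 1 * (521 * t ^ 21) = 1042 * t ^ 21 := by ring
          rw [this]
          exact mul_le_mul_of_nonneg_right (by linarith) (by positivity)
      _ = t ^ 22 / 6 := by ring
  -- the shift of the point
  have hy : 1 / (g : ℝ) ^ 2 ≤ (Q * (1 / r - r) ^ 2 / (r + 1 / r)) ^ 2 := by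
    have h1 : 1 / r = 1 + s := by
      rw [hr]
      field_simp
    have h2 : s ≤ 1 / r - r := by rw [h1]; linarith
    have h3 : s ^ 2 ≤ (1 / r - r) ^ 2 := pow_le_pow_left₀ hs0.le h2 2
    have h4 : r + 1 / r ≤ 3 := by rw [h1]; linarith
    have h5 : s ^ 4 ≤ Q * (1 / r - r) ^ 2 / (r + 1 / r) := by
      rw [le_div_iff₀ (by positivity)]
      calc s ^ 4 * (r + 1 / r) ≤ s ^ 4 * 3 := mul_le_mul_of_nonneg_left h4 (by positivity)
        _ = (3 * s ^ 2) * s ^ 2 := by ring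
        _ ≤ 1 * s ^ 2 := by
            refine mul_le_mul_of_nonneg_right ?_ (by positivity)
            nlinarith
        _ ≤ Q * (1 / r - r) ^ 2 := mul_le_mul hQ1 h3 (by positivity) hQ0.le
    rw [hg8]
    calc s ^ 8 = (s ^ 4) ^ 2 := by ring
      _ ≤ _ := pow_le_pow_left₀ (by positivity) h5 2
  have hprod : ∏ i, √((x - τ i) ^ 2 + 1 / (g : ℝ) ^ 2) ≤
      ∏ i, (Q / r * ‖1 - ((τ i / Q : ℝ) : ℂ) * u + u ^ 2‖) := by
    refine Finset.prod_le_prod (fun i _ => Real.sqrt_nonneg _) fun i _ => ?_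
    refine Real.sqrt_le_iff.2 ⟨by positivity, ?_⟩
    have := hpt (τ i)
    linarith
  have hgs : (g : ℝ) * s = t ^ 30 := by
    rw [← ht40]
    calc t ^ 40 * s = t ^ 30 * (s * t ^ 10) := by ring
      _ = t ^ 30 := by rw [hst, mul_one]
  have hQr : (Q / r) ^ g ≤ Q ^ g * Real.exp (t ^ 30) := by
    have h1 : Q / r = Q * (1 + s) := by
      rw [hr]
      field_simp
    rw [h1, mul_pow]
    refine mul_le_mul_of_nonneg_left ?_ (by positivity)
    rw [← hgs, Real.exp_nat_mul]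
    refine pow_le_pow_left₀ (by linarith) ?_ g
    have := Real.add_one_le_exp s
    linarith
  rw [Finset.prod_mul_distrib, Finset.prod_const, Finset.card_univ, Fintype.card_fin,
    ← norm_prod] at hprod
  rw [h45]
  have ht30 : t ^ 30 ≤ t ^ 32 / 2 := by
    have : t ^ 32 / 2 = t ^ 30 * (t ^ 2 / 2) := by ring
    rw [this]
    refine le_mul_of_one_le_right (by positivity) ?_
    nlinarith
  calc _ ≤ _ := hprod
    _ ≤ (Q ^ g * Real.exp (t ^ 30)) * Real.exp (t ^ 32 / 2) := by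
        refine mul_le_mul hQr (hF.trans (Real.exp_le_exp.2 hexp)) (norm_nonneg _) (by positivity)
    _ = Q ^ g * Real.exp (t ^ 30 + t ^ 32 / 2) := by rw [mul_assoc, ← Real.exp_add]
    _ ≤ Q ^ g * Real.exp (t ^ 32) := by
        refine mul_le_mul_of_nonneg_left (Real.exp_le_exp.2 (by linarith)) (by positivity)

end Pool.Agent.FQW
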