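import Mathlib
import Pool.Agent.FQW.Basic

set_option autoImplicit false

/-!
# TYP: almost all real Weil polynomials are typical
-/

namespace Pool.Agent.FQW

open Polynomial Finset
open scoped BigOperators

namespace TYP_

theorem ev1 : ∃ g₀ : ℕ, ∀ g : ℕ, g₀ ≤ g → 3 ≤ Real.log g ∧ 10 * Real.log g ^ 21 ≤ g := by
  have hlog : Filter.Tendsto (fun g : ℕ => Real.log g) Filter.atTop Filter.atTop :=
    Real.tendsto_log_atTop.comp tendsto_natCast_atTop_atTop
  have h1 : ∀ᶠ g : ℕ in Filter.atTop, Real.log g ^ 21 ≤ (1 / 10) * g := by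
    have := (Real.isLittleO_pow_log_id_atTop (n := 21)).bound
      (show (0 : ℝ) < 1 / 10 by positivity)
    have h2 := tendsto_natCast_atTop_atTop (R := ℝ) |>.eventually this
    filter_upwards [h2] with g hg
    rw [id, Real.norm_natCast] at hg
    exact (Real.le_norm_self _).trans hg
  have h2 := hlog.eventually_ge_atTop 3
  obtain ⟨g₀, hg₀⟩ := Filter.eventually_atTop.mp (h1.and h2)
  refine ⟨g₀, fun g hg => ?_⟩
  obtain ⟨hA, hL⟩ := hg₀ g hg
  exact ⟨hL, by linarith⟩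

end TYP_

open TYP_ in
theorem tTYP : T_FINP → T_TLOW → T_PAIRS → T_TYP := by
  intro hFIN hTL hPA q hq
  obtain ⟨g₁, hg₁⟩ := hTL q hq
  obtain ⟨g₂, hg₂⟩ := hPA q hq
  obtain ⟨g₃, hg₃⟩ := ev1
  refine ⟨max g₁ (max g₂ g₃), fun g hg => ?_⟩
  have hg1 : g₁ ≤ g := le_trans (le_max_left _ _) hg
  have hg2 : g₂ ≤ g := le_trans ((le_max_left _ _).trans (le_max_right _ _)) hg
  have hg3 : g₃ ≤ g := le_trans ((le_max_right _ _).trans (le_max_right _ _)) hg
  obtain ⟨hL, hg10⟩ := hg₃ g hg3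
  have hpair := hg₂ g hg2
  have htl := hg₁ g hg1
  clear hg₁ hg₂ hg₃ hTL hPA
  have hell : ell g = g / Real.log g ^ 20 := rfl
  set L := Real.log g with hLdef
  have hL1 : 1 ≤ L := by linarith
  have hL0 : 0 < L := by linarith
  have hmono : ∀ m n : ℕ, m ≤ n → L ^ m ≤ L ^ n := fun m n h => pow_le_pow_right₀ hL1 h
  have hg0 : (0 : ℝ) ≤ g := Nat.cast_nonneg g
  have hLL : ∀ n : ℕ, 0 < L ^ n := fun n => by positivity
  -- the numerical conditions
  have c1 : 10 * L ≤ g / L ^ 2 := by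
    rw [le_div_iff₀ (hLL 2)]
    have := hmono 3 21 (by norm_num)
    nlinarith
  have c2 : 10 * L ≤ g / L ^ 9 := by
    rw [le_div_iff₀ (hLL 9)]
    have := hmono 10 21 (by norm_num)
    nlinarith
  have c3 : 10 * L ≤ ell g := by
    rw [hell, le_div_iff₀ (hLL 20)]
    nlinarith
  have c4 : (g : ℝ) / L ^ 9 ≤ g / L ^ 2 :=
    div_le_div_of_nonneg_left hg0 (hLL 2) (hmono 2 9 (by norm_num))
  have c5 : ell g ≤ g / L ^ 2 := by
    rw [hell]
    exact div_le_div_of_nonneg_left hg0 (hLL 2) (hmono 2 20 (by norm_num))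
  have c6 : ell g + 4 * L ≤ g / L ^ 2 := by
    have h1 : ell g ≤ (g / L ^ 2) / 2 := by
      rw [hell, div_div]
      refine div_le_div_of_nonneg_left hg0 (by positivity) ?_
      have h2 := hmono 3 20 (by norm_num)
      have h3 : L ^ 3 = L ^ 2 * L := by ring
      have h4 := hLL 2
      nlinarith
    have h2 : 4 * L ≤ (g / L ^ 2) / 2 := by linarith
    linarith
  set E : ℝ → Set (Fin g → ℤ) := fun l => {a ∈ P q g | ∃ τ, Roots q a τ ∧ ¬ TL q τ l (Dl g l)}
    with hE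
  have b1 := htl (10 * L) le_rfl c1
  have b2 := htl (ell g + 4 * L) (by linarith) c6
  have b3 := htl (g / L ^ 9) c2 c4
  have b4 := htl (ell g) c3 c5
  set F : Set (Fin g → ℤ) := {a ∈ P q g | ∃ τ, Roots q a τ ∧ TL q τ (10 * L) (Dl g (10 * L)) ∧
      TL q τ (ell g) (Dl g (ell g)) ∧ L ^ 22 / 8 ≤ (npairs τ (Real.exp (-ell g)) : ℝ)} with hF
  have hsub : {a ∈ P q g | ∃ τ, Roots q a τ ∧ ¬ Typ q τ} ⊆
      E (10 * L) ∪ (E (ell g + 4 * L) ∪ (E (g / L ^ 9) ∪ (E (ell g) ∪ F))) := by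
    rintro a ⟨haP, τ, hτ, hbad⟩
    by_cases h1 : TL q τ (10 * L) (Dl g (10 * L))
    · right
      by_cases h2 : TL q τ (ell g + 4 * L) (Dl g (ell g + 4 * L))
      · right
        by_cases h3 : TL q τ (g / L ^ 9) (Dl g (g / L ^ 9))
        · right
          by_cases h4 : TL q τ (ell g) (Dl g (ell g))
          · right
            refine ⟨haP, τ, hτ, h1, h4, ?_⟩
            by_contra h5
            push Not at h5
            exact hbad ⟨h1, h2, h3, h5⟩
          · left; exact ⟨haP, τ, hτ, h4⟩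
        · left; exact ⟨haP, τ, hτ, h3⟩
      · left; exact ⟨haP, τ, hτ, h2⟩
    · left; exact ⟨haP, τ, hτ, h1⟩
  have hfin : ∀ S : Set (Fin g → ℤ), S ⊆ P q g → S.Finite := fun S h => (hFIN q g).subset h
  have hEs : ∀ l, E l ⊆ P q g := fun l a ha => ha.1
  have hFs : F ⊆ P q g := fun a ha => ha.1
  have hcard : {a ∈ P q g | ∃ τ, Roots q a τ ∧ ¬ Typ q τ}.ncard ≤
      (E (10 * L)).ncard + ((E (ell g + 4 * L)).ncard + ((E (g / L ^ 9)).ncard +
        ((E (ell g)).ncard + F.ncard))) := by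
    refine (Set.ncard_le_ncard hsub (hfin _ ?_)).trans ?_
    · exact Set.union_subset (hEs _) (Set.union_subset (hEs _) (Set.union_subset (hEs _)
        (Set.union_subset (hEs _) hFs)))
    · refine (Set.ncard_union_le _ _).trans (Nat.add_le_add_left ?_ _)
      refine (Set.ncard_union_le _ _).trans (Nat.add_le_add_left ?_ _)
      refine (Set.ncard_union_le _ _).trans (Nat.add_le_add_left ?_ _)
      exact Set.ncard_union_le _ _
  have hcard' : ((({a ∈ P q g | ∃ τ, Roots q a τ ∧ ¬ Typ q τ}.ncard : ℕ)) : ℝ) ≤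
      ((E (10 * L)).ncard : ℝ) + (((E (ell g + 4 * L)).ncard : ℝ) + (((E (g / L ^ 9)).ncard : ℝ) +
        (((E (ell g)).ncard : ℝ) + (F.ncard : ℝ)))) := by exact_mod_cast hcard
  have b1' : ((E (10 * L)).ncard : ℝ) ≤ Real.exp (-(g : ℝ)) * ((P q g).ncard : ℕ) := b1
  have b2' : ((E (ell g + 4 * L)).ncard : ℝ) ≤ Real.exp (-(g : ℝ)) * ((P q g).ncard : ℕ) := b2
  have b3' : ((E (g / L ^ 9)).ncard : ℝ) ≤ Real.exp (-(g : ℝ)) * ((P q g).ncard : ℕ) := b3
  have b4' : ((E (ell g)).ncard : ℝ) ≤ Real.exp (-(g : ℝ)) * ((P q g).ncard : ℕ) := b4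
  have b5' : (F.ncard : ℝ) ≤ Real.exp (-(g : ℝ)) * ((P q g).ncard : ℕ) := hpair
  linarith

end Pool.Agent.FQW
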