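import Mathlib
import Pool.Agent.FQW.Basic

set_option autoImplicit false

/-!
# Quadratic polynomials over a prime field with an irreducible Weil quartic

The elements `w` of the field with `l ^ 4` elements with `w ^ (l ^ 2 + 1) = q` which are not in the
field with `l ^ 2` elements are roots of such quartics.
-/

namespace Pool.Agent.FQW

open Polynomial Finset
open scoped BigOperators

namespace VC_

/-- the Weil quartic -/
noncomputable def qv {k : Type} [Field k] (q : ℕ) (v : k[X]) : k[X] :=
  (X ^ 2 + C (q : k)) ^ 2 + C (v.coeff 1) * X * (X ^ 2 + C (q : k)) + C (v.coeff 0) * X ^ 2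

lemma qv_eq {k : Type} [Field k] (q : ℕ) (v : k[X]) : qv q v =
    X ^ 4 + (C (v.coeff 1) * X ^ 3 + C (2 * (q : k) + v.coeff 0) * X ^ 2 +
      C ((q : k) * v.coeff 1) * X + C ((q : k) ^ 2)) := by
  simp only [qv, C_add, C_mul, C_pow]
  have : (C (2 : k)) = (2 : k[X]) := rfl
  rw [this]
  ring

lemma qv_natDegree {k : Type} [Field k] (q : ℕ) (v : k[X]) : (qv q v).natDegree = 4 := by
  rw [qv_eq]
  compute_degree!

lemma qv_monic {k : Type} [Field k] (q : ℕ) (v : k[X]) : (qv q v).Monic := by
  rw [qv_eq]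
  monicity!

variable (l : ℕ) [Fact l.Prime]

/-- elements fixed by Frobenius are in the prime field -/
lemma lift {F : Type} [Field F] [Algebra (ZMod l) F] {x : F} (hx : x ^ l = x) :
    ∃ a : ZMod l, algebraMap (ZMod l) F a = x := by
  have : CharP F l := charP_of_injective_algebraMap (algebraMap (ZMod l) F).injective l
  have h := (Subfield.mem_bot_iff_pow_eq_self F l).mpr hx
  obtain ⟨n, hn⟩ := (mem_bot_iff_intCast l F).mp h
  exact ⟨(n : ZMod l), by rw [map_intCast, hn]⟩

/-- the degree of an element which is not in the field with `l ^ 2` elements -/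
lemma deg {F : Type} [Field F] [Finite F] [Algebra (ZMod l) F]
    (hF : Module.finrank (ZMod l) F = 4) {w : F} (hw : w ^ (l ^ 2) ≠ w) :
    (minpoly (ZMod l) w).natDegree = 4 := by
  have hint : IsIntegral (ZMod l) w := Algebra.IsIntegral.isIntegral w
  have hd := minpoly.degree_dvd (K := ZMod l) hint
  rw [hF] at hd
  by_contra hne
  have hd2 : (minpoly (ZMod l) w).natDegree ∣ 2 := by
    have hle := Nat.le_of_dvd (by norm_num) hd
    interval_cases h : (minpoly (ZMod l) w).natDegree <;> omega
  apply hw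
  have hfin : Module.finrank (ZMod l) (IntermediateField.adjoin (ZMod l) {w}) =
      (minpoly (ZMod l) w).natDegree := IntermediateField.adjoin.finrank hint
  have : Fintype (IntermediateField.adjoin (ZMod l) {w}) := Fintype.ofFinite _
  have hcard := FiniteField.pow_finrank_eq_card l (IntermediateField.adjoin (ZMod l) {w})
  rw [hfin] at hcard
  set y : IntermediateField.adjoin (ZMod l) {w} :=
    ⟨w, IntermediateField.mem_adjoin_simple_self (ZMod l) w⟩ with hy
  have h1 : y ^ (l ^ (minpoly (ZMod l) w).natDegree) = y := by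
    rw [hcard]
    exact FiniteField.pow_card y
  obtain ⟨e, he⟩ := hd2
  have h2 : y ^ (l ^ 2) = y := by
    have h3 : ∀ m : ℕ, y ^ (l ^ ((minpoly (ZMod l) w).natDegree * m)) = y := by
      intro m
      induction m with
      | zero => simp
      | succ m ih => rw [Nat.mul_succ, pow_add, pow_mul, ih, h1]
    have h4 := h3 e
    rwa [← he] at h4
  have h5 := congrArg (fun z : IntermediateField.adjoin (ZMod l) {w} => (z : F)) h2
  simpa [hy] using h5

/-- the powers of Frobenius fix the images of the integers -/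
lemma natCast_pow {F : Type} [Field F] [Algebra (ZMod l) F] (q n : ℕ) :
    (q : F) ^ (l ^ n) = q := by
  have h : algebraMap (ZMod l) F (q : ZMod l) = (q : F) := map_natCast _ _
  rw [← h, ← map_pow, ZMod.pow_card_pow]

lemma natCast_ne {F : Type} [Field F] [Algebra (ZMod l) F] {q : ℕ} (hq : ¬ l ∣ q) :
    (q : F) ≠ 0 := by
  have : CharP F l := charP_of_injective_algebraMap (algebraMap (ZMod l) F).injective l
  intro h
  exact hq ((CharP.cast_eq_zero_iff F l q).mp h)

/-- the construction of the inert polynomial -/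
lemma inert {F : Type} [Field F] [Finite F] [Algebra (ZMod l) F]
    (hF : Module.finrank (ZMod l) F = 4) {q : ℕ} (hq : ¬ l ∣ q) {w : F}
    (hwq : w ^ (l ^ 2 + 1) = q) (hw : w ^ (l ^ 2) ≠ w) :
    ∃ v : (ZMod l)[X], Inert q v ∧ aeval w (qv q v) = 0 := by
  have : CharP F l := charP_of_injective_algebraMap (algebraMap (ZMod l) F).injective l
  have hq0 : (q : F) ≠ 0 := natCast_ne l hq
  have hw0 : w ≠ 0 := by
    rintro rfl
    rw [zero_pow (by positivity)] at hwq
    exact hq0 hwq.symm
  have hw2 : w ^ (l ^ 2) = q / w := by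
    rw [eq_div_iff hw0, ← pow_succ, hwq]
  have hadd : ∀ x y : F, (x + y) ^ l = x ^ l + y ^ l := fun x y => add_pow_char x y l
  set s : F := w + q / w with hs
  set t : F := s ^ l with ht
  have hts : t ^ l = s := by
    rw [ht, ← pow_mul, ← sq, hs, add_pow_char_pow, div_pow, natCast_pow, hw2, div_div_eq_mul_div,
      mul_div_cancel_left₀ _ hq0, add_comm]
  obtain ⟨a, ha⟩ := lift l (x := -(s + t)) (by
    rw [neg_eq_neg_one_mul, mul_pow, hadd, hts, ← ht, add_comm t s]
    congr 1
    have h1 : ((-1 : ZMod l)) ^ l = -1 := ZMod.pow_card _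
    have h2 : (algebraMap (ZMod l) F (-1)) ^ l = algebraMap (ZMod l) F (-1) := by
      rw [← map_pow, h1]
    rw [map_neg, map_one] at h2
    exact h2)
  obtain ⟨b, hb⟩ := lift l (x := s * t) (by rw [mul_pow, hts, ← ht, mul_comm])
  set v : (ZMod l)[X] := X ^ 2 + C a * X + C b with hv
  have hv1 : v.coeff 1 = a := by simp [hv, coeff_C]
  have hv0 : v.coeff 0 = b := by simp [hv]
  have hvd : v.natDegree = 2 := by rw [hv]; compute_degree!
  have hvm : v.Monic := by rw [hv]; monicity!
  have hroot : aeval w (qv q v) = 0 := by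
    have h1 : w ^ 2 + q = w * s := by
      rw [hs, mul_add, mul_div_cancel₀ _ hw0, sq]
    simp only [qv, hv1, hv0, map_add, map_mul, map_pow, aeval_X, aeval_C, map_natCast, ha, hb]
    rw [h1]
    ring
  refine ⟨v, ⟨hvm, hvd, ?_⟩, hroot⟩
  show Irreducible (qv q v)
  have hint : IsIntegral (ZMod l) w := Algebra.IsIntegral.isIntegral w
  have hdvd : minpoly (ZMod l) w ∣ qv q v := minpoly.dvd _ _ hroot
  have heq := eq_of_monic_of_dvd_of_natDegree_le (minpoly.monic hint) (qv_monic q v) hdvd
    (by rw [qv_natDegree, deg l hF hw])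
  rw [heq]
  exact minpoly.irreducible hint

/-- the number of solutions of `w ^ (l ^ 2 + 1) = q` -/
lemma count {F : Type} [Field F] [Fintype F] [DecidableEq F] [Algebra (ZMod l) F]
    (hF : Module.finrank (ZMod l) F = 4) {q : ℕ} (hq : ¬ l ∣ q) :
    (univ.filter fun w : F => w ^ (l ^ 2 + 1) = q).card = l ^ 2 + 1 := by
  have hq0 : (q : F) ≠ 0 := natCast_ne l hq
  have hl1 : 1 < l := (Fact.out : l.Prime).one_lt
  have hcard : Fintype.card F = l ^ 4 := by
    rw [← FiniteField.pow_finrank_eq_card l F, hF]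
  set P : F[X] := X ^ (l ^ 2 + 1) - C (q : F) with hP
  have hPm : P.Monic := monic_X_pow_sub_C _ (by positivity)
  have hPd : P.natDegree = l ^ 2 + 1 := natDegree_X_pow_sub_C
  have hq1 : (q : F) ^ (l ^ 2 - 1) = 1 := by
    have h1 := natCast_pow (F := F) l q 2
    have h2 : 1 ≤ l ^ 2 := Nat.one_le_pow _ _ (by omega)
    have h3 : (q : F) ^ (l ^ 2 - 1) * q = 1 * q := by
      rw [← pow_succ, Nat.sub_add_cancel h2, h1, one_mul]
    exact mul_right_cancel₀ hq0 h3
  have hdvd : P ∣ X ^ (Fintype.card F) - X := by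
    have h1 : P ∣ (X ^ (l ^ 2 + 1)) ^ (l ^ 2 - 1) - (C (q : F)) ^ (l ^ 2 - 1) :=
      sub_dvd_pow_sub_pow _ _ _
    rw [← C_pow, hq1, C_1, ← pow_mul] at h1
    have h2 : (X : F[X]) ^ (Fintype.card F) - X =
        X * (X ^ ((l ^ 2 + 1) * (l ^ 2 - 1)) - 1) := by
      have h3 : l ^ 4 = (l ^ 2 + 1) * (l ^ 2 - 1) + 1 := by
        obtain ⟨m, hm⟩ : ∃ m, l ^ 2 = m + 1 := ⟨l ^ 2 - 1, by
          have : 1 ≤ l ^ 2 := Nat.one_le_pow _ _ (by omega)
          omega⟩
        have h4 : l ^ 4 = (l ^ 2) ^ 2 := by ring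
        rw [h4, hm, Nat.add_sub_cancel]
        ring
      rw [hcard, h3, pow_succ, mul_sub, mul_one, mul_comm]
    rw [h2]
    exact h1.mul_left _
  have hne : (X ^ (Fintype.card F) - X : F[X]) ≠ 0 :=
    FiniteField.X_pow_card_sub_X_ne_zero F Fintype.one_lt_card
  have hsplit : Splits (X ^ (Fintype.card F) - X : F[X]) := by
    rw [Fintype.card_eq_nat_card]
    exact splits_X_pow_nat_card_sub_X
  have hPs : Splits P := Splits.of_dvd hsplit hne hdvd
  have hle : P.roots ≤ (X ^ (Fintype.card F) - X : F[X]).roots := roots.le_of_dvd hne hdvd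
  have hnd : P.roots.Nodup := by
    refine Multiset.nodup_of_le hle ?_
    rw [FiniteField.roots_X_pow_card_sub_X]
    exact Finset.univ.nodup
  have h1 : (univ.filter fun w : F => w ^ (l ^ 2 + 1) = q) = P.roots.toFinset := by
    ext w
    rw [Finset.mem_filter, Multiset.mem_toFinset, mem_roots hPm.ne_zero]
    simp [hP, sub_eq_zero]
  rw [h1, Multiset.toFinset_card_of_nodup hnd, ← hPs.natDegree_eq_card_roots, hPd]

lemma finite_inert (q : ℕ) : {v : (ZMod l)[X] | Inert q v}.Finite := by
  have hinj : Set.InjOn (fun v : (ZMod l)[X] => (v.coeff 0, v.coeff 1))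
      {v : (ZMod l)[X] | Inert q v} := by
    intro u hu v hv huv
    obtain ⟨hum, hud, -⟩ := hu
    obtain ⟨hvm, hvd, -⟩ := hv
    simp only [Prod.mk.injEq] at huv
    ext i
    match i with
    | 0 => exact huv.1
    | 1 => exact huv.2
    | 2 =>
      have h1 := hum.coeff_natDegree
      have h2 := hvm.coeff_natDegree
      rw [hud] at h1
      rw [hvd] at h2
      rw [h1, h2]
    | (j + 3) =>
      rw [coeff_eq_zero_of_natDegree_lt (by rw [hud]; omega),
        coeff_eq_zero_of_natDegree_lt (by rw [hvd]; omega)]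
  exact Set.Finite.of_finite_image (Set.toFinite _) hinj

lemma main {F : Type} [Field F] [Fintype F] [DecidableEq F] [Algebra (ZMod l) F]
    (hF : Module.finrank (ZMod l) F = 4) {q : ℕ} (hq : ¬ l ∣ q) (hl : 3 ≤ l) :
    l ^ 2 ≤ 8 * {v : (ZMod l)[X] | Inert q v}.ncard := by
  classical
  have hcount := count l hF hq
  set S : Finset F := univ.filter fun w : F => w ^ (l ^ 2 + 1) = q with hS
  have hB : (S.filter fun w => w ^ (l ^ 2) = w).card ≤ 2 := by
    have hsub : (S.filter fun w => w ^ (l ^ 2) = w) ⊆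
        (X ^ 2 - C (q : F) : F[X]).roots.toFinset := by
      intro w hw
      rw [Finset.mem_filter, hS, Finset.mem_filter] at hw
      have hm : (X ^ 2 - C (q : F) : F[X]).Monic := monic_X_pow_sub_C _ (by norm_num)
      rw [Multiset.mem_toFinset, mem_roots hm.ne_zero]
      have h1 := hw.1.2
      rw [pow_succ, hw.2] at h1
      simp [sq, h1]
    refine (Finset.card_le_card hsub).trans ((Multiset.toFinset_card_le _).trans ?_)
    have h2 := card_roots' (X ^ 2 - C (q : F) : F[X])
    rwa [natDegree_X_pow_sub_C] at h2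
  set G : Finset F := S.filter fun w => ¬ w ^ (l ^ 2) = w with hG
  have hsum : (S.filter fun w => w ^ (l ^ 2) = w).card + G.card = S.card :=
    Finset.card_filter_add_card_filter_not _
  have hex : ∀ w : F, ∃ v : (ZMod l)[X], w ∈ G → Inert q v ∧ aeval w (qv q v) = 0 := by
    intro w
    by_cases hw : w ∈ G
    · have hw' := hw
      rw [hG, Finset.mem_filter, hS, Finset.mem_filter] at hw'
      obtain ⟨v, hv⟩ := inert l hF hq hw'.1.2 hw'.2
      exact ⟨v, fun _ => hv⟩
    · exact ⟨0, fun h => absurd h hw⟩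
  choose f hf using hex
  have hfib : ∀ v ∈ G.image f, (G.filter fun w => f w = v).card ≤ 4 := by
    intro v _
    have hsub : (G.filter fun w => f w = v) ⊆
        ((qv q v).map (algebraMap (ZMod l) F)).roots.toFinset := by
      intro w hw
      rw [Finset.mem_filter] at hw
      have h1 := (hf w hw.1).2
      rw [hw.2] at h1
      rw [Multiset.mem_toFinset, mem_roots ((qv_monic q v).map _).ne_zero, IsRoot.def, eval_map,
        ← aeval_def]
      exact h1
    refine (Finset.card_le_card hsub).trans ((Multiset.toFinset_card_le _).trans ?_)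
    have h2 := card_roots' ((qv q v).map (algebraMap (ZMod l) F))
    rwa [(qv_monic q v).natDegree_map, qv_natDegree] at h2
  have h1 := Finset.card_le_mul_card_image G 4 hfib
  have h2 : (G.image f).card ≤ {v : (ZMod l)[X] | Inert q v}.ncard := by
    rw [← Set.ncard_coe_finset]
    refine Set.ncard_le_ncard ?_ (finite_inert l q)
    intro v hv
    rw [Finset.mem_coe, Finset.mem_image] at hv
    obtain ⟨w, hw, rfl⟩ := hv
    exact (hf w hw).1
  have h3 : 9 ≤ l ^ 2 := by nlinarith
  omega

end VC_

theorem tVC : T_VC := by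
  intro q l _ hl hq
  classical
  have : Fintype (GaloisField l 4) := Fintype.ofFinite _
  exact VC_.main l (F := GaloisField l 4) (GaloisField.finrank l (by norm_num)) hq hl

end Pool.Agent.FQW
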